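import Pool.Agent.Lib.MP_4dac8d_al.AND.Defs

section

/-! AND task A1: balls of word metrics. -/

set_option autoImplicit false
open Classical
open scoped Pointwise

namespace Pool.MP4dac8d

/-- Balls of a word metric form a ball family.  Proof: the empty list; monotone in the length;
reverse the list and invert the letters; concatenate the lists. -/
theorem ballFam_ball {G : Type*} [Group G] (S : Set G) : BallFam (ball S) := by
  constructor
  · intro n
    exact ⟨[], by simp, by simp, by simp⟩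
  · rintro m n hmn g ⟨l, h1, h2, h3⟩
    exact ⟨l, h1.trans hmn, h2, h3⟩
  · rintro n g ⟨l, h1, h2, h3⟩
    refine ⟨(l.map fun x => x⁻¹).reverse, by simpa using h1, ?_, ?_⟩
    · intro x hx
      rw [List.mem_reverse, List.mem_map] at hx
      obtain ⟨y, hy, rfl⟩ := hx
      rcases h2 y hy with h | h
      · right
        rwa [inv_inv]
      · left
        exact h
    · rw [← h3, List.prod_inv_reverse]
  · rintro m n g h ⟨l, h1, h2, h3⟩ ⟨l', h1', h2', h3'⟩
    refine ⟨l ++ l', ?_, ?_, ?_⟩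
    · rw [List.length_append]
      omega
    · intro x hx
      rcases List.mem_append.1 hx with hx | hx
      · exact h2 x hx
      · exact h2' x hx
    · rw [List.prod_append, h3, h3']

/-- Every element of a group generated by `S` lies in some ball.  (`Subgroup.closure_induction`.) -/
theorem exists_mem_ball {G : Type*} [Group G] {S : Set G} (hS : Subgroup.closure S = ⊤) (g : G) :
    ∃ n : ℕ, g ∈ ball S n := by
  have hg : g ∈ Subgroup.closure S := by
    rw [hS]
    exact Subgroup.mem_top g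
  induction hg using Subgroup.closure_induction with
  | mem x hx => exact ⟨1, [x], by simp, by simpa using Or.inl hx, by simp⟩
  | one => exact ⟨0, (ballFam_ball S).one_mem 0⟩
  | mul x y _ _ hx hy =>
    obtain ⟨m, hm⟩ := hx
    obtain ⟨n, hn⟩ := hy
    exact ⟨m + n, (ballFam_ball S).mul hm hn⟩
  | inv x _ hx =>
    obtain ⟨m, hm⟩ := hx
    exact ⟨m, (ballFam_ball S).inv hm⟩

/-- The elements of `ball S 1` are `1`, the elements of `S` and their inverses. -/
theorem mem_ball_one_iff {G : Type*} [Group G] {S : Set G} {x : G} :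
    x ∈ ball S 1 ↔ x = 1 ∨ x ∈ S ∨ x⁻¹ ∈ S := by
  constructor
  · rintro ⟨l, h1, h2, h3⟩
    match l, h1, h2, h3 with
    | [], _, _, h3 =>
      left
      rw [← h3, List.prod_nil]
    | [y], _, h2, h3 =>
      right
      have h4 := h2 y (by simp)
      rw [List.prod_singleton] at h3
      rwa [h3] at h4
    | _ :: _ :: _, h1, _, _ =>
      simp at h1
  · rintro (h | h)
    · rw [h]
      exact (ballFam_ball S).one_mem 1
    · exact ⟨[x], by simp, by simpa using h, by simp⟩

/-- An element of `ball S (n+1)` is `s * h` and also `h' * s'` with `s, s'` of length at most one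
and `h, h'` of length at most `n`.  (First, resp. last, letter of the list.) -/
theorem ball_succ {G : Type*} [Group G] {S : Set G} {n : ℕ} {g : G} (hg : g ∈ ball S (n + 1)) :
    (∃ s ∈ ball S 1, ∃ h ∈ ball S n, g = s * h) ∧ (∃ h ∈ ball S n, ∃ s ∈ ball S 1, g = h * s) := by
  obtain ⟨l, h1, h2, h3⟩ := hg
  constructor
  · rcases l with _ | ⟨y, l⟩
    · refine ⟨1, (ballFam_ball S).one_mem 1, 1, (ballFam_ball S).one_mem n, ?_⟩
      rw [← h3, List.prod_nil, one_mul]
    · refine ⟨y, mem_ball_one_iff.2 (Or.inr (h2 y (by simp))), l.prod, ⟨l, ?_, ?_, rfl⟩, ?_⟩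
      · simpa using h1
      · exact fun x hx => h2 x (List.mem_cons_of_mem _ hx)
      · rw [← h3, List.prod_cons]
  · rcases List.eq_nil_or_concat l with rfl | ⟨l', y, rfl⟩
    · refine ⟨1, (ballFam_ball S).one_mem n, 1, (ballFam_ball S).one_mem 1, ?_⟩
      rw [← h3, List.prod_nil, one_mul]
    · refine ⟨l'.prod, ⟨l', ?_, ?_, rfl⟩, y, mem_ball_one_iff.2 (Or.inr (h2 y (by simp))), ?_⟩
      · simpa using h1
      · exact fun x hx => h2 x (by simp [hx])
      · rw [← h3]
        simp

/-- Balls of finite sets are finite.  (Induction on `n` with `ball_succ`.) -/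
theorem ball_finite {G : Type*} [Group G] {S : Set G} (hS : S.Finite) (n : ℕ) :
    (ball S n).Finite := by
  have h1 : (ball S 1).Finite := by
    have h2 : ball S 1 ⊆ {1} ∪ (S ∪ S⁻¹) := by
      intro x hx
      rcases mem_ball_one_iff.1 hx with h | h | h
      · exact Or.inl h
      · exact Or.inr (Or.inl h)
      · exact Or.inr (Or.inr h)
    exact ((Set.finite_singleton 1).union (hS.union hS.inv)).subset h2
  induction n with
  | zero => exact h1.subset (fun x hx => (ballFam_ball S).mono (Nat.zero_le 1) hx)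
  | succ n ih =>
    refine (h1.mul ih).subset ?_
    intro x hx
    obtain ⟨⟨s, hs, h, hh, e⟩, _⟩ := ball_succ hx
    exact Set.mem_mul.2 ⟨s, hs, h, hh, e.symm⟩

/-- `ball S 0 = {1}`. -/
theorem mem_ball_zero_iff {G : Type*} [Group G] {S : Set G} {x : G} :
    x ∈ ball S 0 ↔ x = 1 := by
  constructor
  · rintro ⟨l, h1, h2, h3⟩
    have : l = [] := List.length_eq_zero_iff.1 (Nat.le_zero.1 h1)
    rw [this, List.prod_nil] at h3
    exact h3.symm
  · rintro rfl
    exact (ballFam_ball S).one_mem 0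

private theorem A1_pow {G : Type*} [Group G] {S : Set G} {n : ℕ} {g : G} (hg : g ∈ ball S n)
    (k : ℕ) : g ^ k ∈ ball S (k * n) := by
  induction k with
  | zero =>
    rw [pow_zero]
    exact (ballFam_ball S).one_mem _
  | succ k ih =>
    rw [pow_succ, Nat.succ_mul]
    exact (ballFam_ball S).mul ih hg

/-- Powers: `g ^ k` has length at most `|k| * n` if `g` has length at most `n`. -/
theorem zpow_mem_ball {G : Type*} [Group G] {S : Set G} {n : ℕ} {g : G} (hg : g ∈ ball S n)
    (k : ℤ) : g ^ k ∈ ball S (k.natAbs * n) := by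
  rcases Int.natAbs_eq k with h | h
  · have h1 : g ^ k = g ^ k.natAbs := by
      conv_lhs => rw [h]
      exact zpow_natCast g _
    rw [h1]
    exact A1_pow hg _
  · have h1 : g ^ k = (g ^ k.natAbs)⁻¹ := by
      conv_lhs => rw [h]
      rw [zpow_neg, zpow_natCast]
    rw [h1]
    exact (ballFam_ball S).inv (A1_pow hg _)

end Pool.MP4dac8d
end

section

/-! AND task A2: colours and labels in arbitrary types; change of the length function. -/

set_option autoImplicit false
open Classical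
open scoped Pointwise

namespace Pool.MP4dac8d

/-- Covers with colours in a finite type of cardinality `≤ N` and labels in an arbitrary type give
`FinAN`.  Proof: embed `κ` in `Fin (N+1)` and replace the label `p g` by a fixed element `g'` with
`p g' = p g` (choice). -/
theorem finAN_of_labels {G : Type*} [Group G] {B : ℕ → Set G} (N c : ℕ)
    (h : ∀ r : ℕ, 0 < r → ∃ (κ : Type) (_ : Fintype κ) (_ : Fintype.card κ ≤ N) (ι : Type*)
      (col : G → κ) (p : G → ι),
      (∀ g h : G, col g = col h → g⁻¹ * h ∈ B r → p g = p h) ∧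
      (∀ g h : G, p g = p h → g⁻¹ * h ∈ B (c * r))) : FinAN B := by
  refine ⟨N, c, fun r hr => ?_⟩
  obtain ⟨κ, hκ, hcard, ι, col, p, h1, h2⟩ := h r hr
  have hp : ∀ g, p (Function.invFun p (p g)) = p g := fun g =>
    Function.invFun_eq ⟨g, rfl⟩
  refine ⟨fun g => Fin.castLE (Nat.le_succ_of_le hcard) (Fintype.equivFin κ (col g)),
    fun g => Function.invFun p (p g), ?_, ?_⟩
  · intro g g' hc hB
    have hc' : col g = col g' :=
      (Fintype.equivFin κ).injective (Fin.castLE_injective (Nat.le_succ_of_le hcard) hc)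
    exact congrArg (Function.invFun p) (h1 g g' hc' hB)
  · intro g g' hgg
    apply h2
    rw [← hp g, ← hp g']
    exact congrArg p hgg

/-- Additive version of `finAN_of_labels`. -/
theorem finANadd_of_labels {M : Type*} [AddCommGroup M] {B : ℕ → Set M} (N c : ℕ)
    (h : ∀ r : ℕ, 0 < r → ∃ (κ : Type) (_ : Fintype κ) (_ : Fintype.card κ ≤ N) (ι : Type*)
      (col : M → κ) (p : M → ι),
      (∀ a b : M, col a = col b → b - a ∈ B r → p a = p b) ∧
      (∀ a b : M, p a = p b → b - a ∈ B (c * r))) : FinANadd B := by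
  refine ⟨N, c, fun r hr => ?_⟩
  obtain ⟨κ, hκ, hcard, ι, col, p, h1, h2⟩ := h r hr
  have hp : ∀ g, p (Function.invFun p (p g)) = p g := fun g =>
    Function.invFun_eq ⟨g, rfl⟩
  refine ⟨fun g => Fin.castLE (Nat.le_succ_of_le hcard) (Fintype.equivFin κ (col g)),
    fun g => Function.invFun p (p g), ?_, ?_⟩
  · intro g g' hc hB
    have hc' : col g = col g' :=
      (Fintype.equivFin κ).injective (Fin.castLE_injective (Nat.le_succ_of_le hcard) hc)
    exact congrArg (Function.invFun p) (h1 g g' hc' hB)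
  · intro g g' hgg
    apply h2
    rw [← hp g, ← hp g']
    exact congrArg p hgg

/-- Finite AN-dimension only depends on the linear class of the ball family.
Proof: use the cover for `B₁` at the scale `C * r`. -/
theorem finAN_of_coarse {G : Type*} [Group G] {B₁ B₂ : ℕ → Set G} (C : ℕ) (hC : 0 < C)
    (h12 : ∀ r : ℕ, 0 < r → B₁ r ⊆ B₂ (C * r)) (h21 : ∀ r : ℕ, 0 < r → B₂ r ⊆ B₁ (C * r))
    (h0 : B₁ 0 ⊆ B₂ 0) (h : FinAN B₁) : FinAN B₂ := by
  obtain ⟨m, c, h⟩ := h
  refine ⟨m, C * c * C, fun r hr => ?_⟩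
  obtain ⟨col, p, h1, h2⟩ := h (C * r) (Nat.mul_pos hC hr)
  refine ⟨col, p, fun g g' hc hB => h1 g g' hc (h21 r hr hB), fun g g' hp => ?_⟩
  have h3 := h2 g g' hp
  rcases Nat.eq_zero_or_pos c with hc | hc
  · subst hc
    rw [Nat.zero_mul] at h3
    rw [Nat.mul_zero, Nat.zero_mul, Nat.zero_mul]
    exact h0 h3
  · have h4 := h12 (c * (C * r)) (Nat.mul_pos hc (Nat.mul_pos hC hr)) h3
    rw [show C * c * C * r = C * (c * (C * r)) by ring]
    exact h4

end Pool.MP4dac8d
end

section

/-! AND task A3: finite AN-dimension passes from a finite index subgroup to the group. -/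

set_option autoImplicit false
open Classical
open scoped Pointwise

namespace Pool.MP4dac8d

private theorem A3_bdd {G : Type*} [Group G] {S : Set G} (hS : Subgroup.closure S = ⊤) {Y : Set G}
    (hY : Y.Finite) : ∃ L : ℕ, Y ⊆ ball S L := by
  refine Set.Finite.induction_on Y hY ⟨0, Set.empty_subset _⟩ ?_
  rintro a Z _ _ ⟨L, hL⟩
  obtain ⟨n, hn⟩ := exists_mem_ball hS a
  refine ⟨max n L, ?_⟩
  intro z hz
  rcases Set.mem_insert_iff.mp hz with rfl | hz
  · exact (ballFam_ball S).mono (le_max_left _ _) hn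
  · exact (ballFam_ball S).mono (le_max_right _ _) (hL hz)

private theorem A3_out {G : Type*} [Group G] (H : Subgroup G) (g : G) :
    g * (Quotient.out ((g⁻¹ : G) : G ⧸ H)) ∈ H := by
  have h1 : (Quotient.out ((g⁻¹ : G) : G ⧸ H))⁻¹ * g⁻¹ ∈ H := by
    rw [← QuotientGroup.eq]
    exact Quotient.out_eq _
  have h2 := H.inv_mem h1
  rwa [mul_inv_rev, inv_inv, inv_inv] at h2

private theorem A3_finite {G : Type*} [Group G] (H : Subgroup G) (hH : H.index ≠ 0) :
    Finite (G ⧸ H) := by
  have : H.FiniteIndex := ⟨hH⟩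
  exact Subgroup.finite_quotient_of_finiteIndex

/-- Subgroups of finite index are undistorted: if `T` generates `H`, then elements of `H` of
`S`-length `≤ n` have `T`-length `≤ C n`.
Proof (Schreier): choose a finite set `X` of representatives of the right cosets `H x` with `1 ∈ X`;
write `g = s_1 ⋯ s_n ∈ H`, `x_0 = 1`, `x_j ∈ X` the representative of `H x_{j-1} s_j`
(so `H x_j = H s_1 ⋯ s_j`), `h_j = x_{j-1} s_j x_j⁻¹ ∈ H`; then `g = h_1 ⋯ h_n x_n` and `x_n = 1`.
The `h_j` lie in the finite set `{x s x'⁻¹} ∩ H`, so have bounded `T`-length. -/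
theorem undistorted_of_finiteIndex {G : Type*} [Group G] (S : Finset G) (H : Subgroup G)
    (hH : H.index ≠ 0) (T : Finset H) (hT : Subgroup.closure (T : Set H) = ⊤) :
    ∃ C : ℕ, 0 < C ∧ ∀ n : ℕ, ∀ g : H, (g : G) ∈ ball (S : Set G) n → g ∈ ball (T : Set H) (C * n) := by
  have hfinQ : Finite (G ⧸ H) := A3_finite H hH
  let rep : G → G := fun g => if g ∈ H then 1 else (Quotient.out ((g⁻¹ : G) : G ⧸ H))⁻¹
  have hrep : ∀ g, g * (rep g)⁻¹ ∈ H := by
    intro g
    by_cases hg : g ∈ H
    · simp only [rep, if_pos hg, inv_one, mul_one]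
      exact hg
    · simp only [rep, if_neg hg, inv_inv]
      exact A3_out H g
  let R : Set G := insert 1 (Set.range fun q : G ⧸ H => (Quotient.out q)⁻¹)
  have hR : R.Finite := (Set.finite_range _).insert 1
  have hrepR : ∀ g, rep g ∈ R := by
    intro g
    by_cases hg : g ∈ H
    · simp only [rep, if_pos hg]
      exact Set.mem_insert _ _
    · simp only [rep, if_neg hg]
      exact Set.mem_insert_of_mem _ ⟨_, rfl⟩
  -- the finite set of Schreier generators
  let W : Set G := (fun q : G × G × G => q.1 * q.2.1 * q.2.2⁻¹) ''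
    (R ×ˢ (ball (S : Set G) 1 ×ˢ R))
  have hW : W.Finite := (hR.prod ((ball_finite S.finite_toSet 1).prod hR)).image _
  let Z : Set H := {k | (k : G) ∈ W}
  have hZ : Z.Finite := hW.preimage (Subtype.val_injective.injOn)
  obtain ⟨C, hC⟩ := A3_bdd hT hZ
  refine ⟨C + 1, Nat.succ_pos _, ?_⟩
  have key : ∀ n : ℕ, ∀ g ∈ ball (S : Set G) n, ∃ k : H, (k : G) = g * (rep g)⁻¹ ∧
      k ∈ ball (T : Set H) ((C + 1) * n) := by
    intro n
    induction n with
    | zero =>
      intro g hg
      rw [mem_ball_zero_iff] at hg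
      subst hg
      refine ⟨1, ?_, (ballFam_ball _).one_mem _⟩
      simp only [rep, if_pos H.one_mem, inv_one, mul_one, Subgroup.coe_one]
    | succ n ih =>
      intro g hg
      obtain ⟨_, h, hh, s, hs, rfl⟩ := ball_succ hg
      obtain ⟨k, hk1, hk2⟩ := ih h hh
      have h1 : rep h * s * (rep (h * s))⁻¹ ∈ H := by
        have h2 := H.mul_mem (H.inv_mem (hrep h)) (hrep (h * s))
        have h3 : (h * (rep h)⁻¹)⁻¹ * (h * s * (rep (h * s))⁻¹) =
            rep h * s * (rep (h * s))⁻¹ := by group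
        rwa [h3] at h2
      refine ⟨k * ⟨_, h1⟩, ?_, ?_⟩
      · rw [Subgroup.coe_mul, hk1]
        show h * (rep h)⁻¹ * (rep h * s * (rep (h * s))⁻¹) = h * s * (rep (h * s))⁻¹
        group
      · have h4 : (⟨_, h1⟩ : H) ∈ ball (T : Set H) (C + 1) := by
          refine (ballFam_ball _).mono (Nat.le_succ C) (hC ?_)
          exact ⟨(rep h, s, rep (h * s)), ⟨hrepR h, hs, hrepR _⟩, rfl⟩
        exact (ballFam_ball _).mul hk2 h4
  intro n g hg
  obtain ⟨k, hk1, hk2⟩ := key n g hg
  have h1 : k = g := by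
    refine Subtype.ext ?_
    rw [hk1]
    simp only [rep, if_pos g.2, inv_one, mul_one]
  rwa [h1] at hk2

/-- Finite AN-dimension passes from a finite index subgroup to the group.
Proof: choose for every `g : G` an element `π g ∈ H` with `π g = g * y`, `y` in a fixed finite set `Y`
(representatives of the left cosets, inverted), so `Y ⊆ ball S L`.
For the scale `r` use the cover of `H` at the scale `C (r + 2L)`
(`≤ C (1 + 2L) r`), pulled back by `π`: if `g⁻¹ g' ∈ ball S r` then
`(π g)⁻¹ π g' = y⁻¹ g⁻¹ g' y' ∈ ball S (r + 2L)`, hence in `ball T (C (r + 2L))` by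
`undistorted_of_finiteIndex`.  If `π g, π g'` have the same label, then `(π g)⁻¹ (π g')` lies in
`ball T (c * (C (r + 2 L)))`, and `T ⊆ ball S L'` gives `g⁻¹ g' ∈ ball S (L' c C (r+2L) + 2 L)`. -/
theorem finAN_of_finiteIndex {G : Type*} [Group G] (S : Finset G)
    (hS : Subgroup.closure (S : Set G) = ⊤) (H : Subgroup G)
    (hH : H.index ≠ 0) (T : Finset H) (hT : Subgroup.closure (T : Set H) = ⊤)
    (h : FinAN (ball (T : Set H))) : FinAN (ball (S : Set G)) := by
  have hfinQ : Finite (G ⧸ H) := A3_finite H hH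
  obtain ⟨C, hC0, hC⟩ := undistorted_of_finiteIndex S H hH T hT
  obtain ⟨m, c, h⟩ := h
  let y : G → G := fun g => Quotient.out ((g⁻¹ : G) : G ⧸ H)
  obtain ⟨L, hL⟩ := A3_bdd hS (Set.finite_range fun q : G ⧸ H => Quotient.out q)
  obtain ⟨L', hL'⟩ := A3_bdd hS ((T.finite_toSet).image fun t : H => (t : G))
  have BS := ballFam_ball (S : Set G)
  have hy : ∀ g, y g ∈ ball (S : Set G) L := fun g => hL ⟨_, rfl⟩
  let π : G → H := fun g => ⟨g * y g, A3_out H g⟩
  have hincl : ∀ n : ℕ, ∀ k ∈ ball (T : Set H) n, (k : G) ∈ ball (S : Set G) (L' * n) := by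
    intro n
    induction n with
    | zero =>
      intro k hk
      rw [mem_ball_zero_iff] at hk
      subst hk
      exact BS.one_mem _
    | succ n ih =>
      intro k hk
      obtain ⟨_, a, ha, s, hs, rfl⟩ := ball_succ hk
      rw [Subgroup.coe_mul]
      refine BS.mul (ih a ha) ?_
      rw [mem_ball_one_iff] at hs
      rcases hs with rfl | hs | hs
      · exact BS.one_mem _
      · exact hL' ⟨s, hs, rfl⟩
      · have h1 : ((s⁻¹ : H) : G) ∈ ball (S : Set G) L' := hL' ⟨s⁻¹, hs, rfl⟩
        have h2 := BS.inv h1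
        rwa [Subgroup.coe_inv, inv_inv] at h2
  refine finAN_of_labels (m + 1) (L' * c * C * (1 + 2 * L) + 2 * L) ?_
  intro r hr
  obtain ⟨col, p, h1, h2⟩ := h (C * (L + r + L)) (Nat.mul_pos hC0 (by omega))
  refine ⟨Fin (m + 1), inferInstance, by simp, H, fun g => col (π g), fun g => p (π g), ?_, ?_⟩
  · intro g g' hcol hgg
    refine h1 _ _ hcol (hC _ _ ?_)
    have e : (((π g)⁻¹ * π g' : H) : G) = (y g)⁻¹ * (g⁻¹ * g') * y g' := by
      show (g * y g)⁻¹ * (g' * y g') = _
      group
    rw [e]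
    exact BS.mul (BS.mul (BS.inv (hy g)) hgg) (hy g')
  · intro g g' hp
    have h3 := hincl _ _ (h2 _ _ hp)
    have e : g⁻¹ * g' = y g * (((π g)⁻¹ * π g' : H) : G) * (y g')⁻¹ := by
      show _ = y g * ((g * y g)⁻¹ * (g' * y g')) * (y g')⁻¹
      group
    rw [e]
    refine BS.mono ?_ (BS.mul (BS.mul (hy g) h3) (BS.inv (hy g')))
    have h4 : L + r + L ≤ (1 + 2 * L) * r := by nlinarith
    have h5 : L' * (c * (C * (L + r + L))) ≤ L' * (c * (C * ((1 + 2 * L) * r))) := by gcongr
    have h6 : 2 * L ≤ 2 * L * r := Nat.le_mul_of_pos_right _ hr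
    calc L + L' * (c * (C * (L + r + L))) + L ≤
          L' * (c * (C * ((1 + 2 * L) * r))) + 2 * L * r := by omega
      _ = (L' * c * C * (1 + 2 * L) + 2 * L) * r := by ring

end Pool.MP4dac8d
end

section

/-! AND task F1: the entropy inequality for lines. -/

set_option autoImplicit false
open Classical
open scoped Pointwise

namespace Pool.MP4dac8d

/-- The line through `e` in direction `j`, inside the finite set `E`. -/
noncomputable def line {Y K : Type*} {N : ℕ} (E : Finset (Y × (Fin N → K))) (j : Fin N)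
    (e : Y × (Fin N → K)) : Finset (Y × (Fin N → K)) :=
  E.filter (fun e' => e'.1 = e.1 ∧ ∀ k, k ≠ j → e'.2 k = e.2 k)

/-- Two-dimensional case.  With `r x`, `c y` the sizes of the rows and columns:
`∑_{(x,y)∈E} log(r_x c_y / |E|) ≤ ∑_{(x,y)∈E} (r_x c_y/|E| - 1) ≤ |E|²/|E| - |E| = 0`
(`Real.log_le_sub_one_of_pos`; `∑_{(x,y) ∈ E} r_x c_y ≤ ∑_x ∑_y r_x c_y = |E|²`). -/
theorem entropy_two {X Y : Type*} (E : Finset (X × Y)) :
    ∑ e ∈ E, (Real.log ((E.filter (fun e' => e'.1 = e.1)).card : ℝ) +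
      Real.log ((E.filter (fun e' => e'.2 = e.2)).card : ℝ)) ≤
      (E.card : ℝ) * Real.log (E.card : ℝ) := by
  rcases E.eq_empty_or_nonempty with rfl | hE
  · simp
  have hn : (0 : ℝ) < E.card := by exact_mod_cast hE.card_pos
  set r : X × Y → ℕ := fun e => (E.filter (fun e' => e'.1 = e.1)).card with hr
  set c : X × Y → ℕ := fun e => (E.filter (fun e' => e'.2 = e.2)).card with hc
  have hrpos : ∀ e ∈ E, (0 : ℝ) < r e := fun e he => by
    have : 0 < r e := Finset.card_pos.mpr ⟨e, Finset.mem_filter.mpr ⟨he, rfl⟩⟩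
    exact_mod_cast this
  have hcpos : ∀ e ∈ E, (0 : ℝ) < c e := fun e he => by
    have : 0 < c e := Finset.card_pos.mpr ⟨e, Finset.mem_filter.mpr ⟨he, rfl⟩⟩
    exact_mod_cast this
  have hcount : ∑ e ∈ E, r e * c e ≤ E.card * E.card := by
    have h1 : ∑ e ∈ E, r e * c e = ∑ e ∈ E, ((E.filter (fun e' => e'.1 = e.1)) ×ˢ
        (E.filter (fun e' => e'.2 = e.2))).card :=
      Finset.sum_congr rfl (fun e _ => (Finset.card_product _ _).symm)
    rw [h1, ← Finset.card_biUnion, ← Finset.card_product]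
    · refine Finset.card_le_card ?_
      intro x hx
      obtain ⟨e, _, hx⟩ := Finset.mem_biUnion.mp hx
      obtain ⟨h2, h3⟩ := Finset.mem_product.mp hx
      exact Finset.mem_product.mpr ⟨(Finset.mem_filter.mp h2).1, (Finset.mem_filter.mp h3).1⟩
    · intro e _ f _ hef
      rw [Function.onFun, Finset.disjoint_left]
      intro x hx hx'
      obtain ⟨h2, h3⟩ := Finset.mem_product.mp hx
      obtain ⟨h4, h5⟩ := Finset.mem_product.mp hx'
      exact hef (Prod.ext ((Finset.mem_filter.mp h2).2.symm.trans (Finset.mem_filter.mp h4).2)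
        ((Finset.mem_filter.mp h3).2.symm.trans (Finset.mem_filter.mp h5).2))
  have hcountR : ∑ e ∈ E, (r e : ℝ) * (c e : ℝ) ≤ (E.card : ℝ) * E.card := by exact_mod_cast hcount
  have hterm : ∀ e ∈ E, Real.log (r e) + Real.log (c e) ≤
      Real.log E.card + ((r e : ℝ) * (c e : ℝ) / E.card - 1) := by
    intro e he
    have h1 := Real.log_le_sub_one_of_pos (div_pos (mul_pos (hrpos e he) (hcpos e he)) hn)
    rw [Real.log_div (mul_pos (hrpos e he) (hcpos e he)).ne' hn.ne',
      Real.log_mul (hrpos e he).ne' (hcpos e he).ne'] at h1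
    linarith
  refine (Finset.sum_le_sum hterm).trans ?_
  rw [Finset.sum_add_distrib, Finset.sum_const, nsmul_eq_mul, Finset.sum_sub_distrib,
    ← Finset.sum_div, Finset.sum_const, nsmul_eq_mul, mul_one]
  have h2 : (∑ e ∈ E, (r e : ℝ) * (c e : ℝ)) / E.card ≤ E.card := by
    rw [div_le_iff₀ hn]
    exact hcountR
  linarith

/-- Tail of the coordinates. -/
private def F1_tl {Y K : Type*} {N : ℕ} (e : Y × (Fin (N + 1) → K)) : Y × (Fin N → K) :=
  (e.1, fun k => e.2 k.succ)

private theorem F1_tl_inj {Y K : Type*} {N : ℕ} {e e' : Y × (Fin (N + 1) → K)}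
    (h0 : e.2 0 = e'.2 0) (h : F1_tl e = F1_tl e') : e = e' := by
  have h1 : e.1 = e'.1 := congrArg (fun x : Y × (Fin N → K) => x.1) h
  have h2 : (fun k : Fin N => e.2 k.succ) = fun k => e'.2 k.succ := congrArg Prod.snd h
  refine Prod.ext h1 (funext fun k => ?_)
  refine Fin.cases h0 (fun k => ?_) k
  exact congrFun h2 k

/-- The head coordinate moved out. -/
private def F1_hd {Y K : Type*} {N : ℕ} (e : Y × (Fin (N + 1) → K)) :
    K × (Y × (Fin N → K)) := (e.2 0, F1_tl e)

private theorem F1_hd_inj {Y K : Type*} {N : ℕ} :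
    Function.Injective (F1_hd : Y × (Fin (N + 1) → K) → K × (Y × (Fin N → K))) := by
  intro e e' h
  exact F1_tl_inj (congrArg Prod.fst h) (congrArg Prod.snd h)

private theorem F1_line_zero {Y K : Type*} {N : ℕ} (E : Finset (Y × (Fin (N + 1) → K)))
    (e : Y × (Fin (N + 1) → K)) :
    line E 0 e = E.filter (fun e' => F1_tl e' = F1_tl e) := by
  refine Finset.filter_congr (fun e' _ => ?_)
  constructor
  · rintro ⟨h1, h2⟩
    exact Prod.ext h1 (funext fun k => h2 k.succ (Fin.succ_ne_zero k))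
  · intro h
    refine ⟨congrArg (fun x : Y × (Fin N → K) => x.1) h, fun k hk => ?_⟩
    have h2 : (fun k : Fin N => e'.2 k.succ) = fun k => e.2 k.succ := congrArg Prod.snd h
    obtain ⟨l, rfl⟩ := Fin.exists_succ_eq.mpr hk
    exact congrFun h2 l

private theorem F1_line_succ {Y K : Type*} {N : ℕ} (E : Finset (Y × (Fin (N + 1) → K)))
    (a : K) (e : Y × (Fin (N + 1) → K)) (he : e.2 0 = a) (j : Fin N) :
    (line E j.succ e).card
      = (line ((E.filter (fun e' => e'.2 0 = a)).image F1_tl) j (F1_tl e)).card := by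
  have h1 : line ((E.filter (fun e' => e'.2 0 = a)).image F1_tl) j (F1_tl e)
      = (line E j.succ e).image F1_tl := by
    unfold line
    rw [Finset.filter_image, Finset.filter_filter]
    congr 1
    refine Finset.filter_congr (fun e' _ => ?_)
    constructor
    · rintro ⟨h0, h2, h3⟩
      refine ⟨h2, fun k => ?_⟩
      refine Fin.cases (fun _ => h0.trans he.symm) (fun k hk => ?_) k
      exact h3 k (fun h => hk (congrArg Fin.succ h))
    · rintro ⟨h2, h3⟩
      refine ⟨(h3 0 (Fin.succ_ne_zero j).symm).trans he, h2, fun k hk => ?_⟩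
      exact h3 k.succ (fun h => hk (Fin.succ_injective _ h))
  rw [h1, Finset.card_image_of_injOn]
  intro x hx y hy hxy
  have hx' := (Finset.mem_filter.mp hx).2.2 0 (Fin.succ_ne_zero j).symm
  have hy' := (Finset.mem_filter.mp hy).2.2 0 (Fin.succ_ne_zero j).symm
  exact F1_tl_inj (hx'.trans hy'.symm) hxy

/-- ENTROPY INEQUALITY: `∑_{e∈E} ∑_j log |line_j(e)| ≤ |E| log |E|`.
Proof by induction on `N` (generalizing `Y`): for `N = 0` the left side is `0`.  Step: identify
`Y × (Fin (N+1) → K)` with `(Y × K) × (Fin N → K)` (first coordinate `k₀ = e.2 0` moved into `Y`);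
the lines in the directions `j.succ` are the lines of the transported set `E'`, so by induction
applied to every slice `E'_{k₀}` with fixed `(k₀)` separately
(`∑_{a} |E_a| log |E_a|` with `E_a = {e ∈ E : e.2 0 = a}`) and for the direction `0` one has the two-dimensional
inequality `entropy_two` for the image of `E` in `K × (Y × (Fin N → K))`:
`∑_a |E_a| log|E_a| = ∑_e log |row(e)|` and the line in direction `0` is the column of `e`. -/
theorem entropy_lines {Y K : Type*} {N : ℕ} (E : Finset (Y × (Fin N → K))) :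
    ∑ e ∈ E, ∑ j : Fin N, Real.log ((line E j e).card : ℝ) ≤
      (E.card : ℝ) * Real.log (E.card : ℝ) := by
  induction N with
  | zero =>
    have h0 : ∑ e ∈ E, ∑ j : Fin 0, Real.log ((line E j e).card : ℝ) = 0 := by simp
    rw [h0]
    exact mul_nonneg (Nat.cast_nonneg _) (Real.log_natCast_nonneg _)
  | succ N ih =>
    have hslice : ∑ e ∈ E, ∑ j : Fin N, Real.log ((line E j.succ e).card : ℝ)
        ≤ ∑ e ∈ E, Real.log ((E.filter (fun e' => e'.2 0 = e.2 0)).card : ℝ) := by
      rw [← Finset.sum_fiberwise_of_maps_to (s := E) (t := E.image (fun e => e.2 0))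
        (g := fun e => e.2 0) (fun e he => Finset.mem_image_of_mem _ he)
        (f := fun e => ∑ j : Fin N, Real.log ((line E j.succ e).card : ℝ)),
        ← Finset.sum_fiberwise_of_maps_to (s := E) (t := E.image (fun e => e.2 0))
        (g := fun e => e.2 0) (fun e he => Finset.mem_image_of_mem _ he)
        (f := fun e => Real.log ((E.filter (fun e' => e'.2 0 = e.2 0)).card : ℝ))]
      refine Finset.sum_le_sum (fun a _ => ?_)
      have hinj : Set.InjOn (F1_tl : Y × (Fin (N + 1) → K) → Y × (Fin N → K))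
          (E.filter (fun e => e.2 0 = a)) := by
        intro x hx y hy hxy
        exact F1_tl_inj ((Finset.mem_filter.mp hx).2.trans (Finset.mem_filter.mp hy).2.symm) hxy
      have h1 := ih ((E.filter (fun e => e.2 0 = a)).image F1_tl)
      rw [Finset.sum_image hinj, Finset.card_image_of_injOn hinj] at h1
      have h2 : ∑ e ∈ E.filter (fun e => e.2 0 = a),
          ∑ j : Fin N, Real.log ((line E j.succ e).card : ℝ)
          = ∑ e ∈ E.filter (fun e => e.2 0 = a), ∑ j : Fin N,
            Real.log ((line ((E.filter (fun e => e.2 0 = a)).image F1_tl) j (F1_tl e)).card : ℝ) := by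
        refine Finset.sum_congr rfl (fun e he => Finset.sum_congr rfl (fun j _ => ?_))
        rw [F1_line_succ E a e (Finset.mem_filter.mp he).2 j]
      have h3 : ∑ e ∈ E.filter (fun e => e.2 0 = a),
          Real.log ((E.filter (fun e' => e'.2 0 = e.2 0)).card : ℝ)
          = ((E.filter (fun e => e.2 0 = a)).card : ℝ)
            * Real.log ((E.filter (fun e => e.2 0 = a)).card : ℝ) := by
        rw [← nsmul_eq_mul, ← Finset.sum_const]
        refine Finset.sum_congr rfl (fun e he => ?_)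
        rw [(Finset.mem_filter.mp he).2]
      rw [h2, h3]
      exact h1
    have htwo := entropy_two (E.image F1_hd)
    rw [Finset.sum_image (fun x _ y _ h => F1_hd_inj h),
      Finset.card_image_of_injective _ F1_hd_inj] at htwo
    have h4 : ∑ e ∈ E, (Real.log ((E.filter (fun e' => e'.2 0 = e.2 0)).card : ℝ)
        + Real.log ((line E 0 e).card : ℝ)) ≤ (E.card : ℝ) * Real.log (E.card : ℝ) := by
      refine le_trans (le_of_eq (Finset.sum_congr rfl (fun e _ => ?_))) htwo
      refine congrArg₂ (fun a b : ℕ => Real.log (a : ℝ) + Real.log (b : ℝ)) ?_ ?_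
      · rw [← Finset.card_image_of_injective _ F1_hd_inj]
        congr 1
        ext x
        simp only [Finset.mem_filter, Finset.mem_image]
        constructor
        · rintro ⟨a, ⟨ha, h⟩, rfl⟩
          exact ⟨⟨a, ha, rfl⟩, h⟩
        · rintro ⟨⟨a, ha, rfl⟩, h⟩
          exact ⟨a, ⟨ha, h⟩, rfl⟩
      · rw [F1_line_zero, ← Finset.card_image_of_injective _ F1_hd_inj]
        congr 1
        ext x
        simp only [Finset.mem_filter, Finset.mem_image]
        constructor
        · rintro ⟨a, ⟨ha, h⟩, rfl⟩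
          exact ⟨⟨a, ha, rfl⟩, h⟩
        · rintro ⟨⟨a, ha, rfl⟩, h⟩
          exact ⟨a, ⟨ha, h⟩, rfl⟩
    rw [Finset.sum_add_distrib] at h4
    have h5 : ∑ e ∈ E, ∑ j : Fin (N + 1), Real.log ((line E j e).card : ℝ)
        = ∑ e ∈ E, Real.log ((line E 0 e).card : ℝ)
          + ∑ e ∈ E, ∑ j : Fin N, Real.log ((line E j.succ e).card : ℝ) := by
      rw [← Finset.sum_add_distrib]
      exact Finset.sum_congr rfl (fun e _ => Fin.sum_univ_succ _)
    rw [h5]
    linarith

/-- If in every direction at least `3/4` of the points of `E` have lines of size at least `L`, then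
`log |E| ≥ (3/4) N log L`.  Immediate from `entropy_lines` (all logarithms are `≥ 0` since
`e ∈ line E j e`). -/
theorem card_ge_of_long_lines {Y K : Type*} {N L : ℕ} (hL : 1 ≤ L)
    (E : Finset (Y × (Fin N → K))) (hE : E.Nonempty)
    (h : ∀ j : Fin N, 3 * E.card ≤ 4 * (E.filter (fun e => L ≤ (line E j e).card)).card) :
    (3 / 4 : ℝ) * N * Real.log L ≤ Real.log E.card := by
  have hn : (0 : ℝ) < E.card := by exact_mod_cast hE.card_pos
  have h1 := entropy_lines E
  rw [Finset.sum_comm] at h1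
  have hL0 : 0 ≤ Real.log L := Real.log_natCast_nonneg L
  have hLpos : (0 : ℝ) < L := by exact_mod_cast hL
  have h2 : ∀ j : Fin N, (3 / 4 : ℝ) * E.card * Real.log L
      ≤ ∑ e ∈ E, Real.log ((line E j e).card : ℝ) := by
    intro j
    have h3 : ∑ e ∈ E.filter (fun e => L ≤ (line E j e).card), Real.log ((line E j e).card : ℝ)
        ≤ ∑ e ∈ E, Real.log ((line E j e).card : ℝ) :=
      Finset.sum_le_sum_of_subset_of_nonneg (Finset.filter_subset _ _)
        (fun e _ _ => Real.log_natCast_nonneg _)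
    have h4 : ((E.filter (fun e => L ≤ (line E j e).card)).card : ℝ) * Real.log L
        ≤ ∑ e ∈ E.filter (fun e => L ≤ (line E j e).card), Real.log ((line E j e).card : ℝ) := by
      rw [← nsmul_eq_mul, ← Finset.sum_const]
      refine Finset.sum_le_sum (fun e he => ?_)
      have h5 : (L : ℝ) ≤ (line E j e).card := by exact_mod_cast (Finset.mem_filter.mp he).2
      exact Real.log_le_log hLpos h5
    have h6 : (3 : ℝ) * E.card ≤ 4 * (E.filter (fun e => L ≤ (line E j e).card)).card := by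
      exact_mod_cast h j
    have h7 : (3 / 4 : ℝ) * E.card * Real.log L
        ≤ ((E.filter (fun e => L ≤ (line E j e).card)).card : ℝ) * Real.log L :=
      mul_le_mul_of_nonneg_right (by linarith) hL0
    linarith
  have h8 : ∑ _j : Fin N, (3 / 4 : ℝ) * E.card * Real.log L
      ≤ (E.card : ℝ) * Real.log (E.card : ℝ) := (Finset.sum_le_sum (fun j _ => h2 j)).trans h1
  rw [Finset.sum_const, Finset.card_univ, Fintype.card_fin, nsmul_eq_mul] at h8
  have h9 : (E.card : ℝ) * ((3 / 4 : ℝ) * N * Real.log L) ≤ (E.card : ℝ) * Real.log E.card := by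
    calc (E.card : ℝ) * ((3 / 4 : ℝ) * N * Real.log L)
        = (N : ℝ) * ((3 / 4 : ℝ) * E.card * Real.log L) := by ring
      _ ≤ _ := h8
  exact le_of_mul_le_mul_left h9 hn

end Pool.MP4dac8d
end

section

/-! AND task F2: product lower bound for almost invariant sets. -/

set_option autoImplicit false
open Classical
open scoped Pointwise

namespace Pool.MP4dac8d

private theorem F2_coord {G K : Type*} [Group G] [AddCommGroup K] {N : ℕ}
    (ψ : (Fin N → K) → G) (ψ_add : ∀ a b, ψ (a + b) = ψ a * ψ b) (ψ_inj : Function.Injective ψ) :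
    ∃ (P : Subgroup G) (Φ : G → (G ⧸ P) × (Fin N → K)), Function.Injective Φ ∧
      ∀ g a, Φ (g * ψ a) = ((Φ g).1, (Φ g).2 + a) := by
  have hψ0 : ψ 0 = 1 := by
    have h := ψ_add 0 0
    rw [add_zero] at h
    exact mul_eq_left.1 h.symm
  have hψneg : ∀ a, ψ (-a) = (ψ a)⁻¹ := by
    intro a
    refine eq_inv_of_mul_eq_one_left ?_
    rw [← ψ_add, neg_add_cancel, hψ0]
  let P : Subgroup G :=
    { carrier := Set.range ψ
      mul_mem' := by
        rintro _ _ ⟨a, rfl⟩ ⟨b, rfl⟩
        exact ⟨a + b, ψ_add a b⟩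
      one_mem' := ⟨0, hψ0⟩
      inv_mem' := by
        rintro _ ⟨a, rfl⟩
        exact ⟨-a, hψneg a⟩ }
  have hex : ∀ g : G, ∃ c : Fin N → K, (Quotient.out (g : G ⧸ P)) * ψ c = g := by
    intro g
    have h1 : (Quotient.out (g : G ⧸ P))⁻¹ * g ∈ P := by
      rw [← QuotientGroup.eq]
      exact Quotient.out_eq _
    obtain ⟨c, hc⟩ := h1
    exact ⟨c, by rw [hc, mul_inv_cancel_left]⟩
  choose c hc using hex
  refine ⟨P, fun g => ((g : G ⧸ P), c g), ?_, ?_⟩
  · intro g g' h
    have h1 := congrArg Prod.fst h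
    have h2 := congrArg Prod.snd h
    change (g : G ⧸ P) = (g' : G ⧸ P) at h1
    change c g = c g' at h2
    rw [← hc g, ← hc g', h1, h2]
  · intro g a
    have h1 : ((g * ψ a : G) : G ⧸ P) = (g : G ⧸ P) := by
      rw [QuotientGroup.eq]
      have h3 : ψ (-a) ∈ P := ⟨-a, rfl⟩
      have h4 : (g * ψ a)⁻¹ * g = ψ (-a) := by
        rw [hψneg]
        group
      rw [h4]
      exact h3
    refine Prod.ext h1 ?_
    change c (g * ψ a) = c g + a
    apply ψ_inj
    have h2 := hc (g * ψ a)
    rw [h1] at h2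
    have h3 := hc g
    rw [ψ_add]
    refine mul_left_cancel (a := Quotient.out (g : G ⧸ P)) ?_
    rw [h2, ← mul_assoc, h3]

/-- PRODUCT BOUND.  `ψ : K^N → G` an injective homomorphism, `F ⊆ G` finite nonempty, `T ⊆ K ∖ {0}`
finite nonempty, `F` almost invariant under right multiplication by the `ψ (k e_j)`, `k ∈ T`:
at most `|F|/8` points `f ∈ F` have `f ψ(k e_j) ∉ F`.  Then `log |F| ≥ (3/4) N log L` for
`1 ≤ L ≤ (|T| + 3)/2`.
Proof.  Let `P` be the range of `ψ` (a subgroup); `G ≃ (G ⧸ P) × P ≃ (G ⧸ P) × K^N` as sets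
(`Subgroup.groupEquivQuotientProdSubgroup` or `Quotient.out`); so there is an injection
`Φ : G → (G ⧸ P) × (Fin N → K)` with `Φ (g * ψ a) = ((Φ g).1, (Φ g).2 + a)`.  Apply
`card_ge_of_long_lines` to `E = F.image Φ`.  For fixed `j`: the number of pairs `(f, k)`, `k ∈ T`,
with `f ψ(k e_j) ∉ F` is at most `|T| |F| / 8`, so at most `|F|/4` points `f` have more than
`|T|/2` bad `k`.  All other `f` have at least `|T|/2` good `k ∈ T`, and together with `f` itself
(`0 ∉ T`) the line through `f` has at least `1 + ⌈|T|/2⌉ ≥ L` points. -/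
theorem fol_product_bound {G K : Type*} [Group G] [AddCommGroup K] {N L : ℕ}
    (ψ : (Fin N → K) → G) (ψ_add : ∀ a b, ψ (a + b) = ψ a * ψ b) (ψ_inj : Function.Injective ψ)
    (F : Finset G) (hF : F.Nonempty) (T : Finset K) (h0 : (0 : K) ∉ T) (hT : T.Nonempty)
    (hL1 : 1 ≤ L) (hL : 2 * L ≤ T.card + 3)
    (hinv : ∀ j : Fin N, ∀ k ∈ T,
      8 * (F.filter (fun f => f * ψ (Pi.single j k) ∉ F)).card ≤ F.card) :
    (3 / 4 : ℝ) * N * Real.log L ≤ Real.log F.card := by
  obtain ⟨P, Φ, Φ_inj, hΦ⟩ := F2_coord ψ ψ_add ψ_inj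
  have hcard : (F.image Φ).card = F.card := Finset.card_image_of_injective F Φ_inj
  rw [← hcard]
  refine card_ge_of_long_lines hL1 (F.image Φ) (hF.image Φ) fun j => ?_
  rw [hcard]
  -- bad points
  set bad : G → Finset K := fun f => T.filter (fun k => f * ψ (Pi.single j k) ∉ F) with hbad
  have hTpos : 0 < T.card := Finset.card_pos.2 hT
  have hsum : ∑ f ∈ F, (bad f).card =
      ∑ k ∈ T, (F.filter (fun f => f * ψ (Pi.single j k) ∉ F)).card := by
    simp only [hbad, Finset.card_filter]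
    exact Finset.sum_comm
  have hsum2 : 8 * ∑ f ∈ F, (bad f).card ≤ T.card * F.card := by
    rw [hsum, Finset.mul_sum]
    calc ∑ k ∈ T, 8 * (F.filter (fun f => f * ψ (Pi.single j k) ∉ F)).card
        ≤ ∑ k ∈ T, F.card := Finset.sum_le_sum fun k hk => hinv j k hk
      _ = T.card * F.card := by rw [Finset.sum_const, smul_eq_mul]
  set F' : Finset G := F.filter (fun f => T.card < 2 * (bad f).card) with hF'
  have hF'card : 4 * F'.card ≤ F.card := by
    have h1 : T.card * F'.card ≤ 2 * ∑ f ∈ F, (bad f).card := by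
      calc T.card * F'.card = ∑ f ∈ F', T.card := by rw [Finset.sum_const, smul_eq_mul, mul_comm]
        _ ≤ ∑ f ∈ F', 2 * (bad f).card :=
            Finset.sum_le_sum fun f hf => (Finset.mem_filter.1 hf).2.le
        _ ≤ ∑ f ∈ F, 2 * (bad f).card :=
            Finset.sum_le_sum_of_subset (Finset.filter_subset _ _)
        _ = 2 * ∑ f ∈ F, (bad f).card := by rw [Finset.mul_sum]
    have h2 : T.card * (4 * F'.card) ≤ T.card * F.card := by
      calc T.card * (4 * F'.card) = 4 * (T.card * F'.card) := by ring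
        _ ≤ 4 * (2 * ∑ f ∈ F, (bad f).card) := Nat.mul_le_mul_left _ h1
        _ = 8 * ∑ f ∈ F, (bad f).card := by ring
        _ ≤ T.card * F.card := hsum2
    exact Nat.le_of_mul_le_mul_left h2 hTpos
  have hgood : ∀ f ∈ F, f ∉ F' → L ≤ (line (F.image Φ) j (Φ f)).card := by
    intro f hf hf'
    have h1 : 2 * (bad f).card ≤ T.card := by
      by_contra h
      exact hf' (Finset.mem_filter.2 ⟨hf, not_le.1 h⟩)
    set good : Finset K := T.filter (fun k => f * ψ (Pi.single j k) ∈ F) with hgood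
    have h2 : good.card + (bad f).card = T.card :=
      Finset.card_filter_add_card_filter_not (s := T) (fun k => f * ψ (Pi.single j k) ∈ F)
    have h0g : (0 : K) ∉ good := fun h => h0 (Finset.mem_filter.1 h).1
    have h3 : (insert (0 : K) good).card = good.card + 1 := Finset.card_insert_of_notMem h0g
    have h4 : (insert (0 : K) good).card ≤ (line (F.image Φ) j (Φ f)).card := by
      refine Finset.card_le_card_of_injOn (fun k => Φ (f * ψ (Pi.single j k))) ?_ ?_
      · intro k hk
        have hk' : f * ψ (Pi.single j k) ∈ F := by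
          rcases Finset.mem_insert.1 hk with h | h
          · rw [h, Pi.single_zero]
            have hψ0 : ψ 0 = 1 := by
              have h := ψ_add 0 0
              rw [add_zero] at h
              exact mul_eq_left.1 h.symm
            rw [hψ0, mul_one]
            exact hf
          · exact (Finset.mem_filter.1 h).2
        unfold line
        rw [Finset.coe_filter]
        refine ⟨Finset.mem_image_of_mem _ hk', ?_, ?_⟩
        · dsimp only
          rw [hΦ]
        · intro i hi
          dsimp only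
          rw [hΦ]
          change (Φ f).2 i + (Pi.single j k : Fin N → K) i = (Φ f).2 i
          rw [Pi.single_eq_of_ne hi, add_zero]
      · intro k _ k' _ h
        have h5 := mul_left_cancel (Φ_inj h)
        exact Pi.single_injective j (ψ_inj h5)
    omega
  have hsub : (F \ F').image Φ ⊆
      (F.image Φ).filter (fun e => L ≤ (line (F.image Φ) j e).card) := by
    intro e he
    obtain ⟨f, hf, rfl⟩ := Finset.mem_image.1 he
    obtain ⟨hf1, hf2⟩ := Finset.mem_sdiff.1 hf
    exact Finset.mem_filter.2 ⟨Finset.mem_image_of_mem _ hf1, hgood f hf1 hf2⟩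
  have h5 := Finset.card_le_card hsub
  have h7 : (F \ F').card = F.card - F'.card :=
    Finset.card_sdiff_of_subset (Finset.filter_subset _ _)
  rw [Finset.card_image_of_injective _ Φ_inj, h7] at h5
  have h6 : F'.card ≤ F.card := Finset.card_le_card (Finset.filter_subset _ _)
  omega

end Pool.MP4dac8d
end

section

/-! AND task F3: Følner sets are almost invariant under all elements of bounded length; the
hypothesis `Føl ≃ V` implies `FolExp`. -/

set_option autoImplicit false
open Classical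
open scoped Pointwise

namespace Pool.MP4dac8d

private theorem F3_list {G : Type*} [Group G] (S F : Finset G) (l : List G)
    (hl : ∀ x ∈ l, x ∈ (S : Set G) ∨ x⁻¹ ∈ (S : Set G)) :
    (F.filter (fun f => f * l.prod ∉ F)).card ≤ l.length * ((F * (S ∪ S⁻¹)) \ F).card := by
  induction l with
  | nil =>
    simp
  | cons a t ih =>
    have ha : a ∈ S ∪ S⁻¹ := by
      have := hl a (by simp)
      simp only [Finset.mem_union, Finset.mem_inv', Finset.mem_coe] at this ⊢
      exact this
    have ih' := ih (fun x hx => hl x (by simp [hx]))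
    have hsub : F.filter (fun f => f * (a :: t).prod ∉ F) ⊆
        (F.filter (fun f => f * a ∉ F)) ∪ (F.filter (fun f => f * a ∈ F ∧ (f * a) * t.prod ∉ F)) := by
      intro f hf0
      have hf := Finset.mem_filter.1 hf0
      rw [Finset.mem_union, Finset.mem_filter, Finset.mem_filter]
      by_cases h : f * a ∈ F
      · right
        refine ⟨hf.1, h, ?_⟩
        have := hf.2
        rwa [List.prod_cons, ← mul_assoc] at this
      · left; exact ⟨hf.1, h⟩
    have h1 : (F.filter (fun f => f * a ∉ F)).card ≤ ((F * (S ∪ S⁻¹)) \ F).card := by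
      apply Finset.card_le_card_of_injOn (fun f => f * a)
      · intro f hf
        simp only [Finset.coe_filter, Set.mem_ofPred_eq, Finset.coe_sdiff, Set.mem_sdiff,
          Finset.mem_coe] at hf ⊢
        exact ⟨Finset.mul_mem_mul hf.1 ha, hf.2⟩
      · intro x _ y _ hxy
        exact mul_right_cancel hxy
    have h2 : (F.filter (fun f => f * a ∈ F ∧ (f * a) * t.prod ∉ F)).card ≤
        (F.filter (fun f => f * t.prod ∉ F)).card := by
      apply Finset.card_le_card_of_injOn (fun f => f * a)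
      · intro f hf
        simp only [Finset.coe_filter, Set.mem_ofPred_eq] at hf ⊢
        exact ⟨hf.2.1, hf.2.2⟩
      · intro x _ y _ hxy
        exact mul_right_cancel hxy
    calc (F.filter (fun f => f * (a :: t).prod ∉ F)).card
        ≤ _ := Finset.card_le_card hsub
      _ ≤ _ := Finset.card_union_le _ _
      _ ≤ ((F * (S ∪ S⁻¹)) \ F).card + t.length * ((F * (S ∪ S⁻¹)) \ F).card :=
          add_le_add h1 (h2.trans ih')
      _ = (a :: t).length * ((F * (S ∪ S⁻¹)) \ F).card := by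
          rw [List.length_cons]; ring

/-- If `n |F S^± ∖ F| ≤ |F|` and `8 ℓ ≤ n`, then `8 |{f ∈ F : f x ∉ F}| ≤ |F|` for `|x| ≤ ℓ`.
Proof: `#{f ∈ F : f x ∉ F} ≤ ℓ * |F S^± ∖ F|` by induction on the word
`x = s_1 ⋯ s_ℓ` : if `f x ∉ F` there is a first `j` with `f s_1 ⋯ s_j ∈ F`, `f s_1 ⋯ s_{j+1} ∉ F`
and `f ↦ f s_1 ⋯ s_{j+1}` is injective into `F S^± ∖ F`. -/
theorem invariance_of_length {G : Type*} [Group G] (S F : Finset G) {n ℓ : ℕ}
    (hF : n * ((F * (S ∪ S⁻¹)) \ F).card ≤ F.card) (hn : 8 * ℓ ≤ n) {x : G}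
    (hx : x ∈ ball (S : Set G) ℓ) :
    8 * (F.filter (fun f => f * x ∉ F)).card ≤ F.card := by
  obtain ⟨l, hlen, hl, rfl⟩ := hx
  have h := F3_list S F l hl
  calc 8 * (F.filter (fun f => f * l.prod ∉ F)).card
      ≤ 8 * (l.length * ((F * (S ∪ S⁻¹)) \ F).card) := Nat.mul_le_mul_left _ h
    _ = (8 * l.length) * ((F * (S ∪ S⁻¹)) \ F).card := by ring
    _ ≤ n * ((F * (S ∪ S⁻¹)) \ F).card := Nat.mul_le_mul_right _ (by omega)
    _ ≤ F.card := hF

private theorem F3_subset {G : Type*} [Group G] (S : Finset G) (n : ℕ) :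
    {g : G | ∃ l : List G, l.length ≤ n ∧ (∀ x ∈ l, x ∈ S ∨ x⁻¹ ∈ S) ∧ l.prod = g} ⊆
      (((insert 1 (S ∪ S⁻¹)) ^ n : Finset G) : Set G) := by
  rintro g ⟨l, hlen, hl, rfl⟩
  have h1 : (1 : G) ∈ insert 1 (S ∪ S⁻¹) := Finset.mem_insert_self _ _
  have key : ∀ l : List G, (∀ x ∈ l, x ∈ S ∨ x⁻¹ ∈ S) →
      l.prod ∈ (insert 1 (S ∪ S⁻¹)) ^ l.length := by
    intro l
    induction l with
    | nil => intro _; simp
    | cons a t ih =>
      intro hl
      rw [List.prod_cons, List.length_cons, pow_succ']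
      refine Finset.mul_mem_mul ?_ (ih (fun x hx => hl x (by simp [hx])))
      have := hl a (by simp)
      simp only [Finset.mem_insert, Finset.mem_union, Finset.mem_inv']
      right; exact this
  exact Finset.mem_coe.2 (Finset.pow_subset_pow_right h1 hlen (key l hl))

/-- The number of elements of length `≤ n` is at most `(2 |S| + 1)^n`. -/
theorem card_ball_le {G : Type*} [Group G] (S : Finset G) (n : ℕ) :
    Nat.card {g : G | ∃ l : List G, l.length ≤ n ∧ (∀ x ∈ l, x ∈ S ∨ x⁻¹ ∈ S) ∧ l.prod = g} ≤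
      (2 * S.card + 1) ^ n := by
  have hT : (insert (1 : G) (S ∪ S⁻¹)).card ≤ 2 * S.card + 1 := by
    refine (Finset.card_insert_le _ _).trans ?_
    have := Finset.card_union_le S S⁻¹
    rw [Finset.card_inv] at this
    omega
  calc Nat.card {g : G | ∃ l : List G, l.length ≤ n ∧ (∀ x ∈ l, x ∈ S ∨ x⁻¹ ∈ S) ∧ l.prod = g}
      ≤ Nat.card (((insert 1 (S ∪ S⁻¹)) ^ n : Finset G) : Set G) :=
        Nat.card_mono (Finset.finite_toSet _) (F3_subset S n)
    _ = ((insert 1 (S ∪ S⁻¹)) ^ n : Finset G).card := Nat.card_eq_card_toFinset _ |>.trans (by rw [Finset.toFinset_coe])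
    _ ≤ (insert (1 : G) (S ∪ S⁻¹)).card ^ n := Finset.card_pow_le
    _ ≤ (2 * S.card + 1) ^ n := Nat.pow_le_pow_left hT n

/-- The hypothesis of the frozen statement implies that the Følner function is at most exponential.
Proof: let `C` be the constant.  Since `1 ∈` ball, the second inequality gives
`1 ≤ V(n) ≤ C * Føl(C n)`, so `Føl(C n) > 0` and the set whose infimum is taken is nonempty
(`Nat.sInf_mem`, `Nat.sInf_empty`): there is `F` nonempty with `(C n) |∂F| ≤ |F|` and
`|F| = Føl(C n) ≤ C V(C (C n)) ≤ C (2|S|+1)^(C² n) ≤ C'^(n+1)` with `C' = C (2 |S| + 1)^(C²)`.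
And `n |∂F| ≤ C n |∂F|`. -/
theorem folExp_of_hyp {G : Type} [Group G] (S : Finset G)
    (h : ∃ C : ℕ, 0 < C ∧ ∀ n : ℕ,
        sInf {k : ℕ | ∃ F : Finset G, F.Nonempty ∧ F.card = k ∧
            n * ((F * (S ∪ S⁻¹)) \ F).card ≤ F.card}
          ≤ C * Nat.card {g : G | ∃ l : List G, l.length ≤ C * n ∧
              (∀ x ∈ l, x ∈ S ∨ x⁻¹ ∈ S) ∧ l.prod = g} ∧
        Nat.card {g : G | ∃ l : List G, l.length ≤ n ∧
              (∀ x ∈ l, x ∈ S ∨ x⁻¹ ∈ S) ∧ l.prod = g}
          ≤ C * sInf {k : ℕ | ∃ F : Finset G, F.Nonempty ∧ F.card = k ∧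
              (C * n) * ((F * (S ∪ S⁻¹)) \ F).card ≤ F.card}) :
    FolExp S := by
  obtain ⟨C, hC, h⟩ := h
  refine ⟨C * (2 * S.card + 1) ^ (C * C), Nat.mul_pos hC (by positivity), fun n => ?_⟩
  have hV : 0 < Nat.card {g : G | ∃ l : List G, l.length ≤ n ∧
      (∀ x ∈ l, x ∈ S ∨ x⁻¹ ∈ S) ∧ l.prod = g} := by
    have hfin : {g : G | ∃ l : List G, l.length ≤ n ∧
        (∀ x ∈ l, x ∈ S ∨ x⁻¹ ∈ S) ∧ l.prod = g}.Finite :=
      (Finset.finite_toSet _).subset (F3_subset S n)
    have : Finite {g : G | ∃ l : List G, l.length ≤ n ∧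
        (∀ x ∈ l, x ∈ S ∨ x⁻¹ ∈ S) ∧ l.prod = g} := hfin
    have : Nonempty {g : G | ∃ l : List G, l.length ≤ n ∧
        (∀ x ∈ l, x ∈ S ∨ x⁻¹ ∈ S) ∧ l.prod = g} := ⟨⟨1, [], by simp, by simp, by simp⟩⟩
    exact Nat.card_pos
  have h2 := (h n).2
  have hpos : 0 < sInf {k : ℕ | ∃ F : Finset G, F.Nonempty ∧ F.card = k ∧
      (C * n) * ((F * (S ∪ S⁻¹)) \ F).card ≤ F.card} := by
    by_contra hcon
    have : sInf {k : ℕ | ∃ F : Finset G, F.Nonempty ∧ F.card = k ∧
      (C * n) * ((F * (S ∪ S⁻¹)) \ F).card ≤ F.card} = 0 := by omega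
    rw [this, mul_zero] at h2
    omega
  have hne : {k : ℕ | ∃ F : Finset G, F.Nonempty ∧ F.card = k ∧
      (C * n) * ((F * (S ∪ S⁻¹)) \ F).card ≤ F.card}.Nonempty := by
    by_contra hcon
    rw [Set.not_nonempty_iff_eq_empty] at hcon
    rw [hcon, Nat.sInf_empty] at hpos
    omega
  obtain ⟨F, hF, hcard, hb⟩ := Nat.sInf_mem hne
  refine ⟨F, hF, ?_, ?_⟩
  · refine le_trans (Nat.mul_le_mul_right _ ?_) hb
    exact Nat.le_mul_of_pos_left n hC
  · rw [hcard]
    refine (h (C * n)).1.trans ?_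
    refine (Nat.mul_le_mul_left C (card_ball_le S (C * (C * n)))).trans ?_
    rw [mul_pow, ← pow_mul]
    refine Nat.mul_le_mul ?_ ?_
    · exact Nat.le_self_pow (by omega) C
    · apply Nat.pow_le_pow_right (by omega)
      rw [← mul_assoc]
      exact Nat.mul_le_mul_left _ (by omega)

end Pool.MP4dac8d
end

section

/-! AND task F4: groups with at most exponential Følner function contain no `ℤ ≀ ℤ`-like and no
`𝔽_p ≀ ℤ²`-like configurations. -/

set_option autoImplicit false
open Classical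
open scoped Pointwise

namespace Pool.MP4dac8d

private theorem F4_conj_pow {G M : Type*} [Group G] [AddCommGroup M] (i : M → G) (g : G)
    (T : Module.End ℤ M) (hT : ∀ m : M, g * i m * g⁻¹ = i (T m)) (j : ℕ) (m : M) :
    i ((T ^ j) m) = g ^ j * i m * (g ^ j)⁻¹ := by
  induction j with
  | zero => simp
  | succ j ih =>
    rw [pow_succ', Module.End.mul_apply, ← hT, ih, pow_succ']
    group

private theorem F4_nsmul {G M : Type*} [Group G] [AddCommGroup M] (i : M → G)
    (i_add : ∀ a b : M, i (a + b) = i a * i b) (k : ℕ) (m : M) : i (k • m) = i m ^ k := by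
  have h0 : i 0 = 1 := by
    have h := i_add 0 0
    rw [add_zero] at h
    exact mul_eq_left.1 h.symm
  induction k with
  | zero => rw [zero_smul, h0, pow_zero]
  | succ k ih => rw [succ_nsmul, i_add, ih, pow_succ]

private theorem F4_pow_mem {G : Type*} [Group G] {S : Set G} {n : ℕ} {g : G} (hg : g ∈ ball S n)
    (k : ℕ) : g ^ k ∈ ball S (k * n) := by
  have h := zpow_mem_ball hg (k : ℤ)
  rwa [zpow_natCast, Int.natAbs_natCast] at h

private theorem F4_conj_mem {G : Type*} [Group G] {S : Set G} {m n : ℕ} {g x : G}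
    (hg : g ∈ ball S m) (hx : x ∈ ball S n) : g * x * g⁻¹ ∈ ball S (2 * m + n) := by
  have h := (ballFam_ball S).mul ((ballFam_ball S).mul hg hx) ((ballFam_ball S).inv hg)
  exact (ballFam_ball S).mono (by omega) h

/-- NO FREE LINE.  `i : M → G` an injective homomorphism, `g i(m) g⁻¹ = i(T m)`.  If the Følner
function is at most exponential, then every `a : M` is killed by `f(T)` for some nonzero `f ∈ ℤ[X]`.
Proof.  Suppose not.  Then for each `n` the map `ψ : (Fin n → ℤ) → G`,
`ψ c = i (∑ j, c j • T^j a)` is an injective homomorphism (if `c ≠ 0` the polynomial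
`∑ c_j X^j` is nonzero).  `ψ (k e_j) = g^j * i(k • a) * g^(-j)` has length at most
`2 j |g| + k |i a| ≤ ℓ₀ n` for `1 ≤ k ≤ n`, `j < n`.  Take `F` from `FolExp` for `8 ℓ₀ n`; by
`invariance_of_length` and `fol_product_bound` with `T = {1, …, n}`, `L = ⌊(n+3)/2⌋` (so
`L ≥ n/2`): `(3/4) n log (n/2) ≤ log |F| ≤ (8 ℓ₀ n + 1) log C`, false for large `n`. -/
theorem no_free_line {G M : Type*} [Group G] [AddCommGroup M] (S : Finset G)
    (hS : Subgroup.closure (S : Set G) = ⊤) (hfol : FolExp S)
    (i : M → G) (i_add : ∀ a b : M, i (a + b) = i a * i b) (i_inj : Function.Injective i)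
    (g : G) (T : Module.End ℤ M) (hT : ∀ m : M, g * i m * g⁻¹ = i (T m)) (a : M) :
    ∃ f : Polynomial ℤ, f ≠ 0 ∧ Polynomial.aeval T f a = 0 := by
  by_contra hcon
  push Not at hcon
  obtain ⟨C, hC, hF⟩ := hfol
  obtain ⟨r, hr⟩ := exists_mem_ball hS g
  obtain ⟨s, hs⟩ := exists_mem_ball hS (i a)
  have hlogC : 0 ≤ Real.log C := Real.log_natCast_nonneg C
  set ℓ := 2 * r + s with hℓ
  obtain ⟨m, hm⟩ := exists_nat_gt (Real.exp (2 / 3 * ((16 * ℓ + 1) * Real.log C)))
  have hm0 : 0 < m := by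
    rcases Nat.eq_zero_or_pos m with h | h
    · rw [h, Nat.cast_zero] at hm
      exact absurd hm (not_lt.2 (Real.exp_pos _).le)
    · exact h
  obtain ⟨F, hFne, hF1, hF2⟩ := hF (8 * (ℓ * (2 * m)))
  -- the injective homomorphism
  have hinj : ∀ c : Fin (2 * m) → ℤ, ∑ j, c j • (T ^ (j : ℕ)) a = 0 → c = 0 := by
    intro c hc
    have h1 : Polynomial.aeval T (∑ j : Fin (2 * m), Polynomial.monomial (j : ℕ) (c j)) a =
        ∑ j, c j • (T ^ (j : ℕ)) a := by
      rw [map_sum, LinearMap.sum_apply]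
      refine Finset.sum_congr rfl fun j _ => ?_
      rw [Polynomial.aeval_monomial, Module.End.mul_apply, Module.algebraMap_end_apply]
    have h2 : (∑ j : Fin (2 * m), Polynomial.monomial (j : ℕ) (c j)) = (0 : Polynomial ℤ) := by
      by_contra h
      exact hcon _ h (h1.trans hc)
    funext j
    have h3 := congrArg (fun f => Polynomial.coeff f (j : ℕ)) h2
    simp only [Polynomial.finsetSum_coeff, Polynomial.coeff_monomial, Polynomial.coeff_zero] at h3
    rw [Finset.sum_eq_single j] at h3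
    · rw [if_pos rfl] at h3
      exact h3
    · intro k _ hk
      rw [if_neg]
      exact fun h => hk (Fin.ext h)
    · intro h
      exact absurd (Finset.mem_univ j) h
  have hb := fol_product_bound (L := m + 1) (N := 2 * m)
    (fun c : Fin (2 * m) → ℤ => i (∑ j, c j • (T ^ (j : ℕ)) a)) ?_ ?_ F hFne
    (Finset.Icc (1 : ℤ) (2 * m : ℕ)) ?_ ?_ (by omega) ?_ ?_
  · have h1 : Real.log F.card ≤ (8 * (ℓ * (2 * m)) + 1) * Real.log C := by
      have h2 : (F.card : ℝ) ≤ (C : ℝ) ^ (8 * (ℓ * (2 * m)) + 1) := by exact_mod_cast hF2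
      have h3 : (0 : ℝ) < F.card := by exact_mod_cast Finset.card_pos.2 hFne
      have h4 := Real.log_le_log h3 h2
      rw [Real.log_pow] at h4
      push_cast at h4
      exact h4
    have h2 : 2 / 3 * ((16 * ℓ + 1) * Real.log C) < Real.log ((m + 1 : ℕ) : ℝ) := by
      rw [Real.lt_log_iff_exp_lt (by positivity)]
      push_cast
      linarith
    have hm1 : (1 : ℝ) ≤ m := by exact_mod_cast hm0
    have h3 : (8 * (ℓ * (2 * m)) + 1) * Real.log C ≤ m * ((16 * ℓ + 1) * Real.log C) := by
      have h4 : (8 * ((ℓ : ℝ) * (2 * m)) + 1) ≤ m * (16 * ℓ + 1) := by nlinarith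
      calc (8 * ((ℓ : ℝ) * (2 * m)) + 1) * Real.log C ≤ (m * (16 * ℓ + 1)) * Real.log C :=
            mul_le_mul_of_nonneg_right h4 hlogC
        _ = _ := by ring
    have h5 : (3 / 4 : ℝ) * (2 * m : ℕ) * Real.log ((m + 1 : ℕ) : ℝ) ≤
        m * ((16 * ℓ + 1) * Real.log C) := hb.trans (h1.trans h3)
    have h6 : (m : ℝ) * (3 / 2 * Real.log ((m + 1 : ℕ) : ℝ)) ≤
        m * ((16 * ℓ + 1) * Real.log C) := by
      calc (m : ℝ) * (3 / 2 * Real.log ((m + 1 : ℕ) : ℝ)) =
            (3 / 4 : ℝ) * (2 * m : ℕ) * Real.log ((m + 1 : ℕ) : ℝ) := by push_cast; ring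
        _ ≤ _ := h5
    have h7 := le_of_mul_le_mul_left h6 (by linarith)
    linarith
  · intro c c'
    rw [← i_add, ← Finset.sum_add_distrib]
    refine congrArg i (Finset.sum_congr rfl fun j _ => ?_)
    rw [Pi.add_apply, add_smul]
  · intro c c' h
    have h1 := i_inj h
    rw [← sub_eq_zero, ← Finset.sum_sub_distrib] at h1
    rw [← sub_eq_zero]
    refine hinj _ ?_
    rw [← h1]
    refine Finset.sum_congr rfl fun j _ => ?_
    rw [Pi.sub_apply, sub_smul]
  · rw [Finset.mem_Icc]
    omega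
  · exact ⟨1, Finset.mem_Icc.2 ⟨le_rfl, by push_cast; omega⟩⟩
  · rw [Int.card_Icc]
    omega
  · intro j k hk
    rw [Finset.mem_Icc] at hk
    obtain ⟨k', rfl⟩ := Int.eq_ofNat_of_zero_le (show 0 ≤ k by omega)
    refine invariance_of_length S F hF1 le_rfl ?_
    have h1 : ∑ l, (Pi.single j (k' : ℤ) : Fin (2 * m) → ℤ) l • (T ^ (l : ℕ)) a =
        (T ^ (j : ℕ)) (k' • a) := by
      rw [Finset.sum_eq_single j]
      · rw [Pi.single_eq_same, natCast_zsmul, map_nsmul]
      · intro l _ hl
        rw [Pi.single_eq_of_ne hl, zero_smul]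
      · intro h
        exact absurd (Finset.mem_univ j) h
    rw [h1, F4_conj_pow i g T hT, F4_nsmul i i_add]
    refine (ballFam_ball (S : Set G)).mono ?_
      (F4_conj_mem (F4_pow_mem hr (j : ℕ)) (F4_pow_mem hs k'))
    have h2 : (j : ℕ) ≤ 2 * m := j.2.le
    have h3 : k' ≤ 2 * m := by omega
    calc 2 * ((j : ℕ) * r) + k' * s ≤ 2 * ((2 * m) * r) + (2 * m) * s := by gcongr
      _ = ℓ * (2 * m) := by rw [hℓ]; ring

/-- NO FREE PLANE.  The same with two commuting conjugations and an element of order `p`: some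
nonzero polynomial in two variables with coefficients mod `p` kills `a`.
Proof.  Suppose not.  Then for each `n` the map
`ψ : (Fin n × Fin n → ZMod p) → G`, `ψ c = i (∑ c_{jk} T₁^j T₂^k a)` (well defined since `p • a = 0`,
lift of coefficients to `ℤ`) is an injective homomorphism; index `Fin (n*n)` by
`finProdFinEquiv`.  `ψ (e_{jk}) = g₁^j g₂^k i(a) g₂^(-k) g₁^(-j)` has length `≤ ℓ₀ n`.  With
`T = {1}`, `L = 2` in `fol_product_bound`: `(3/4) n² log 2 ≤ (8 ℓ₀ n + 1) log C`, false for large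
`n`. -/
theorem no_free_plane {G M : Type*} [Group G] [AddCommGroup M] (S : Finset G)
    (hS : Subgroup.closure (S : Set G) = ⊤) (hfol : FolExp S)
    (i : M → G) (i_add : ∀ a b : M, i (a + b) = i a * i b) (i_inj : Function.Injective i)
    (g₁ g₂ : G) (T₁ T₂ : Module.End ℤ M) (hT₁ : ∀ m : M, g₁ * i m * g₁⁻¹ = i (T₁ m))
    (hT₂ : ∀ m : M, g₂ * i m * g₂⁻¹ = i (T₂ m)) (p : ℕ) (hp : p.Prime) (a : M) (ha : p • a = 0) :
    ∃ (n : ℕ) (c : Fin n → Fin n → ℤ), (∃ j k, ¬ (p : ℤ) ∣ c j k) ∧
      ∑ j, ∑ k, c j k • (T₁ ^ (j : ℕ) * T₂ ^ (k : ℕ)) a = 0 := by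
  by_contra hcon
  push Not at hcon
  obtain ⟨C, hC, hF⟩ := hfol
  obtain ⟨r₁, hr₁⟩ := exists_mem_ball hS g₁
  obtain ⟨r₂, hr₂⟩ := exists_mem_ball hS g₂
  obtain ⟨s, hs⟩ := exists_mem_ball hS (i a)
  have : Fact p.Prime := ⟨hp⟩
  have hlogC : 0 ≤ Real.log C := Real.log_natCast_nonneg C
  have hlog2 : 0 < Real.log 2 := Real.log_pos one_lt_two
  set ℓ := 2 * r₁ + (2 * r₂ + s) with hℓ
  obtain ⟨n, hn⟩ := exists_nat_gt (4 / 3 * ((8 * ℓ + 1) * Real.log C) / Real.log 2)
  have hn0 : 0 < n := by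
    rcases Nat.eq_zero_or_pos n with h | h
    · rw [h, Nat.cast_zero] at hn
      refine absurd hn (not_lt.2 ?_)
      positivity
    · exact h
  obtain ⟨F, hFne, hF1, hF2⟩ := hF (8 * (ℓ * n))
  set b : Fin (n * n) → M := fun q =>
    (T₁ ^ ((finProdFinEquiv.symm q).1 : ℕ) * T₂ ^ ((finProdFinEquiv.symm q).2 : ℕ)) a with hb'
  have hpb : ∀ q, (zmultiplesHom M (b q)) (p : ℤ) = 0 := by
    intro q
    rw [zmultiplesHom_apply, natCast_zsmul, hb']
    dsimp only
    rw [← map_nsmul, ha, map_zero]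
  set φ : Fin (n * n) → (ZMod p →+ M) := fun q =>
    ZMod.lift p ⟨zmultiplesHom M (b q), hpb q⟩ with hφ
  have hφz : ∀ q (k : ℤ), φ q (k : ZMod p) = k • b q := by
    intro q k
    rw [hφ]
    dsimp only
    rw [ZMod.lift_coe, zmultiplesHom_apply]
  have hb := fol_product_bound (L := 2) (N := n * n)
    (fun c : Fin (n * n) → ZMod p => i (∑ q, φ q (c q))) ?_ ?_ F hFne
    {1} ?_ (Finset.singleton_nonempty _) (by omega) ?_ ?_
  · have h1 : Real.log F.card ≤ (8 * (ℓ * n) + 1) * Real.log C := by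
      have h2 : (F.card : ℝ) ≤ (C : ℝ) ^ (8 * (ℓ * n) + 1) := by exact_mod_cast hF2
      have h3 : (0 : ℝ) < F.card := by exact_mod_cast Finset.card_pos.2 hFne
      have h4 := Real.log_le_log h3 h2
      rw [Real.log_pow] at h4
      push_cast at h4
      exact h4
    have hn1 : (1 : ℝ) ≤ n := by exact_mod_cast hn0
    have h3 : (8 * (ℓ * n) + 1) * Real.log C ≤ n * ((8 * ℓ + 1) * Real.log C) := by
      have h4 : (8 * ((ℓ : ℝ) * n) + 1) ≤ n * (8 * ℓ + 1) := by nlinarith
      calc (8 * ((ℓ : ℝ) * n) + 1) * Real.log C ≤ (n * (8 * ℓ + 1)) * Real.log C :=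
            mul_le_mul_of_nonneg_right h4 hlogC
        _ = _ := by ring
    have h6 : (n : ℝ) * (3 / 4 * (n * Real.log 2)) ≤ n * ((8 * ℓ + 1) * Real.log C) := by
      calc (n : ℝ) * (3 / 4 * (n * Real.log 2)) =
            (3 / 4 : ℝ) * (n * n : ℕ) * Real.log ((2 : ℕ) : ℝ) := by push_cast; ring
        _ ≤ _ := hb.trans (h1.trans h3)
    have h7 := le_of_mul_le_mul_left h6 (by linarith)
    rw [div_lt_iff₀ hlog2] at hn
    linarith
  · intro c c'
    rw [← i_add, ← Finset.sum_add_distrib]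
    refine congrArg i (Finset.sum_congr rfl fun q _ => ?_)
    rw [Pi.add_apply, map_add]
  · intro c c' h
    have h1 := i_inj h
    rw [← sub_eq_zero, ← Finset.sum_sub_distrib] at h1
    by_contra hne
    obtain ⟨q, hq⟩ := Function.ne_iff.1 hne
    refine hcon n (fun j k => ((c (finProdFinEquiv (j, k)) - c' (finProdFinEquiv (j, k))).val : ℤ))
      ⟨(finProdFinEquiv.symm q).1, (finProdFinEquiv.symm q).2, ?_⟩ ?_
    · rw [Prod.mk.eta, Equiv.apply_symm_apply]
      intro h2
      rw [← ZMod.intCast_zmod_eq_zero_iff_dvd, Int.cast_natCast, ZMod.natCast_zmod_val,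
        sub_eq_zero] at h2
      exact hq h2
    · rw [← h1, ← Fintype.sum_prod_type', ← finProdFinEquiv.sum_comp]
      refine Finset.sum_congr rfl fun x _ => ?_
      rw [← map_sub]
      have h3 := hφz (finProdFinEquiv x)
        ((c (finProdFinEquiv x) - c' (finProdFinEquiv x)).val : ℤ)
      rw [Int.cast_natCast, ZMod.natCast_zmod_val] at h3
      rw [h3, hb']
      dsimp only
      rw [Equiv.symm_apply_apply]
  · rw [Finset.mem_singleton]
    exact zero_ne_one
  · rw [Finset.card_singleton]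
  · intro q k hk
    rw [Finset.mem_singleton] at hk
    subst hk
    refine invariance_of_length S F hF1 le_rfl ?_
    have h1 : ∑ l, φ l ((Pi.single q 1 : Fin (n * n) → ZMod p) l) = b q := by
      rw [Finset.sum_eq_single q]
      · rw [Pi.single_eq_same]
        have h := hφz q 1
        rwa [Int.cast_one, one_smul] at h
      · intro l _ hl
        rw [Pi.single_eq_of_ne hl, map_zero]
      · intro h
        exact absurd (Finset.mem_univ q) h
    rw [h1, hb']
    dsimp only
    rw [Module.End.mul_apply, F4_conj_pow i g₁ T₁ hT₁, F4_conj_pow i g₂ T₂ hT₂]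
    have h2 : ((finProdFinEquiv.symm q).1 : ℕ) ≤ n := (finProdFinEquiv.symm q).1.2.le
    have h3 : ((finProdFinEquiv.symm q).2 : ℕ) ≤ n := (finProdFinEquiv.symm q).2.2.le
    refine (ballFam_ball (S : Set G)).mono ?_
      (F4_conj_mem (F4_pow_mem hr₁ _) (F4_conj_mem (F4_pow_mem hr₂ _) hs))
    calc 2 * (((finProdFinEquiv.symm q).1 : ℕ) * r₁) +
          (2 * (((finProdFinEquiv.symm q).2 : ℕ) * r₂) + s)
        ≤ 2 * (n * r₁) + (2 * (n * r₂) + n * s) := by
          gcongr
          exact Nat.le_mul_of_pos_left s hn0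
      _ = ℓ * n := by rw [hℓ]; ring

end Pool.MP4dac8d
end

section

/-! AND task D3: windows, sections and the collection process. -/

set_option autoImplicit false
open Classical
open scoped Pointwise

namespace Pool.MP4dac8d

/-- Windows are increasing. -/
theorem win_mono {G M : Type*} [Group G] [AddCommGroup M] [DistribMulAction G M] (t : G)
    (A : AddSubgroup M) : Monotone (Win t A) := by
  intro m n hmn
  refine AddSubgroup.closure_mono ?_
  rintro x ⟨k, hk, a, ha, rfl⟩
  exact ⟨k, hk.trans (by exact_mod_cast hmn), a, ha, rfl⟩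

private theorem D3_zpow_win {G M : Type*} [Group G] [AddCommGroup M] [DistribMulAction G M] {t : G}
    {A : AddSubgroup M} {c n : ℕ} {k : ℤ} (hk : |k| ≤ (n : ℤ)) {m : M} (hm : m ∈ Win t A c) :
    t ^ k • m ∈ Win t A (n + c) := by
  unfold Win at hm
  induction hm using AddSubgroup.closure_induction with
  | mem x hx =>
    obtain ⟨l, hl, a, ha, rfl⟩ := hx
    refine AddSubgroup.subset_closure ⟨k + l, ?_, a, ha, ?_⟩
    · push_cast
      exact (abs_add_le k l).trans (add_le_add hk hl)
    · rw [zpow_add, mul_smul]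
  | zero => rw [smul_zero]; exact zero_mem _
  | add x y _ _ hx hy => rw [smul_add]; exact add_mem hx hy
  | neg x _ hx => rw [smul_neg]; exact neg_mem hx

/-- If `s • A ⊆ Win c` then `s • Win n ⊆ Win (n + c)` (the actions commute). -/
theorem smul_win {G M : Type*} [Group G] [AddCommGroup M] [DistribMulAction G M]
    (hcomm : ∀ (g h : G) (m : M), g • h • m = h • g • m) {t s : G} {A : AddSubgroup M} {c n : ℕ}
    (hs : ∀ a ∈ A, s • a ∈ Win t A c) {m : M} (hm : m ∈ Win t A n) : s • m ∈ Win t A (n + c) := by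
  unfold Win at hm
  induction hm using AddSubgroup.closure_induction with
  | mem x hx =>
    obtain ⟨l, hl, a, ha, rfl⟩ := hx
    rw [hcomm]
    exact D3_zpow_win hl (hs a ha)
  | zero => rw [smul_zero]; exact zero_mem _
  | add x y _ _ hx hy => rw [smul_add]; exact add_mem hx hy
  | neg x _ hx => rw [smul_neg]; exact neg_mem hx

/-- If all letters move `A` into `Win c`, then words of length `n` move `Win k` into `Win (k + c n)`. -/
theorem ball_smul_win {G M : Type*} [Group G] [AddCommGroup M] [DistribMulAction G M]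
    (hcomm : ∀ (g h : G) (m : M), g • h • m = h • g • m) (S : Set G) {t : G} {A : AddSubgroup M}
    {c n k : ℕ} (hs : ∀ s ∈ ball S 1, ∀ a ∈ A, s • a ∈ Win t A c) {g : G} (hg : g ∈ ball S n)
    {m : M} (hm : m ∈ Win t A k) : g • m ∈ Win t A (k + c * n) := by
  induction n generalizing g with
  | zero =>
    rw [mem_ball_zero_iff] at hg
    subst hg
    simpa using hm
  | succ n ih =>
    obtain ⟨s, hs1, h, hh, rfl⟩ := (ball_succ hg).1
    rw [mul_smul, show k + c * (n + 1) = (k + c * n) + c by ring]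
    exact smul_win hcomm (hs s hs1) (ih hh)

private theorem D3_i_zero {G M : Type*} [Group G] [AddCommGroup M] [DistribMulAction G M] {d : ℕ}
    (D : Ext G M d) : D.i 0 = 1 := by
  have := D.i_add 0 0
  rw [add_zero] at this
  exact left_eq_mul.1 this

private theorem D3_i_neg {G M : Type*} [Group G] [AddCommGroup M] [DistribMulAction G M] {d : ℕ}
    (D : Ext G M d) (a : M) : D.i (-a) = (D.i a)⁻¹ := by
  rw [eq_inv_iff_mul_eq_one, ← D.i_add, neg_add_cancel, D3_i_zero]

private theorem D3_i_smul {G M : Type*} [Group G] [AddCommGroup M] [DistribMulAction G M] {d : ℕ}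
    (D : Ext G M d) (a m : M) : D.i a • m = m := by
  apply D.i_inj
  rw [← D.conj, ← D.i_add, add_comm, D.i_add, mul_inv_cancel_right]

private theorem D3_comm {G M : Type*} [Group G] [AddCommGroup M] [DistribMulAction G M] {d : ℕ}
    (D : Ext G M d) (g h : G) : ∃ m : M, D.i m = g * h * g⁻¹ * h⁻¹ := by
  rw [← D.ker]
  simp only [map_mul, map_inv]
  rw [mul_comm (D.π g) (D.π h)]
  simp

/-- The action of `G` on `M` is commutative for an `Ext` (`G / i(M)` and `M` are abelian):
`g h = i(m') h g`, and `i(m')` acts trivially. -/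
theorem Ext.smul_comm' {G M : Type*} [Group G] [AddCommGroup M] [DistribMulAction G M] {d : ℕ}
    (D : Ext G M d) (g h : G) (m : M) : g • h • m = h • g • m := by
  obtain ⟨m', hm'⟩ := D3_comm D g h
  have h1 : g * h = D.i m' * (h * g) := by rw [hm']; group
  rw [← mul_smul, h1, mul_smul, D3_i_smul, mul_smul]

/-- Elements of `i(M)` act trivially on `M`. -/
theorem Ext.i_smul {G M : Type*} [Group G] [AddCommGroup M] [DistribMulAction G M] {d : ℕ}
    (D : Ext G M d) (a m : M) : D.i a • m = m := by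
  exact D3_i_smul D a m

private theorem D3_list_prod {G : Type*} [Group G] (S : Set G) (n : ℕ) :
    ∀ l : List G, (∀ x ∈ l, x ∈ ball S n) → l.prod ∈ ball S (l.length * n)
  | [], _ => by simpa using (ballFam_ball S).one_mem 0
  | a :: l, h => by
      rw [List.prod_cons, List.length_cons, show (l.length + 1) * n = n + l.length * n by ring]
      exact (ballFam_ball S).mul (h a (by simp)) (D3_list_prod S n l fun x hx => h x (by simp [hx]))

/-- NORMAL FORM SECTION `σ q = x_0^{q_0} x_1^{q_1} ⋯ x_{d-1}^{q_{d-1}}` (e.g.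
`(List.ofFn fun k => D.x k ^ q k).prod`).  Moving `x_k` from the right into its place:
with `u = x_0^{q_0} ⋯ x_k^{q_k}` and `P = x_{k+1}^{q_{k+1}} ⋯ x_{d-1}^{q_{d-1}}`:
`σ q = u P`, `σ (q + e_k) = u x_k P`, so `σ(q) x_k σ(q+e_k)⁻¹ = u (P x_k P⁻¹ x_k⁻¹) u⁻¹`. -/
theorem Ext.exists_section {G M : Type*} [Group G] [AddCommGroup M] [DistribMulAction G M] {d : ℕ}
    (D : Ext G M d) : ∃ σ : (Fin d → ℤ) → G, σ 0 = 1 ∧
      (∀ q, D.π (σ q) = Multiplicative.ofAdd q) ∧
      (∀ (q : Fin d → ℤ) (n : ℕ), (∀ k, |q k| ≤ (n : ℤ)) → σ q ∈ ball (Set.range D.x) (d * n)) ∧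
      (∀ (q : Fin d → ℤ) (k : Fin d) (n : ℕ), (∀ j, |q j| ≤ (n : ℤ)) →
        ∃ u ∈ ball (Set.range D.x) (d * n), ∃ P ∈ ball (Set.range D.x) (d * n),
          σ q * D.x k * (σ (q + Pi.single k 1))⁻¹ =
            u * (P * D.x k * P⁻¹ * (D.x k)⁻¹) * u⁻¹) := by
  set S : Set G := Set.range D.x with hS
  have hx1 : ∀ k, D.x k ∈ ball S 1 := fun k => mem_ball_one_iff.2 (Or.inr (Or.inl ⟨k, rfl⟩))
  have hent : ∀ (q : Fin d → ℤ) (n : ℕ), (∀ k, |q k| ≤ (n : ℤ)) →
      ∀ y ∈ List.ofFn (fun k => D.x k ^ q k), y ∈ ball S n := by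
    intro q n hq y hy
    rw [List.mem_ofFn'] at hy
    obtain ⟨k, rfl⟩ := hy
    have h1 := zpow_mem_ball (hx1 k) (q k)
    rw [mul_one] at h1
    refine (ballFam_ball S).mono ?_ h1
    have := hq k
    rw [Int.abs_eq_natAbs] at this
    exact_mod_cast this
  refine ⟨fun q => (List.ofFn fun k => D.x k ^ q k).prod, ?_, ?_, ?_, ?_⟩
  · simp
  · intro q
    dsimp only
    rw [map_list_prod, List.map_ofFn, List.prod_ofFn]
    have h1 : ∀ k, (D.π ∘ fun k => D.x k ^ q k) k = Multiplicative.ofAdd (Pi.single k (q k)) := by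
      intro k
      simp only [Function.comp, map_zpow, D.π_x]
      rw [← ofAdd_zsmul]
      congr 1
      rw [← Pi.single_smul]
      simp
    simp_rw [h1]
    rw [← ofAdd_sum]
    congr 1
    exact Finset.univ_sum_single q
  · intro q n hq
    have h1 := D3_list_prod S n _ (hent q n hq)
    rwa [List.length_ofFn] at h1
  · intro q k n hq
    set l := List.ofFn fun k => D.x k ^ q k with hl
    set l' := List.ofFn fun j => D.x j ^ (q + Pi.single k 1 : Fin d → ℤ) j with hl'
    have hlen : l.length = d := by simp [hl]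
    have hlen' : l'.length = d := by simp [hl']
    have hk : (k : ℕ) < l.length := by rw [hlen]; exact k.2
    have hk' : (k : ℕ) < l'.length := by rw [hlen']; exact k.2
    have hge : ∀ (j : ℕ) (hj : j < l.length), l[j] = D.x ⟨j, hlen ▸ hj⟩ ^ q ⟨j, hlen ▸ hj⟩ := by
      intro j hj
      simp [hl]
    have hge' : ∀ (j : ℕ) (hj : j < l'.length),
        l'[j] = D.x ⟨j, hlen' ▸ hj⟩ ^ (q + Pi.single k 1 : Fin d → ℤ) ⟨j, hlen' ▸ hj⟩ := by
      intro j hj
      simp [hl']
    have hne : ∀ (j : ℕ) (hj : j < l.length) (hj' : j < l'.length), j ≠ k → l[j] = l'[j] := by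
      intro j hj hj' hjk
      rw [hge j hj, hge' j hj']
      congr 1
      have : (⟨j, hlen ▸ hj⟩ : Fin d) ≠ k := fun h => hjk (by rw [← h])
      simp [Pi.single_eq_of_ne this]
    have htake : l.take k = l'.take k := by
      apply List.ext_getElem
      · simp [hlen, hlen']
      · intro j h1 h2
        rw [List.getElem_take, List.getElem_take]
        have h3 : j < k := by
          rw [List.length_take] at h1
          exact lt_of_lt_of_le h1 (min_le_left _ _)
        exact hne j _ _ h3.ne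
    have hdrop : l.drop (k + 1) = l'.drop (k + 1) := by
      apply List.ext_getElem
      · simp [hlen, hlen']
      · intro j h1 h2
        rw [List.getElem_drop, List.getElem_drop]
        exact hne _ _ _ (by omega)
    have hlk : l'[(k : ℕ)] = l[(k : ℕ)] * D.x k := by
      rw [hge k hk, hge' k hk']
      change D.x k ^ ((q + Pi.single k 1 : Fin d → ℤ) k) = D.x k ^ q k * D.x k
      rw [Pi.add_apply, Pi.single_eq_same, zpow_add, zpow_one]
    have htk : (l'.take (k + 1)).prod = (l.take (k + 1)).prod * D.x k := by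
      rw [List.prod_take_succ l' k hk', List.prod_take_succ l k hk, htake, hlk, mul_assoc]
    have e1 : l.prod = (l.take (k + 1)).prod * (l.drop (k + 1)).prod := by
      rw [← List.prod_append, List.take_append_drop]
    have e2 : l'.prod = (l.take (k + 1)).prod * D.x k * (l.drop (k + 1)).prod := by
      rw [← htk, hdrop, ← List.prod_append, List.take_append_drop]
    refine ⟨(l.take (k + 1)).prod, ?_, (l.drop (k + 1)).prod, ?_, ?_⟩
    · refine (ballFam_ball S).mono (Nat.mul_le_mul_right n ?_) (D3_list_prod S n _ fun y hy =>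
        hent q n hq y (List.mem_of_mem_take hy))
      rw [List.length_take]
      exact (min_le_right _ _).trans hlen.le
    · refine (ballFam_ball S).mono (Nat.mul_le_mul_right n ?_) (D3_list_prod S n _ fun y hy =>
        hent q n hq y (List.mem_of_mem_drop hy))
      rw [List.length_drop, hlen]
      exact Nat.sub_le _ _
    · dsimp only
      rw [e1, e2]
      group

private theorem D3_pi_ball {G M : Type*} [Group G] [AddCommGroup M] [DistribMulAction G M] {d : ℕ}
    (D : Ext G M d) (F : Set M) (j : ℕ) (g : G) (hg : g ∈ ball (Set.range D.x ∪ D.i '' F) j)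
    (k : Fin d) : |Multiplicative.toAdd (D.π g) k| ≤ (j : ℤ) := by
  induction j generalizing g with
  | zero =>
    rw [mem_ball_zero_iff] at hg
    subst hg
    simp
  | succ j ih =>
    obtain ⟨s, hs, h, hh, rfl⟩ := (ball_succ hg).1
    have h1 : |Multiplicative.toAdd (D.π s) k| ≤ 1 := by
      have hS : ∀ y ∈ Set.range D.x ∪ D.i '' F, |Multiplicative.toAdd (D.π y) k| ≤ 1 := by
        rintro y (⟨l, rfl⟩ | ⟨f, _, rfl⟩)
        · rw [D.π_x]
          change |(Pi.single l (1 : ℤ) : Fin d → ℤ) k| ≤ 1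
          by_cases hkl : k = l
          · subst hkl; simp
          · simp [Pi.single_eq_of_ne hkl]
        · rw [(D.ker _).2 ⟨f, rfl⟩]
          simp
      rcases mem_ball_one_iff.1 hs with rfl | hs | hs
      · simp
      · exact hS s hs
      · have := hS _ hs
        rw [map_inv, toAdd_inv, Pi.neg_apply, abs_neg] at this
        exact this
    rw [map_mul, toAdd_mul, Pi.add_apply]
    push_cast
    calc _ ≤ |Multiplicative.toAdd (D.π s) k| + |Multiplicative.toAdd (D.π h) k| := abs_add_le _ _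
      _ ≤ 1 + j := add_le_add h1 (ih h hh)
      _ = j + 1 := by ring

/-- COLLECTION.  Let `Z ⊆ M` contain `0`, all `± σ(q) • f` (`f ∈ F`) and all `± a` with
`i(a) = σ(q) x_k σ(q+e_k)⁻¹`, for `|q|_∞ ≤ n`.  Then every `g` of length `≤ j ≤ n` in the generators
`x_k`, `i(f)` is `i(z_0 + ⋯ + z_{j-1}) σ(π g)` with `z_l ∈ Z`.
Proof by induction on `j` (last letter `s`, `g = h s`, `h = i(a) σ(q)`, `|q|_∞ ≤ j`):
`σ(q) i(f)^{±1} = i(± σ(q)•f) σ(q)`; `σ(q) x_k = i(a') σ(q + e_k)`; and for `s = x_k⁻¹`,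
`q' = q - e_k` (`|q'|_∞ ≤ j+1 ≤ n`), `σ(q') x_k = i(a') σ(q)` gives `σ(q) x_k⁻¹ = i(-a') σ(q')`. -/
theorem Ext.collect {G M : Type*} [Group G] [AddCommGroup M] [DistribMulAction G M] {d : ℕ}
    (D : Ext G M d) (F : Set M) (σ : (Fin d → ℤ) → G)
    (hσ : ∀ q, D.π (σ q) = Multiplicative.ofAdd q) (hσ0 : σ 0 = 1) (n : ℕ) (Z : Set M)
    (hZ0 : (0 : M) ∈ Z)
    (hZF : ∀ f ∈ F, ∀ q : Fin d → ℤ, (∀ k, |q k| ≤ (n : ℤ)) → σ q • f ∈ Z ∧ -(σ q • f) ∈ Z)
    (hZx : ∀ (q : Fin d → ℤ) (k : Fin d), (∀ j, |q j| ≤ (n : ℤ)) → ∀ a : M,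
      D.i a = σ q * D.x k * (σ (q + Pi.single k 1))⁻¹ → a ∈ Z ∧ -a ∈ Z)
    (j : ℕ) (hj : j ≤ n) (g : G) (hg : g ∈ ball (Set.range D.x ∪ D.i '' F) j) :
    ∃ z : ℕ → M, (∀ l, z l ∈ Z) ∧
      g = D.i (∑ l ∈ Finset.range j, z l) * σ (Multiplicative.toAdd (D.π g)) := by
  induction j generalizing g with
  | zero =>
    rw [mem_ball_zero_iff] at hg
    subst hg
    exact ⟨fun _ => 0, fun _ => hZ0, by simp [D3_i_zero, hσ0]⟩
  | succ j ih =>
    obtain ⟨h, hh, s, hs, rfl⟩ := (ball_succ hg).2
    obtain ⟨z, hz, hzh⟩ := ih (by omega) h hh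
    set q : Fin d → ℤ := Multiplicative.toAdd (D.π h) with hq
    have hqj : ∀ k, |q k| ≤ (j : ℤ) := fun k => D3_pi_ball D F j h hh k
    have hqn : ∀ k, |q k| ≤ (n : ℤ) := fun k => (hqj k).trans (by exact_mod_cast (by omega : j ≤ n))
    -- one step
    have step : ∀ b ∈ Z, ∀ q' : Fin d → ℤ, Multiplicative.toAdd (D.π (h * s)) = q' →
        σ q * s = D.i b * σ q' →
        ∃ z : ℕ → M, (∀ l, z l ∈ Z) ∧
          h * s = D.i (∑ l ∈ Finset.range (j + 1), z l) * σ (Multiplicative.toAdd (D.π (h * s))) := by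
      intro b hb q' hq' hs'
      refine ⟨fun l => if l < j then z l else b, fun l => ?_, ?_⟩
      · dsimp only
        split_ifs
        · exact hz l
        · exact hb
      · rw [hq', Finset.sum_range_succ]
        have h1 : ∑ l ∈ Finset.range j, (if l < j then z l else b) = ∑ l ∈ Finset.range j, z l :=
          Finset.sum_congr rfl fun l hl => if_pos (Finset.mem_range.1 hl)
        rw [h1, if_neg (lt_irrefl j), D.i_add, mul_assoc, ← hs', ← mul_assoc, ← hzh]
    have hmul : Multiplicative.toAdd (D.π (h * s)) = q + Multiplicative.toAdd (D.π s) := by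
      rw [map_mul, toAdd_mul, hq]
    rcases mem_ball_one_iff.1 hs with rfl | (⟨k, rfl⟩ | ⟨f, hf, rfl⟩) | (⟨k, hk⟩ | ⟨f, hf, hk⟩)
    · refine step 0 hZ0 q (by simp [hq]) ?_
      rw [D3_i_zero, mul_one, one_mul]
    · have h1 : D.π (σ q * D.x k * (σ (q + Pi.single k 1))⁻¹) = 1 := by
        rw [map_mul, map_mul, map_inv, hσ, hσ, D.π_x, ofAdd_add]
        simp
      obtain ⟨a, ha⟩ := (D.ker _).1 h1
      refine step a (hZx q k hqn a ha).1 (q + Pi.single k 1) ?_ ?_
      · rw [hmul, D.π_x]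
        rfl
      · rw [ha]
        group
    · refine step (σ q • f) (hZF f hf q hqn).1 q ?_ ?_
      · rw [hmul, (D.ker _).2 ⟨f, rfl⟩]
        simp
      · rw [← D.conj, inv_mul_cancel_right]
    · have hs1 : s = (D.x k)⁻¹ := by rw [hk, inv_inv]
      subst hs1
      have h1 : D.π (σ (q - Pi.single k 1) * D.x k * (σ (q - Pi.single k 1 + Pi.single k 1))⁻¹) = 1 := by
        rw [map_mul, map_mul, map_inv, hσ, hσ, D.π_x, ofAdd_add]
        simp
      obtain ⟨a, ha⟩ := (D.ker _).1 h1
      have hq' : ∀ l, |(q - Pi.single k 1 : Fin d → ℤ) l| ≤ (n : ℤ) := by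
        intro l
        have h2 : |(Pi.single k (1 : ℤ) : Fin d → ℤ) l| ≤ 1 := by
          by_cases hkl : l = k
          · subst hkl; simp
          · simp [Pi.single_eq_of_ne hkl]
        rw [Pi.sub_apply]
        calc _ ≤ |q l| + |(Pi.single k (1 : ℤ) : Fin d → ℤ) l| := abs_sub _ _
          _ ≤ j + 1 := add_le_add (hqj l) h2
          _ ≤ n := by exact_mod_cast hj
      refine step (-a) (hZx _ k hq' a ha).2 (q - Pi.single k 1) ?_ ?_
      · rw [hmul, map_inv, toAdd_inv, D.π_x, sub_eq_add_neg]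
        rfl
      · rw [D3_i_neg, ha, sub_add_cancel]
        group
    · have hs1 : s = (D.i f)⁻¹ := by rw [hk, inv_inv]
      subst hs1
      refine step (-(σ q • f)) (hZF f hf q hqn).2 q ?_ ?_
      · rw [hmul, map_inv, (D.ker _).2 ⟨f, rfl⟩]
        simp
      · rw [D3_i_neg, ← D.conj]
        group

/-- COMMUTATORS AS SUMS.  For `s : G` let `c l` be the element with `i (c l) = l s l⁻¹ s⁻¹`
(the commutator lies in `i(M)`).  Then `c (l g') = l • c g' + c l`, so for a word `P = l_0 l_1 ⋯` of length `n`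
(padded by `1`, `c 1 = 0`) `c P = ∑_{j<n} g_j • c (l_j)`, `g_j = l_0 ⋯ l_{j-1}`. -/
theorem Ext.comm_sum {G M : Type*} [Group G] [AddCommGroup M] [DistribMulAction G M] {d : ℕ}
    (D : Ext G M d) (S : Set G) (s : G) (c : G → M)
    (hc : ∀ l : G, D.i (c l) = l * s * l⁻¹ * s⁻¹) (n : ℕ) (P : G) (hP : P ∈ ball S n) :
    ∃ g l : ℕ → G, (∀ j, g j ∈ ball S n) ∧ (∀ j, l j ∈ ball S 1) ∧
      c P = ∑ j ∈ Finset.range n, g j • c (l j) := by
  have hc1 : c 1 = 0 := by
    apply D.i_inj
    rw [hc, D3_i_zero]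
    group
  have hcm : ∀ l g' : G, c (l * g') = l • c g' + c l := by
    intro l g'
    apply D.i_inj
    rw [D.i_add, ← D.conj, hc, hc, hc]
    group
  induction n generalizing P with
  | zero =>
    rw [mem_ball_zero_iff] at hP
    subst hP
    exact ⟨fun _ => 1, fun _ => 1, fun _ => (ballFam_ball S).one_mem 0,
      fun _ => (ballFam_ball S).one_mem 1, by simp [hc1]⟩
  | succ n ih =>
    obtain ⟨s', hs', h, hh, rfl⟩ := (ball_succ hP).1
    obtain ⟨g, l, hg, hl, hsum⟩ := ih h hh
    refine ⟨fun j => if j < n then s' * g j else 1, fun j => if j < n then l j else s', ?_, ?_, ?_⟩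
    · intro j
      dsimp only
      split_ifs
      · rw [add_comm]
        exact (ballFam_ball S).mul hs' (hg j)
      · exact (ballFam_ball S).one_mem _
    · intro j
      dsimp only
      split_ifs
      · exact hl j
      · exact hs'
    · rw [hcm, hsum, Finset.sum_range_succ, Finset.smul_sum]
      simp only [lt_irrefl, if_false, one_smul]
      congr 1
      refine Finset.sum_congr rfl fun j hj => ?_
      rw [if_pos (Finset.mem_range.1 hj), if_pos (Finset.mem_range.1 hj), mul_smul]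

/-- ELEMENTS OF LENGTH `≤ n` LIE IN WINDOWS OF SIZE `O(n)`.
Proof: `exists_section` gives `σ`.  Let `c₀` be such that `Win t A c₀` contains the finite set `F` and
all `c` with `i c = l x_k l⁻¹ x_k⁻¹` for `l ∈ ball S 1` (finite), `k : Fin d` (`hcov`, `win_mono`).
By `comm_sum` and `ball_smul_win` the element with `i c = P x_k P⁻¹ x_k⁻¹`, `P ∈ ball (d n)`, lies in
`Win (c₀ + c d n)`, and its translate by `u ∈ ball (d n)` in `Win (c₀ + 2 c d n) =: Z`; also
`± σ q • f ∈ Win (c₀ + c d n)`.  Apply `collect` with `j = n`: `D.i m = D.i (∑ z) * σ 0`, so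
`m = ∑ z ∈ Z` (`i_inj`). -/
theorem Ext.win_of_ball {G M : Type*} [Group G] [AddCommGroup M] [DistribMulAction G M] {d : ℕ}
    (D : Ext G M d) (F : Finset M) (t : G) (A : AddSubgroup M) (c : ℕ)
    (hcov : ∀ m : M, ∃ n : ℕ, m ∈ Win t A n)
    (hs : ∀ s ∈ ball (Set.range D.x ∪ D.i '' (F : Set M)) 1, ∀ a ∈ A, s • a ∈ Win t A c) :
    ∃ c' : ℕ, 0 < c' ∧ ∀ n : ℕ, 0 < n → ∀ m : M,
      D.i m ∈ ball (Set.range D.x ∪ D.i '' (F : Set M)) n → m ∈ Win t A (c' * n) := by
  set S : Set G := Set.range D.x ∪ D.i '' (F : Set M) with hS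
  have hSfin : S.Finite := (Set.finite_range D.x).union ((Finset.finite_toSet F).image D.i)
  obtain ⟨σ, hσ0, hσ, hσb, hσx⟩ := D.exists_section
  have hsub : ∀ n : ℕ, ball (Set.range D.x) n ⊆ ball S n := by
    rintro n g ⟨l, hl, hl', rfl⟩
    exact ⟨l, hl, fun x hx => (hl' x hx).imp (fun h => Or.inl h) (fun h => Or.inl h), rfl⟩
  have hcom : ∀ (k : Fin d) (l : G), ∃ m : M, D.i m = l * D.x k * l⁻¹ * (D.x k)⁻¹ := fun k l =>
    D3_comm D l (D.x k)
  choose cc hcc using hcom
  -- the finite set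
  have hT : ((F : Set M) ∪ ⋃ k : Fin d, cc k '' ball S 1).Finite :=
    (Finset.finite_toSet F).union (Set.finite_iUnion fun k => (ball_finite hSfin 1).image (cc k))
  have hc₀ : ∃ c₀ : ℕ, ∀ m ∈ (F : Set M) ∪ ⋃ k : Fin d, cc k '' ball S 1, m ∈ Win t A c₀ := by
    choose N hN using hcov
    obtain ⟨b, hb⟩ := (hT.image N).bddAbove
    exact ⟨b, fun m hm => win_mono t A (hb ⟨m, hm, rfl⟩) (hN m)⟩
  obtain ⟨c₀, hc₀⟩ := hc₀
  refine ⟨c₀ + 2 * c * d + 1, by omega, fun n hn m hm => ?_⟩
  have hcomm := D.smul_comm'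
  set Z : AddSubgroup M := Win t A (c₀ + c * (d * n) + c * (d * n)) with hZ
  obtain ⟨z, hz, hzm⟩ := D.collect (F : Set M) σ hσ hσ0 n (Z : Set M) (zero_mem Z) (by
    intro f hf q hq
    have h1 : σ q • f ∈ Z := by
      have h2 := ball_smul_win hcomm S hs (hsub _ (hσb q n hq)) (hc₀ f (Or.inl hf))
      exact win_mono t A (by omega) h2
    exact ⟨h1, neg_mem h1⟩) (by
    intro q k hq a ha
    obtain ⟨u, hu, P, hP, hup⟩ := hσx q k n hq
    have h1 : a = u • cc k P := by
      apply D.i_inj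
      rw [ha, hup, ← D.conj, hcc]
    obtain ⟨g, l, hg, hl, hsum⟩ := D.comm_sum S (D.x k) (cc k) (hcc k) (d * n) P (hsub _ hP)
    have h2 : cc k P ∈ Win t A (c₀ + c * (d * n)) := by
      rw [hsum]
      refine sum_mem fun j _ => ?_
      exact ball_smul_win hcomm S hs (hg j)
        (hc₀ _ (Or.inr (Set.mem_iUnion.2 ⟨k, ⟨l j, hl j, rfl⟩⟩)))
    have h3 : a ∈ Z := by
      rw [h1]
      exact ball_smul_win hcomm S hs (hsub _ hu) h2
    exact ⟨h3, neg_mem h3⟩) n le_rfl (D.i m) hm
  have h4 : D.π (D.i m) = 1 := (D.ker _).2 ⟨m, rfl⟩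
  rw [h4, toAdd_one, hσ0, mul_one] at hzm
  have h5 := D.i_inj hzm
  rw [h5]
  have h6 : ∑ l ∈ Finset.range n, z l ∈ Z := sum_mem fun l _ => hz l
  refine win_mono t A ?_ h6
  calc c₀ + c * (d * n) + c * (d * n) = c₀ + 2 * c * d * n := by ring
    _ ≤ c₀ * n + 2 * c * d * n := by
      have : c₀ ≤ c₀ * n := Nat.le_mul_of_pos_right _ hn
      omega
    _ ≤ (c₀ + 2 * c * d + 1) * n := by nlinarith

end Pool.MP4dac8d
end

section

/-! AND task L4: the base lattice of a module over `ℤ[t, t⁻¹]`. -/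

set_option autoImplicit false
open Classical
open scoped Pointwise

namespace Pool.MP4dac8d

/-- `M` finitely generated over `ℤ[t, t⁻¹]` (generators `F`) and killed by a nonzero polynomial
`f(t)`.  There is a finitely generated subgroup `A` such that the windows of `A` exhaust `M`, with a
subgroup `A₁ ≤ A` of finite index (every element of `A` has a positive multiple by a fixed `e` in `A₁`, and
finitely many classes) with `A₁ ⊆ t⁻¹ • A`, and `M / A` torsion.
Proof.  Replace `f` by `(X - 1) f / X^j` to get `f(0) ≠ 0`, `D = deg f ≥ 1`, leading coefficient `c ≠ 0`.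
`A` = subgroup generated by `t^k • m`, `m ∈ F`, `0 ≤ k < D`; `A₁ = A ∩ t⁻¹ • A` (elements `a ∈ A` with
`t • a ∈ A`).  Generators `t^k • m` with `k ≤ D - 2` are in `A₁`; and `t • (c t^(D-1) • m) =
c t^D • m ∈ A` because `f(t) m = 0`, so `c t^(D-1) • m ∈ A₁`.  Hence `c • A ⊆ A₁`, and `A / c A` is
finite (`A` is finitely generated).  `M / A` is torsion: for `k ≥ D` (induction) `c^(k-D+1) t^k • m ∈ A`,
and similarly for `k < 0` with `f(0)`. -/
theorem exists_base {G M : Type*} [Group G] [AddCommGroup M] [DistribMulAction G M] (t : G)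
    (F : Finset M) (hF : AddSubgroup.closure {x : M | ∃ k : ℤ, ∃ m ∈ F, x = t ^ k • m} = ⊤)
    (f : Polynomial ℤ) (hf : f ≠ 0) (hfm : ∀ m : M, f.sum (fun k a => a • (t ^ k • m)) = 0) :
    ∃ A A₁ : AddSubgroup M, A.FG ∧ (∀ m : M, ∃ n : ℕ, m ∈ Win t A n) ∧ A₁ ≤ A ∧
      (∀ a ∈ A₁, ∃ b ∈ A, a = t⁻¹ • b) ∧ (∃ e : ℕ, 0 < e ∧ ∀ a ∈ A, e • a ∈ A₁) ∧
      (∀ m : M, ∃ k : ℕ, 0 < k ∧ k • m ∈ A) := by
  -- the endomorphism `m ↦ t • m`
  let T : Module.End ℤ M := (DistribSMul.toAddMonoidHom M t).toIntLinearMap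
  have hT : ∀ m, T m = t • m := fun m => rfl
  have hTk : ∀ (k : ℕ) (m : M), (T ^ k) m = t ^ k • m := by
    intro k
    induction k with
    | zero => intro m; simp
    | succ k ih => intro m; rw [pow_succ', Module.End.mul_apply, ih, hT, pow_succ', mul_smul]
  have hae : ∀ (g : Polynomial ℤ) (m : M),
      Polynomial.aeval T g m = g.sum (fun k a => a • (t ^ k • m)) := by
    intro g m
    rw [Polynomial.aeval_def, Polynomial.eval₂_eq_sum, Polynomial.sum_def, Polynomial.sum_def,
      LinearMap.sum_apply]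
    apply Finset.sum_congr rfl
    intro k _
    rw [Module.End.mul_apply, Module.algebraMap_end_apply, hTk]
  have hf0 : ∀ m : M, Polynomial.aeval T f m = 0 := fun m => by rw [hae]; exact hfm m
  obtain ⟨g, hg1, hg2, hg3⟩ : ∃ g : Polynomial ℤ, 1 ≤ g.natDegree ∧ g.coeff 0 ≠ 0 ∧
      ∀ m : M, Polynomial.aeval T g m = 0 := by
    obtain ⟨f1, hf1, hnd⟩ := Polynomial.exists_eq_pow_rootMultiplicity_mul_and_not_dvd f hf 0
    have hc0 : f1.coeff 0 ≠ 0 := by
      intro h0
      apply hnd
      rw [map_zero, sub_zero]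
      exact Polynomial.X_dvd_iff.2 h0
    have hf1ne : f1 ≠ 0 := by
      rintro rfl
      exact hc0 (by simp)
    have hk : ∀ m : M, Polynomial.aeval T f1 m = 0 := by
      intro m
      have h := hf0 m
      rw [hf1, map_mul, map_pow, map_zero, sub_zero, Polynomial.aeval_X,
        Module.End.mul_apply, hTk] at h
      exact (smul_eq_zero_iff_eq _).1 h
    refine ⟨(Polynomial.X - Polynomial.C 1) * f1, ?_, ?_, ?_⟩
    · rw [Polynomial.natDegree_mul (Polynomial.X_sub_C_ne_zero 1) hf1ne,
        Polynomial.natDegree_X_sub_C]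
      omega
    · rw [Polynomial.mul_coeff_zero]
      simpa using hc0
    · intro m
      rw [map_mul, Module.End.mul_apply, hk m, map_zero]
  set D := g.natDegree with hD
  have hrel : ∀ m : M, ∑ k ∈ Finset.range (D + 1), g.coeff k • (t ^ k • m) = 0 := by
    intro m
    have h := hg3 m
    rw [Polynomial.aeval_eq_sum_range, LinearMap.sum_apply] at h
    rw [← h]
    apply Finset.sum_congr rfl
    intro k _
    rw [LinearMap.smul_apply, hTk]
  have hcD : g.coeff D ≠ 0 := by
    have hgne : g ≠ 0 := by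
      rintro rfl
      exact hg2 (by simp)
    exact Polynomial.leadingCoeff_ne_zero.2 hgne
  -- the lattice
  set gens : Set M := {x : M | ∃ k : ℕ, k < D ∧ ∃ m ∈ F, x = t ^ k • m} with hgens
  set A : AddSubgroup M := AddSubgroup.closure gens with hA
  have hfin : gens.Finite := by
    have : gens ⊆ (((Finset.range D) ×ˢ F).image fun x : ℕ × M => t ^ x.1 • x.2 : Finset M) := by
      rintro x ⟨k, hk, m, hm, rfl⟩
      rw [Finset.coe_image]
      refine ⟨(k, m), ?_, rfl⟩
      rw [Finset.mem_coe, Finset.mem_product, Finset.mem_range]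
      exact ⟨hk, hm⟩
    exact (Finset.finite_toSet _).subset this
  have hgenA : ∀ k < D, ∀ m ∈ F, t ^ k • m ∈ A := fun k hk m hm =>
    AddSubgroup.subset_closure ⟨k, hk, m, hm, rfl⟩
  -- multiplication by `t`
  have hup : ∀ a ∈ A, g.coeff D • (t • a) ∈ A := by
    intro a ha
    refine AddSubgroup.closure_induction (p := fun a _ => g.coeff D • (t • a) ∈ A)
      ?_ ?_ ?_ ?_ ha
    · rintro x ⟨k, hk, m, hm, rfl⟩
      rw [← mul_smul, ← pow_succ']
      rcases Nat.lt_or_ge (k + 1) D with h | h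
      · exact A.zsmul_mem (hgenA _ h m hm) _
      · have hkD : k + 1 = D := by omega
        rw [hkD]
        have h1 := hrel m
        rw [Finset.sum_range_succ] at h1
        rw [← neg_eq_of_add_eq_zero_right h1]
        exact A.neg_mem (A.sum_mem fun j hj =>
          A.zsmul_mem (hgenA j (Finset.mem_range.1 hj) m hm) _)
    · rw [smul_zero, smul_zero]; exact A.zero_mem
    · intro x y _ _ hx hy
      rw [smul_add, smul_add]; exact A.add_mem hx hy
    · intro x _ hx
      rw [smul_neg, smul_neg]; exact A.neg_mem hx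
  -- multiplication by `t⁻¹`
  have hdown : ∀ a ∈ A, g.coeff 0 • (t⁻¹ • a) ∈ A := by
    intro a ha
    refine AddSubgroup.closure_induction (p := fun a _ => g.coeff 0 • (t⁻¹ • a) ∈ A)
      ?_ ?_ ?_ ?_ ha
    · rintro x ⟨k, hk, m, hm, rfl⟩
      rcases Nat.eq_zero_or_pos k with h | h
      · subst h
        rw [pow_zero, one_smul]
        have h1 := hrel (t⁻¹ • m)
        rw [Finset.sum_range_succ'] at h1
        rw [pow_zero, one_smul] at h1
        rw [← neg_eq_of_add_eq_zero_right h1]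
        refine A.neg_mem (A.sum_mem fun j hj => A.zsmul_mem ?_ _)
        rw [← mul_smul, pow_succ, mul_assoc, mul_inv_cancel, mul_one]
        exact hgenA j (Finset.mem_range.1 hj) m hm
      · obtain ⟨j, rfl⟩ : ∃ j, k = j + 1 := ⟨k - 1, by omega⟩
        refine A.zsmul_mem ?_ _
        rw [← mul_smul, pow_succ', ← mul_assoc, inv_mul_cancel, one_mul]
        exact hgenA j (by omega) m hm
    · rw [smul_zero, smul_zero]; exact A.zero_mem
    · intro x y _ _ hx hy
      rw [smul_add, smul_add]; exact A.add_mem hx hy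
    · intro x _ hx
      rw [smul_neg, smul_neg]; exact A.neg_mem hx
  have habs : ∀ (c : ℤ) (x : M), c • x ∈ A → c.natAbs • x ∈ A := by
    intro c x hx
    rw [← natCast_zsmul]
    rcases Int.natAbs_eq c with h | h
    · rwa [← h]
    · have : ((c.natAbs : ℕ) : ℤ) = -c := by omega
      rw [this, neg_smul]
      exact A.neg_mem hx
  -- the torsion statement
  let P : AddSubgroup M :=
    { carrier := {m | ∃ k : ℕ, 0 < k ∧ k • m ∈ A}
      zero_mem' := ⟨1, one_pos, by rw [smul_zero]; exact A.zero_mem⟩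
      add_mem' := by
        rintro x y ⟨k, hk, hx⟩ ⟨l, hl, hy⟩
        refine ⟨k * l, Nat.mul_pos hk hl, ?_⟩
        rw [smul_add]
        refine A.add_mem ?_ ?_
        · rw [mul_comm, mul_smul]; exact A.nsmul_mem hx _
        · rw [mul_smul]; exact A.nsmul_mem hy _
      neg_mem' := by
        rintro x ⟨k, hk, hx⟩
        exact ⟨k, hk, by rw [smul_neg]; exact A.neg_mem hx⟩ }
  have hPup : ∀ m ∈ P, t • m ∈ P := by
    rintro m ⟨k, hk, hm⟩
    refine ⟨(g.coeff D).natAbs * k, Nat.mul_pos (Int.natAbs_pos.2 hcD) hk, ?_⟩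
    rw [mul_smul, smul_comm k t m]
    exact habs _ _ (hup _ hm)
  have hPdown : ∀ m ∈ P, t⁻¹ • m ∈ P := by
    rintro m ⟨k, hk, hm⟩
    refine ⟨(g.coeff 0).natAbs * k, Nat.mul_pos (Int.natAbs_pos.2 hg2) hk, ?_⟩
    rw [mul_smul, smul_comm k t⁻¹ m]
    exact habs _ _ (hdown _ hm)
  have hPk : ∀ (k : ℤ) (m : M), m ∈ P → t ^ k • m ∈ P := by
    intro k
    induction k with
    | zero => intro m hm; rw [zpow_zero, one_smul]; exact hm
    | succ k ih =>
      intro m hm
      rw [zpow_add_one, mul_smul]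
      exact ih _ (hPup m hm)
    | pred k ih =>
      intro m hm
      rw [zpow_sub_one, mul_smul]
      exact ih _ (hPdown m hm)
  have hPF : ∀ m ∈ F, m ∈ P := by
    intro m hm
    refine ⟨1, one_pos, ?_⟩
    rw [one_smul]
    have := hgenA 0 (by omega) m hm
    rwa [pow_zero, one_smul] at this
  have hPtop : P = ⊤ := by
    rw [eq_top_iff, ← hF, AddSubgroup.closure_le]
    rintro x ⟨k, m, hm, rfl⟩
    exact hPk k m (hPF m hm)
  refine ⟨A, A ⊓ A.comap (DistribSMul.toAddMonoidHom M t), ?_, ?_, inf_le_left, ?_, ?_, ?_⟩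
  · exact (AddSubgroup.fg_iff _).2 ⟨gens, rfl, hfin⟩
  · have hmono : ∀ {n n' : ℕ}, n ≤ n' → Win t A n ≤ Win t A n' := by
      intro n n' hn
      apply AddSubgroup.closure_mono
      rintro x ⟨k, hk, a, ha, rfl⟩
      exact ⟨k, hk.trans (by exact_mod_cast hn), a, ha, rfl⟩
    intro m
    have hm : m ∈ AddSubgroup.closure {x : M | ∃ k : ℤ, ∃ m ∈ F, x = t ^ k • m} := by
      rw [hF]; exact AddSubgroup.mem_top m
    refine AddSubgroup.closure_induction (p := fun m _ => ∃ n : ℕ, m ∈ Win t A n) ?_ ?_ ?_ ?_ hm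
    · rintro x ⟨k, m, hm, rfl⟩
      refine ⟨k.natAbs, AddSubgroup.subset_closure ⟨k, ?_, m, ?_, rfl⟩⟩
      · rw [Int.natCast_natAbs]
      · have := hgenA 0 (by omega) m hm
        rwa [pow_zero, one_smul] at this
    · exact ⟨0, AddSubgroup.zero_mem _⟩
    · rintro x y _ _ ⟨n, hn⟩ ⟨n', hn'⟩
      exact ⟨max n n', AddSubgroup.add_mem _ (hmono (le_max_left _ _) hn)
        (hmono (le_max_right _ _) hn')⟩
    · rintro x _ ⟨n, hn⟩
      exact ⟨n, AddSubgroup.neg_mem _ hn⟩
  · rintro a ⟨ha, ha'⟩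
    refine ⟨t • a, ha', ?_⟩
    rw [inv_smul_smul]
  · refine ⟨(g.coeff D).natAbs, Int.natAbs_pos.2 hcD, fun a ha => ?_⟩
    refine ⟨A.nsmul_mem ha _, ?_⟩
    change t • ((g.coeff D).natAbs • a) ∈ A
    rw [← smul_comm]
    exact habs _ _ (hup a ha)
  · intro m
    have : m ∈ P := by rw [hPtop]; exact AddSubgroup.mem_top m
    exact this

end Pool.MP4dac8d
end

section

/-! AND task S1: the action of `ℤ^d`, powers, generators. -/

set_option autoImplicit false
open Classical
open scoped Pointwise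

namespace Pool.MP4dac8d

private theorem S1_i_zero {G M : Type*} [Group G] [AddCommGroup M] [DistribMulAction G M] {d : ℕ}
    (D : Ext G M d) : D.i 0 = 1 := by
  have h := D.i_add 0 0
  rw [add_zero] at h
  exact (mul_eq_left.mp h.symm)

private theorem S1_i_neg {G M : Type*} [Group G] [AddCommGroup M] [DistribMulAction G M] {d : ℕ}
    (D : Ext G M d) (m : M) : D.i (-m) = (D.i m)⁻¹ := by
  rw [eq_inv_iff_mul_eq_one, ← D.i_add, neg_add_cancel, S1_i_zero]

private theorem S1_decomp {G M : Type*} [Group G] [AddCommGroup M] [DistribMulAction G M] {d : ℕ}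
    (D : Ext G M d) {g h : G} (hgh : D.π g = D.π h) : ∃ a : M, g = D.i a * h := by
  obtain ⟨a, ha⟩ := (D.ker (g * h⁻¹)).1 (by rw [map_mul, map_inv, hgh, mul_inv_cancel])
  exact ⟨a, by rw [ha, inv_mul_cancel_right]⟩

private theorem S1_smul {G M : Type*} [Group G] [AddCommGroup M] [DistribMulAction G M] {d : ℕ}
    (D : Ext G M d) {g h : G} (hgh : D.π g = D.π h) (m : M) : g • m = h • m := by
  obtain ⟨a, ha⟩ := S1_decomp D hgh
  rw [ha, mul_smul, D.i_smul]

/-- The action of `G` on `M` factors through `ℤ^d`: `U q m = σ(q) • m` for a section `σ`. -/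
theorem Ext.exists_action {G M : Type*} [Group G] [AddCommGroup M] [DistribMulAction G M] {d : ℕ}
    (D : Ext G M d) : ∃ U : Multiplicative (Fin d → ℤ) →* Module.End ℤ M,
      ∀ (g : G) (m : M), U (D.π g) m = g • m := by
  obtain ⟨σ, σ0, hσ, -, -⟩ := D.exists_section
  refine ⟨{ toFun := fun q =>
              (DistribSMul.toAddMonoidHom M (σ (Multiplicative.toAdd q))).toIntLinearMap
            map_one' := ?_
            map_mul' := ?_ }, ?_⟩
  · ext m
    show σ 0 • m = m
    rw [σ0, one_smul]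
  · intro q q'
    ext m
    show σ (Multiplicative.toAdd q + Multiplicative.toAdd q') • m =
      σ (Multiplicative.toAdd q) • σ (Multiplicative.toAdd q') • m
    rw [← mul_smul]
    refine S1_smul D ?_ m
    rw [map_mul, hσ, hσ, hσ]
    rfl
  · intro g m
    show σ (Multiplicative.toAdd (D.π g)) • m = g • m
    refine S1_smul D ?_ m
    rw [hσ]
    rfl

/-- The action composed with multiplication by `N` on `ℤ^d`. -/
noncomputable def scaleAct {M : Type*} [AddCommGroup M] {d : ℕ}
    (U : Multiplicative (Fin d → ℤ) →* Module.End ℤ M) (N : ℕ) :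
    Multiplicative (Fin d → ℤ) →* Module.End ℤ M :=
  U.comp (AddMonoidHom.toMultiplicative (nsmulAddMonoidHom (α := Fin d → ℤ) N))

/-- Finite generation passes to the finite index subgroup `N ℤ^d`: if `F` generates, then the
`U(q) m`, `m ∈ F`, `0 ≤ q_k < N`, generate. -/
theorem fgov_scale {M : Type*} [AddCommGroup M] {d : ℕ}
    (U : Multiplicative (Fin d → ℤ) →* Module.End ℤ M) (hfg : FGov U ⊤) (N : ℕ) (hN : 0 < N) :
    FGov (scaleAct U N) ⊤ := by
  obtain ⟨F, hF⟩ := hfg
  refine ⟨((Fintype.piFinset fun _ : Fin d => Finset.Ico (0 : ℤ) N) ×ˢ F).image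
    fun qm => U (Multiplicative.ofAdd qm.1) qm.2, ?_⟩
  rw [eq_top_iff, ← hF, AddSubgroup.closure_le]
  rintro x ⟨q, m, hm, rfl⟩
  have hN' : (0 : ℤ) < N := by exact_mod_cast hN
  refine AddSubgroup.subset_closure ⟨Multiplicative.ofAdd fun k => Multiplicative.toAdd q k / N,
    U (Multiplicative.ofAdd fun k => Multiplicative.toAdd q k % N) m, ?_, ?_⟩
  · refine Finset.mem_image.2 ⟨(fun k => Multiplicative.toAdd q k % N, m),
      Finset.mem_product.2 ⟨?_, hm⟩, rfl⟩
    rw [Fintype.mem_piFinset]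
    intro k
    rw [Finset.mem_Ico]
    exact ⟨Int.emod_nonneg _ hN'.ne', Int.emod_lt_of_pos _ hN'⟩
  · have h1 : q = Multiplicative.ofAdd (N • fun k => Multiplicative.toAdd q k / N) *
        Multiplicative.ofAdd fun k => Multiplicative.toAdd q k % N := by
      rw [← ofAdd_add]
      refine congrArg Multiplicative.ofAdd (a₁ := Multiplicative.toAdd q) ?_
      funext k
      rw [Pi.add_apply, Pi.smul_apply, nsmul_eq_mul, add_comm]
      exact (Int.emod_add_mul_ediv _ _).symm
    have h2 := congrArg U h1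
    rw [map_mul] at h2
    rw [h2]
    rfl

/-- PASSING TO `N ℤ^d`.  `H = {g : π(g) ∈ N ℤ^d}`, `π' g = π(g)/N`, `x'_k = x_k^N`; the kernel of `π'` is
`i(M)`.  The action of `H` on `M` is the restricted one. -/
theorem Ext.exists_power {G M : Type*} [Group G] [AddCommGroup M] [DistribMulAction G M] {d : ℕ}
    (D : Ext G M d) (N : ℕ) (hN : 0 < N) :
    ∃ (H : Subgroup G) (D' : Ext H M d), H.index ≠ 0 ∧ (∀ m : M, ((D'.i m : H) : G) = D.i m) ∧
      ∀ h : H, D.π (h : G) = Multiplicative.ofAdd (N • Multiplicative.toAdd (D'.π h)) := by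
  have : NeZero N := ⟨hN.ne'⟩
  have hN' : (N : ℤ) ≠ 0 := by exact_mod_cast hN.ne'
  let f : G →* Multiplicative (Fin d → ZMod N) :=
    { toFun := fun g => Multiplicative.ofAdd fun k => ((Multiplicative.toAdd (D.π g) k : ℤ) : ZMod N)
      map_one' := by
        rw [map_one]
        refine congrArg Multiplicative.ofAdd (a₂ := 0) ?_
        funext k
        simp
      map_mul' := by
        intro g h
        rw [map_mul, ← ofAdd_add]
        refine congrArg Multiplicative.ofAdd ?_
        funext k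
        simp }
  have hf : ∀ g : G, g ∈ f.ker ↔ ∀ k, (N : ℤ) ∣ Multiplicative.toAdd (D.π g) k := by
    intro g
    rw [MonoidHom.mem_ker]
    constructor
    · intro h k
      have h1 := congrFun (congrArg Multiplicative.toAdd h) k
      exact (ZMod.intCast_zmod_eq_zero_iff_dvd _ N).1 h1
    · intro h
      refine congrArg Multiplicative.ofAdd (a₂ := 0) ?_
      funext k
      exact (ZMod.intCast_zmod_eq_zero_iff_dvd _ N).2 (h k)
  have hi : ∀ m : M, D.i m ∈ f.ker := by
    intro m
    rw [hf]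
    intro k
    rw [(D.ker (D.i m)).2 ⟨m, rfl⟩]
    exact dvd_zero _
  have hx : ∀ k : Fin d, D.x k ^ N ∈ f.ker := by
    intro k
    rw [hf]
    intro j
    rw [map_pow, toAdd_pow, Pi.smul_apply, nsmul_eq_mul]
    exact dvd_mul_right _ _
  let π' : f.ker →* Multiplicative (Fin d → ℤ) :=
    { toFun := fun h => Multiplicative.ofAdd fun k => Multiplicative.toAdd (D.π (h : G)) k / N
      map_one' := by
        rw [Subgroup.coe_one, map_one]
        refine congrArg Multiplicative.ofAdd (a₂ := 0) ?_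
        funext k
        simp
      map_mul' := by
        intro g h
        rw [Subgroup.coe_mul, map_mul, ← ofAdd_add]
        refine congrArg Multiplicative.ofAdd ?_
        funext k
        rw [toAdd_mul, Pi.add_apply, Pi.add_apply]
        exact Int.add_ediv_of_dvd_left ((hf g).1 g.2 k) }
  have hπ' : ∀ h : f.ker, D.π (h : G) = Multiplicative.ofAdd (N • Multiplicative.toAdd (π' h)) := by
    intro h
    refine congrArg Multiplicative.ofAdd (a₁ := Multiplicative.toAdd (D.π (h : G))) ?_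
    funext k
    rw [Pi.smul_apply, nsmul_eq_mul]
    exact (Int.mul_ediv_cancel' ((hf h).1 h.2 k)).symm
  refine ⟨f.ker,
    { i := fun m => ⟨D.i m, hi m⟩
      i_add := fun a b => Subtype.ext (D.i_add a b)
      i_inj := fun a b h => D.i_inj (congrArg Subtype.val h)
      conj := fun g m => Subtype.ext (D.conj g m)
      π := π'
      x := fun k => ⟨D.x k ^ N, hx k⟩
      π_x := ?_
      ker := ?_ }, ?_, fun m => rfl, hπ'⟩
  · intro k
    refine congrArg Multiplicative.ofAdd ?_
    funext j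
    show Multiplicative.toAdd (D.π (D.x k ^ N)) j / (N : ℤ) = _
    rw [map_pow, toAdd_pow, Pi.smul_apply, nsmul_eq_mul, D.π_x, toAdd_ofAdd]
    exact Int.mul_ediv_cancel_left _ hN'
  · intro g
    have h1 : π' g = 1 ↔ D.π (g : G) = 1 := by
      constructor
      · intro h
        rw [hπ', h, toAdd_one, smul_zero, ofAdd_zero]
      · intro h
        refine congrArg Multiplicative.ofAdd (a₂ := 0) ?_
        funext k
        rw [h]
        simp
    rw [h1, D.ker]
    constructor
    · rintro ⟨m, hm⟩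
      exact ⟨m, Subtype.ext hm⟩
    · rintro ⟨m, hm⟩
      exact ⟨m, congrArg Subtype.val hm⟩
  · rw [Subgroup.index_ker]
    exact Nat.card_pos.ne'

/-- `S = {x_k} ∪ i(F)` generates `G` if `M` is generated by the `t^k • F` and `t` is a product of the `x_k`.
(`i(t^k • m) = t^k i(m) t^(-k)`; and `g = i(m) σ(π g)`, `σ` from `Ext.exists_section`.) -/
theorem Ext.closure_eq_top {G M : Type*} [Group G] [AddCommGroup M] [DistribMulAction G M] {d : ℕ}
    (D : Ext G M d) (F : Set M) (t : G) (ht : t ∈ Subgroup.closure (Set.range D.x))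
    (hF : AddSubgroup.closure {x : M | ∃ k : ℤ, ∃ m ∈ F, x = t ^ k • m} = ⊤) :
    Subgroup.closure (Set.range D.x ∪ D.i '' F) = ⊤ := by
  set K := Subgroup.closure (Set.range D.x ∪ D.i '' F) with hK
  have hxK : Subgroup.closure (Set.range D.x) ≤ K :=
    Subgroup.closure_mono Set.subset_union_left
  have htK : t ∈ K := hxK ht
  have hi : ∀ m : M, D.i m ∈ K := by
    intro m
    have hm : m ∈ AddSubgroup.closure {x : M | ∃ k : ℤ, ∃ m ∈ F, x = t ^ k • m} := by
      rw [hF]
      exact AddSubgroup.mem_top m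
    induction hm using AddSubgroup.closure_induction with
    | mem x hx =>
      obtain ⟨k, m, hm, rfl⟩ := hx
      rw [← D.conj]
      exact K.mul_mem (K.mul_mem (K.zpow_mem htK k)
        (Subgroup.subset_closure (Or.inr ⟨m, hm, rfl⟩))) (K.inv_mem (K.zpow_mem htK k))
    | zero => rw [S1_i_zero]; exact K.one_mem
    | add x y _ _ hx hy => rw [D.i_add]; exact K.mul_mem hx hy
    | neg x _ hx => rw [S1_i_neg]; exact K.inv_mem hx
  obtain ⟨σ, σ0, hσ, hball, -⟩ := D.exists_section
  rw [eq_top_iff]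
  intro g _
  obtain ⟨a, ha⟩ := S1_decomp D (g := g) (h := σ (Multiplicative.toAdd (D.π g))) (by rw [hσ]; rfl)
  rw [ha]
  refine K.mul_mem (hi a) (hxK ?_)
  obtain ⟨l, -, hl, hp⟩ := hball (Multiplicative.toAdd (D.π g))
    (Finset.univ.sum fun k => (Multiplicative.toAdd (D.π g) k).natAbs) (by
      intro k
      have h1 := Finset.single_le_sum (s := Finset.univ)
        (f := fun k => (Multiplicative.toAdd (D.π g) k).natAbs) (fun i _ => Nat.zero_le _)
        (Finset.mem_univ k)
      rw [Int.abs_eq_natAbs]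
      exact_mod_cast h1)
  rw [← hp]
  refine Subgroup.list_prod_mem _ fun x hx => ?_
  rcases hl x hx with h | h
  · exact Subgroup.subset_closure h
  · have h1 := Subgroup.inv_mem _ (Subgroup.subset_closure (k := Set.range D.x) h)
    rwa [inv_inv] at h1

end Pool.MP4dac8d
end

section

/-! AND task A4: Hurewicz lemma for extensions of `ℤ^d`. -/

set_option autoImplicit false
open Classical
open scoped Pointwise

namespace Pool.MP4dac8d

private theorem A4_div {L a b : ℤ} (hL : 0 < L) (h : |b - a| < L) (hp : a / L % 2 = b / L % 2) :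
    a / L = b / L := by
  have h1 := abs_lt.1 h
  have h2 : b / L ≤ a / L + 1 := by
    rw [← Int.add_mul_ediv_right a 1 hL.ne', one_mul]
    exact Int.ediv_le_ediv hL (by linarith)
  have h3 : a / L ≤ b / L + 1 := by
    rw [← Int.add_mul_ediv_right b 1 hL.ne', one_mul]
    exact Int.ediv_le_ediv hL (by linarith)
  omega

/-- HUREWICZ LEMMA.  `π : G → ℤ^d` with kernel `i(M)`; `B` a ball family on `G` such that `π` is
Lipschitz (`h1`) and vectors of sup norm `≤ r` have lifts in `B (c r)` (`h2`).  If `M` with the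
restricted length has finite AN-dimension, so has `G`.
Proof.  Let `(m₁, c₁)` be the constants of `M`.  Given `r > 0` put `L = c r + 1` and, for `g : G`,
`z g : Fin d → ℤ`, `z g k = ⌊(π g) k / L⌋` (`Int.ediv`), so `b (z g) := L • z g` differs from `π g` by a
vector of sup norm `≤ c r` (entries `(π g) k % L`).  For every `z` choose `σ z : G` with
`π (σ z) = L • z` (from `h2`), for every `g` choose `u g ∈ B (c (c r))` with
`π (u g) = L • z g - π g`; then `(σ (z g))⁻¹ * g * u g` is in the kernel, `= i (k g)`.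
Let `(col', p')` be the cover of `M` at the scale `r' = r + 2 (c (c r)) `.  Colour of `g`: the parities
of the `z g k` together with `col' (k g)` (`2^d (m₁+1)` colours); label of `g`: `(z g, p' (k g))`.
(1) same colour and `g⁻¹ h ∈ B r`: `|π g - π h| ≤ c r < L` in each coordinate and the parities agree, so
`z g = z h`; `i (k h - k g) = (i (k g))⁻¹ * i (k h) = (u g)⁻¹ * (g⁻¹ h) * u h ∈ B r'`, so the labels
agree.  (2) same label: `g⁻¹ h = u g * (i (k g))⁻¹ * i (k h) * (u h)⁻¹ ∈ B (c₁ r' + 2 c (c r))`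
`⊆ B (C r)`.  Use `finAN_of_labels`. -/
theorem hurewicz {G M : Type*} [Group G] [AddCommGroup M] {d : ℕ} {B : ℕ → Set G}
    (hB : BallFam B) (i : M → G) (i_add : ∀ a b : M, i (a + b) = i a * i b)
    (π : G →* Multiplicative (Fin d → ℤ)) (hker : ∀ g : G, π g = 1 ↔ ∃ m : M, i m = g)
    (c : ℕ) (h1 : ∀ (r : ℕ) (g : G), g ∈ B r → ∀ k : Fin d, |(Multiplicative.toAdd (π g)) k| ≤ ((c * r : ℕ) : ℤ))
    (h2 : ∀ (r : ℕ) (q : Fin d → ℤ), (∀ k, |q k| ≤ (r : ℤ)) → ∃ u ∈ B (c * r), π u = Multiplicative.ofAdd q)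
    (hM : FinANadd (fun r => {m : M | i m ∈ B r})) : FinAN B := by
  obtain ⟨m₁, c₁, hM⟩ := hM
  refine finAN_of_labels (Fintype.card ((Fin d → ZMod 2) × Fin (m₁ + 1)))
    (2 * c ^ 2 + c₁ * (1 + 2 * c ^ 2)) fun r hr => ?_
  have hr' : 0 < r + 2 * (c * (c * r)) := by omega
  obtain ⟨col', p', hcol, hp⟩ := hM _ hr'
  have hL : (0 : ℤ) < ((c * r + 1 : ℕ) : ℤ) := by exact_mod_cast Nat.succ_pos _
  set L : ℤ := ((c * r + 1 : ℕ) : ℤ) with hLdef
  let z : G → (Fin d → ℤ) := fun g k => (Multiplicative.toAdd (π g)) k / L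
  have hσ : ∀ q : Fin d → ℤ, ∃ s : G, π s = Multiplicative.ofAdd (fun k => L * q k) := by
    intro q
    obtain ⟨u, _, hu⟩ := h2 (∑ k, (L * q k).natAbs) (fun k => L * q k) (fun k => by
      rw [← Int.natCast_natAbs]
      have := Finset.single_le_sum (f := fun k => (L * q k).natAbs) (fun _ _ => Nat.zero_le _)
        (Finset.mem_univ k)
      exact_mod_cast this)
    exact ⟨u, hu⟩
  choose σ hσ using hσ
  have hu : ∀ g : G, ∃ u ∈ B (c * (c * r)),
      π u = Multiplicative.ofAdd (fun k => L * z g k - (Multiplicative.toAdd (π g)) k) := by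
    intro g
    refine h2 (c * r) _ fun k => ?_
    have e1 := Int.mul_ediv_add_emod ((Multiplicative.toAdd (π g)) k) L
    have e2 := Int.emod_nonneg ((Multiplicative.toAdd (π g)) k) hL.ne'
    have e3 := Int.emod_lt_of_pos ((Multiplicative.toAdd (π g)) k) hL
    have e4 : L = ((c * r : ℕ) : ℤ) + 1 := by
      rw [hLdef]
      push_cast
      ring
    rw [abs_le]
    constructor
    · show -((c * r : ℕ) : ℤ) ≤ L * ((Multiplicative.toAdd (π g)) k / L) - _
      linarith
    · show L * ((Multiplicative.toAdd (π g)) k / L) - _ ≤ ((c * r : ℕ) : ℤ)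
      have : (0 : ℤ) ≤ ((c * r : ℕ) : ℤ) := Int.natCast_nonneg _
      linarith
  choose u huB hu using hu
  have hk : ∀ g : G, ∃ m : M, i m = (σ (z g))⁻¹ * g * u g := by
    intro g
    rw [← hker, map_mul, map_mul, map_inv, hσ, hu]
    apply Multiplicative.toAdd.injective
    rw [toAdd_mul, toAdd_mul, toAdd_inv, toAdd_ofAdd, toAdd_ofAdd, toAdd_one]
    funext k
    simp only [Pi.add_apply, Pi.neg_apply, Pi.zero_apply]
    ring
  choose κ hκ using hk
  have hdiff : ∀ g h : G, z g = z h → i (κ h - κ g) = (u g)⁻¹ * (g⁻¹ * h) * u h := by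
    intro g h hz
    have e1 : i (κ h) = i (κ g) * i (κ h - κ g) := by
      rw [← i_add, add_sub_cancel]
    have e2 : i (κ h - κ g) = (i (κ g))⁻¹ * i (κ h) := by
      rw [e1, inv_mul_cancel_left]
    rw [e2, hκ, hκ, hz]
    group
  refine ⟨(Fin d → ZMod 2) × Fin (m₁ + 1), inferInstance, le_rfl, (Fin d → ℤ) × M,
    fun g => (fun k => ((z g k : ℤ) : ZMod 2), col' (κ g)), fun g => (z g, p' (κ g)), ?_, ?_⟩
  · intro g h hc hgh
    have hc1 := congrArg Prod.fst hc
    have hc2 := congrArg Prod.snd hc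
    have hz : z g = z h := by
      funext k
      have h3 := h1 r _ hgh k
      rw [map_mul, map_inv, toAdd_mul, toAdd_inv, Pi.add_apply, Pi.neg_apply] at h3
      refine A4_div hL ?_ ?_
      · have e4 : L = ((c * r : ℕ) : ℤ) + 1 := by
          rw [hLdef]
          push_cast
          ring
        have e5 : (Multiplicative.toAdd (π h)) k - (Multiplicative.toAdd (π g)) k =
            -(Multiplicative.toAdd (π g)) k + (Multiplicative.toAdd (π h)) k := by ring
        rw [e5]
        linarith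
      · have h4 := congrFun hc1 k
        exact (ZMod.intCast_eq_intCast_iff' _ _ 2).1 h4
    have h5 : κ h - κ g ∈ {m : M | i m ∈ B (r + 2 * (c * (c * r)))} := by
      show i (κ h - κ g) ∈ B _
      rw [hdiff g h hz]
      have h6 := hB.mul (hB.mul (hB.inv (huB g)) hgh) (huB h)
      exact hB.mono (by omega) h6
    exact Prod.ext hz (hcol _ _ hc2 h5)
  · intro g h hl
    have hz : z g = z h := congrArg Prod.fst hl
    have h7 : i (κ h - κ g) ∈ B (c₁ * (r + 2 * (c * (c * r)))) := hp _ _ (congrArg Prod.snd hl)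
    have h8 : g⁻¹ * h = u g * i (κ h - κ g) * (u h)⁻¹ := by
      rw [hdiff g h hz]
      group
    rw [h8]
    have h9 := hB.mul (hB.mul (huB g) h7) (hB.inv (huB h))
    refine hB.mono (le_of_eq ?_) h9
    ring

end Pool.MP4dac8d
end
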