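import Pool.Agent.Lib.MP_4dac8d_al.AND.Defs
import Pool.Agent.Lib.MP_4dac8d_al.Mg.G001

section

/-! AND task L3: from rational to real vector spaces. -/

set_option autoImplicit false
open Classical
open scoped Pointwise

namespace Pool.MP4dac8d

private theorem L3_common_denominator {n : ℕ} {W : Type*} [AddCommGroup W] [Module ℚ W]
    (b : Module.Basis (Fin n) ℚ W) (A : AddSubgroup W) (hA : A.FG) :
    ∃ q : ℕ, 0 < q ∧ ∀ w ∈ A, ∀ k, ∃ z : ℤ, (q : ℚ) * b.repr w k = z := by
  obtain ⟨S, hS⟩ := hA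
  refine ⟨∏ s ∈ S, ∏ k, (b.repr s k).den, ?_, ?_⟩
  · exact Finset.prod_pos fun s _ => Finset.prod_pos fun k _ => (b.repr s k).den_pos
  · intro w hw
    rw [← hS] at hw
    induction hw using AddSubgroup.closure_induction with
    | mem x hx =>
      intro k
      have h1 : (b.repr x k).den ∣ ∏ s ∈ S, ∏ k, (b.repr s k).den :=
        (Finset.dvd_prod_of_mem (fun k => (b.repr x k).den) (Finset.mem_univ k)).trans
          (Finset.dvd_prod_of_mem (fun s => ∏ k, (b.repr s k).den) hx)
      obtain ⟨c, hc⟩ := h1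
      refine ⟨c * (b.repr x k).num, ?_⟩
      rw [hc]
      push_cast
      have h2 : ((b.repr x k).den : ℚ) * b.repr x k = (b.repr x k).num := Rat.den_mul_eq_num _
      calc ((b.repr x k).den : ℚ) * c * b.repr x k = c * ((b.repr x k).den * b.repr x k) := by ring
        _ = c * (b.repr x k).num := by rw [h2]
    | zero => intro k; exact ⟨0, by simp⟩
    | add x y _ _ hx hy =>
      intro k
      obtain ⟨z1, h1⟩ := hx k
      obtain ⟨z2, h2⟩ := hy k
      refine ⟨z1 + z2, ?_⟩
      rw [map_add, Finsupp.add_apply, mul_add, h1, h2]; push_cast; ring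
    | neg x _ hx =>
      intro k
      obtain ⟨z1, h1⟩ := hx k
      refine ⟨-z1, ?_⟩
      rw [map_neg, Finsupp.neg_apply, mul_neg, h1]; push_cast; ring

/-- REAL MODEL of a finite-dimensional rational space: with a basis `b` of `W` put
`φ w = (fun k => ((b.repr w k : ℚ) : ℝ))` and `Θ T` = the linear map of the real matrix of `T`
(`LinearMap.toMatrix b b`, `Matrix.map`, `Matrix.toLin'`), a ring homomorphism.
Last property: in a finitely generated subgroup `A` of `W` the set of elements with bounded image is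
finite, because the coordinates of elements of `A` have a common denominator `q`, and there are only finitely many
vectors in `(1/q) ℤ^n` of bounded norm. -/
theorem exists_real_hull (W : Type*) [AddCommGroup W] [Module ℚ W] [Module.Finite ℚ W] :
    ∃ (n : ℕ) (φ : W →+ (Fin n → ℝ)) (Θ : Module.End ℚ W →+* Module.End ℝ (Fin n → ℝ)),
      Function.Injective φ ∧ (∀ (T : Module.End ℚ W) (w : W), Θ T (φ w) = φ (T w)) ∧
      Submodule.span ℝ (Set.range φ) = ⊤ ∧
      (∀ (c : ℚ) (w : W), φ (c • w) = (c : ℝ) • φ w) ∧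
      (∀ (A : AddSubgroup W), A.FG → ∀ κ : ℝ, {w : W | w ∈ A ∧ ‖φ w‖ ≤ κ}.Finite) := by
  set b : Module.Basis (Fin (Module.finrank ℚ W)) ℚ W := Module.finBasis ℚ W with hb
  set φ : W →+ (Fin (Module.finrank ℚ W) → ℝ) :=
    { toFun := fun w k => ((b.repr w k : ℚ) : ℝ)
      map_zero' := by ext k; simp
      map_add' := fun x y => by ext k; simp } with hφ
  have hφa : ∀ w k, φ w k = ((b.repr w k : ℚ) : ℝ) := fun w k => rfl
  set Θ : Module.End ℚ W →+* Module.End ℝ (Fin (Module.finrank ℚ W) → ℝ) :=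
    ((Matrix.toLinAlgEquiv' : Matrix (Fin (Module.finrank ℚ W)) (Fin (Module.finrank ℚ W)) ℝ ≃ₐ[ℝ] _) :
      Matrix (Fin (Module.finrank ℚ W)) (Fin (Module.finrank ℚ W)) ℝ →+* _).comp
      (((algebraMap ℚ ℝ).mapMatrix).comp
        ((LinearMap.toMatrixAlgEquiv b : Module.End ℚ W ≃ₐ[ℚ] _) : Module.End ℚ W →+* _)) with hΘ
  refine ⟨Module.finrank ℚ W, φ, Θ, ?_, ?_, ?_, ?_, ?_⟩
  · intro x y hxy
    apply b.repr.injective
    ext k
    have := congrFun hxy k
    rw [hφa, hφa] at this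
    exact_mod_cast this
  · intro T w
    have h1 : Θ T (φ w) = ((LinearMap.toMatrix b b T).map (algebraMap ℚ ℝ)).mulVec (φ w) := rfl
    rw [h1]
    ext k
    have h2 : φ w = (algebraMap ℚ ℝ) ∘ (b.repr w) := rfl
    have h3 : LinearMap.toMatrix b b T = (LinearMap.toMatrix b b T) := rfl
    rw [h2]
    have h4 := RingHom.map_mulVec (algebraMap ℚ ℝ) (LinearMap.toMatrix b b T) (b.repr w) k
    rw [← h4, LinearMap.toMatrix_mulVec_repr]
    rfl
  · rw [eq_top_iff, ← (Pi.basisFun ℝ (Fin (Module.finrank ℚ W))).span_eq, Submodule.span_le]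
    rintro _ ⟨i, rfl⟩
    apply Submodule.subset_span
    refine ⟨b i, ?_⟩
    ext k
    rw [hφa, Module.Basis.repr_self, Pi.basisFun_apply, Finsupp.single_apply, Pi.single_apply]
    by_cases h : i = k
    · subst h; simp
    · rw [if_neg h, if_neg (fun h' => h h'.symm)]; simp
  · intro c w
    ext k
    rw [Pi.smul_apply, hφa, hφa, map_smul, Finsupp.smul_apply, smul_eq_mul, smul_eq_mul]
    push_cast; rfl
  · intro A hA κ
    obtain ⟨q, hq, hz⟩ := L3_common_denominator b A hA
    set N : ℤ := ⌈(q : ℝ) * κ⌉ with hN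
    have hfin : (Set.univ.pi fun _ : Fin (Module.finrank ℚ W) => Set.Icc (-N) N).Finite :=
      Set.Finite.pi fun _ => Set.finite_Icc _ _
    set g : W → (Fin (Module.finrank ℚ W) → ℤ) := fun w k => ⌊(q : ℚ) * b.repr w k⌋ with hg
    have hgz : ∀ w ∈ A, ∀ k, ((g w k : ℤ) : ℚ) = (q : ℚ) * b.repr w k := by
      intro w hw k
      obtain ⟨z, hz'⟩ := hz w hw k
      rw [hg]
      simp only
      rw [hz', Int.floor_intCast]
    apply Set.Finite.of_finite_image (f := g)
    · refine hfin.subset ?_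
      rintro _ ⟨w, ⟨hwA, hwκ⟩, rfl⟩
      rw [Set.mem_univ_pi]
      intro k
      have h1 : |((b.repr w k : ℚ) : ℝ)| ≤ κ := by
        have := (norm_le_pi_norm (φ w) k).trans hwκ
        rwa [hφa, Real.norm_eq_abs] at this
      have h2 : |((g w k : ℤ) : ℝ)| ≤ (q : ℝ) * κ := by
        have h3 : ((g w k : ℤ) : ℝ) = (q : ℝ) * ((b.repr w k : ℚ) : ℝ) := by
          have := hgz w hwA k
          exact_mod_cast congrArg (fun t : ℚ => (t : ℝ)) this
        rw [h3, abs_mul, Nat.abs_cast]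
        exact mul_le_mul_of_nonneg_left h1 (Nat.cast_nonneg q)
      have h4 : |((g w k : ℤ) : ℝ)| ≤ (N : ℝ) := h2.trans (Int.le_ceil _)
      rw [abs_le] at h4
      constructor
      · exact_mod_cast h4.1
      · exact_mod_cast h4.2
    · intro x hx y hy hxy
      apply b.repr.injective
      ext k
      have h1 := hgz x hx.1 k
      have h2 := hgz y hy.1 k
      rw [congrFun hxy k, h2] at h1
      have hq0 : (q : ℚ) ≠ 0 := by exact_mod_cast hq.ne'
      exact (mul_left_cancel₀ hq0 h1).symm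

/-- COVERING RADIUS.  A subgroup of a finite-dimensional real space which spans it is `κ`-dense for
some `κ`: choose a basis contained in the subgroup and round the coordinates. -/
theorem exists_covering_radius {V : Type*} [NormedAddCommGroup V] [NormedSpace ℝ V]
    [FiniteDimensional ℝ V] (L : AddSubgroup V) (hL : Submodule.span ℝ (L : Set V) = ⊤) :
    ∃ κ : ℝ, ∀ v : V, ∃ l ∈ L, ‖l - v‖ ≤ κ := by
  set b := Module.Basis.ofSpan hL.ge with hb
  have hbL : ∀ i, b i ∈ L := fun i => Module.Basis.ofSpan_subset hL.ge ⟨i, rfl⟩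
  have : Fintype ((linearIndepOn_empty ℝ (id : V → V)).extend (Set.empty_subset (L : Set V))) :=
    FiniteDimensional.fintypeBasisIndex b
  refine ⟨∑ i, ‖b i‖, fun v => ⟨∑ i, ⌊b.repr v i⌋ • b i, ?_, ?_⟩⟩
  · exact AddSubgroup.sum_mem _ fun i _ => AddSubgroup.zsmul_mem _ (hbL i) _
  · have h1 : (∑ i, ⌊b.repr v i⌋ • b i) - v = ∑ i, ((⌊b.repr v i⌋ : ℝ) - b.repr v i) • b i := by
      conv_lhs => rw [← b.sum_repr v]
      rw [← Finset.sum_sub_distrib]
      apply Finset.sum_congr rfl
      intro i _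
      rw [sub_smul, Int.cast_smul_eq_zsmul]
      simp [b.sum_repr v]
    rw [h1]
    refine (norm_sum_le _ _).trans (Finset.sum_le_sum fun i _ => ?_)
    rw [norm_smul]
    have h2 : ‖(⌊b.repr v i⌋ : ℝ) - b.repr v i‖ ≤ 1 := by
      rw [Real.norm_eq_abs, abs_le]
      constructor
      · have := (Int.lt_floor_add_one (b.repr v i)).le; linarith
      · have := Int.floor_le (b.repr v i); linarith
    calc ‖(⌊b.repr v i⌋ : ℝ) - b.repr v i‖ * ‖b i‖ ≤ 1 * ‖b i‖ :=
          mul_le_mul_of_nonneg_right h2 (norm_nonneg _)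
      _ = ‖b i‖ := one_mul _

end Pool.MP4dac8d
end

section

/-! AND task L5: verification of the hypotheses of the digit lemmas. -/

set_option autoImplicit false
open Classical
open scoped Pointwise

namespace Pool.MP4dac8d

private theorem L5_win_mono {G M : Type*} [Group G] [AddCommGroup M] [DistribMulAction G M] (t : G)
    (A : AddSubgroup M) {m n : ℕ} (h : m ≤ n) : Win t A m ≤ Win t A n := by
  unfold Win
  apply AddSubgroup.closure_mono
  rintro x ⟨k, hk, hx⟩
  exact ⟨k, hk.trans (by exact_mod_cast h), hx⟩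

/-- A homomorphism from a finitely generated abelian group has finite fibres if its kernel is
torsion. -/
private theorem L5_fib {M W : Type*} [AddCommGroup M] [AddCommGroup W] (A : AddSubgroup M)
    (hA : A.FG) (φ : M →+ W) (hφ : ∀ m : M, φ m = 0 → ∃ k : ℕ, 0 < k ∧ k • m = 0) (b : W) :
    {a : A | φ a = b}.Finite := by
  have hfg : AddGroup.FG A := (AddGroup.fg_iff_addSubgroup_fg A).mpr hA
  have hfin : Module.Finite ℤ A := Module.Finite.iff_addGroup_fg.mpr hfg
  have hnoeth : IsNoetherian ℤ A := isNoetherian_of_isNoetherianRing_of_finite ℤ A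
  set K : Submodule ℤ A := LinearMap.ker (φ.comp A.subtype).toIntLinearMap with hK
  have hKfin : Module.Finite ℤ K := inferInstance
  have htor : Module.IsTorsion ℤ K := by
    rintro ⟨a, ha⟩
    rw [hK, LinearMap.mem_ker] at ha
    obtain ⟨k, hk, hka⟩ := hφ a ha
    refine ⟨⟨(k : ℤ), mem_nonZeroDivisors_of_ne_zero (by exact_mod_cast hk.ne')⟩, ?_⟩
    apply Subtype.ext
    apply Subtype.ext
    change (((k : ℤ) • (a : A) : A) : M) = 0
    rw [AddSubgroup.coe_zsmul, natCast_zsmul]
    exact hka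
  have hKf : Finite K := Module.finite_of_fg_torsion K htor
  by_cases he : ∃ a₀ : A, φ a₀ = b
  · obtain ⟨a₀, ha₀⟩ := he
    have h1 : (Set.range fun x : K => (x : A) + a₀).Finite := Set.finite_range _
    refine h1.subset ?_
    intro a ha
    have h2 : a - a₀ ∈ K := by
      rw [hK, LinearMap.mem_ker]
      change φ ((a - a₀ : A) : M) = 0
      rw [AddSubgroup.coe_sub, map_sub, ha₀]
      rw [Set.mem_ofPred_eq] at ha
      rw [ha, sub_self]
    exact ⟨⟨a - a₀, h2⟩, by simp⟩
  · have h3 : {a : A | φ a = b} = ∅ := by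
      ext a
      simp only [Set.mem_ofPred_eq, Set.mem_empty_iff_false, iff_false]
      exact fun h => he ⟨a, h⟩
    rw [h3]
    exact Set.finite_empty

/-- THE BASE LATTICE IN THE REAL MODEL.  `W` a finite-dimensional rational space, `φ₁ : M → W` with
kernel the torsion of `M`, `φ₂ : W → ℝ^n` as in `exists_real_hull`, `φ = φ₂ ∘ φ₁`, spanning.
Proof.  Take `A, A₁` from `exists_base`.
(finite) `φ₁ A` is a finitely generated subgroup of `W`, so `{w ∈ φ₁ A : ‖φ₂ w‖ ≤ κ'}` is finite; the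
fibres of `φ₁` on `A` are cosets of the torsion subgroup of the finitely generated group `A`, which is finite.
(coset) `φ(A₁)` spans `ℝ^n` (because for every `m` a positive multiple of `m` lies in `A`, and `e` times this in
`A₁`), so it is `κ`-dense by `exists_covering_radius`; given `a ∈ A` and `v` choose `a₁ ∈ A₁` with
`‖φ a₁ - (v - φ a)‖ ≤ κ` and put `d = a + a₁`: `a - d = -a₁ ∈ A₁ ⊆ t⁻¹ • A`. -/
theorem exists_base_real {G M W : Type*} [Group G] [AddCommGroup M] [DistribMulAction G M]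
    [AddCommGroup W] [Module ℚ W] (t : G)
    (F : Finset M) (hF : AddSubgroup.closure {x : M | ∃ k : ℤ, ∃ m ∈ F, x = t ^ k • m} = ⊤)
    (f : Polynomial ℤ) (hf : f ≠ 0) (hfm : ∀ m : M, f.sum (fun k a => a • (t ^ k • m)) = 0)
    (φ₁ : M →+ W) (hφ₁ : ∀ m : M, φ₁ m = 0 ↔ ∃ k : ℕ, 0 < k ∧ k • m = 0)
    {n : ℕ} (φ₂ : W →+ (Fin n → ℝ))
    (hspan : Submodule.span ℝ (Set.range fun m => φ₂ (φ₁ m)) = ⊤)
    (hfin : ∀ (A : AddSubgroup W), A.FG → ∀ κ : ℝ, {w : W | w ∈ A ∧ ‖φ₂ w‖ ≤ κ}.Finite) :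
    ∃ A : AddSubgroup M, A.FG ∧ (∀ m : M, ∃ n : ℕ, m ∈ Win t A n) ∧
      (∃ κ : ℝ, ∀ a ∈ A, ∀ v : Fin n → ℝ, ∃ d ∈ A, ‖φ₂ (φ₁ d) - v‖ ≤ κ ∧
        ∃ b ∈ A, a - d = t⁻¹ • b) ∧
      (∀ κ' : ℝ, {d : M | d ∈ A ∧ ‖φ₂ (φ₁ d)‖ ≤ κ'}.Finite) := by
  obtain ⟨A, A₁, hA, hcov, hA₁, ht, ⟨e, he, heA⟩, htor⟩ := exists_base t F hF f hf hfm
  refine ⟨A, hA, hcov, ?_, ?_⟩
  · set φ : M →+ (Fin n → ℝ) := φ₂.comp φ₁ with hφ
    have hL : Submodule.span ℝ ((A₁.map φ : AddSubgroup (Fin n → ℝ)) : Set (Fin n → ℝ)) = ⊤ := by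
      rw [eq_top_iff, ← hspan, Submodule.span_le]
      rintro _ ⟨m, rfl⟩
      obtain ⟨k, hk, hkm⟩ := htor m
      have h1 : φ (e • (k • m)) ∈ Submodule.span ℝ
          ((A₁.map φ : AddSubgroup (Fin n → ℝ)) : Set (Fin n → ℝ)) :=
        Submodule.subset_span ⟨e • (k • m), heA _ hkm, rfl⟩
      have h2 : φ₂ (φ₁ m) = ((e * k : ℕ) : ℝ)⁻¹ • φ (e • (k • m)) := by
        have h3 : φ (e • (k • m)) = ((e * k : ℕ) : ℝ) • φ₂ (φ₁ m) := by
          rw [smul_smul, map_nsmul, Nat.cast_smul_eq_nsmul]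
          rfl
        rw [h3, smul_smul, inv_mul_cancel₀, one_smul]
        exact_mod_cast (Nat.mul_pos he hk).ne'
      change φ₂ (φ₁ m) ∈ _
      rw [h2]
      exact Submodule.smul_mem _ _ h1
    obtain ⟨κ, hκ⟩ := exists_covering_radius (A₁.map φ) hL
    refine ⟨κ, fun a ha v => ?_⟩
    obtain ⟨l, ⟨a₁, ha₁, rfl⟩, hl⟩ := hκ (v - φ a)
    obtain ⟨b, hb, hab⟩ := ht a₁ ha₁
    refine ⟨a + a₁, A.add_mem ha (hA₁ ha₁), ?_, -b, A.neg_mem hb, ?_⟩
    · have h4 : φ₂ (φ₁ (a + a₁)) - v = φ a₁ - (v - φ a) := by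
        rw [map_add, map_add]
        change φ a + φ a₁ - v = _
        abel
      rw [h4]
      exact hl
    · rw [smul_neg, ← hab]
      abel
  · intro κ'
    have hAm : (A.map φ₁).FG := by
      obtain ⟨S, hS⟩ := hA
      exact ⟨S.image φ₁, by rw [Finset.coe_image, ← AddMonoidHom.map_closure, hS]⟩
    have h1 := hfin (A.map φ₁) hAm κ'
    have h2 : {a : A | ‖φ₂ (φ₁ a)‖ ≤ κ'}.Finite := by
      have h3 : {a : A | ‖φ₂ (φ₁ a)‖ ≤ κ'} =
          ⋃ w ∈ {w : W | w ∈ A.map φ₁ ∧ ‖φ₂ w‖ ≤ κ'}, {a : A | φ₁ a = w} := by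
        ext a
        simp only [Set.mem_ofPred_eq, Set.mem_iUnion, exists_prop]
        constructor
        · intro h
          exact ⟨φ₁ a, ⟨⟨a, a.2, rfl⟩, h⟩, rfl⟩
        · rintro ⟨w, ⟨-, h⟩, rfl⟩
          exact h
      rw [h3]
      exact h1.biUnion fun w _ => L5_fib A hA φ₁ (fun m hm => (hφ₁ m).mp hm) w
    refine (h2.image Subtype.val).subset ?_
    rintro d ⟨hd, hdk⟩
    exact ⟨⟨d, hd⟩, hdk, rfl⟩

/-- For a finitely generated subgroup `A` and a finite set of group elements there is one window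
containing all translates. -/
theorem exists_win_const {G M : Type*} [Group G] [AddCommGroup M] [DistribMulAction G M] (t : G)
    (A : AddSubgroup M) (hA : A.FG) (hcov : ∀ m : M, ∃ n : ℕ, m ∈ Win t A n) (X : Set G)
    (hX : X.Finite) : ∃ c : ℕ, ∀ s ∈ X, ∀ a ∈ A, s • a ∈ Win t A c := by
  choose N hN using hcov
  obtain ⟨S, hS⟩ := hA
  refine ⟨hX.toFinset.sup fun s => S.sup fun m => N (s • m), fun s hs a ha => ?_⟩
  set c : ℕ := hX.toFinset.sup fun s => S.sup fun m => N (s • m) with hc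
  have h1 : A ≤ (Win t A c).comap (DistribSMul.toAddMonoidHom M s) := by
    conv_lhs => rw [← hS]
    rw [AddSubgroup.closure_le]
    intro m hm
    have h2 : N (s • m) ≤ c := by
      have h3 : N (s • m) ≤ S.sup fun m => N (s • m) :=
        Finset.le_sup (f := fun m => N (s • m)) (Finset.mem_coe.mp hm)
      exact h3.trans (Finset.le_sup (f := fun s => S.sup fun m => N (s • m))
        (hX.mem_toFinset.mpr hs))
    exact L5_win_mono t A h2 (hN (s • m))
  exact h1 ha

end Pool.MP4dac8d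
end

section

/-! AND task N1: common annihilators; Noetherian property; torsion. -/

set_option autoImplicit false
open Classical
open scoped Pointwise

namespace Pool.MP4dac8d

private theorem N1_gen_le {Λ M : Type*} [Monoid Λ] [AddCommGroup M] (U : Λ →* Module.End ℤ M)
    (F : Finset M) (N : AddSubgroup M) (hinv : ∀ q : Λ, ∀ a ∈ N, U q a ∈ N)
    (hF : ∀ m ∈ F, m ∈ N) :
    AddSubgroup.closure {x : M | ∃ q : Λ, ∃ m ∈ F, x = U q m} ≤ N := by
  rw [AddSubgroup.closure_le]
  rintro x ⟨q, m, hm, rfl⟩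
  exact hinv q m (hF m hm)

private theorem N1_gen_inv {Λ M : Type*} [Monoid Λ] [AddCommGroup M] (U : Λ →* Module.End ℤ M)
    (F : Finset M) (q : Λ) (a : M)
    (ha : a ∈ AddSubgroup.closure {x : M | ∃ q : Λ, ∃ m ∈ F, x = U q m}) :
    U q a ∈ AddSubgroup.closure {x : M | ∃ q : Λ, ∃ m ∈ F, x = U q m} := by
  have h1 : AddSubgroup.closure {x : M | ∃ q : Λ, ∃ m ∈ F, x = U q m} ≤
      (AddSubgroup.closure {x : M | ∃ q : Λ, ∃ m ∈ F, x = U q m}).comap (U q).toAddMonoidHom := by
    rw [AddSubgroup.closure_le]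
    rintro x ⟨q', m, hm, rfl⟩
    apply AddSubgroup.subset_closure
    refine ⟨q * q', m, hm, ?_⟩
    rw [map_mul]
    rfl
  exact h1 ha

private theorem N1_mem {Λ M : Type*} [Monoid Λ] [AddCommGroup M] (U : Λ →* Module.End ℤ M)
    (F : Finset M) {m : M} (hm : m ∈ F) :
    m ∈ AddSubgroup.closure {x : M | ∃ q : Λ, ∃ m ∈ F, x = U q m} := by
  apply AddSubgroup.subset_closure
  refine ⟨1, m, hm, ?_⟩
  rw [map_one]
  rfl

private theorem N1_comm {Λ M : Type*} [CommGroup Λ] [AddCommGroup M]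
    (U : Λ →* Module.End ℤ M) (b : MonoidAlgebra ℤ Λ) (q : Λ) (a : M) :
    MonoidAlgebra.lift ℤ (Module.End ℤ M) Λ U b (U q a) =
      U q (MonoidAlgebra.lift ℤ (Module.End ℤ M) Λ U b a) := by
  have h1 : MonoidAlgebra.lift ℤ (Module.End ℤ M) Λ U (MonoidAlgebra.of ℤ Λ q) = U q :=
    MonoidAlgebra.lift_of U q
  rw [← h1, ← Module.End.mul_apply, ← Module.End.mul_apply, ← map_mul, ← map_mul, mul_comm]

/-- An element of the group ring which kills the generators kills everything. -/
private theorem N1_kill {Λ M : Type*} [CommGroup Λ] [AddCommGroup M]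
    (U : Λ →* Module.End ℤ M) (F : Finset M) (b : MonoidAlgebra ℤ Λ)
    (hb : ∀ m ∈ F, MonoidAlgebra.lift ℤ (Module.End ℤ M) Λ U b m = 0) (a : M)
    (ha : a ∈ AddSubgroup.closure {x : M | ∃ q : Λ, ∃ m ∈ F, x = U q m}) :
    MonoidAlgebra.lift ℤ (Module.End ℤ M) Λ U b a = 0 := by
  have h1 : AddSubgroup.closure {x : M | ∃ q : Λ, ∃ m ∈ F, x = U q m} ≤
      (MonoidAlgebra.lift ℤ (Module.End ℤ M) Λ U b).toAddMonoidHom.ker := by
    rw [AddSubgroup.closure_le]
    rintro x ⟨q', m, hm, rfl⟩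
    change MonoidAlgebra.lift ℤ (Module.End ℤ M) Λ U b (U q' m) = 0
    rw [N1_comm, hb m hm, map_zero]
  exact h1 ha

open Polynomial in
/-- The polynomial with the coefficients `c`. -/
private theorem N1_coeff {n : ℕ} (c : Fin n → Fin n → ℤ) (j k : Fin n) :
    ((∑ j : Fin n, ∑ k : Fin n, C (C (c j k) * X ^ (j : ℕ)) * X ^ (k : ℕ) :
      Polynomial (Polynomial ℤ)).coeff k).coeff j = c j k := by
  rw [Polynomial.finsetSum_coeff, Polynomial.finsetSum_coeff, Finset.sum_eq_single j]
  · rw [Polynomial.finsetSum_coeff, Polynomial.finsetSum_coeff, Finset.sum_eq_single k]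
    · rw [Polynomial.coeff_C_mul, Polynomial.coeff_X_pow, if_pos rfl, mul_one,
        Polynomial.coeff_C_mul, Polynomial.coeff_X_pow, if_pos rfl, mul_one]
    · intro k' _ hk'
      have h1 : (k : ℕ) ≠ (k' : ℕ) := fun h => hk' (Fin.ext h.symm)
      rw [Polynomial.coeff_C_mul, Polynomial.coeff_X_pow, if_neg h1, mul_zero,
        Polynomial.coeff_zero]
    · intro h
      exact absurd (Finset.mem_univ k) h
  · intro j' _ hj'
    have h1 : (j : ℕ) ≠ (j' : ℕ) := fun h => hj' (Fin.ext h.symm)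
    rw [Polynomial.finsetSum_coeff, Polynomial.finsetSum_coeff]
    apply Finset.sum_eq_zero
    intro k' _
    rw [Polynomial.coeff_C_mul, Polynomial.coeff_X_pow]
    by_cases h2 : (k : ℕ) = (k' : ℕ)
    · rw [if_pos h2, mul_one, Polynomial.coeff_C_mul, Polynomial.coeff_X_pow, if_neg h1, mul_zero]
    · rw [if_neg h2, mul_zero, Polynomial.coeff_zero]
  · intro h
    exact absurd (Finset.mem_univ j) h

open Polynomial in
private theorem N1_expand (P : Polynomial (Polynomial ℤ)) : ∃ n : ℕ,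
    P = ∑ j : Fin n, ∑ k : Fin n, C (C ((P.coeff k).coeff j) * X ^ (j : ℕ)) * X ^ (k : ℕ) ∧
    ∀ j k : ℕ, (P.coeff k).coeff j ≠ 0 → j < n ∧ k < n := by
  set n : ℕ := P.natDegree + (P.support.sup fun k => (P.coeff k).natDegree) + 1 with hn
  have hP : P.natDegree < n := by omega
  have hc : ∀ k, (P.coeff k).natDegree < n := by
    intro k
    by_cases hk : k ∈ P.support
    · have h1 : (P.coeff k).natDegree ≤ P.support.sup fun k => (P.coeff k).natDegree :=
        Finset.le_sup (f := fun k => (P.coeff k).natDegree) hk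
      omega
    · rw [Polynomial.notMem_support_iff] at hk
      rw [hk, Polynomial.natDegree_zero]
      omega
  refine ⟨n, ?_, ?_⟩
  · conv_lhs => rw [P.as_sum_range' n hP]
    rw [Finset.sum_comm, ← Fin.sum_univ_eq_sum_range (fun k => Polynomial.monomial k (P.coeff k))]
    apply Finset.sum_congr rfl
    intro k _
    conv_lhs => rw [(P.coeff k).as_sum_range' n (hc k)]
    rw [← Fin.sum_univ_eq_sum_range (fun j => Polynomial.monomial j ((P.coeff k).coeff j)),
      map_sum]
    apply Finset.sum_congr rfl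
    intro j _
    rw [← Polynomial.C_mul_X_pow_eq_monomial, Polynomial.C_mul_X_pow_eq_monomial (R := ℤ)]
  · intro j k hjk
    constructor
    · exact (Polynomial.le_natDegree_of_ne_zero hjk).trans_lt (hc k)
    · refine (Polynomial.le_natDegree_of_ne_zero (p := P) (n := k) ?_).trans_lt hP
      intro h
      rw [h, Polynomial.coeff_zero] at hjk
      exact hjk rfl

private theorem N1_nonneg_mod {p : ℕ} (P : Polynomial (Polynomial ℤ)) :
    P.map (Polynomial.mapRingHom (Int.castRingHom (ZMod p))) ≠ 0 ↔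
      ∃ j k : ℕ, ¬ (p : ℤ) ∣ (P.coeff k).coeff j := by
  constructor
  · intro h
    by_contra hcon
    push Not at hcon
    apply h
    ext k j
    rw [Polynomial.coeff_map, Polynomial.coe_mapRingHom, Polynomial.coeff_map,
      Polynomial.coeff_zero, Polynomial.coeff_zero, eq_intCast]
    exact (ZMod.intCast_zmod_eq_zero_iff_dvd _ _).mpr (hcon j k)
  · rintro ⟨j, k, hjk⟩ h
    apply hjk
    have h1 := congrArg (fun Q : Polynomial (Polynomial (ZMod p)) => (Q.coeff k).coeff j) h
    rw [Polynomial.coeff_map, Polynomial.coe_mapRingHom, Polynomial.coeff_map,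
      Polynomial.coeff_zero, Polynomial.coeff_zero, eq_intCast] at h1
    exact (ZMod.intCast_zmod_eq_zero_iff_dvd _ _).mp h1

open Polynomial in
private theorem N1_eval {Λ M : Type*} [CommGroup Λ] [AddCommGroup M]
    (U : Λ →* Module.End ℤ M) (q₁ q₂ : Λ) {n : ℕ} (c : Fin n → Fin n → ℤ) (a : M) :
    MonoidAlgebra.lift ℤ (Module.End ℤ M) Λ U
      (Polynomial.eval₂ (Polynomial.aeval (MonoidAlgebra.of ℤ Λ q₁)).toRingHom
        (MonoidAlgebra.of ℤ Λ q₂)
        (∑ j : Fin n, ∑ k : Fin n, C (C (c j k) * X ^ (j : ℕ)) * X ^ (k : ℕ) :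
          Polynomial (Polynomial ℤ))) a =
      ∑ j, ∑ k, c j k • (U q₁ ^ (j : ℕ) * U q₂ ^ (k : ℕ)) a := by
  have h1 : ∀ q : Λ, MonoidAlgebra.lift ℤ (Module.End ℤ M) Λ U (MonoidAlgebra.of ℤ Λ q) = U q :=
    fun q => MonoidAlgebra.lift_of U q
  rw [Polynomial.eval₂_finsetSum, map_sum, LinearMap.sum_apply]
  apply Finset.sum_congr rfl
  intro j _
  rw [Polynomial.eval₂_finsetSum, map_sum, LinearMap.sum_apply]
  apply Finset.sum_congr rfl
  intro k _
  rw [Polynomial.eval₂_mul, Polynomial.eval₂_C, Polynomial.eval₂_X_pow]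
  have h2 : (Polynomial.aeval (MonoidAlgebra.of ℤ Λ q₁)).toRingHom
      (C (c j k) * X ^ (j : ℕ) : Polynomial ℤ) =
      algebraMap ℤ (MonoidAlgebra ℤ Λ) (c j k) * (MonoidAlgebra.of ℤ Λ q₁) ^ (j : ℕ) := by
    change Polynomial.aeval (MonoidAlgebra.of ℤ Λ q₁) (C (c j k) * X ^ (j : ℕ) : Polynomial ℤ) = _
    rw [map_mul, Polynomial.aeval_C, map_pow, Polynomial.aeval_X]
  rw [h2, map_mul, map_mul, map_pow, map_pow, h1, h1, AlgHom.commutes, mul_assoc,
    Module.End.mul_apply, Module.algebraMap_end_apply]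

/-- A common nonzero polynomial killing all of `M` (product over a finite generating set; the
`U q'` commute with `f(U q)`). -/
theorem exists_killer_one {Λ M : Type*} [CommGroup Λ] [AddCommGroup M]
    (U : Λ →* Module.End ℤ M) (hfg : FGov U ⊤) (q : Λ)
    (h1 : ∀ a : M, ∃ f : Polynomial ℤ, f ≠ 0 ∧ Polynomial.aeval (U q) f a = 0) :
    ∃ f : Polynomial ℤ, f ≠ 0 ∧ Polynomial.aeval (U q) f = 0 := by
  obtain ⟨F, hF⟩ := hfg
  choose f hf0 hf using h1
  refine ⟨∏ m ∈ F, f m, Finset.prod_ne_zero_iff.mpr fun m _ => hf0 m, ?_⟩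
  have hal : ∀ g : Polynomial ℤ, Polynomial.aeval (U q) g =
      MonoidAlgebra.lift ℤ (Module.End ℤ M) Λ U
        (Polynomial.aeval (MonoidAlgebra.of ℤ Λ q) g) := by
    intro g
    rw [← Polynomial.aeval_algHom_apply, MonoidAlgebra.lift_of]
  refine LinearMap.ext fun a => ?_
  rw [LinearMap.zero_apply, hal]
  apply N1_kill U F
  · intro m hm
    rw [← hal]
    obtain ⟨g, hg⟩ := Finset.dvd_prod_of_mem f hm
    rw [hg, mul_comm, map_mul, Module.End.mul_apply, hf m, map_zero]
  · rw [hF]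
    exact AddSubgroup.mem_top a

/-- A common polynomial in two variables, nonzero mod `p`, killing all of `N`.  The coefficient
matrices `c` are polynomials in `x, y`; take the product over a finite generating set of `N`
(nonzero mod `p` because `𝔽_p[x,y]` is a domain; encode as `Polynomial (Polynomial ℤ)` or
`MvPolynomial (Fin 2) ℤ`); the operators commute with all `U q`. -/
theorem exists_killer_two {Λ M : Type*} [CommGroup Λ] [AddCommGroup M]
    (U : Λ →* Module.End ℤ M) (N : AddSubgroup M) (hN : FGov U N) (p : ℕ) (hp : p.Prime)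
    (q₁ q₂ : Λ) (h2 : ∀ a ∈ N, ∃ (n : ℕ) (c : Fin n → Fin n → ℤ), (∃ j k, ¬ (p : ℤ) ∣ c j k) ∧
      ∑ j, ∑ k, c j k • (U q₁ ^ (j : ℕ) * U q₂ ^ (k : ℕ)) a = 0) :
    ∃ (n : ℕ) (c : Fin n → Fin n → ℤ), (∃ j k, ¬ (p : ℤ) ∣ c j k) ∧
      ∀ a ∈ N, ∑ j, ∑ k, c j k • (U q₁ ^ (j : ℕ) * U q₂ ^ (k : ℕ)) a = 0 := by
  have : Fact p.Prime := ⟨hp⟩
  obtain ⟨F, hF⟩ := hN
  set ev : Polynomial (Polynomial ℤ) →+* MonoidAlgebra ℤ Λ :=
    Polynomial.eval₂RingHom (Polynomial.aeval (MonoidAlgebra.of ℤ Λ q₁)).toRingHom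
      (MonoidAlgebra.of ℤ Λ q₂) with hev
  have hex : ∀ m : M, ∃ P : Polynomial (Polynomial ℤ),
      P.map (Polynomial.mapRingHom (Int.castRingHom (ZMod p))) ≠ 0 ∧
      (m ∈ F → MonoidAlgebra.lift ℤ (Module.End ℤ M) Λ U (ev P) m = 0) := by
    intro m
    by_cases hm : m ∈ F
    · have hmN : m ∈ N := by
        rw [← hF]
        exact N1_mem U F hm
      obtain ⟨n, c, ⟨j, k, hjk⟩, hc⟩ := h2 m hmN
      refine ⟨∑ j : Fin n, ∑ k : Fin n, Polynomial.C (Polynomial.C (c j k) *
        Polynomial.X ^ (j : ℕ)) * Polynomial.X ^ (k : ℕ), ?_, fun _ => ?_⟩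
      · rw [N1_nonneg_mod]
        refine ⟨j, k, ?_⟩
        rw [N1_coeff]
        exact hjk
      · rw [← hc]
        exact N1_eval U q₁ q₂ c m
    · exact ⟨1, by rw [Polynomial.map_one]; exact one_ne_zero, fun h => absurd h hm⟩
  choose P hP0 hP using hex
  obtain ⟨n, hn, hn'⟩ := N1_expand (∏ m ∈ F, P m)
  refine ⟨n, fun j k => ((∏ m ∈ F, P m).coeff k).coeff j, ?_, ?_⟩
  · have h3 : (∏ m ∈ F, P m).map (Polynomial.mapRingHom (Int.castRingHom (ZMod p))) ≠ 0 := by
      rw [Polynomial.map_prod]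
      exact Finset.prod_ne_zero_iff.mpr fun m _ => hP0 m
    obtain ⟨j, k, hjk⟩ := (N1_nonneg_mod _).mp h3
    have h4 : ((∏ m ∈ F, P m).coeff k).coeff j ≠ 0 := by
      intro h
      rw [h] at hjk
      exact hjk (dvd_zero _)
    exact ⟨⟨j, (hn' j k h4).1⟩, ⟨k, (hn' j k h4).2⟩, hjk⟩
  · intro a ha
    rw [← N1_eval U q₁ q₂ (fun j k => ((∏ m ∈ F, P m).coeff k).coeff j) a, ← hn]
    apply N1_kill U F
    · intro m hm
      change MonoidAlgebra.lift ℤ (Module.End ℤ M) Λ U (ev (∏ m ∈ F, P m)) m = 0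
      obtain ⟨g, hg⟩ := Finset.dvd_prod_of_mem P hm
      rw [hg, mul_comm, map_mul, map_mul, Module.End.mul_apply, hP m hm, map_zero]
    · rw [hF]
      exact ha

/-- The group ring acts. -/
private theorem N1_fg {Λ M : Type*} [CommGroup Λ] [Group.FG Λ] [AddCommGroup M]
    (U : Λ →* Module.End ℤ M) (N₀ N : AddSubgroup M) (h0 : FGov U N₀) (hle : N ≤ N₀)
    (hinv : ∀ q : Λ, ∀ a ∈ N, U q a ∈ N) : FGov U N := by
  let hmod : Module (MonoidAlgebra ℤ Λ) M :=
    Module.compHom M (MonoidAlgebra.lift ℤ (Module.End ℤ M) Λ U).toRingHom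
  have hsmul : ∀ (b : MonoidAlgebra ℤ Λ) (m : M),
      b • m = MonoidAlgebra.lift ℤ (Module.End ℤ M) Λ U b m := fun _ _ => rfl
  have hof : ∀ (q : Λ) (m : M), MonoidAlgebra.of ℤ Λ q • m = U q m := by
    intro q m
    rw [hsmul, MonoidAlgebra.lift_of]
  -- invariant subgroups are submodules
  have hsub : ∀ N' : AddSubgroup M, (∀ q : Λ, ∀ a ∈ N', U q a ∈ N') →
      ∀ (b : MonoidAlgebra ℤ Λ) (a : M), a ∈ N' → b • a ∈ N' := by
    intro N' hN' b a ha
    induction b using MonoidAlgebra.induction_on with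
    | of q =>
      rw [hof]
      exact hN' q a ha
    | add x y hx hy =>
      rw [add_smul]
      exact N'.add_mem hx hy
    | smul r x hx =>
      rw [hsmul, map_smul, LinearMap.smul_apply]
      exact N'.zsmul_mem hx r
  have hspan : ∀ F : Finset M, ∀ a : M,
      a ∈ Submodule.span (MonoidAlgebra ℤ Λ) (F : Set M) ↔
      a ∈ AddSubgroup.closure {x : M | ∃ q : Λ, ∃ m ∈ F, x = U q m} := by
    intro F a
    constructor
    · intro ha
      let P : Submodule (MonoidAlgebra ℤ Λ) M :=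
        { (AddSubgroup.closure {x : M | ∃ q : Λ, ∃ m ∈ F, x = U q m}) with
          smul_mem' := fun b a ha => hsub _ (fun q a ha => N1_gen_inv U F q a ha) b a ha }
      have h1 : Submodule.span (MonoidAlgebra ℤ Λ) (F : Set M) ≤ P :=
        Submodule.span_le.mpr fun m hm => N1_mem U F hm
      exact h1 ha
    · intro ha
      have h1 : AddSubgroup.closure {x : M | ∃ q : Λ, ∃ m ∈ F, x = U q m} ≤
          (Submodule.span (MonoidAlgebra ℤ Λ) (F : Set M)).toAddSubgroup := by
        rw [AddSubgroup.closure_le]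
        rintro x ⟨q, m, hm, rfl⟩
        rw [← hof]
        exact Submodule.smul_mem _ _ (Submodule.subset_span hm)
      exact h1 ha
  obtain ⟨F₀, hF₀⟩ := h0
  have hmon : Monoid.FG Λ := inferInstance
  have hnoeth : IsNoetherianRing (MonoidAlgebra ℤ Λ) :=
    Algebra.FiniteType.isNoetherianRing ℤ (MonoidAlgebra ℤ Λ)
  have hN₀ : IsNoetherian (MonoidAlgebra ℤ Λ)
      (Submodule.span (MonoidAlgebra ℤ Λ) (F₀ : Set M)) :=
    isNoetherian_of_fg_of_noetherian _ ⟨F₀, rfl⟩
  let Q : Submodule (MonoidAlgebra ℤ Λ) M :=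
    { N with smul_mem' := fun b a ha => hsub N hinv b a ha }
  have hQ : Q ≤ Submodule.span (MonoidAlgebra ℤ Λ) (F₀ : Set M) := by
    intro a ha
    rw [hspan, hF₀]
    exact hle ha
  obtain ⟨F, hF⟩ : Q.FG := isNoetherian_submodule.mp hN₀ Q hQ
  refine ⟨F, ?_⟩
  ext a
  rw [← hspan, hF]
  rfl

/-- NOETHERIAN PROPERTY.  Invariant subgroups of finitely generated modules over `ℤ[Λ]`, `Λ` a
finitely generated abelian group, are finitely generated.  (`MonoidAlgebra ℤ Λ` is a finite type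
algebra over `ℤ` (`MonoidAlgebra.finiteType_of_fg`), hence Noetherian
(`Algebra.FiniteType.isNoetherianRing`); it acts on `M` by `MonoidAlgebra.lift`; `N₀` is a finitely generated
submodule, so Noetherian.) -/
theorem fg_of_le {Λ M : Type*} [CommGroup Λ] [Group.FG Λ] [AddCommGroup M]
    (U : Λ →* Module.End ℤ M) (N₀ N : AddSubgroup M) (h0 : FGov U N₀) (hle : N ≤ N₀)
    (hinv : ∀ q : Λ, ∀ a ∈ N, U q a ∈ N) : FGov U N := by
  exact N1_fg U N₀ N h0 hle hinv

/-- The torsion of a finitely generated module over `ℤ[Λ]` has bounded exponent. -/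
theorem exists_torsion_exponent {Λ M : Type*} [CommGroup Λ] [Group.FG Λ] [AddCommGroup M]
    (U : Λ →* Module.End ℤ M) (hfg : FGov U ⊤) :
    ∃ e : ℕ, 0 < e ∧ ∀ a : M, (∃ k : ℕ, 0 < k ∧ k • a = 0) → e • a = 0 := by
  set T : AddSubgroup M :=
    { carrier := {a : M | ∃ k : ℕ, 0 < k ∧ k • a = 0}
      zero_mem' := ⟨1, one_pos, smul_zero _⟩
      add_mem' := by
        rintro a b ⟨k, hk, hka⟩ ⟨l, hl, hlb⟩
        refine ⟨k * l, Nat.mul_pos hk hl, ?_⟩
        rw [smul_add, mul_comm, mul_smul, hka, smul_zero, mul_comm, mul_smul, hlb, smul_zero,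
          add_zero]
      neg_mem' := by
        rintro a ⟨k, hk, hka⟩
        exact ⟨k, hk, by rw [smul_neg, hka, neg_zero]⟩ } with hT
  have hTfg : FGov U T := by
    apply fg_of_le U ⊤ T hfg le_top
    rintro q a ⟨k, hk, hka⟩
    exact ⟨k, hk, by rw [← map_nsmul, hka, map_zero]⟩
  obtain ⟨F, hF⟩ := hTfg
  have hFT : ∀ m : M, ∃ k : ℕ, 0 < k ∧ (m ∈ F → k • m = 0) := by
    intro m
    by_cases hm : m ∈ F
    · have h1 : m ∈ T := by
        rw [← hF]
        exact N1_mem U F hm
      obtain ⟨k, hk, hkm⟩ := h1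
      exact ⟨k, hk, fun _ => hkm⟩
    · exact ⟨1, one_pos, fun h => absurd h hm⟩
  choose k hk0 hk using hFT
  refine ⟨∏ m ∈ F, k m, Finset.prod_pos fun m _ => hk0 m, fun a ha => ?_⟩
  have h1 : a ∈ AddSubgroup.closure {x : M | ∃ q : Λ, ∃ m ∈ F, x = U q m} := by
    rw [hF]
    exact ha
  have h2 : AddSubgroup.closure {x : M | ∃ q : Λ, ∃ m ∈ F, x = U q m} ≤
      tor M (∏ m ∈ F, k m) := by
    rw [AddSubgroup.closure_le]
    rintro x ⟨q, m, hm, rfl⟩
    change (∏ m ∈ F, k m) • U q m = 0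
    obtain ⟨g, hg⟩ := Finset.dvd_prod_of_mem k hm
    rw [← map_nsmul, hg, mul_comm, mul_smul, hk m hm, smul_zero, map_zero]
  exact h2 h1

/-- If `M[p]` is finitely generated for all primes `p ∣ e`, then so is `M[e]`.
Induction on `e` (`Nat.recOnMul` or on the number of prime factors): for `e = p e'` multiplication by `e'` maps
`M[p e']` to `M[p]` with kernel `M[e']`; the image is an invariant subgroup of `M[p]`, so finitely generated
(`fg_of_le`); lift finitely many generators. -/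
theorem fgov_tor_of_primes {Λ M : Type*} [CommGroup Λ] [Group.FG Λ] [AddCommGroup M]
    (U : Λ →* Module.End ℤ M) (e : ℕ) (he : 0 < e)
    (h : ∀ p : ℕ, p.Prime → p ∣ e → FGov U (tor M p)) : FGov U (tor M e) := by
  induction e using Nat.strong_induction_on with
  | _ e ih =>
    by_cases he1 : e = 1
    · refine ⟨∅, ?_⟩
      have h1 : {x : M | ∃ q : Λ, ∃ m ∈ (∅ : Finset M), x = U q m} = ∅ := by
        ext x
        simp
      rw [h1, AddSubgroup.closure_empty, he1]
      symm
      rw [AddSubgroup.eq_bot_iff_forall]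
      intro a ha
      change 1 • a = 0 at ha
      rwa [one_smul] at ha
    · have hp : e.minFac.Prime := Nat.minFac_prime he1
      set p : ℕ := e.minFac with hpdef
      obtain ⟨e', he'⟩ : p ∣ e := Nat.minFac_dvd e
      have he'0 : 0 < e' := by
        rcases Nat.eq_zero_or_pos e' with h0 | h0
        · rw [h0, mul_zero] at he'
          omega
        · exact h0
      have hlt : e' < e := by
        rw [he']
        exact lt_mul_of_one_lt_left he'0 hp.one_lt
      obtain ⟨F', hF'⟩ := ih e' hlt he'0 fun r hr hre =>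
        h r hr (hre.trans ⟨p, by rw [he', mul_comm]⟩)
      -- the image of multiplication by `e'`
      set I : AddSubgroup M := (tor M e).map (nsmulAddMonoidHom e') with hI
      have hIp : I ≤ tor M p := by
        rintro _ ⟨a, ha, rfl⟩
        change p • (e' • a) = 0
        rw [smul_smul, ← he']
        exact ha
      have hIfg : FGov U I := by
        apply fg_of_le U (tor M p) I (h p hp ⟨e', he'⟩) hIp
        rintro q _ ⟨a, ha, rfl⟩
        refine ⟨U q a, ?_, ?_⟩
        · change e • U q a = 0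
          have ha' : e • a = 0 := ha
          rw [← map_nsmul, ha', map_zero]
        · change e' • U q a = U q (e' • a)
          rw [map_nsmul]
      obtain ⟨F, hF⟩ := hIfg
      have hlift : ∀ m : M, ∃ b : M, m ∈ F → b ∈ tor M e ∧ e' • b = m := by
        intro m
        by_cases hm : m ∈ F
        · have h1 : m ∈ I := by
            rw [← hF]
            exact N1_mem U F hm
          obtain ⟨b, hb, hbm⟩ := h1
          exact ⟨b, fun _ => ⟨hb, hbm⟩⟩
        · exact ⟨0, fun h => absurd h hm⟩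
      choose lf hlf using hlift
      refine ⟨F' ∪ F.image lf, ?_⟩
      apply le_antisymm
      · apply N1_gen_le
        · intro q a ha
          change e • U q a = 0
          have ha' : e • a = 0 := ha
          rw [← map_nsmul, ha', map_zero]
        · intro m hm
          rw [Finset.mem_union, Finset.mem_image] at hm
          rcases hm with hm | ⟨m', hm', rfl⟩
          · have h1 : m ∈ tor M e' := by
              rw [← hF']
              exact N1_mem U F' hm
            change e • m = 0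
            have h2 : e' • m = 0 := h1
            rw [he', mul_smul, h2, smul_zero]
          · exact (hlf m' hm').1
      · intro a ha
        have h1 : e' • a ∈ AddSubgroup.closure {x : M | ∃ q : Λ, ∃ m ∈ F, x = U q m} := by
          rw [hF]
          exact ⟨a, ha, rfl⟩
        have h2 : AddSubgroup.closure {x : M | ∃ q : Λ, ∃ m ∈ F, x = U q m} ≤
            (AddSubgroup.closure {x : M | ∃ q : Λ, ∃ m ∈ F' ∪ F.image lf, x = U q m}).map
              (nsmulAddMonoidHom e') := by
          rw [AddSubgroup.closure_le]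
          rintro x ⟨q, m, hm, rfl⟩
          refine ⟨U q (lf m), ?_, ?_⟩
          · apply AddSubgroup.subset_closure
            exact ⟨q, lf m, Finset.mem_union_right _ (Finset.mem_image_of_mem lf hm), rfl⟩
          · change e' • U q (lf m) = U q m
            rw [← map_nsmul, (hlf m hm).2]
        obtain ⟨b, hb, hba⟩ := h2 h1
        have hba' : e' • b = e' • a := hba
        have h3 : a - b ∈ AddSubgroup.closure {x : M | ∃ q : Λ, ∃ m ∈ F', x = U q m} := by
          rw [hF']
          change e' • (a - b) = 0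
          rw [smul_sub, hba', sub_self]
        have h4 : AddSubgroup.closure {x : M | ∃ q : Λ, ∃ m ∈ F', x = U q m} ≤
            AddSubgroup.closure {x : M | ∃ q : Λ, ∃ m ∈ F' ∪ F.image lf, x = U q m} := by
          apply AddSubgroup.closure_mono
          rintro x ⟨q, m, hm, rfl⟩
          exact ⟨q, m, Finset.mem_union_left _ hm, rfl⟩
        have h5 := AddSubgroup.add_mem _ (h4 h3) hb
        rwa [sub_add_cancel] at h5

end Pool.MP4dac8d
end

section

/-! AND task N2: Noether normalisation in characteristic `p`, one step. -/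

set_option autoImplicit false
open Classical
open scoped Pointwise

namespace Pool.MP4dac8d

/-- The embedding `(v_0, v_1, …) ↦ (-N v_0, v_0, v_1, …)` of `ℤ^(d+1)` in `ℤ^(d+2)`. -/
def shear (d N : ℕ) : (Fin (d + 1) → ℤ) →+ (Fin (d + 2) → ℤ) where
  toFun v := Fin.cons (-(N : ℤ) * v 0) v
  map_zero' := by
    funext k
    refine Fin.cases ?_ (fun j => ?_) k <;> simp
  map_add' v w := by
    funext k
    refine Fin.cases ?_ (fun j => ?_) k
    · simp [mul_add]
    · simp

/-- The action restricted along `shear`. -/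
noncomputable def shearAct {M : Type*} [AddCommGroup M] {d : ℕ}
    (U : Multiplicative (Fin (d + 2) → ℤ) →* Module.End ℤ M) (N : ℕ) :
    Multiplicative (Fin (d + 1) → ℤ) →* Module.End ℤ M :=
  U.comp (AddMonoidHom.toMultiplicative (shear d N))

private theorem N2_inv {Λ M : Type*} [Monoid Λ] [AddCommGroup M] (U : Λ →* Module.End ℤ M)
    (F : Finset M) (q : Λ) {a : M}
    (ha : a ∈ AddSubgroup.closure {x : M | ∃ q : Λ, ∃ m ∈ F, x = U q m}) :
    U q a ∈ AddSubgroup.closure {x : M | ∃ q : Λ, ∃ m ∈ F, x = U q m} := by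
  induction ha using AddSubgroup.closure_induction with
  | mem x hx =>
    obtain ⟨q', m, hm, rfl⟩ := hx
    exact AddSubgroup.subset_closure ⟨q * q', m, hm, by rw [map_mul]; rfl⟩
  | zero => rw [map_zero]; exact AddSubgroup.zero_mem _
  | add x y _ _ hx hy => rw [map_add]; exact AddSubgroup.add_mem _ hx hy
  | neg x _ hx => rw [map_neg]; exact AddSubgroup.neg_mem _ hx

private theorem N2_unit {M : Type*} [AddCommGroup M] {p : ℕ} (hp : p.Prime) (H : AddSubgroup M)
    {c : ℤ} (hc : ¬ (p : ℤ) ∣ c) {b : M} (hb : p • b = 0) (h : c • b ∈ H) : b ∈ H := by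
  have h1 : IsCoprime (p : ℤ) c :=
    (Prime.coprime_iff_not_dvd (Nat.prime_iff_prime_int.mp hp)).mpr hc
  obtain ⟨u, v, huv⟩ := h1
  have h2 : b = v • (c • b) := by
    calc b = (1 : ℤ) • b := (one_smul _ _).symm
      _ = (u * p + v * c) • b := by rw [huv]
      _ = u • ((p : ℤ) • b) + v • (c • b) := by rw [add_smul, mul_smul, mul_smul]
      _ = v • (c • b) := by rw [natCast_zsmul, hb, smul_zero, zero_add]
  rw [h2]
  exact AddSubgroup.zsmul_mem _ h _

private theorem N2_zero {M : Type*} [AddCommGroup M] {p : ℕ} {c : ℤ} (hc : (p : ℤ) ∣ c) {b : M}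
    (hb : p • b = 0) : c • b = 0 := by
  obtain ⟨u, rfl⟩ := hc
  rw [mul_comm, mul_smul, natCast_zsmul, hb, smul_zero]

private theorem N2_ex {n N : ℕ} (hN : n ≤ N) {a b : Fin n × Fin n}
    (h : ((a.1 : ℕ) : ℤ) + N * ((a.2 : ℕ) : ℤ) = ((b.1 : ℕ) : ℤ) + N * ((b.2 : ℕ) : ℤ)) :
    a = b := by
  have h1 : (a.1 : ℕ) + N * (a.2 : ℕ) = (b.1 : ℕ) + N * (b.2 : ℕ) := by exact_mod_cast h
  have ha := a.1.isLt
  have hb := b.1.isLt
  have h2 := congrArg (· % N) h1
  simp only [Nat.add_mul_mod_self_left] at h2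
  rw [Nat.mod_eq_of_lt (by omega), Nat.mod_eq_of_lt (by omega)] at h2
  have h3 : N * (a.2 : ℕ) = N * (b.2 : ℕ) := by omega
  have h4 := Nat.eq_of_mul_eq_mul_left (by omega : 0 < N) h3
  exact Prod.ext (Fin.ext h2) (Fin.ext h4)

private theorem N2_vec {d N : ℕ} (j k : ℕ) (a : ℤ) :
    (j • (Pi.single 0 1 : Fin (d + 2) → ℤ) + k • (Pi.single 1 1 : Fin (d + 2) → ℤ)) +
      Pi.single 0 a = shear d N (Pi.single 0 (k : ℤ)) + Pi.single 0 ((j : ℤ) + N * k + a) := by
  funext i
  refine Fin.cases ?_ (fun i => ?_) i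
  · simp [shear]
    ring
  · refine Fin.cases ?_ (fun i => ?_) i
    · simp [shear]
    · have h : (i.succ.succ : Fin (d + 2)) ≠ 1 := Fin.succ_succ_ne_one i
      simp [shear, Fin.succ_ne_zero]
      exact Or.inr (Pi.single_eq_of_ne h 1)

private theorem N2_dec {d N : ℕ} (q : Fin (d + 2) → ℤ) :
    q = shear d N (fun i => q i.succ) + Pi.single 0 (q 0 + N * q 1) := by
  funext i
  refine Fin.cases ?_ (fun i => ?_) i
  · simp [shear]
  · simp [shear, Fin.succ_ne_zero]

/-- NOETHER NORMALISATION, ONE STEP.  `x = U(e_0)`, `y = U(e_1)`; the polynomial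
`∑_{j,k<n} c_{jk} x^j y^k`, nonzero mod `p`, kills the `p`-elementary group `N₁`.  For every `N ≥ n`
the group `N₁` is finitely generated over the sublattice `shear`: here `e_0` acts as `w = y x^(-N)`.
Proof.  `y = w x^N`, so `x^j y^k = x^(j + N k) w^k`; the exponents `j + N k` (`j < n ≤ N`) are distinct.
Let `J` be the largest and `J₀` the smallest exponent `j + N k` with `p ∤ c_{jk}`.  Multiplying the
relation by an inverse of the extreme coefficient mod `p` and by a power of `w`: for `a ∈ N₁`,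
`x^J a` is a combination of the `w^l x^E a`, `J₀ ≤ E < J`, and `x^(J₀) a` one of the `w^l x^E a`,
`J₀ < E ≤ J`.  By induction all `x^E a`, `E ∈ ℤ`, are combinations of the `w^l x^E a`, `J₀ ≤ E ≤ J`.
So if `F` generates `N₁` then `{x^E m : m ∈ F, J₀ ≤ E ≤ J}` generates it over the sublattice
(`q = shear v + E e_0` for every `q`). -/
theorem noether_step {M : Type*} [AddCommGroup M] {d : ℕ}
    (U : Multiplicative (Fin (d + 2) → ℤ) →* Module.End ℤ M) (p : ℕ) (hp : p.Prime)
    (N₁ : AddSubgroup M) (hpN : ∀ a ∈ N₁, p • a = 0) (hfg : FGov U N₁) (n : ℕ)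
    (c : Fin n → Fin n → ℤ) (hc : ∃ j k, ¬ (p : ℤ) ∣ c j k)
    (hkill : ∀ a ∈ N₁, ∑ j, ∑ k, c j k •
      (U (Multiplicative.ofAdd (Pi.single 0 1)) ^ (j : ℕ) *
        U (Multiplicative.ofAdd (Pi.single 1 1)) ^ (k : ℕ)) a = 0)
    (N : ℕ) (hN : n ≤ N) : FGov (shearAct U N) N₁ := by
  obtain ⟨F, hF⟩ := hfg
  have hinv : ∀ q : Multiplicative (Fin (d + 2) → ℤ), ∀ a ∈ N₁, U q a ∈ N₁ := by
    intro q a ha
    rw [← hF] at ha ⊢
    exact N2_inv U F q ha
  have hFN : ∀ m ∈ F, m ∈ N₁ := by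
    intro m hm
    rw [← hF]
    exact AddSubgroup.subset_closure ⟨1, m, hm, by rw [map_one]; rfl⟩
  let S : Finset (Fin n × Fin n) := Finset.univ.filter fun jk => ¬ (p : ℤ) ∣ c jk.1 jk.2
  have hS : S.Nonempty := by
    obtain ⟨j, k, h⟩ := hc
    exact ⟨(j, k), Finset.mem_filter.2 ⟨Finset.mem_univ _, h⟩⟩
  let ex : Fin n × Fin n → ℤ := fun jk => ((jk.1 : ℕ) : ℤ) + N * ((jk.2 : ℕ) : ℤ)
  obtain ⟨s1, hs1, hmax⟩ := Finset.exists_max_image S ex hS
  obtain ⟨s0, hs0, hmin⟩ := Finset.exists_min_image S ex hS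
  let F' : Finset M := (Finset.Icc (ex s0) (ex s1) ×ˢ F).image
    fun Em => U (Multiplicative.ofAdd (Pi.single 0 Em.1)) Em.2
  refine ⟨F', ?_⟩
  apply le_antisymm
  · rw [AddSubgroup.closure_le]
    rintro x ⟨q, m', hm', rfl⟩
    obtain ⟨Em, hEm, rfl⟩ := Finset.mem_image.1 hm'
    exact hinv _ _ (hinv _ _ (hFN _ (Finset.mem_product.1 hEm).2))
  set H := AddSubgroup.closure {x : M | ∃ q : Multiplicative (Fin (d + 1) → ℤ), ∃ m ∈ F',
    x = shearAct U N q m} with hH
  have hHinv : ∀ (q : Multiplicative (Fin (d + 1) → ℤ)) (a : M), a ∈ H → shearAct U N q a ∈ H :=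
    fun q a ha => N2_inv (shearAct U N) F' q ha
  have main : ∀ m ∈ F, ∀ E : ℤ, U (Multiplicative.ofAdd (Pi.single 0 E)) m ∈ H := by
    intro m hm
    -- the extreme coefficient
    have key : ∀ (a : ℤ) (s : Fin n × Fin n), s ∈ S →
        (∀ t ∈ S, t ≠ s → U (Multiplicative.ofAdd (Pi.single 0 (ex t + a))) m ∈ H) →
        U (Multiplicative.ofAdd (Pi.single 0 (ex s + a))) m ∈ H := by
      intro a s hs h
      have h1 := hkill _ (hinv (Multiplicative.ofAdd (Pi.single 0 a)) m (hFN m hm))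
      have h2 : ∀ (j k : Fin n), (U (Multiplicative.ofAdd (Pi.single 0 1)) ^ (j : ℕ) *
          U (Multiplicative.ofAdd (Pi.single 1 1)) ^ (k : ℕ))
          (U (Multiplicative.ofAdd (Pi.single 0 a)) m) =
          shearAct U N (Multiplicative.ofAdd (Pi.single 0 ((k : ℕ) : ℤ)))
            (U (Multiplicative.ofAdd (Pi.single 0 (ex (j, k) + a))) m) := by
        intro j k
        have h3 : (U (Multiplicative.ofAdd (Pi.single 0 1)) ^ (j : ℕ) *
            U (Multiplicative.ofAdd (Pi.single 1 1)) ^ (k : ℕ)) *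
            U (Multiplicative.ofAdd (Pi.single 0 a)) =
            U (Multiplicative.ofAdd (shear d N (Pi.single 0 ((k : ℕ) : ℤ)))) *
              U (Multiplicative.ofAdd (Pi.single 0 (ex (j, k) + a))) := by
          rw [← map_pow U, ← map_pow U, ← map_mul U, ← map_mul U, ← map_mul U, ← ofAdd_nsmul,
            ← ofAdd_nsmul, ← ofAdd_add, ← ofAdd_add, ← ofAdd_add, N2_vec (N := N)]
        exact congrArg (fun f : Module.End ℤ M => f m) h3
      simp only [h2] at h1
      rw [← Fintype.sum_prod_type'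
        (f := fun j k => c j k • shearAct U N (Multiplicative.ofAdd (Pi.single 0 ((k : ℕ) : ℤ)))
            (U (Multiplicative.ofAdd (Pi.single 0 (ex (j, k) + a))) m)),
        ← Finset.add_sum_erase _ _ (Finset.mem_univ s)] at h1
      have hp0 : ∀ q q' : _, p • shearAct U N q (U q' m) = 0 := fun q q' =>
        hpN _ (hinv _ _ (hinv _ _ (hFN m hm)))
      have h4 : c s.1 s.2 • shearAct U N (Multiplicative.ofAdd (Pi.single 0 ((s.2 : ℕ) : ℤ)))
            (U (Multiplicative.ofAdd (Pi.single 0 (ex s + a))) m) ∈ H := by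
        rw [add_eq_zero_iff_eq_neg] at h1
        have h5 := h1
        change c s.1 s.2 • shearAct U N (Multiplicative.ofAdd (Pi.single 0 ((s.2 : ℕ) : ℤ)))
            (U (Multiplicative.ofAdd (Pi.single 0 (ex s + a))) m) = _ at h5
        rw [h5]
        refine AddSubgroup.neg_mem _ (AddSubgroup.sum_mem _ fun t ht => ?_)
        by_cases ht' : (p : ℤ) ∣ c t.1 t.2
        · rw [N2_zero ht' (hp0 _ _)]
          exact AddSubgroup.zero_mem _
        · exact AddSubgroup.zsmul_mem _ (hHinv _ _ (h t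
            (Finset.mem_filter.2 ⟨Finset.mem_univ _, ht'⟩) (Finset.ne_of_mem_erase ht))) _
      have h6 := N2_unit hp H (Finset.mem_filter.1 hs).2 (hp0 _ _) h4
      have h7 := hHinv (Multiplicative.ofAdd (Pi.single 0 ((s.2 : ℕ) : ℤ)))⁻¹ _ h6
      have h8 : shearAct U N (Multiplicative.ofAdd (Pi.single 0 ((s.2 : ℕ) : ℤ)))⁻¹
          (shearAct U N (Multiplicative.ofAdd (Pi.single 0 ((s.2 : ℕ) : ℤ)))
            (U (Multiplicative.ofAdd (Pi.single 0 (ex s + a))) m)) =
          U (Multiplicative.ofAdd (Pi.single 0 (ex s + a))) m := by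
        have h9 : shearAct U N (Multiplicative.ofAdd (Pi.single 0 ((s.2 : ℕ) : ℤ)))⁻¹ *
          shearAct U N (Multiplicative.ofAdd (Pi.single 0 ((s.2 : ℕ) : ℤ))) = 1 := by
          rw [← map_mul, inv_mul_cancel, map_one]
        exact congrArg (fun f : Module.End ℤ M =>
          f (U (Multiplicative.ofAdd (Pi.single 0 (ex s + a))) m)) h9
      rwa [h8] at h7
    have hinj : ∀ s t : Fin n × Fin n, ex s = ex t → s = t := fun s t h => N2_ex hN h
    have Q : ∀ a : ℤ, ∀ E : ℤ, ex s0 + a ≤ E → E ≤ ex s1 + a →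
        U (Multiplicative.ofAdd (Pi.single 0 E)) m ∈ H := by
      intro a
      induction a using Int.induction_on with
      | zero =>
        intro E h1 h2
        have h3 : U (Multiplicative.ofAdd (Pi.single 0 E)) m ∈ F' :=
          Finset.mem_image.2 ⟨(E, m), Finset.mem_product.2
            ⟨Finset.mem_Icc.2 ⟨by omega, by omega⟩, hm⟩, rfl⟩
        exact AddSubgroup.subset_closure ⟨1, _, h3, by rw [map_one]; rfl⟩
      | succ i ih =>
        intro E h1 h2
        rcases lt_or_ge (ex s1 + i) E with h3 | h3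
        · have e : E = ex s1 + ((i : ℤ) + 1) := by omega
          rw [e]
          refine key _ s1 hs1 fun t ht hne => ih _ ?_ ?_
          · have := hmin t ht
            omega
          · have h4 := hmax t ht
            have h5 : ex t ≠ ex s1 := fun h => hne (hinj _ _ h)
            omega
        · exact ih E (by omega) h3
      | pred i ih =>
        intro E h1 h2
        rcases lt_or_ge E (ex s0 + -i) with h3 | h3
        · have e : E = ex s0 + (-(i : ℤ) - 1) := by omega
          rw [e]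
          refine key _ s0 hs0 fun t ht hne => ih _ ?_ ?_
          · have h4 := hmin t ht
            have h5 : ex t ≠ ex s0 := fun h => hne (hinj _ _ h)
            omega
          · have := hmax t ht
            omega
        · exact ih E h3 (by omega)
    intro E
    have h1 := hmin s1 hs1
    exact Q (E - ex s1) E (by omega) (by omega)
  rw [← hF, AddSubgroup.closure_le]
  rintro x ⟨q, m, hm, rfl⟩
  have h1 := hHinv (Multiplicative.ofAdd fun i => Multiplicative.toAdd q i.succ) _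
    (main m hm (Multiplicative.toAdd q 0 + N * Multiplicative.toAdd q 1))
  have h2 : U q = shearAct U N (Multiplicative.ofAdd fun i => Multiplicative.toAdd q i.succ) *
      U (Multiplicative.ofAdd (Pi.single 0
        (Multiplicative.toAdd q 0 + N * Multiplicative.toAdd q 1))) := by
    have h3 : q = Multiplicative.ofAdd (shear d N (fun i => Multiplicative.toAdd q i.succ)) *
        Multiplicative.ofAdd (Pi.single 0
          (Multiplicative.toAdd q 0 + N * Multiplicative.toAdd q 1)) := by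
      rw [← ofAdd_add, ← N2_dec]
      rfl
    have h4 := congrArg U h3
    rw [map_mul] at h4
    exact h4
  rw [h2]
  exact h1

end Pool.MP4dac8d
end

section

/-! AND task N3: Noether normalisation in characteristic `p`. -/

set_option autoImplicit false
open Classical
open scoped Pointwise

namespace Pool.MP4dac8d

private theorem N3_range {Λ Λ' M : Type*} [Monoid Λ] [Monoid Λ'] [AddCommGroup M]
    (U : Λ →* Module.End ℤ M) (U' : Λ' →* Module.End ℤ M) (h : ∀ q, ∃ q', U q = U' q')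
    (h' : ∀ q', ∃ q, U' q' = U q) {N : AddSubgroup M} (hN : FGov U N) : FGov U' N := by
  obtain ⟨F, hF⟩ := hN
  refine ⟨F, ?_⟩
  rw [← hF]
  congr 1
  ext x
  constructor
  · rintro ⟨q', m, hm, rfl⟩
    obtain ⟨q, hq⟩ := h' q'
    exact ⟨q, m, hm, by rw [hq]⟩
  · rintro ⟨q, m, hm, rfl⟩
    obtain ⟨q', hq'⟩ := h q
    exact ⟨q', m, hm, by rw [hq']⟩

private theorem N3_lineAct {M : Type*} [AddCommGroup M] {d : ℕ}
    (U : Multiplicative (Fin d → ℤ) →* Module.End ℤ M) (t : Fin d → ℤ) (k : ℤ) :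
    lineAct U t (Multiplicative.ofAdd k) = U (Multiplicative.ofAdd (k • t)) := by
  simp only [lineAct, MonoidHom.coe_comp, Function.comp_apply, zpowersHom_apply, toAdd_ofAdd]
  rw [ofAdd_zsmul]

private theorem N3_shear_line {M : Type*} [AddCommGroup M] {d : ℕ}
    (U : Multiplicative (Fin (d + 2) → ℤ) →* Module.End ℤ M) (N : ℕ) (t : Fin (d + 1) → ℤ) :
    lineAct U (shear d N t) = lineAct (shearAct U N) t := by
  refine MonoidHom.ext fun q => ?_
  change lineAct U (shear d N t) (Multiplicative.ofAdd (Multiplicative.toAdd q)) =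
    lineAct (shearAct U N) t (Multiplicative.ofAdd (Multiplicative.toAdd q))
  rw [N3_lineAct, N3_lineAct]
  simp only [shearAct, MonoidHom.coe_comp, Function.comp_apply, AddMonoidHom.toMultiplicative_apply_apply,
    toAdd_ofAdd]
  rw [map_zsmul (shear d N)]

private theorem N3_subsingleton {d : ℕ} (ℓ : (Fin (d + 2) → ℤ) →+ ℤ) (hℓ : ℓ ≠ 0) :
    {N : ℕ | ℓ.comp (shear d N) = 0}.Subsingleton := by
  intro N hN N' hN'
  by_contra hne
  apply hℓ
  have h1 : ∀ w, ℓ (shear d N w) = 0 := fun w => DFunLike.congr_fun hN w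
  have h2 : ∀ w, ℓ (shear d N' w) = 0 := fun w => DFunLike.congr_fun hN' w
  have h3 : ∀ (K : ℕ) (v : Fin (d + 2) → ℤ), v = shear d K (Fin.tail v) +
      (v 0 + K * v 1) • (Pi.single 0 1 : Fin (d + 2) → ℤ) := by
    intro K v
    funext k
    refine Fin.cases ?_ (fun j => ?_) k
    · simp [shear, Fin.tail]
    · simp [shear, Fin.tail]
  have h0 : ℓ (Pi.single 0 1) = 0 := by
    have e1 := h3 N (Pi.single 1 1)
    have e2 := h3 N' (Pi.single 1 1)
    have f1 := congrArg ℓ e1
    have f2 := congrArg ℓ e2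
    rw [map_add, h1, map_zsmul, zero_add] at f1
    rw [map_add, h2, map_zsmul, zero_add] at f2
    rw [f1] at f2
    simp only [smul_eq_mul] at f2
    have h4 : ((Pi.single 1 1 : Fin (d + 2) → ℤ) 0) = 0 := by simp
    have h5 : ((Pi.single 1 1 : Fin (d + 2) → ℤ) 1) = 1 := by simp
    rw [h4, h5, mul_one, mul_one, zero_add, zero_add] at f2
    by_contra hcon
    apply hne
    exact_mod_cast mul_right_cancel₀ hcon f2
  refine AddMonoidHom.ext fun v => ?_
  rw [h3 N v, map_add, h1, map_zsmul, h0]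
  simp

/-- NOETHER NORMALISATION.  For a finite set `P` of primes with `M[p]` finitely generated over `ℤ[ℤ^d]` and
such that for any two `q₁, q₂` some polynomial nonzero mod `p` in `U q₁, U q₂` kills `M[p]`, and a
finite set `L` of nonzero functionals, there is `t ∈ ℤ^d` with `ℓ t ≠ 0` for `ℓ ∈ L` such that all
`M[p]` are finitely generated over `ℤ[t^±]`.
Proof by induction on `d` (generalizing `U`, `L`).  `d = 0`: `t = 0`, `L` is empty.
`d = 1`: `t = e_0` (`ℓ ≠ 0` gives `ℓ e_0 ≠ 0`).  `d + 2`: by `noether_step` all large `N` are good for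
every `p ∈ P`; the functional `ℓ ∘ shear` vanishes for at most one `N` (its value at `e_0` is
`-N ℓ(e_0) + ℓ(e_1)` and at `e_(k+1)`, `k ≥ 0`, it is `ℓ(e_(k+2))`); choose `N` large, avoiding finitely many
values; apply the induction hypothesis to `shearAct U N` and `{ℓ ∘ shear}`; `t = shear t'`, and
`lineAct U (shear t') = lineAct (shearAct U N) t'`. -/
theorem noether_line {M : Type*} [AddCommGroup M] (d : ℕ)
    (U : Multiplicative (Fin d → ℤ) →* Module.End ℤ M) (P : Finset ℕ) (hP : ∀ p ∈ P, p.Prime)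
    (hfg : ∀ p ∈ P, FGov U (tor M p))
    (hkill : ∀ p ∈ P, ∀ q₁ q₂ : Multiplicative (Fin d → ℤ),
      ∃ (n : ℕ) (c : Fin n → Fin n → ℤ), (∃ j k, ¬ (p : ℤ) ∣ c j k) ∧
        ∀ a ∈ tor M p, ∑ j, ∑ k, c j k • (U q₁ ^ (j : ℕ) * U q₂ ^ (k : ℕ)) a = 0)
    (L : Finset ((Fin d → ℤ) →+ ℤ)) (hL : ∀ ℓ ∈ L, ℓ ≠ 0) :
    ∃ t : Fin d → ℤ, (∀ ℓ ∈ L, ℓ t ≠ 0) ∧ ∀ p ∈ P, FGov (lineAct U t) (tor M p) := by
  induction d with
  | zero =>
    refine ⟨0, fun ℓ hℓ => ?_, fun p hp => ?_⟩
    · exfalso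
      apply hL ℓ hℓ
      refine AddMonoidHom.ext fun v => ?_
      have : v = 0 := Subsingleton.elim _ _
      rw [this, map_zero, map_zero]
    · refine N3_range U (lineAct U 0) (fun q => ⟨1, ?_⟩) (fun q' => ⟨1, ?_⟩) (hfg p hp)
      · have : q = 1 := Subsingleton.elim _ _
        rw [this, map_one, map_one]
      · rw [lineAct, MonoidHom.comp_apply]
        congr 1
        exact Subsingleton.elim _ _
  | succ d ih =>
    rcases d with _ | d
    · refine ⟨Pi.single 0 1, fun ℓ hℓ h0 => ?_, fun p hp => ?_⟩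
      · apply hL ℓ hℓ
        refine AddMonoidHom.ext fun v => ?_
        have hv : v = v 0 • (Pi.single 0 1 : Fin (0 + 1) → ℤ) := by
          funext k
          have : k = 0 := Fin.ext (by have := k.2; simp only [Fin.val_zero]; omega)
          subst this
          simp
        rw [hv, map_zsmul, h0]
        simp
      · refine N3_range U (lineAct U (Pi.single 0 1)) (fun q => ?_) (fun q' => ?_) (hfg p hp)
        · refine ⟨Multiplicative.ofAdd ((Multiplicative.toAdd q) 0), ?_⟩
          rw [N3_lineAct]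
          congr 1
          apply Multiplicative.toAdd.injective
          funext k
          have : k = 0 := Fin.ext (by have := k.2; simp only [Fin.val_zero]; omega)
          subst this
          simp
        · exact ⟨zpowersHom (Multiplicative (Fin (0 + 1) → ℤ))
            (Multiplicative.ofAdd (Pi.single 0 1)) q', rfl⟩
    · -- the bounds of `noether_step`
      have hstep : ∀ p ∈ P, ∃ n : ℕ, ∀ N : ℕ, n ≤ N → FGov (shearAct U N) (tor M p) := by
        intro p hp
        obtain ⟨n, c, hc, hk⟩ := hkill p hp (Multiplicative.ofAdd (Pi.single 0 1))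
          (Multiplicative.ofAdd (Pi.single 1 1))
        exact ⟨n, fun N hN => noether_step U p (hP p hp) (tor M p) (fun a ha => ha) (hfg p hp) n c hc
          hk N hN⟩
      choose! n hn using hstep
      have hfin : ({N : ℕ | N < P.sup n} ∪ ⋃ ℓ ∈ L, {N : ℕ | ℓ.comp (shear d N) = 0}).Finite := by
        refine Set.Finite.union (Set.finite_lt_nat _) ?_
        refine Set.Finite.biUnion L.finite_toSet fun ℓ hℓ => ?_
        exact (N3_subsingleton ℓ (hL ℓ hℓ)).finite
      obtain ⟨N, hN⟩ := hfin.exists_notMem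
      simp only [Set.mem_union, Set.mem_ofPred_eq, Set.mem_iUnion, not_or, not_exists, not_lt] at hN
      obtain ⟨hN1, hN2⟩ := hN
      obtain ⟨t, ht1, ht2⟩ := ih (shearAct U N)
        (fun p hp => hn p hp N ((Finset.le_sup hp).trans hN1))
        (fun p hp q₁ q₂ => hkill p hp ((AddMonoidHom.toMultiplicative (shear d N)) q₁)
          ((AddMonoidHom.toMultiplicative (shear d N)) q₂))
        (L.image fun ℓ => ℓ.comp (shear d N)) (by
          intro ℓ' hℓ'
          obtain ⟨ℓ, hℓ, rfl⟩ := Finset.mem_image.1 hℓ'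
          exact hN2 ℓ hℓ)
      refine ⟨shear d N t, fun ℓ hℓ => ?_, fun p hp => ?_⟩
      · exact ht1 _ (Finset.mem_image_of_mem _ hℓ)
      · rw [N3_shear_line]
        exact ht2 p hp

end Pool.MP4dac8d
end
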