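import Pool.Agent.Lib.MP_4dac8d_al.AND.Defs
import Pool.Agent.Lib.MP_4dac8d_al.Mg.G002
import Pool.Agent.Lib.MP_4dac8d_al.Mg.G001

section

/-! AND task L1: the rational hull of an abelian group, with functoriality. -/

set_option autoImplicit false
open Classical
open scoped Pointwise TensorProduct

namespace Pool.MP4dac8d

universe u

/-- RATIONAL HULL.  `W = ℚ ⊗_ℤ M` (or the localization of `M` at the nonzero integers), `φ m = 1 ⊗ m`,
`Θ T = T.baseChange ℚ`.  The kernel of `φ` is the torsion subgroup (`IsLocalizedModule`), every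
element of `W` is `(1/k) φ m`. -/
theorem exists_rat_hull (M : Type u) [AddCommGroup M] :
    ∃ (W : Type u) (_ : AddCommGroup W) (_ : Module ℚ W) (φ : M →+ W)
      (Θ : Module.End ℤ M →+* Module.End ℚ W),
      (∀ m : M, φ m = 0 ↔ ∃ k : ℕ, 0 < k ∧ k • m = 0) ∧
      (∀ w : W, ∃ k : ℕ, 0 < k ∧ ∃ m : M, (k : ℚ) • w = φ m) ∧
      (∀ (T : Module.End ℤ M) (m : M), Θ T (φ m) = φ (T m)) := by
  have hloc : IsLocalizedModule (nonZeroDivisors ℤ) (TensorProduct.mk ℤ ℚ M 1) :=
    (isLocalizedModule_iff_isBaseChange (nonZeroDivisors ℤ) ℚ (TensorProduct.mk ℤ ℚ M 1)).2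
      (TensorProduct.isBaseChange ℤ M ℚ)
  refine ⟨TensorProduct ℤ ℚ M, inferInstance, inferInstance,
    (TensorProduct.mk ℤ ℚ M 1).toAddMonoidHom,
    (Module.End.baseChangeHom ℤ ℚ M).toRingHom, ?_, ?_, ?_⟩
  · intro m
    have h := IsLocalizedModule.eq_zero_iff (nonZeroDivisors ℤ) (TensorProduct.mk ℤ ℚ M 1) (m := m)
    constructor
    · intro hm
      obtain ⟨c, hc⟩ := h.1 hm
      have hc0 : (c : ℤ) ≠ 0 := nonZeroDivisors.coe_ne_zero c
      refine ⟨(c : ℤ).natAbs, Int.natAbs_pos.2 hc0, ?_⟩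
      have h1 : (c : ℤ) • m = 0 := hc
      rcases Int.natAbs_eq (c : ℤ) with h2 | h2
      · rw [h2, natCast_zsmul] at h1; exact h1
      · rw [h2, neg_smul, natCast_zsmul, neg_eq_zero] at h1; exact h1
    · rintro ⟨k, hk, hkm⟩
      apply h.2
      refine ⟨⟨(k : ℤ), mem_nonZeroDivisors_of_ne_zero (by exact_mod_cast hk.ne')⟩, ?_⟩
      change (k : ℤ) • m = 0
      rw [natCast_zsmul]; exact hkm
  · intro w
    obtain ⟨⟨m, c⟩, hm⟩ := IsLocalizedModule.surj (nonZeroDivisors ℤ) (TensorProduct.mk ℤ ℚ M 1) w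
    have hc0 : (c : ℤ) ≠ 0 := nonZeroDivisors.coe_ne_zero c
    have hm' : (c : ℤ) • w = (TensorProduct.mk ℤ ℚ M 1) m := hm
    refine ⟨(c : ℤ).natAbs, Int.natAbs_pos.2 hc0, ?_⟩
    rcases Int.natAbs_eq (c : ℤ) with h2 | h2
    · refine ⟨m, ?_⟩
      rw [h2, natCast_zsmul] at hm'
      rw [Nat.cast_smul_eq_nsmul]; exact hm'
    · refine ⟨-m, ?_⟩
      rw [h2, neg_smul, natCast_zsmul] at hm'
      rw [Nat.cast_smul_eq_nsmul, map_neg]
      rw [← neg_eq_iff_eq_neg]; exact hm'
  · intro T m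
    change (T.baseChange ℚ) (1 ⊗ₜ[ℤ] m) = 1 ⊗ₜ[ℤ] (T m)
    rw [LinearMap.baseChange_tmul]

end Pool.MP4dac8d
end

section

/-! AND task L2: finite dimension of the rational hull. -/

set_option autoImplicit false
open Classical
open scoped Pointwise

namespace Pool.MP4dac8d

/-- If `M` is finitely generated over `ℤ[ℤ^d]` and every `U q` is killed by a nonzero integral
polynomial, then the rational hull `W` of `M` is finite-dimensional.
Proof.  Let `F` be a finite set of generators and for every `k : Fin d` let `f_k ≠ 0` kill `U (e_k)`;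
dividing by a power of `X` (`U (e_k)` is invertible) one may take `f_k(0) ≠ 0`; `D_k = deg f_k`.
For fixed `w ∈ W` the span over `ℚ` of all `U(e_k)^j w`, `j ∈ ℤ`, is the span of those with
`0 ≤ j < D_k` (leading and constant coefficient of `f_k` are invertible in `ℚ`).  Hence `W` is spanned by
the `φ (U q m)`, `m ∈ F`, `0 ≤ q_k < D_k` (each `U q` extends to `W` by `Θ`). -/
theorem finite_rat_hull {M W : Type*} [AddCommGroup M] [AddCommGroup W] [Module ℚ W] {d : ℕ}
    (U : Multiplicative (Fin d → ℤ) →* Module.End ℤ M) (hfg : FGov U ⊤)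
    (hkill : ∀ q, ∃ f : Polynomial ℤ, f ≠ 0 ∧ Polynomial.aeval (U q) f = 0)
    (φ : M →+ W) (Θ : Module.End ℤ M →+* Module.End ℚ W)
    (hφ : ∀ w : W, ∃ k : ℕ, 0 < k ∧ ∃ m : M, (k : ℚ) • w = φ m)
    (hΘ : ∀ (T : Module.End ℤ M) (m : M), Θ T (φ m) = φ (T m)) : Module.Finite ℚ W := by
  set G := Multiplicative (Fin d → ℤ) with hG
  set A := MonoidAlgebra ℚ G with hA
  set ψ : A →ₐ[ℚ] Module.End ℚ W := MonoidAlgebra.lift ℚ _ G (Θ.toMonoidHom.comp U) with hψ
  have hψq : ∀ q : G, ψ (MonoidAlgebra.of ℚ G q) = Θ (U q) := by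
    intro q
    rw [hψ, MonoidAlgebra.lift_of]
    rfl
  set I : Ideal A := RingHom.ker ψ with hI
  -- every `q` is integral in the quotient
  have hq : ∀ q : G, IsIntegral ℚ (Ideal.Quotient.mk I (MonoidAlgebra.of ℚ G q)) := by
    intro q
    obtain ⟨f, hf0, hf⟩ := hkill q
    rw [← isAlgebraic_iff_isIntegral]
    refine ⟨f.map (algebraMap ℤ ℚ), ?_, ?_⟩
    · rw [Ne, Polynomial.map_eq_zero_iff (RingHom.injective_int _)]
      exact hf0
    · have h1 : Polynomial.aeval (Θ (U q)) (f.map (algebraMap ℤ ℚ)) = 0 := by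
        rw [Polynomial.aeval_map_algebraMap]
        have h2 : Θ (Polynomial.aeval (U q) f) = Polynomial.aeval (Θ (U q)) f := by
          rw [Polynomial.aeval_def, Polynomial.aeval_def, Polynomial.hom_eval₂]
          congr 1
          exact RingHom.ext_int _ _
        rw [← h2, hf, map_zero]
      have h3 : Polynomial.aeval (MonoidAlgebra.of ℚ G q) (f.map (algebraMap ℤ ℚ)) ∈ I := by
        rw [hI, RingHom.mem_ker, ← Polynomial.aeval_algHom_apply, hψq, h1]
      have h4 : Polynomial.aeval (Ideal.Quotient.mkₐ ℚ I (MonoidAlgebra.of ℚ G q))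
          (f.map (algebraMap ℤ ℚ)) = 0 := by
        rw [Polynomial.aeval_algHom_apply]
        exact Ideal.Quotient.eq_zero_iff_mem.2 h3
      exact h4
  have hint : Algebra.IsIntegral ℚ (A ⧸ I) := by
    refine ⟨fun x => ?_⟩
    obtain ⟨a, rfl⟩ := Ideal.Quotient.mk_surjective x
    induction a using MonoidAlgebra.induction_on with
    | of q => exact hq q
    | add a b ha hb => rw [map_add]; exact ha.add hb
    | smul r a ha =>
      have : Ideal.Quotient.mk I (r • a) = r • Ideal.Quotient.mk I a := rfl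
      rw [this]
      exact ha.smul r
  have hfgG : Monoid.FG G := by
    infer_instance
  have hft : Algebra.FiniteType ℚ (A ⧸ I) := by
    have : Algebra.FiniteType ℚ A := MonoidAlgebra.finiteType_of_fg
    exact Algebra.FiniteType.of_surjective (Ideal.Quotient.mkₐ ℚ I)
      (Ideal.Quotient.mkₐ_surjective ℚ I)
  have hfin : Module.Finite ℚ (A ⧸ I) := Algebra.IsIntegral.finite
  obtain ⟨F, hF⟩ := hfg
  let ψ' : (A ⧸ I) →ₗ[ℚ] Module.End ℚ W :=
    (Submodule.liftQ (I.restrictScalars ℚ) ψ.toLinearMap (by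
      intro a ha
      exact ha))
  have hψ' : ∀ a : A, ψ' (Ideal.Quotient.mk I a) = ψ a := fun a => rfl
  set S : Submodule ℚ W := ⨆ m ∈ F, LinearMap.range (ψ'.flip (φ m)) with hS
  have hSfg : S.FG := by
    refine Submodule.fg_biSup F _ fun m _ => ?_
    rw [LinearMap.range_eq_map]
    exact (Module.finite_def.1 hfin).map _
  have hφS : ∀ m : M, φ m ∈ S := by
    have h1 : AddSubgroup.closure {x : M | ∃ q, ∃ m ∈ F, x = U q m} ≤
        S.toAddSubgroup.comap φ := by
      rw [AddSubgroup.closure_le]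
      rintro x ⟨q, m, hm, rfl⟩
      show φ (U q m) ∈ S
      rw [hS]
      refine Submodule.mem_iSup_of_mem m (Submodule.mem_iSup_of_mem hm ?_)
      refine ⟨Ideal.Quotient.mk I (MonoidAlgebra.of ℚ G q), ?_⟩
      rw [LinearMap.flip_apply, hψ', hψq, hΘ]
    rw [hF] at h1
    exact fun m => h1 (AddSubgroup.mem_top m)
  refine ⟨?_⟩
  have htop : S = ⊤ := by
    rw [eq_top_iff]
    intro w _
    obtain ⟨k, hk, m, hm⟩ := hφ w
    have hk0 : (k : ℚ) ≠ 0 := by exact_mod_cast hk.ne'
    have h1 : w = (k : ℚ)⁻¹ • φ m := by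
      rw [← hm, smul_smul, inv_mul_cancel₀ hk0, one_smul]
    rw [h1]
    exact S.smul_mem _ (hφS m)
  rw [← htop]
  exact hSfg

end Pool.MP4dac8d
end

section

/-! AND task N4: integrality in number fields. -/

set_option autoImplicit false
open Classical
open scoped Pointwise

namespace Pool.MP4dac8d

open IsDedekindDomain NumberField in
/-- Elements outside a valuation subring give a prime of the ring of integers. -/
private theorem N4_prime (K : Type*) [Field K] [NumberField K] (V : ValuationSubring K) {y : K}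
    (hy : y ∉ V) : ∃ v : HeightOneSpectrum (𝓞 K), v.valuation K y ≠ 1 ∧
      ∀ z : K, v.valuation K z < 1 → z⁻¹ ∉ V ∨ z = 0 := by
  have hOV : ∀ a : 𝓞 K, algebraMap (𝓞 K) K a ∈ V := by
    intro a
    have h1 : IsIntegral ℤ (algebraMap (𝓞 K) K a) := RingOfIntegers.isIntegral_coe a
    have h2 : IsIntegral V (algebraMap (𝓞 K) K a) := h1.tower_top
    obtain ⟨b, hb⟩ := (IsIntegrallyClosed.isIntegral_iff (R := V) (K := K)).1 h2
    rw [← hb]
    exact b.2
  let f : 𝓞 K →+* V := (algebraMap (𝓞 K) K).codRestrict V.toSubring hOV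
  have hf : ∀ a, ((f a : V) : K) = algebraMap (𝓞 K) K a := fun a => rfl
  let P : Ideal (𝓞 K) := (IsLocalRing.maximalIdeal V).comap f
  have hPp : P.IsPrime := Ideal.comap_isPrime f _
  have hunit : ∀ a : 𝓞 K, a ∉ P → (algebraMap (𝓞 K) K a)⁻¹ ∈ V := by
    intro a ha
    have h1 : IsUnit (f a) := by
      by_contra hcon
      exact ha ((IsLocalRing.mem_maximalIdeal _).2 hcon)
    obtain ⟨w, hw⟩ := h1
    have h2 : ((↑w⁻¹ : V) : K) = (algebraMap (𝓞 K) K a)⁻¹ := by
      have h3 : ((↑w⁻¹ : V) : K) * ((w : V) : K) = 1 := by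
        exact congrArg (fun z : V => (z : K)) w.inv_mul
      rw [hw, hf] at h3
      exact eq_inv_of_mul_eq_one_left h3
    rw [← h2]
    exact (↑w⁻¹ : V).2
  have hP0 : P ≠ ⊥ := by
    intro h0
    apply hy
    obtain ⟨a, b, hb, hab⟩ := IsFractionRing.div_surjective (A := 𝓞 K) (K := K) y
    have hb0 : b ∉ P := by
      rw [h0, Ideal.mem_bot]
      exact nonZeroDivisors.ne_zero hb
    rw [← hab, div_eq_mul_inv]
    exact V.mul_mem _ _ (hOV a) (hunit b hb0)
  let v : HeightOneSpectrum (𝓞 K) := ⟨P, hPp, hP0⟩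
  refine ⟨v, ?_, ?_⟩
  · obtain ⟨n, d, hnd | hnd⟩ := HeightOneSpectrum.exists_primeCompl_mul_eq_or_mul_eq v y
    · exfalso
      apply hy
      have hd : (d : 𝓞 K) ∉ P := d.2
      have hd0 : algebraMap (𝓞 K) K d ≠ 0 := by
        intro h0
        have : (d : 𝓞 K) = 0 := by
          apply FaithfulSMul.algebraMap_injective (𝓞 K) K
          rw [h0, map_zero]
        exact hd (this ▸ P.zero_mem)
      have : y = algebraMap (𝓞 K) K n * (algebraMap (𝓞 K) K d)⁻¹ := by
        rw [← hnd, mul_assoc, mul_inv_cancel₀ hd0, mul_one]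
      rw [this]
      exact V.mul_mem _ _ (hOV n) (hunit d hd)
    · have hd : (d : 𝓞 K) ∉ P := d.2
      have hn : n ∈ P := by
        by_contra hn
        apply hy
        have hn0 : algebraMap (𝓞 K) K n ≠ 0 := by
          intro h0
          have : n = 0 := by
            apply FaithfulSMul.algebraMap_injective (𝓞 K) K
            rw [h0, map_zero]
          exact hn (this ▸ P.zero_mem)
        have : y = algebraMap (𝓞 K) K d * (algebraMap (𝓞 K) K n)⁻¹ := by
          rw [← hnd, mul_assoc, mul_inv_cancel₀ hn0, mul_one]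
        rw [this]
        exact V.mul_mem _ _ (hOV d) (hunit n hn)
      have h1 : v.valuation K (algebraMap (𝓞 K) K n) < 1 :=
        (HeightOneSpectrum.valuation_lt_one_iff_mem v n).2 hn
      have h2 : v.valuation K (algebraMap (𝓞 K) K d) = 1 := by
        rw [HeightOneSpectrum.valuation_of_algebraMap]
        exact (v.intValuation_eq_one_iff_mem_primeCompl d).2 d.2
      intro hy1
      rw [← hnd, map_mul, hy1, one_mul] at h2
      exact h1.ne h2
  · intro z hz
    by_contra hcon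
    push Not at hcon
    obtain ⟨hzV, hz0⟩ := hcon
    obtain ⟨n, d, hnd⟩ := HeightOneSpectrum.exists_primeCompl_mul_eq_of_integer v z hz.le
    have h2 : v.valuation K (algebraMap (𝓞 K) K d) = 1 := by
      rw [HeightOneSpectrum.valuation_of_algebraMap]
      exact (v.intValuation_eq_one_iff_mem_primeCompl d).2 d.2
    have h1 : v.valuation K (algebraMap (𝓞 K) K n) < 1 := by
      rw [← hnd, map_mul, h2, mul_one]
      exact hz
    have hn : n ∈ P := (HeightOneSpectrum.valuation_lt_one_iff_mem v n).1 h1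
    -- `f d = f n * z⁻¹` lies in the maximal ideal
    have hfd : f d = f n * ⟨z⁻¹, hzV⟩ := by
      apply Subtype.ext
      show algebraMap (𝓞 K) K d = algebraMap (𝓞 K) K n * z⁻¹
      rw [← hnd, mul_comm z, mul_assoc, mul_inv_cancel₀ hz0, mul_one]
    have hd : (d : 𝓞 K) ∈ P := by
      show f d ∈ IsLocalRing.maximalIdeal V
      rw [hfd]
      exact Ideal.mul_mem_right _ _ hn
    exact d.2 hd

open IsDedekindDomain NumberField in
private theorem N4_fin (K : Type*) [Field K] [NumberField K] (x : Kˣ) :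
    {v : HeightOneSpectrum (𝓞 K) | v.valuation K (x : K) ≠ 1}.Finite := by
  refine ((HeightOneSpectrum.Support.finite (𝓞 K) (x : K)).union
    (HeightOneSpectrum.Support.finite (𝓞 K) ((x⁻¹ : Kˣ) : K))).subset ?_
  intro v hv
  rcases lt_or_gt_of_ne hv with h | h
  · right
    show 1 < v.valuation K ((x⁻¹ : Kˣ) : K)
    rw [Units.val_inv_eq_inv_val, map_inv₀]
    have h0 : 0 < v.valuation K (x : K) := by
      rw [zero_lt_iff, Valuation.ne_zero_iff]
      exact x.ne_zero
    exact (one_lt_inv₀ h0).2 h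
  · left
    exact h

/-- INTEGRALITY IN NUMBER FIELDS.  `x_k ∈ K^×`.  There are finitely many nonzero functionals such that
whenever they do not vanish at `t`, all `x_k^{±1}` are integral over `ℤ[u, u⁻¹]`, `u = ∏ x_j^{t_j}`.
Proof.  `O = 𝓞 K` (Dedekind).  Only finitely many `v : HeightOneSpectrum O` have `v(x_k) ≠ 1` for
some `k`; for such `v` the functional is `t ↦` exponent of `v (∏ x_j^{t_j})` (value group
`WithZero (Multiplicative ℤ)`), nonzero.  Let `t` be as required and `B` the integral closure of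
`ℤ[u, u⁻¹]` in `K`; `B ⊇ O`.  Let `J` be the fractional ideal `O + u O`: then `J⁻¹ = ` an integral ideal
`𝔡 = {b ∈ O : b u ∈ O}`, `𝔫 = 𝔡 u ⊆ O`, and `𝔡 + 𝔫 = O` (`𝔡 (O + u O) = O`).  In `B`:
`𝔫 B = 𝔡 B` (`u` is a unit of `B`), so `𝔡 B = 𝔫 B = B`.  A prime `v` of `O` with `v(u) ≠ 1` contains `𝔡` or
`𝔫`, so `v B = B`.  Let `y = x_k` or `x_k⁻¹` and `𝔠 = {b ∈ O : b y ∈ O}`; the primes containing `𝔠` have
`v(y) ≠ 1`, so `v(u) ≠ 1`, so `v B = B`; as `𝔠` contains a product of such primes, `𝔠 B = B`, and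
`y ∈ y 𝔠 B ⊆ O B = B`.  (Alternatively: the integral closure is the intersection of the valuation
subrings `V` of `K` containing `ℤ[u, u⁻¹]`; `V ⊇ O`, so `V = K` or `V` is the valuation ring of some `v`; then
`v(u) = 1`, so by hypothesis `v(x_k) = 1`.) -/
theorem integral_of_functionals_field (K : Type*) [Field K] [NumberField K] {d : ℕ}
    (x : Fin d → Kˣ) :
    ∃ L : Finset ((Fin d → ℤ) →+ ℤ), (∀ ℓ ∈ L, ℓ ≠ 0) ∧
      ∀ t : Fin d → ℤ, (∀ ℓ ∈ L, ℓ t ≠ 0) → ∀ k : Fin d,
        IsIntegral (Algebra.adjoin ℤ ({((∏ j, x j ^ t j : Kˣ) : K),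
          (((∏ j, x j ^ t j)⁻¹ : Kˣ) : K)} : Set K)) (x k : K) ∧
        IsIntegral (Algebra.adjoin ℤ ({((∏ j, x j ^ t j : Kˣ) : K),
          (((∏ j, x j ^ t j)⁻¹ : Kˣ) : K)} : Set K)) (((x k)⁻¹ : Kˣ) : K) := by
  let a : IsDedekindDomain.HeightOneSpectrum (NumberField.RingOfIntegers K) → Fin d → ℤ :=
    fun v j => WithZero.log (v.valuation K (x j : K))
  let ℓ : IsDedekindDomain.HeightOneSpectrum (NumberField.RingOfIntegers K) →
      ((Fin d → ℤ) →+ ℤ) := fun v =>
    ∑ j, (AddMonoidHom.mulRight (a v j)).comp (Pi.evalAddMonoidHom (fun _ : Fin d => ℤ) j)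
  have hℓ : ∀ v t, ℓ v t = ∑ j, t j * a v j := by
    intro v t
    simp [ℓ]
  have hfin : (⋃ k : Fin d, {v : IsDedekindDomain.HeightOneSpectrum
      (NumberField.RingOfIntegers K) | v.valuation K (x k : K) ≠ 1}).Finite :=
    Set.finite_iUnion fun k => N4_fin K (x k)
  have hval0 : ∀ (v : IsDedekindDomain.HeightOneSpectrum (NumberField.RingOfIntegers K))
      (z : Kˣ), v.valuation K (z : K) ≠ 0 := by
    intro v z
    rw [Valuation.ne_zero_iff]
    exact z.ne_zero
  have ha : ∀ v k, v.valuation K (x k : K) ≠ 1 → a v k ≠ 0 := by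
    intro v k hk h0
    apply hk
    have h1 := WithZero.exp_log (hval0 v (x k))
    have h2 : WithZero.log (v.valuation K (x k : K)) = 0 := h0
    rw [h2] at h1
    rw [← h1, WithZero.exp_zero]
  refine ⟨hfin.toFinset.image ℓ, ?_, ?_⟩
  · intro l hl
    rw [Finset.mem_image] at hl
    obtain ⟨v, hv, rfl⟩ := hl
    rw [Set.Finite.mem_toFinset, Set.mem_iUnion] at hv
    obtain ⟨k, hk⟩ := hv
    intro h0
    have h1 : ℓ v (Pi.single k 1) = 0 := by rw [h0]; rfl
    rw [hℓ] at h1
    apply ha v k hk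
    rw [← h1, Finset.sum_eq_single k]
    · simp
    · intro j _ hj
      rw [Pi.single_eq_of_ne hj, zero_mul]
    · intro hk'
      exact absurd (Finset.mem_univ k) hk'
  · intro t ht
    set u : Kˣ := ∏ j, x j ^ t j with hu
    have hlog : ∀ v : IsDedekindDomain.HeightOneSpectrum (NumberField.RingOfIntegers K),
        WithZero.log (v.valuation K (u : K)) = ∑ j, t j * a v j := by
      intro v
      have h1 : v.valuation K (u : K) = ∏ j, v.valuation K (x j : K) ^ t j := by
        rw [hu, Units.coe_prod, map_prod]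
        refine Finset.prod_congr rfl fun j _ => ?_
        rw [Units.val_zpow_eq_zpow_val, map_zpow₀]
      rw [h1]
      have h2 : ∀ S : Finset (Fin d), (∏ j ∈ S, v.valuation K (x j : K) ^ t j) ≠ 0 ∧
          WithZero.log (∏ j ∈ S, v.valuation K (x j : K) ^ t j) = ∑ j ∈ S, t j * a v j := by
        intro S
        induction S using Finset.induction_on with
        | empty => simp
        | insert j S hj ih =>
          have h3 : v.valuation K (x j : K) ^ t j ≠ 0 := zpow_ne_zero _ (hval0 v (x j))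
          rw [Finset.prod_insert hj, Finset.sum_insert hj]
          refine ⟨mul_ne_zero h3 ih.1, ?_⟩
          rw [WithZero.log_mul h3 ih.1, ih.2, WithZero.log_zpow, smul_eq_mul]
      exact (h2 Finset.univ).2
    -- every valuation subring that contains `u` and its inverse contains `y`
    have key : ∀ (V : ValuationSubring K), ({(u : K), ((u⁻¹ : Kˣ) : K)} : Set K) ⊆ V.toSubring →
        ∀ (k : Fin d) (y : K), (y = x k ∨ y = (((x k)⁻¹ : Kˣ) : K)) → y ∈ V := by
      intro V hV k y hy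
      by_contra hyV
      obtain ⟨v, hv1, hv2⟩ := N4_prime K V hyV
      have hvk : v.valuation K (x k : K) ≠ 1 := by
        rcases hy with rfl | rfl
        · exact hv1
        · intro h1
          apply hv1
          rw [Units.val_inv_eq_inv_val, map_inv₀, h1, inv_one]
      have hmem : ℓ v ∈ hfin.toFinset.image ℓ := by
        apply Finset.mem_image_of_mem
        rw [Set.Finite.mem_toFinset, Set.mem_iUnion]
        exact ⟨k, hvk⟩
      have h1 := ht _ hmem
      rw [hℓ, ← hlog] at h1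
      have h2 : v.valuation K (u : K) ≠ 1 := by
        intro h2
        rw [h2, WithZero.log_one] at h1
        exact h1 rfl
      rcases lt_or_gt_of_ne h2 with h3 | h3
      · rcases hv2 _ h3 with h4 | h4
        · apply h4
          have : ((u⁻¹ : Kˣ) : K) ∈ V.toSubring := hV (by simp)
          rw [Units.val_inv_eq_inv_val] at this
          exact this
        · exact u.ne_zero h4
      · have h0 : 0 < v.valuation K (u : K) := zero_lt_iff.2 (hval0 v u)
        have h5 : v.valuation K ((u : K)⁻¹) < 1 := by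
          rw [map_inv₀]
          exact (inv_lt_one₀ h0).2 h3
        rcases hv2 _ h5 with h4 | h4
        · apply h4
          rw [inv_inv]
          exact hV (by simp)
        · exact inv_ne_zero u.ne_zero h4
    have hint : ∀ (k : Fin d) (y : K), (y = x k ∨ y = (((x k)⁻¹ : Kˣ) : K)) →
        IsIntegral (Algebra.adjoin ℤ ({(u : K), ((u⁻¹ : Kˣ) : K)} : Set K)) y := by
      intro k y hy
      have h1 : y ∈ (integralClosure (Subring.closure
          ({(u : K), ((u⁻¹ : Kˣ) : K)} : Set K)) K).toSubring := by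
        rw [← iInf_valuationSubring_superset, Subring.mem_iInf]
        intro V
        exact key V.1 V.2 k y hy
      have h2 : IsIntegral (Subring.closure ({(u : K), ((u⁻¹ : Kˣ) : K)} : Set K)) y := h1
      obtain ⟨q, hq, hqy⟩ := h2
      have hle : Subring.closure ({(u : K), ((u⁻¹ : Kˣ) : K)} : Set K) ≤
          (Algebra.adjoin ℤ ({(u : K), ((u⁻¹ : Kˣ) : K)} : Set K)).toSubring :=
        Subring.closure_le.2 Algebra.subset_adjoin
      refine ⟨q.map (Subring.inclusion hle), hq.map _, ?_⟩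
      rw [Polynomial.eval₂_map]
      exact hqy
    intro k
    exact ⟨hint k _ (Or.inl rfl), hint k _ (Or.inr rfl)⟩

end Pool.MP4dac8d
end

section

/-! AND task N5: integrality in finite-dimensional commutative `ℚ`-algebras; the unipotent
idempotent. -/

set_option autoImplicit false
open Classical
open scoped Pointwise

namespace Pool.MP4dac8d

universe u

/-- A subgroup of `ℤ^d` of infinite index is contained in the kernel of a nonzero functional.
(The quotient is a finitely generated infinite abelian group, so has a nonzero homomorphism to `ℤ`;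
or: the `ℚ`-span of the subgroup is a proper subspace.) -/
theorem exists_functional {d : ℕ} (H : AddSubgroup (Fin d → ℤ)) (hH : H.index = 0) :
    ∃ ℓ : (Fin d → ℤ) →+ ℤ, ℓ ≠ 0 ∧ ∀ q ∈ H, ℓ q = 0 := by
  let N : Submodule ℤ (Fin d → ℤ) := AddSubgroup.toIntSubmodule H
  let Q := (Fin d → ℤ) ⧸ N
  let T := Submodule.torsion ℤ Q
  have : Module.Finite ℤ (Q ⧸ T) := inferInstance
  have : Module.Free ℤ (Q ⧸ T) := inferInstance
  by_cases hT : ∃ x : Q ⧸ T, x ≠ 0
  · obtain ⟨x, hx⟩ := hT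
    have h1 : ¬ ∀ f : Module.Dual ℤ (Q ⧸ T), f x = 0 := by
      intro h
      exact hx ((Module.forall_dual_apply_eq_zero_iff ℤ x).mp h)
    push Not at h1
    obtain ⟨f, hf⟩ := h1
    obtain ⟨y, rfl⟩ := Submodule.mkQ_surjective T x
    obtain ⟨z, rfl⟩ := Submodule.mkQ_surjective N y
    refine ⟨((f.comp T.mkQ).comp N.mkQ).toAddMonoidHom, ?_, ?_⟩
    · intro h0
      apply hf
      exact DFunLike.congr_fun h0 z
    · intro q hq
      have : N.mkQ q = 0 := by
        rw [Submodule.mkQ_apply, Submodule.Quotient.mk_eq_zero]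
        exact hq
      show f (T.mkQ (N.mkQ q)) = 0
      rw [this, map_zero, map_zero]
  · exfalso
    push Not at hT
    have htop : ∀ y : Q, y ∈ T := by
      intro y
      have := hT (T.mkQ y)
      rwa [Submodule.mkQ_apply, Submodule.Quotient.mk_eq_zero] at this
    have htors : Module.IsTorsion ℤ Q := by
      intro y
      exact (Submodule.mem_torsion_iff y).mp (htop y)
    have : Finite Q := Module.finite_of_fg_torsion Q htors
    have h3 : H.index ≠ 0 := by
      have h4 : Finite ((Fin d → ℤ) ⧸ H) := this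
      exact AddSubgroup.index_ne_zero_of_finite
    exact h3 hH

private theorem N5_lift {R S : Type*} [CommRing R] [CommRing S] (π : R →ₐ[ℤ] S) (A : Subalgebra ℤ R)
    (y : R) (h : IsIntegral (A.map π) (π y)) :
    ∃ f : Polynomial A, f.Monic ∧ π (Polynomial.aeval y f) = 0 := by
  obtain ⟨p, hp, hpy⟩ := h
  let ρ : A →+* (A.map π) :=
    { toFun := fun a => ⟨π a, ⟨a, a.2, rfl⟩⟩
      map_one' := by ext; simp
      map_mul' := by intro a b; ext; simp
      map_zero' := by ext; simp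
      map_add' := by intro a b; ext; simp }
  have hρ : Function.Surjective ρ := by
    rintro ⟨b, a, ha, rfl⟩
    exact ⟨⟨a, ha⟩, rfl⟩
  obtain ⟨q, hq, -, hqm⟩ := Polynomial.lifts_and_natDegree_eq_and_monic (f := ρ) (p := p)
    (by
      rw [Polynomial.lifts_iff_coeff_lifts]
      intro n
      exact hρ _) hp
  refine ⟨q, hqm, ?_⟩
  have h1 : π (Polynomial.aeval y q) = Polynomial.eval₂ ((π : R →+* S).comp (algebraMap A R)) (π y) q := by
    rw [Polynomial.aeval_def]
    exact Polynomial.hom_eval₂ q (algebraMap A R) (π : R →+* S) y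
  have h2 : (π : R →+* S).comp (algebraMap A R) = (algebraMap (A.map π) S).comp ρ := by
    ext a
    rfl
  rw [h1, h2, ← Polynomial.eval₂_map, hq]
  exact hpy

private theorem N5_numberField (E : Type*) [CommRing E] [Algebra ℚ E] [Module.Finite ℚ E]
    (I : Ideal E) [I.IsMaximal] :
    @NumberField (E ⧸ I) (Ideal.Quotient.field I) := by
  let _ := Ideal.Quotient.field I
  have h1 : Module.Finite ℚ (E ⧸ I) := inferInstance
  have h0 : CharZero (E ⧸ I) := algebraRat.charZero _
  refine @NumberField.mk (E ⧸ I) _ h0 ?_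
  have h2 : (DivisionRing.toRatAlgebra : Algebra ℚ (E ⧸ I)) = Ideal.Quotient.algebra ℚ :=
    Subsingleton.elim _ _
  rw [h2]
  exact h1

private theorem N5_local' (E K : Type*) [CommRing E] [Field K] [NumberField K] {d : ℕ}
    (x : Fin d → Eˣ) (π0 : E →+* K) :
    ∃ L : Finset ((Fin d → ℤ) →+ ℤ), (∀ ℓ ∈ L, ℓ ≠ 0) ∧
      ∀ t : Fin d → ℤ, (∀ ℓ ∈ L, ℓ t ≠ 0) → ∀ k : Fin d, ∀ y : Eˣ, (y = x k ∨ y = (x k)⁻¹) →
        ∃ f : Polynomial (Algebra.adjoin ℤ ({((∏ j, x j ^ t j : Eˣ) : E),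
          (((∏ j, x j ^ t j)⁻¹ : Eˣ) : E)} : Set E)), f.Monic ∧
            π0 (Polynomial.aeval (y : E) f) = 0 := by
  let π : E →ₐ[ℤ] K := π0.toIntAlgHom
  let μ : Eˣ →* Kˣ := Units.map (π : E →* K)
  obtain ⟨L, hL, hLt⟩ := integral_of_functionals_field K (fun j => μ (x j))
  refine ⟨L, hL, fun t ht k y hy => ?_⟩
  obtain ⟨h1, h2⟩ := hLt t ht k
  have hu : (∏ j, μ (x j) ^ t j) = μ (∏ j, x j ^ t j) := by
    rw [map_prod]
    refine Finset.prod_congr rfl (fun j _ => ?_)
    rw [map_zpow]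
  rw [hu] at h1 h2
  generalize hU : (∏ j, x j ^ t j) = u at h1 h2 ⊢
  have hadj : Algebra.adjoin ℤ ({((μ u : Kˣ) : K), (((μ u)⁻¹ : Kˣ) : K)} : Set K) =
      (Algebra.adjoin ℤ ({(u : E), ((u⁻¹ : Eˣ) : E)} : Set E)).map π := by
    rw [AlgHom.map_adjoin, Set.image_pair, ← map_inv]
    rfl
  rw [hadj] at h1 h2
  have h3 : IsIntegral ((Algebra.adjoin ℤ ({(u : E), ((u⁻¹ : Eˣ) : E)} : Set E)).map π) (π (y : E)) := by
    rcases hy with rfl | rfl
    · exact h1
    · rw [← map_inv] at h2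
      exact h2
  exact N5_lift π _ _ h3

private theorem N5_local (E : Type*) [CommRing E] [Algebra ℚ E] [Module.Finite ℚ E] {d : ℕ}
    (x : Fin d → Eˣ) (I : Ideal E) [I.IsMaximal] :
    ∃ L : Finset ((Fin d → ℤ) →+ ℤ), (∀ ℓ ∈ L, ℓ ≠ 0) ∧
      ∀ t : Fin d → ℤ, (∀ ℓ ∈ L, ℓ t ≠ 0) → ∀ k : Fin d, ∀ y : Eˣ, (y = x k ∨ y = (x k)⁻¹) →
        ∃ f : Polynomial (Algebra.adjoin ℤ ({((∏ j, x j ^ t j : Eˣ) : E),
          (((∏ j, x j ^ t j)⁻¹ : Eˣ) : E)} : Set E)), f.Monic ∧
            Polynomial.aeval (y : E) f ∈ I := by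
  obtain ⟨L, hL, hLt⟩ := @N5_local' E (E ⧸ I) _ (Ideal.Quotient.field I) (N5_numberField E I) d x
    (Ideal.Quotient.mk I)
  refine ⟨L, hL, fun t ht k y hy => ?_⟩
  obtain ⟨f, hf, hf2⟩ := hLt t ht k y hy
  exact ⟨f, hf, Ideal.Quotient.eq_zero_iff_mem.mp hf2⟩

/-- INTEGRALITY, GENERAL CASE.  Proof: `E` is Artinian with finitely many maximal ideals `𝔪`; each `E/𝔪`
is a number field; take the union of the sets of functionals of `integral_of_functionals_field` for
the images of the `x_k`.  If `y = x_k^{±1}` is integral modulo every `𝔪` (over the image of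
`ℤ[u, u⁻¹]`), lift the monic relations to monic polynomials `f_𝔪` over `ℤ[u, u⁻¹]` with
`f_𝔪(y) ∈ 𝔪`; the product is in the nilradical (`IsArtinianRing`: Jacobson radical nilpotent), so a
power of the product of the `f_𝔪` kills `y`. -/
theorem integral_of_functionals (E : Type*) [CommRing E] [Algebra ℚ E] [Module.Finite ℚ E] {d : ℕ}
    (x : Fin d → Eˣ) :
    ∃ L : Finset ((Fin d → ℤ) →+ ℤ), (∀ ℓ ∈ L, ℓ ≠ 0) ∧
      ∀ t : Fin d → ℤ, (∀ ℓ ∈ L, ℓ t ≠ 0) → ∀ k : Fin d,
        IsIntegral (Algebra.adjoin ℤ ({((∏ j, x j ^ t j : Eˣ) : E),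
          (((∏ j, x j ^ t j)⁻¹ : Eˣ) : E)} : Set E)) (x k : E) ∧
        IsIntegral (Algebra.adjoin ℤ ({((∏ j, x j ^ t j : Eˣ) : E),
          (((∏ j, x j ^ t j)⁻¹ : Eˣ) : E)} : Set E)) (((x k)⁻¹ : Eˣ) : E) := by
  have _ : IsArtinianRing E := IsArtinianRing.of_finite ℚ E
  have _ : Fintype (MaximalSpectrum E) := Fintype.ofFinite _
  have hloc : ∀ m : MaximalSpectrum E, _ := fun m =>
    have := m.isMaximal
    N5_local E x m.asIdeal
  choose L hL hLt using hloc
  refine ⟨Finset.univ.biUnion L, ?_, ?_⟩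
  · intro ℓ hℓ
    obtain ⟨m, -, hm⟩ := Finset.mem_biUnion.mp hℓ
    exact hL m ℓ hm
  · intro t ht k
    have key : ∀ y : Eˣ, (y = x k ∨ y = (x k)⁻¹) → IsIntegral (Algebra.adjoin ℤ ({((∏ j, x j ^ t j : Eˣ) : E),
          (((∏ j, x j ^ t j)⁻¹ : Eˣ) : E)} : Set E)) (y : E) := by
      intro y hy
      have hf := fun m => hLt m t (fun ℓ hℓ => ht ℓ (Finset.mem_biUnion.mpr ⟨m, Finset.mem_univ _, hℓ⟩)) k y hy
      choose f hf1 hf2 using hf
      have hprod : Polynomial.aeval (y : E) (∏ m, f m) ∈ nilradical E := by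
        rw [IsArtinianRing.nilradical_eq_iInf, Ideal.mem_iInf]
        intro m
        rw [map_prod]
        exact Ideal.mem_of_dvd _ (Finset.dvd_prod_of_mem _ (Finset.mem_univ m)) (hf2 m)
      obtain ⟨n, hn⟩ := hprod
      refine ⟨(∏ m, f m) ^ n, (Polynomial.monic_prod_of_monic _ _ (fun m _ => hf1 m)).pow n, ?_⟩
      rw [← Polynomial.aeval_def, map_pow]
      exact hn
    exact ⟨key _ (Or.inl rfl), key _ (Or.inr rfl)⟩

/-- The kernel of the character at an ideal. -/
private def N5_ker {E : Type*} [CommRing E] {d : ℕ} (x : Fin d → Eˣ) (I : Ideal E) :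
    AddSubgroup (Fin d → ℤ) where
  carrier := {q | ((∏ j, x j ^ q j : Eˣ) : E) - 1 ∈ I}
  zero_mem' := by simp
  add_mem' := by
    intro a b ha hb
    simp only [Set.mem_ofPred_eq] at ha hb ⊢
    have h1 : (∏ j, x j ^ (a + b) j : Eˣ) = (∏ j, x j ^ a j) * (∏ j, x j ^ b j) := by
      rw [← Finset.prod_mul_distrib]
      refine Finset.prod_congr rfl (fun j _ => ?_)
      rw [Pi.add_apply, zpow_add]
    have h2 : (((∏ j, x j ^ (a + b) j : Eˣ)) : E) - 1 =
        ((∏ j, x j ^ a j : Eˣ) : E) * (((∏ j, x j ^ b j : Eˣ) : E) - 1) +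
          (((∏ j, x j ^ a j : Eˣ) : E) - 1) := by
      rw [h1, Units.val_mul]
      ring
    rw [h2]
    exact I.add_mem (I.mul_mem_left _ hb) ha
  neg_mem' := by
    intro a ha
    simp only [Set.mem_ofPred_eq] at ha ⊢
    have h1 : (∏ j, x j ^ (-a) j : Eˣ) = (∏ j, x j ^ a j)⁻¹ := by
      rw [← Finset.prod_inv_distrib]
      refine Finset.prod_congr rfl (fun j _ => ?_)
      rw [Pi.neg_apply, zpow_neg]
    have h2 : (((∏ j, x j ^ (-a) j : Eˣ)) : E) - 1 =
        -(((∏ j, x j ^ a j : Eˣ)⁻¹ : Eˣ) : E) * (((∏ j, x j ^ a j : Eˣ) : E) - 1) := by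
      rw [h1, mul_sub, neg_mul, Units.inv_mul]
      ring
    rw [h2]
    exact I.mul_mem_left _ ha

/-- THE UNIPOTENT IDEMPOTENT.  There are `N > 0`, an idempotent `ε` and finitely many nonzero
functionals such that `u(N q) - 1` is nilpotent on `ε E` for all `q`, and for all `t` where the
functionals do not vanish `u(N t) - 1` is invertible on `(1 - ε) E`; `u(q) = ∏ x_j^{q_j}`.
Proof.  Let `𝔪` run through the finitely many maximal ideals, `χ_𝔪 : ℤ^d → (E/𝔪)^×`.  Say `𝔪` is of
finite type if `ker χ_𝔪` has finite index; let `N` be a common multiple of these indices.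
`E/nil(E) ≅ ∏ E/𝔪`; lift the idempotent which is `1` exactly at the `𝔪` of finite type to
an idempotent `ε` of `E` (nilpotent ideal).  `(u(N q) - 1) ε` is in all `𝔪`, so nilpotent, with exponent
at most `n` = nilpotency index of the nilradical.  For `𝔪` of infinite type take `ℓ_𝔪` from
`exists_functional` (`ker χ_𝔪`).  If all `ℓ_𝔪 t ≠ 0`, then `N t ∉ ker χ_𝔪`, so
`y = (u(N t) - 1)(1 - ε) + ε` is in no maximal ideal, a unit, and `η = y⁻¹ (1 - ε)` works. -/
theorem exists_idempotent (E : Type*) [CommRing E] [Algebra ℚ E] [Module.Finite ℚ E] {d : ℕ}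
    (x : Fin d → Eˣ) :
    ∃ (N : ℕ) (L : Finset ((Fin d → ℤ) →+ ℤ)) (ε : E), 0 < N ∧ (∀ ℓ ∈ L, ℓ ≠ 0) ∧ ε * ε = ε ∧
      (∃ n : ℕ, ∀ q : Fin d → ℤ, (((∏ j, x j ^ ((N : ℤ) * q j) : Eˣ) : E) - 1) ^ n * ε = 0) ∧
      ∀ t : Fin d → ℤ, (∀ ℓ ∈ L, ℓ t ≠ 0) →
        ∃ η : E, (((∏ j, x j ^ ((N : ℤ) * t j) : Eˣ) : E) - 1) * η = 1 - ε := by
  have _ : IsArtinianRing E := IsArtinianRing.of_finite ℚ E
  have _ : Fintype (MaximalSpectrum E) := Fintype.ofFinite _
  let H : MaximalSpectrum E → AddSubgroup (Fin d → ℤ) := fun m => N5_ker x m.asIdeal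
  -- the functionals
  have hfun : ∀ m : MaximalSpectrum E, ∃ ℓ : (Fin d → ℤ) →+ ℤ, (H m).index = 0 →
      ℓ ≠ 0 ∧ ∀ q ∈ H m, ℓ q = 0 := by
    intro m
    by_cases hm : (H m).index = 0
    · obtain ⟨ℓ, hℓ⟩ := exists_functional (H m) hm
      exact ⟨ℓ, fun _ => hℓ⟩
    · exact ⟨0, fun h => absurd h hm⟩
  choose ℓ hℓ using hfun
  let N : ℕ := ∏ m : MaximalSpectrum E, if (H m).index = 0 then 1 else (H m).index
  have hN : 0 < N := by
    refine Finset.prod_pos (fun m _ => ?_)
    by_cases hm : (H m).index = 0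
    · simp [hm]
    · simp only [hm, if_false]
      exact Nat.pos_of_ne_zero hm
  -- multiples of `N` are in the kernels of finite index
  have hNmem : ∀ m : MaximalSpectrum E, (H m).index ≠ 0 → ∀ q : Fin d → ℤ,
      ((∏ j, x j ^ ((N : ℤ) * q j) : Eˣ) : E) - 1 ∈ m.asIdeal := by
    intro m hm q
    have hdvd : (H m).index ∣ N := by
      have h1 : (if (H m).index = 0 then 1 else (H m).index) ∣ N :=
        Finset.dvd_prod_of_mem _ (Finset.mem_univ m)
      simp only [hm, if_false] at h1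
      exact h1
    obtain ⟨c, hc⟩ := hdvd
    have h2 : (H m).index • (c • q) ∈ H m := AddSubgroup.nsmul_index_mem (H m) (c • q)
    have h3 : (H m).index • (c • q) = fun j => (N : ℤ) * q j := by
      funext j
      rw [hc]
      show (H m).index • (c • q j) = _
      rw [nsmul_eq_mul, nsmul_eq_mul]
      push_cast
      ring
    rw [h3] at h2
    exact h2
  -- the idempotent
  let F : E →+* ∀ I : MaximalSpectrum E, E ⧸ I.asIdeal :=
    ((IsArtinianRing.quotNilradicalEquivPi E).toRingEquiv.toRingHom).comp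
      (Ideal.Quotient.mk (nilradical E))
  have hFapp : ∀ (a : E) (m : MaximalSpectrum E), F a m = Ideal.Quotient.mk m.asIdeal a := by
    intro a m
    rfl
  have hFsurj : Function.Surjective F :=
    (IsArtinianRing.quotNilradicalEquivPi E).surjective.comp Ideal.Quotient.mk_surjective
  have hFker : ∀ a ∈ RingHom.ker F, IsNilpotent a := by
    intro a ha
    have h1 : a ∈ nilradical E := by
      rw [IsArtinianRing.nilradical_eq_iInf, Ideal.mem_iInf]
      intro m
      have h2 : F a m = 0 := by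
        rw [RingHom.mem_ker.mp ha]
        rfl
      rw [hFapp] at h2
      exact Ideal.Quotient.eq_zero_iff_mem.mp h2
    exact h1
  obtain ⟨ε, hε, hFε⟩ := exists_isIdempotentElem_eq_of_ker_isNilpotent F hFker
    (fun m => if (H m).index = 0 then 0 else 1) (hFsurj _) (by
      funext m
      by_cases hm : (H m).index = 0
      · simp [hm]
      · simp [hm])
  have hε0 : ∀ m : MaximalSpectrum E, (H m).index = 0 → ε ∈ m.asIdeal := by
    intro m hm
    have h1 := congrFun hFε m
    rw [hFapp] at h1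
    simp only [hm, if_true] at h1
    exact Ideal.Quotient.eq_zero_iff_mem.mp h1
  have hε1 : ∀ m : MaximalSpectrum E, (H m).index ≠ 0 → ε - 1 ∈ m.asIdeal := by
    intro m hm
    have h1 := congrFun hFε m
    rw [hFapp] at h1
    simp only [hm, if_false] at h1
    rw [← Ideal.Quotient.eq_zero_iff_mem, map_sub, h1, map_one, sub_self]
  refine ⟨N, Finset.univ.biUnion (fun m => if (H m).index = 0 then {ℓ m} else ∅), ε, hN, ?_, hε,
    ?_, ?_⟩
  · intro f hf
    obtain ⟨m, -, hm⟩ := Finset.mem_biUnion.mp hf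
    by_cases hm0 : (H m).index = 0
    · simp only [hm0, if_true, Finset.mem_singleton] at hm
      rw [hm]
      exact (hℓ m hm0).1
    · simp only [hm0, if_false] at hm
      exact absurd hm (Finset.notMem_empty _)
  · obtain ⟨n, hn⟩ := IsArtinianRing.isNilpotent_nilradical (R := E)
    refine ⟨n + 1, fun q => ?_⟩
    have h1 : (((∏ j, x j ^ ((N : ℤ) * q j) : Eˣ) : E) - 1) * ε ∈ nilradical E := by
      rw [IsArtinianRing.nilradical_eq_iInf, Ideal.mem_iInf]
      intro m
      by_cases hm : (H m).index = 0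
      · exact Ideal.mul_mem_left _ _ (hε0 m hm)
      · exact Ideal.mul_mem_right _ _ (hNmem m hm q)
    have h2 := Ideal.pow_mem_pow h1 n
    rw [hn] at h2
    have h3 : ((((∏ j, x j ^ ((N : ℤ) * q j) : Eˣ) : E) - 1) * ε) ^ n = 0 := h2
    have h4 : ε ^ (n + 1) = ε := hε.pow_succ_eq n
    calc (((∏ j, x j ^ ((N : ℤ) * q j) : Eˣ) : E) - 1) ^ (n + 1) * ε
        = ((((∏ j, x j ^ ((N : ℤ) * q j) : Eˣ) : E) - 1) * ε) ^ (n + 1) := by
          rw [mul_pow, h4]
      _ = 0 := by rw [pow_succ, h3, zero_mul]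
  · intro t ht
    have hnot : ∀ m : MaximalSpectrum E, (H m).index = 0 →
        ((∏ j, x j ^ ((N : ℤ) * t j) : Eˣ) : E) - 1 ∉ m.asIdeal := by
      intro m hm hmem
      have h1 : (fun j => (N : ℤ) * t j) ∈ H m := hmem
      have h2 := (hℓ m hm).2 _ h1
      have h3 : (fun j => (N : ℤ) * t j) = N • t := by
        funext j
        simp
      rw [h3, map_nsmul] at h2
      have h4 : ℓ m t ≠ 0 := by
        refine ht (ℓ m) (Finset.mem_biUnion.mpr ⟨m, Finset.mem_univ _, ?_⟩)
        simp [hm]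
      have h5 : (N : ℤ) * ℓ m t = 0 := by
        rw [← nsmul_eq_mul]
        exact h2
      rcases mul_eq_zero.mp h5 with h6 | h6
      · exact hN.ne' (by exact_mod_cast h6)
      · exact h4 h6
    set w : E := ((∏ j, x j ^ ((N : ℤ) * t j) : Eˣ) : E) - 1 with hw
    have hunit : IsUnit (w * (1 - ε) + ε) := by
      by_contra hnu
      obtain ⟨I, hI, hmem⟩ := exists_max_ideal_of_mem_nonunits (mem_nonunits_iff.mpr hnu)
      let m : MaximalSpectrum E := ⟨I, hI⟩
      by_cases hm : (H m).index = 0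
      · have h1 : ε ∈ I := hε0 m hm
        have h2 : w ∈ I := by
          have h3 : w = (w * (1 - ε) + ε) + (w - 1) * ε := by ring
          rw [h3]
          exact I.add_mem hmem (I.mul_mem_left _ h1)
        exact hnot m hm h2
      · have h1 : ε - 1 ∈ I := hε1 m hm
        have h2 : (1 : E) ∈ I := by
          have h3 : (1 : E) = (w * (1 - ε) + ε) + (w - 1) * (ε - 1) := by ring
          rw [h3]
          exact I.add_mem hmem (I.mul_mem_left _ h1)
        exact hI.ne_top ((Ideal.eq_top_iff_one I).mpr h2)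
    obtain ⟨y, hy⟩ := hunit
    refine ⟨((y⁻¹ : Eˣ) : E) * (1 - ε), ?_⟩
    have h1 : w * (1 - ε) = (y : E) * (1 - ε) := by
      rw [hy]
      have : ε * (1 - ε) = 0 := by
        have := hε.eq
        rw [mul_sub, mul_one, this, sub_self]
      have h2 : (1 - ε) * (1 - ε) = 1 - ε := by
        have h3 : (1 - ε) * (1 - ε) = 1 - ε - ε * (1 - ε) := by ring
        rw [h3, this, sub_zero]
      calc w * (1 - ε) = w * ((1 - ε) * (1 - ε)) + 0 := by rw [h2, add_zero]
        _ = w * ((1 - ε) * (1 - ε)) + ε * (1 - ε) := by rw [this]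
        _ = (w * (1 - ε) + ε) * (1 - ε) := by ring
    calc w * (((y⁻¹ : Eˣ) : E) * (1 - ε)) = ((y⁻¹ : Eˣ) : E) * (w * (1 - ε)) := by ring
      _ = ((y⁻¹ : Eˣ) : E) * ((y : E) * (1 - ε)) := by rw [h1]
      _ = 1 - ε := by rw [← mul_assoc, Units.inv_mul, one_mul]

/-- The commutative algebra generated by a commuting family of operators, as an abstract ring
(`Algebra.adjoin ℚ (Set.range U)` with `Algebra.adjoinCommRingOfComm`; it is finite-dimensional as a subalgebra
of `Module.End ℚ W`; `U (e_k)` is a unit with inverse `U (-e_k)`). -/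
theorem exists_comm_algebra {W : Type u} [AddCommGroup W] [Module ℚ W] [Module.Finite ℚ W] {d : ℕ}
    (U : Multiplicative (Fin d → ℤ) →* Module.End ℚ W) :
    ∃ (E : Type u) (_ : CommRing E) (_ : Algebra ℚ E) (_ : Module.Finite ℚ E)
      (j : E →ₐ[ℚ] Module.End ℚ W) (x : Fin d → Eˣ), Function.Injective j ∧
      ∀ t : Fin d → ℤ, j ((∏ k, x k ^ t k : Eˣ) : E) = U (Multiplicative.ofAdd t) := by
  have hcomm : ∀ a ∈ Set.range U, ∀ b ∈ Set.range U, a * b = b * a := by
    rintro _ ⟨a, rfl⟩ _ ⟨b, rfl⟩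
    rw [← map_mul, ← map_mul, mul_comm]
  let A : Subalgebra ℚ (Module.End ℚ W) := Algebra.adjoin ℚ (Set.range U)
  have hA : ∀ a b : A, a * b = b * a := (Algebra.isMulCommutative_adjoin ℚ hcomm).is_comm.comm
  let _ : CommRing A := { (inferInstance : Ring A) with mul_comm := hA }
  have hfin : Module.Finite ℚ A := by
    have : Module.Finite ℚ (Subalgebra.toSubmodule A) := inferInstance
    exact this
  let UE : Multiplicative (Fin d → ℤ) →* A :=
    { toFun := fun t => ⟨U t, Algebra.subset_adjoin ⟨t, rfl⟩⟩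
      map_one' := by
        apply Subtype.ext
        show U 1 = 1
        exact map_one U
      map_mul' := by
        intro a b
        apply Subtype.ext
        show U (a * b) = U a * U b
        exact map_mul U a b }
  refine ⟨A, inferInstance, inferInstance, hfin, A.val,
    fun k => UE.toHomUnits (Multiplicative.ofAdd (Pi.single k 1)), Subtype.val_injective, ?_⟩
  intro t
  have h1 : (∏ k, UE.toHomUnits (Multiplicative.ofAdd (Pi.single k 1)) ^ t k) =
      UE.toHomUnits (Multiplicative.ofAdd t) := by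
    have h2 : ∀ k, UE.toHomUnits (Multiplicative.ofAdd (Pi.single k 1)) ^ t k =
        UE.toHomUnits (Multiplicative.ofAdd (Pi.single k (t k) : Fin d → ℤ)) := by
      intro k
      rw [← map_zpow, ← ofAdd_zsmul]
      congr 2
      funext i
      by_cases hi : i = k
      · subst hi
        simp
      · simp [Pi.single_eq_of_ne hi]
    rw [Finset.prod_congr rfl (fun k _ => h2 k), ← map_prod]
    congr 1
    rw [← ofAdd_sum]
    congr 1
    exact Finset.univ_sum_single t
  rw [h1]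
  rfl

end Pool.MP4dac8d
end

section

/-! AND task N6: the torsion-free part is finitely generated over `ℤ[t^±]` for generic `t`. -/

set_option autoImplicit false
open Classical
open scoped Pointwise

namespace Pool.MP4dac8d

/-- The elements of `E` which (acting through `j`) preserve the subgroup `C`. -/
private def N6_stab {E W : Type*} [CommRing E] [AddCommGroup W] [Module ℚ W]
    (j : E →+* Module.End ℚ W) (C : AddSubgroup W) : Subalgebra ℤ E where
  carrier := {b : E | ∀ w ∈ C, j b w ∈ C}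
  mul_mem' := by
    intro a b ha hb w hw
    rw [map_mul]
    exact ha _ (hb w hw)
  add_mem' := by
    intro a b ha hb w hw
    rw [map_add]
    exact C.add_mem (ha w hw) (hb w hw)
  algebraMap_mem' := by
    intro n w hw
    have h : j (algebraMap ℤ E n) w = n • w := by
      simp
    rw [h]
    exact C.zsmul_mem hw n

private theorem N6_mem_stab {E W : Type*} [CommRing E] [AddCommGroup W] [Module ℚ W]
    (j : E →+* Module.End ℚ W) (C : AddSubgroup W) (b : E) :
    b ∈ N6_stab j C ↔ ∀ w ∈ C, j b w ∈ C := Iff.rfl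

private theorem N6_single {E : Type*} [CommRing E] {d : ℕ} (x : Fin d → Eˣ) (k : Fin d) (n : ℤ) :
    (∏ i, x i ^ ((Pi.single k n : Fin d → ℤ) i) : Eˣ) = x k ^ n := by
  rw [Finset.prod_eq_single k]
  · simp
  · intro b _ hb
    rw [Pi.single_eq_of_ne hb]
    simp
  · intro h
    exact absurd (Finset.mem_univ k) h

private theorem N6_neg {E : Type*} [CommRing E] {d : ℕ} (x : Fin d → Eˣ) (t : Fin d → ℤ) :
    (∏ i, x i ^ ((-t) i) : Eˣ) = (∏ i, x i ^ t i)⁻¹ := by
  simp [Finset.prod_inv_distrib]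

/-- CHARACTERISTIC ZERO PART.  `M` finitely generated over `ℤ[ℤ^d]`, every `U q` killed by a nonzero
integral polynomial.  For `t` outside the zero sets of finitely many nonzero functionals there is a finite set
`F` such that every `m` is, modulo torsion, in the subgroup generated by the `t^k • F`.
Proof.  `W`, `φ`, `Θ` from `exists_rat_hull`, finite-dimensional by `finite_rat_hull`; `E, j, x` from
`exists_comm_algebra` for `Θ ∘ U`; `L` from `integral_of_functionals`.  For good `t` each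
`x_k^{±1}` satisfies a monic equation of some degree `D` over `ℤ[u, u⁻¹]`, whose elements are integral
combinations of powers of `u^{±1}` (`Algebra.adjoin_induction`); so for `m ∈ M`, `U(e_k)^{±D} m` is, modulo
the kernel of `φ` (torsion), an integral combination of the `U(l t) U(e_k)^{±j} m`, `0 ≤ j < D`, `l ∈ ℤ`.  Hence, with
generators `F₀`, the set `F = {U(q) m : m ∈ F₀, |q_k| < D}` works: all `U(q) m` are reduced
coordinate by coordinate (everything commutes; the torsion subgroup is invariant). -/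
theorem char_zero_line {M : Type*} [AddCommGroup M] {d : ℕ}
    (U : Multiplicative (Fin d → ℤ) →* Module.End ℤ M) (hfg : FGov U ⊤)
    (hkill : ∀ q, ∃ f : Polynomial ℤ, f ≠ 0 ∧ Polynomial.aeval (U q) f = 0) :
    ∃ L : Finset ((Fin d → ℤ) →+ ℤ), (∀ ℓ ∈ L, ℓ ≠ 0) ∧
      ∀ t : Fin d → ℤ, (∀ ℓ ∈ L, ℓ t ≠ 0) → ∃ F : Finset M, ∀ m : M,
        ∃ a ∈ AddSubgroup.closure {x : M | ∃ q : Multiplicative ℤ, ∃ m ∈ F, x = lineAct U t q m},
          ∃ k : ℕ, 0 < k ∧ k • (m - a) = 0 := by
  obtain ⟨W, _, _, φ, Θ, hker, hsurj, hΘ⟩ := exists_rat_hull M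
  have : Module.Finite ℚ W := finite_rat_hull U hfg hkill φ Θ hsurj hΘ
  obtain ⟨E, _, _, _, j, x, hj, hjx⟩ := exists_comm_algebra (Θ.toMonoidHom.comp U)
  have hjx' : ∀ (q : Fin d → ℤ) (m : M),
      j ((∏ k, x k ^ q k : Eˣ) : E) (φ m) = φ (U (Multiplicative.ofAdd q) m) := by
    intro q m
    rw [hjx q]
    exact hΘ _ _
  obtain ⟨L, hL0, hL⟩ := integral_of_functionals E x
  refine ⟨L, hL0, fun t ht => ?_⟩
  set u : Eˣ := ∏ i, x i ^ t i with hu
  set A : Subalgebra ℤ E := Algebra.adjoin ℤ ({(u : E), ((u⁻¹ : Eˣ) : E)} : Set E) with hA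
  set S : Set E := (Set.range fun k => (x k : E)) ∪ (Set.range fun k => (((x k)⁻¹ : Eˣ) : E)) with hS
  have hSfin : S.Finite := (Set.finite_range _).union (Set.finite_range _)
  have hSint : ∀ s ∈ S, IsIntegral A s := by
    rintro s (⟨k, rfl⟩ | ⟨k, rfl⟩)
    · exact (hL t ht k).1
    · exact (hL t ht k).2
  obtain ⟨G, hG⟩ := fg_adjoin_of_finite hSfin hSint
  -- `A` preserves the range of `φ`
  let R : AddSubgroup W := φ.range
  have hAR : A ≤ N6_stab (j : E →+* Module.End ℚ W) R := by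
    rw [hA]
    apply Algebra.adjoin_le
    rintro s (rfl | hs)
    · rintro w ⟨m, rfl⟩
      exact ⟨_, (hjx' t m).symm⟩
    · rw [Set.mem_singleton_iff] at hs
      subst hs
      rintro w ⟨m, rfl⟩
      have := (hjx' (-t) m).symm
      rw [N6_neg] at this
      exact ⟨_, this⟩
  have hBR : ∀ b ∈ Algebra.adjoin A S, ∀ w ∈ R, j b w ∈ R := by
    intro b hb
    induction hb using Algebra.adjoin_induction with
    | mem s hs =>
      rcases hs with ⟨k, rfl⟩ | ⟨k, rfl⟩
      · rintro w ⟨m, rfl⟩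
        have := (hjx' (Pi.single k 1) m).symm
        rw [N6_single, zpow_one] at this
        exact ⟨_, this⟩
      · rintro w ⟨m, rfl⟩
        have := (hjx' (Pi.single k (-1)) m).symm
        rw [N6_single, zpow_neg, zpow_one] at this
        exact ⟨_, this⟩
    | algebraMap a => exact hAR a.2
    | add a b _ _ ha hb =>
      intro w hw
      rw [map_add]
      exact R.add_mem (ha w hw) (hb w hw)
    | mul a b _ _ ha hb =>
      intro w hw
      rw [map_mul]
      exact ha _ (hb w hw)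
  have hGB : ∀ g ∈ G, g ∈ Algebra.adjoin A S := by
    intro g hg
    have : g ∈ Subalgebra.toSubmodule (Algebra.adjoin A S) := by
      rw [← hG]
      exact Submodule.subset_span hg
    exact this
  have hlift : ∀ (g : E) (m : M), ∃ m' : M, g ∈ G → j g (φ m) = φ m' := by
    intro g m
    by_cases hg : g ∈ G
    · obtain ⟨m', hm'⟩ := hBR g (hGB g hg) (φ m) ⟨m, rfl⟩
      exact ⟨m', fun _ => hm'.symm⟩
    · exact ⟨0, fun h => absurd h hg⟩
  choose lift hlift using hlift
  obtain ⟨F₀, hF₀⟩ := hfg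
  let F : Finset M := (G ×ˢ F₀).image fun p => lift p.1 p.2
  refine ⟨F, ?_⟩
  set C₀ : AddSubgroup M :=
    AddSubgroup.closure {x : M | ∃ q : Multiplicative ℤ, ∃ m ∈ F, x = lineAct U t q m} with hC₀
  set C : AddSubgroup W := C₀.map φ with hC
  have hline : ∀ (n : ℤ) (m : M),
      lineAct U t (Multiplicative.ofAdd n) m = U (Multiplicative.ofAdd (n • t)) m := by
    intro n m
    rw [ofAdd_zsmul]
    rfl
  have hCu : ∀ (n : ℤ) (w : W), w ∈ C → j ((∏ k, x k ^ (n • t) k : Eˣ) : E) w ∈ C := by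
    rintro n w ⟨m, hm, rfl⟩
    refine ⟨U (Multiplicative.ofAdd (n • t)) m, ?_, (hjx' _ _).symm⟩
    change m ∈ C₀ at hm
    change U (Multiplicative.ofAdd (n • t)) m ∈ C₀
    rw [hC₀] at hm ⊢
    induction hm using AddSubgroup.closure_induction with
    | mem y hy =>
      obtain ⟨q, m', hm', rfl⟩ := hy
      apply AddSubgroup.subset_closure
      refine ⟨Multiplicative.ofAdd n * q, m', hm', ?_⟩
      rw [map_mul, Module.End.mul_apply, hline]
    | zero => simp
    | add a b _ _ ha hb =>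
      rw [map_add]
      exact AddSubgroup.add_mem _ ha hb
    | neg a _ ha =>
      rw [map_neg]
      exact AddSubgroup.neg_mem _ ha
  have hAC : A ≤ N6_stab (j : E →+* Module.End ℚ W) C := by
    rw [hA]
    apply Algebra.adjoin_le
    rintro s (rfl | hs)
    · intro w hw
      have := hCu 1 w hw
      rw [one_smul] at this
      exact this
    · rw [Set.mem_singleton_iff] at hs
      subst hs
      intro w hw
      have := hCu (-1) w hw
      rw [neg_one_smul, N6_neg] at this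
      exact this
  have hprod : ∀ q : Fin d → ℤ, ((∏ k, x k ^ q k : Eˣ) : E) ∈ Algebra.adjoin A S := by
    intro q
    rw [Units.coe_prod]
    apply Subalgebra.prod_mem
    intro k _
    have h1 : (x k : E) ∈ Algebra.adjoin A S := Algebra.subset_adjoin (Or.inl ⟨k, rfl⟩)
    have h2 : (((x k)⁻¹ : Eˣ) : E) ∈ Algebra.adjoin A S := Algebra.subset_adjoin (Or.inr ⟨k, rfl⟩)
    obtain ⟨n, hn | hn⟩ := (q k).eq_nat_or_neg
    · rw [hn, zpow_natCast, Units.val_pow_eq_pow_val]
      exact Subalgebra.pow_mem _ h1 n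
    · rw [hn, zpow_neg, zpow_natCast, ← inv_pow, Units.val_pow_eq_pow_val]
      exact Subalgebra.pow_mem _ h2 n
  have hspan : ∀ m ∈ F₀, ∀ y ∈ Algebra.adjoin A S, j y (φ m) ∈ C := by
    intro m hm y hy'
    replace hy' : y ∈ Submodule.span A (G : Set E) := by
      rw [hG]
      exact hy'
    induction hy' using Submodule.span_induction with
    | mem g hg =>
      rw [hlift g m hg]
      refine ⟨_, ?_, rfl⟩
      apply AddSubgroup.subset_closure
      refine ⟨1, lift g m, ?_, ?_⟩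
      · exact Finset.mem_image.mpr ⟨(g, m), Finset.mem_product.mpr ⟨hg, hm⟩, rfl⟩
      · rw [map_one, Module.End.one_apply]
    | zero => simp
    | add a b _ _ ha hb =>
      rw [map_add]
      exact C.add_mem ha hb
    | smul a y _ hy =>
      rw [Algebra.smul_def, map_mul]
      exact hAC a.2 _ hy
  have hall : ∀ m : M, φ m ∈ C := by
    intro m
    have hm : m ∈ (⊤ : AddSubgroup M) := trivial
    rw [← hF₀] at hm
    induction hm using AddSubgroup.closure_induction with
    | mem y hy =>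
      obtain ⟨q, m', hm', rfl⟩ := hy
      have := hspan m' hm' _ (hprod (Multiplicative.toAdd q))
      rw [hjx'] at this
      exact this
    | zero => simp
    | add a b _ _ ha hb =>
      rw [map_add]
      exact AddSubgroup.add_mem _ ha hb
    | neg a _ ha =>
      rw [map_neg]
      exact AddSubgroup.neg_mem _ ha
  intro m
  obtain ⟨a, ha, hma⟩ := hall m
  refine ⟨a, ha, ?_⟩
  rw [← hker]
  rw [map_sub, hma, sub_self]

end Pool.MP4dac8d
end

section

/-! AND task N7: existence of a good direction `t`. -/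

set_option autoImplicit false
open Classical
open scoped Pointwise

namespace Pool.MP4dac8d

/-- EXISTENCE OF A LINE.  `M` finitely generated over `ℤ[ℤ^d]`, no free lines (`h1`), no free planes in
characteristic `p` (`h2`).  For any finite set of nonzero functionals there is `t` at which they do not vanish
and such that `M` is finitely generated over `ℤ[t^±]`.
Proof.  `exists_killer_one` gives the hypothesis of `char_zero_line`; let `L'` be its functionals.
`e` from `exists_torsion_exponent`, `P` = primes dividing `e`.  `tor M p` is invariant, so `FGov U` by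
`fg_of_le`; `exists_killer_two` and `noether_line` with `L ∪ L'` give `t`.  By `fgov_tor_of_primes`
`FGov (lineAct U t) (tor M e)`, and `tor M e` contains all torsion elements; together with the finite set of
`char_zero_line` this generates `M`. -/
theorem exists_line {M : Type*} [AddCommGroup M] {d : ℕ}
    (U : Multiplicative (Fin d → ℤ) →* Module.End ℤ M) (hfg : FGov U ⊤)
    (h1 : ∀ q, ∀ a : M, ∃ f : Polynomial ℤ, f ≠ 0 ∧ Polynomial.aeval (U q) f a = 0)
    (h2 : ∀ p : ℕ, p.Prime → ∀ a : M, p • a = 0 → ∀ q₁ q₂ : Multiplicative (Fin d → ℤ),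
      ∃ (n : ℕ) (c : Fin n → Fin n → ℤ), (∃ j k, ¬ (p : ℤ) ∣ c j k) ∧
        ∑ j, ∑ k, c j k • (U q₁ ^ (j : ℕ) * U q₂ ^ (k : ℕ)) a = 0)
    (L : Finset ((Fin d → ℤ) →+ ℤ)) (hL : ∀ ℓ ∈ L, ℓ ≠ 0) :
    ∃ t : Fin d → ℤ, (∀ ℓ ∈ L, ℓ t ≠ 0) ∧ FGov (lineAct U t) ⊤ := by
  have hFG : Group.FG (Multiplicative (Fin d → ℤ)) := by
    have h : AddGroup.FG (Fin d → ℤ) := Module.Finite.iff_addGroup_fg.mp inferInstance
    exact AddGroup.fg_iff_mul_fg.mp h
  have hFG1 : Group.FG (Multiplicative ℤ) := by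
    have h : AddGroup.FG ℤ := Module.Finite.iff_addGroup_fg.mp inferInstance
    exact AddGroup.fg_iff_mul_fg.mp h
  obtain ⟨L', hL', hline⟩ := char_zero_line U hfg fun q => exists_killer_one U hfg q (h1 q)
  obtain ⟨e, he, htor⟩ := exists_torsion_exponent U hfg
  have hprime : ∀ p ∈ e.primeFactors, p.Prime := fun p hp => Nat.prime_of_mem_primeFactors hp
  have hfgp : ∀ p ∈ e.primeFactors, FGov U (tor M p) := by
    intro p hp
    refine fg_of_le U ⊤ (tor M p) hfg le_top ?_
    intro q a ha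
    have ha' : p • a = 0 := ha
    change p • U q a = 0
    rw [← map_nsmul, ha', map_zero]
  obtain ⟨t, ht, htp⟩ := noether_line d U e.primeFactors hprime hfgp
    (fun p hp q₁ q₂ => exists_killer_two U (tor M p) (hfgp p hp) p (hprime p hp) q₁ q₂
      fun a ha => h2 p (hprime p hp) a ha q₁ q₂)
    (L ∪ L') (by
      intro ℓ hℓ
      rcases Finset.mem_union.mp hℓ with h | h
      · exact hL ℓ h
      · exact hL' ℓ h)
  obtain ⟨F₁, hF₁⟩ := fgov_tor_of_primes (lineAct U t) e he fun p hp hpe =>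
    htp p (Nat.mem_primeFactors.mpr ⟨hp, hpe, he.ne'⟩)
  obtain ⟨F₂, hF₂⟩ := hline t fun ℓ hℓ => ht ℓ (Finset.mem_union_right L hℓ)
  refine ⟨t, fun ℓ hℓ => ht ℓ (Finset.mem_union_left L' hℓ), F₁ ∪ F₂, ?_⟩
  rw [eq_top_iff]
  intro m _
  obtain ⟨a, ha, k, hk, hka⟩ := hF₂ m
  have h3 : m - a ∈ tor M e := htor (m - a) ⟨k, hk, hka⟩
  rw [← hF₁] at h3
  have h4 : AddSubgroup.closure {x : M | ∃ q : Multiplicative ℤ, ∃ m ∈ F₁, x = lineAct U t q m} ≤
      AddSubgroup.closure {x : M | ∃ q : Multiplicative ℤ, ∃ m ∈ F₁ ∪ F₂,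
        x = lineAct U t q m} := by
    refine AddSubgroup.closure_mono ?_
    rintro x ⟨q, m, hm, hx⟩
    exact ⟨q, m, Finset.mem_union_left F₂ hm, hx⟩
  have h5 : AddSubgroup.closure {x : M | ∃ q : Multiplicative ℤ, ∃ m ∈ F₂, x = lineAct U t q m} ≤
      AddSubgroup.closure {x : M | ∃ q : Multiplicative ℤ, ∃ m ∈ F₁ ∪ F₂,
        x = lineAct U t q m} := by
    refine AddSubgroup.closure_mono ?_
    rintro x ⟨q, m, hm, hx⟩
    exact ⟨q, m, Finset.mem_union_right F₁ hm, hx⟩
  have h6 : m = a + (m - a) := by abel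
  rw [h6]
  exact AddSubgroup.add_mem _ (h5 ha) (h4 h3)

end Pool.MP4dac8d
end

section

/-! AND task Z0: the real model with the unipotent projection. -/

set_option autoImplicit false
open Classical
open scoped Pointwise

namespace Pool.MP4dac8d

universe u

/-- THE REAL MODEL WITH THE UNIPOTENT PROJECTION.
Proof.  (1) `exists_rat_hull`: `W, φ₁, Θ₁`; `finite_rat_hull`: `Module.Finite ℚ W`.
(2) `exists_comm_algebra` for the monoid homomorphism `q ↦ Θ₁ (U q)` (`Θ₁.toMonoidHom.comp U`): `E, j, x` with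
`j (∏ x_k^{t_k}) = Θ₁ (U t)`.  (3) `exists_idempotent` for `E, x`: `N, L, ε`, and `η` for good `t`.
(4) `exists_real_hull W`: `n, φ₂, Θ₂`.  Put `Φ q = Θ₂ (Θ₁ (scaleAct U N q))`
(`= Θ₂ (j (∏ x_k^{N q_k}))`), `P = Θ₂ (j ε)`, `R = Θ₂ (j η)`.  All relations are images of relations in the
commutative ring `E`.  Span: `φ₂ (W)` spans and every `w` is `(1/k) φ₁ m`, `φ₂ (c w) = c φ₂ w`. -/
theorem exists_real_unipotent {M : Type u} [AddCommGroup M] {d : ℕ}
    (U : Multiplicative (Fin d → ℤ) →* Module.End ℤ M) (hfg : FGov U ⊤)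
    (hkill : ∀ q, ∃ f : Polynomial ℤ, f ≠ 0 ∧ Polynomial.aeval (U q) f = 0) :
    ∃ (N : ℕ) (L : Finset ((Fin d → ℤ) →+ ℤ)) (W : Type u) (_ : AddCommGroup W)
      (_ : Module ℚ W) (φ₁ : M →+ W) (n : ℕ) (φ₂ : W →+ (Fin n → ℝ))
      (Φ : Multiplicative (Fin d → ℤ) →* Module.End ℝ (Fin n → ℝ))
      (P : Module.End ℝ (Fin n → ℝ)),
      0 < N ∧ (∀ ℓ ∈ L, ℓ ≠ 0) ∧ (∀ m : M, φ₁ m = 0 ↔ ∃ k : ℕ, 0 < k ∧ k • m = 0) ∧
      Submodule.span ℝ (Set.range fun m => φ₂ (φ₁ m)) = ⊤ ∧
      (∀ (A : AddSubgroup W), A.FG → ∀ κ : ℝ, {w : W | w ∈ A ∧ ‖φ₂ w‖ ≤ κ}.Finite) ∧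
      (∀ (q : Multiplicative (Fin d → ℤ)) (m : M),
        φ₂ (φ₁ (scaleAct U N q m)) = Φ q (φ₂ (φ₁ m))) ∧
      P * P = P ∧ (∀ q, P * Φ q = Φ q * P) ∧ (∃ n' : ℕ, ∀ q, (Φ q - 1) ^ n' * P = 0) ∧
      ∀ t : Fin d → ℤ, (∀ ℓ ∈ L, ℓ t ≠ 0) → ∃ R : Module.End ℝ (Fin n → ℝ),
        (∀ q, R * Φ q = Φ q * R) ∧ P * R = R * P ∧
        (Φ (Multiplicative.ofAdd t) - 1) * R = 1 - P := by
  obtain ⟨W, iW1, iW2, φ₁, Θ₁, hker, hsurj, hΘ₁⟩ := exists_rat_hull M
  have hWf : Module.Finite ℚ W := finite_rat_hull U hfg hkill φ₁ Θ₁ hsurj hΘ₁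
  obtain ⟨E, iE1, iE2, iE3, j, x, hj, hjx⟩ :=
    exists_comm_algebra ((Θ₁ : Module.End ℤ M →* Module.End ℚ W).comp U)
  obtain ⟨N, L, ε, hN, hL, hε, ⟨n', hnil⟩, hη⟩ := exists_idempotent E x
  obtain ⟨n, φ₂, Θ₂, hinj, hΘ₂, hspan, hsmul, hfin⟩ := exists_real_hull W
  set Φ : Multiplicative (Fin d → ℤ) →* Module.End ℝ (Fin n → ℝ) :=
    ((Θ₂ : Module.End ℚ W →* Module.End ℝ (Fin n → ℝ)).comp
      (Θ₁ : Module.End ℤ M →* Module.End ℚ W)).comp (scaleAct U N) with hΦdef
  have hΦ1 : ∀ q, Φ q = Θ₂ (Θ₁ (scaleAct U N q)) := fun q => rfl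
  have hΦ2 : ∀ q, Φ q = Θ₂ (j ((∏ k, x k ^ ((N : ℤ) * Multiplicative.toAdd q k) : Eˣ) : E)) := by
    intro q
    rw [hΦ1]
    have h1 := hjx (N • Multiplicative.toAdd q)
    have h2 : (∏ k, x k ^ ((N • Multiplicative.toAdd q) k) : Eˣ)
        = ∏ k, x k ^ ((N : ℤ) * Multiplicative.toAdd q k) := by
      refine Finset.prod_congr rfl fun k _ => ?_
      rw [Pi.smul_apply, nsmul_eq_mul]
    rw [h2] at h1
    rw [h1]
    rfl
  refine ⟨N, L, W, iW1, iW2, φ₁, n, φ₂, Φ, Θ₂ (j ε), hN, hL, hker, ?_, hfin, ?_, ?_, ?_, ?_, ?_⟩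
  · rw [eq_top_iff, ← hspan, Submodule.span_le]
    rintro _ ⟨w, rfl⟩
    obtain ⟨k, hk, m, hm⟩ := hsurj w
    have h1 : φ₂ (φ₁ m) = (k : ℝ) • φ₂ w := by
      rw [← hm, hsmul]
      simp
    have hk0 : (k : ℝ) ≠ 0 := by exact_mod_cast hk.ne'
    have h2 : φ₂ w = (k : ℝ)⁻¹ • φ₂ (φ₁ m) := by
      rw [h1, smul_smul, inv_mul_cancel₀ hk0, one_smul]
    rw [SetLike.mem_coe, h2]
    exact Submodule.smul_mem _ _ (Submodule.subset_span ⟨m, rfl⟩)
  · intro q m
    rw [hΦ1, hΘ₂, hΘ₁]
  · rw [← map_mul, ← map_mul, hε]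
  · intro q
    rw [hΦ2, ← map_mul, ← map_mul, ← map_mul, ← map_mul, mul_comm]
  · refine ⟨n', fun q => ?_⟩
    have h1 : Φ q - 1 = Θ₂ (j (((∏ k, x k ^ ((N : ℤ) * Multiplicative.toAdd q k) : Eˣ) : E) - 1)) := by
      rw [hΦ2, map_sub, map_sub, map_one, map_one]
    rw [h1, ← map_pow, ← map_pow, ← map_mul, ← map_mul, hnil, map_zero, map_zero]
  · intro t ht
    obtain ⟨η, hη'⟩ := hη t ht
    refine ⟨Θ₂ (j η), fun q => ?_, ?_, ?_⟩
    · rw [hΦ2, ← map_mul, ← map_mul, ← map_mul, ← map_mul, mul_comm]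
    · rw [← map_mul, ← map_mul, ← map_mul, ← map_mul, mul_comm]
    · have h1 : Φ (Multiplicative.ofAdd t) - 1
          = Θ₂ (j (((∏ k, x k ^ ((N : ℤ) * t k) : Eˣ) : E) - 1)) := by
        rw [hΦ2, map_sub, map_sub, map_one, map_one]
        rfl
      rw [h1, ← map_mul, ← map_mul, hη', map_sub, map_sub, map_one, map_one]

end Pool.MP4dac8d
end
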