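import Pool.Agent.Lib.MP_4dac8d_al.Mg.G001
import Pool.Agent.Lib.MP_4dac8d_al.AND.Defs

section

/-! AND task S2: a virtually metabelian group is virtually an extension of `ℤ^d` by an abelian group. -/

set_option autoImplicit false
open Classical
open scoped Pointwise

namespace Pool.MP4dac8d

universe u

/-- A finitely generated abelian group `Q` has a homomorphism-free description: there are a finite
index subgroup `Q₁` and an isomorphism `Q₁ ≃ ℤ^d`. -/
theorem exists_free_subgroup (Q : Type*) [CommGroup Q] [Group.FG Q] :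
    ∃ (d : ℕ) (Q₁ : Subgroup Q) (_ : Q₁ ≃* Multiplicative (Fin d → ℤ)), Q₁.index ≠ 0 := by
  obtain ⟨ι, j, hι, hj, p, hp, e, ⟨f⟩⟩ := CommGroup.equiv_free_prod_prod_multiplicative_zmod Q
  have hne : ∀ i, NeZero (p i ^ e i) := fun i => ⟨pow_ne_zero _ (hp i).ne_zero⟩
  have hfin : Finite ((i : ι) → Multiplicative (ZMod (p i ^ e i))) := by
    have : ∀ i, Finite (Multiplicative (ZMod (p i ^ e i))) := fun i =>
      inferInstanceAs (Finite (ZMod (p i ^ e i)))
    infer_instance
  set φ : Q →* ((i : ι) → Multiplicative (ZMod (p i ^ e i))) :=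
    (MonoidHom.snd (j → Multiplicative ℤ) ((i : ι) → Multiplicative (ZMod (p i ^ e i)))).comp
      f.toMonoidHom with hφ
  set ψ : Q →* (j → Multiplicative ℤ) :=
    (MonoidHom.fst (j → Multiplicative ℤ) ((i : ι) → Multiplicative (ZMod (p i ^ e i)))).comp
      f.toMonoidHom with hψ
  have hψa : ∀ q, ψ q = (f q).1 := fun q => rfl
  have hφa : ∀ q, φ q = (f q).2 := fun q => rfl
  have hbij : Function.Bijective (ψ.comp φ.ker.subtype) := by
    constructor
    · rw [injective_iff_map_eq_one]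
      rintro ⟨q, hq⟩ h
      have h1 : (f q).1 = 1 := h
      have h2 : (f q).2 = 1 := hq
      have h3 : f q = 1 := Prod.ext h1 h2
      have h4 : q = 1 := f.map_eq_one_iff.mp h3
      exact Subtype.ext h4
    · intro y
      refine ⟨⟨f.symm (y, 1), ?_⟩, ?_⟩
      · show (f (f.symm (y, 1))).2 = 1
        rw [MulEquiv.apply_symm_apply]
      · show (f (f.symm (y, 1))).1 = y
        rw [MulEquiv.apply_symm_apply]
  have e1 : φ.ker ≃* (j → Multiplicative ℤ) := MulEquiv.ofBijective _ hbij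
  let e2 : (j → Multiplicative ℤ) ≃* Multiplicative (Fin (Fintype.card j) → ℤ) :=
    { toFun := fun a => Multiplicative.ofAdd fun k =>
        Multiplicative.toAdd (a ((Fintype.equivFin j).symm k))
      invFun := fun b k => Multiplicative.ofAdd
        ((Multiplicative.toAdd b) ((Fintype.equivFin j) k))
      left_inv := fun a => by
        funext k
        simp
      right_inv := fun b => by
        apply Multiplicative.toAdd.injective
        funext k
        simp
      map_mul' := fun a b => rfl }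
  refine ⟨Fintype.card j, φ.ker, e1.trans e2, ?_⟩
  rw [Subgroup.index_ker]
  exact Nat.card_pos.ne'

/-- GENERATION OF THE COMMUTATOR SUBGROUP.  If `T` generates `H` (a finite set), then `⁅H, H⁆` is generated by the
conjugates (by elements of `H`) of the commutators of elements of `T`.  (The normal closure `K` of
these commutators: `H / K` is generated by commuting elements, so abelian.) -/
theorem commutator_generated {H : Type*} [Group H] (T : Set H) (hT : Subgroup.closure T = ⊤) :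
    Subgroup.closure {x : H | ∃ h : H, ∃ s ∈ T, ∃ s' ∈ T, x = h * (s * s' * s⁻¹ * s'⁻¹) * h⁻¹} =
      commutator H := by
  set X : Set H := {x : H | ∃ h : H, ∃ s ∈ T, ∃ s' ∈ T, x = h * (s * s' * s⁻¹ * s'⁻¹) * h⁻¹}
    with hX
  apply le_antisymm
  · rw [Subgroup.closure_le]
    rintro x ⟨h, s, _, s', _, rfl⟩
    have h1 : s * s' * s⁻¹ * s'⁻¹ ∈ commutator H :=
      Subgroup.commutator_mem_commutator (Subgroup.mem_top s) (Subgroup.mem_top s')
    exact (inferInstance : (commutator H).Normal).conj_mem _ h1 h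
  · have hnorm : (Subgroup.closure X).Normal := by
      constructor
      intro x hx g
      induction hx using Subgroup.closure_induction with
      | mem x hx =>
        obtain ⟨h, s, hs, s', hs', rfl⟩ := hx
        refine Subgroup.subset_closure ⟨g * h, s, hs, s', hs', ?_⟩
        group
      | one => simp
      | mul x y _ _ hx hy =>
        have h1 : g * (x * y) * g⁻¹ = (g * x * g⁻¹) * (g * y * g⁻¹) := by group
        rw [h1]
        exact Subgroup.mul_mem _ hx hy
      | inv x _ hx =>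
        have h1 : g * x⁻¹ * g⁻¹ = (g * x * g⁻¹)⁻¹ := by group
        rw [h1]
        exact Subgroup.inv_mem _ hx
    have hC : ∀ g : H, ∃ C : Subgroup H, ∀ h, h ∈ C ↔
        (QuotientGroup.mk' (Subgroup.closure X)) g * (QuotientGroup.mk' (Subgroup.closure X)) h =
          (QuotientGroup.mk' (Subgroup.closure X)) h *
            (QuotientGroup.mk' (Subgroup.closure X)) g := by
      intro g
      refine ⟨(Subgroup.centralizer {(QuotientGroup.mk' (Subgroup.closure X)) g}).comap
        (QuotientGroup.mk' (Subgroup.closure X)), fun h => ?_⟩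
      rw [Subgroup.mem_comap, Subgroup.mem_centralizer_singleton_iff]
      exact ⟨fun h => h.symm, fun h => h.symm⟩
    have hTT : ∀ s ∈ T, ∀ s' ∈ T,
        (QuotientGroup.mk' (Subgroup.closure X)) s * (QuotientGroup.mk' (Subgroup.closure X)) s' =
          (QuotientGroup.mk' (Subgroup.closure X)) s' *
            (QuotientGroup.mk' (Subgroup.closure X)) s := by
      intro s hs s' hs'
      have h1 : (QuotientGroup.mk' (Subgroup.closure X)) (s * s' * s⁻¹ * s'⁻¹) = 1 := by
        rw [QuotientGroup.mk'_apply, QuotientGroup.eq_one_iff]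
        exact Subgroup.subset_closure ⟨1, s, hs, s', hs', by group⟩
      rw [map_mul, map_mul, map_mul, map_inv, map_inv, mul_inv_eq_one, mul_inv_eq_iff_eq_mul] at h1
      exact h1
    have hT1 : ∀ s ∈ T, ∀ h : H,
        (QuotientGroup.mk' (Subgroup.closure X)) s * (QuotientGroup.mk' (Subgroup.closure X)) h =
          (QuotientGroup.mk' (Subgroup.closure X)) h *
            (QuotientGroup.mk' (Subgroup.closure X)) s := by
      intro s hs h
      obtain ⟨C, hC'⟩ := hC s
      rw [← hC' h]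
      have h5 : (⊤ : Subgroup H) ≤ C := by
        rw [← hT, Subgroup.closure_le]
        intro y hy
        exact (hC' y).mpr (hTT s hs y hy)
      exact h5 (Subgroup.mem_top h)
    have hall : ∀ g h : H,
        (QuotientGroup.mk' (Subgroup.closure X)) g * (QuotientGroup.mk' (Subgroup.closure X)) h =
          (QuotientGroup.mk' (Subgroup.closure X)) h *
            (QuotientGroup.mk' (Subgroup.closure X)) g := by
      intro g h
      obtain ⟨C, hC'⟩ := hC g
      rw [← hC' h]
      have h5 : (⊤ : Subgroup H) ≤ C := by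
        rw [← hT, Subgroup.closure_le]
        intro y hy
        exact (hC' y).mpr (hT1 y hy g).symm
      exact h5 (Subgroup.mem_top h)
    rw [commutator_def, Subgroup.commutator_le]
    intro g _ h _
    have h1 : (QuotientGroup.mk' (Subgroup.closure X)) (g * h * g⁻¹ * h⁻¹) = 1 := by
      rw [map_mul, map_mul, map_mul, map_inv, map_inv, mul_inv_eq_one,
        mul_inv_eq_iff_eq_mul]
      exact hall g h
    rw [QuotientGroup.mk'_apply, QuotientGroup.eq_one_iff] at h1
    exact h1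

/-- The core of `exists_ext`: finitely generated metabelian groups. -/
private theorem S2_core (H : Type u) [Group H] [Group.FG H]
    (hab : ∀ a ∈ commutator H, ∀ b ∈ commutator H, a * b = b * a) :
    ∃ (d : ℕ) (K : Subgroup H) (M : Type u) (_ : AddCommGroup M) (_ : DistribMulAction K M)
      (D : Ext K M d) (U : Multiplicative (Fin d → ℤ) →* Module.End ℤ M),
      K.index ≠ 0 ∧ (∀ (g : K) (m : M), U (D.π g) m = g • m) ∧ FGov U ⊤ := by
  have hAfg : Group.FG (Abelianization H) :=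
    Group.fg_of_surjective (f := (Abelianization.of : H →* Abelianization H))
      (QuotientGroup.mk'_surjective _)
  obtain ⟨d, Q₁, e, hQ₁⟩ := exists_free_subgroup (Abelianization H)
  set K : Subgroup H := Q₁.comap Abelianization.of with hK
  have hKi : K.index ≠ 0 := by
    rw [hK, Subgroup.index_comap_of_surjective (f := (Abelianization.of : H →* Abelianization H))
      Q₁ (QuotientGroup.mk'_surjective _)]
    exact hQ₁
  have hof : ∀ x : H, Abelianization.of x = 1 ↔ x ∈ commutator H := by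
    intro x
    rw [← MonoidHom.mem_ker, Abelianization.ker_of]
  have hcK : commutator H ≤ K := by
    intro x hx
    rw [hK, Subgroup.mem_comap, (hof x).mpr hx]
    exact Q₁.one_mem
  let iC : CommGroup (commutator H) :=
    { (inferInstance : Group (commutator H)) with
      mul_comm := fun a b => Subtype.ext (hab a a.2 b b.2) }
  let M : Type u := Additive (commutator H)
  let iM : AddCommGroup M := @Additive.addCommGroup (commutator H) iC
  let iA : DistribMulAction K M :=
    { smul := fun g m => Additive.ofMul (MulAut.conjNormal (g : H) (Additive.toMul m))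
      one_smul := fun m => by
        show Additive.ofMul (MulAut.conjNormal ((1 : K) : H) (Additive.toMul m)) = m
        rw [Subgroup.coe_one, map_one]
        rfl
      mul_smul := fun g g' m => by
        show Additive.ofMul (MulAut.conjNormal ((g * g' : K) : H) (Additive.toMul m)) = _
        rw [Subgroup.coe_mul, map_mul]
        rfl
      smul_zero := fun g => by
        show Additive.ofMul (MulAut.conjNormal (g : H) 1) = _
        rw [map_one]
        rfl
      smul_add := fun g m m' => by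
        show Additive.ofMul (MulAut.conjNormal (g : H) (Additive.toMul m * Additive.toMul m')) = _
        rw [map_mul]
        rfl }
  have hsm : ∀ (g : K) (m : M), ((Additive.toMul (g • m) : commutator H) : H) =
      (g : H) * (Additive.toMul m : commutator H) * (g : H)⁻¹ := fun g m =>
    MulAut.conjNormal_apply (g : H) (Additive.toMul m)
  let πQ : K →* Q₁ :=
    { toFun := fun g => ⟨Abelianization.of (g : H), g.2⟩
      map_one' := Subtype.ext (map_one _)
      map_mul' := fun a b => Subtype.ext (map_mul _ _ _) }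
  let π : K →* Multiplicative (Fin d → ℤ) := e.toMonoidHom.comp πQ
  have hπs : Function.Surjective π := by
    intro y
    obtain ⟨q, hq⟩ := e.surjective y
    obtain ⟨h, hh⟩ := QuotientGroup.mk'_surjective (commutator H) (q : Abelianization H)
    have hhK : h ∈ K := by
      rw [hK, Subgroup.mem_comap]
      have : Abelianization.of h = (q : Abelianization H) := hh
      rw [this]
      exact q.2
    refine ⟨⟨h, hhK⟩, ?_⟩
    rw [← hq]
    show e (πQ ⟨h, hhK⟩) = e q
    congr 1
    exact Subtype.ext hh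
  choose x hx using fun k : Fin d => hπs (Multiplicative.ofAdd (Pi.single k 1))
  let D : Ext K M d :=
    { i := fun m => ⟨((Additive.toMul m : commutator H) : H), hcK (Additive.toMul m).2⟩
      i_add := fun a b => rfl
      i_inj := fun a b hab' => by
        have h1 := congrArg (fun y : K => (y : H)) hab'
        have h2 : (Additive.toMul a : commutator H) = Additive.toMul b := Subtype.ext h1
        exact h2
      conj := fun g m => by
        apply Subtype.ext
        show (g : H) * (Additive.toMul m : commutator H) * (g : H)⁻¹ = _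
        rw [← hsm]
      π := π
      x := x
      π_x := hx
      ker := fun g => by
        constructor
        · intro h
          have h1 : πQ g = 1 := e.map_eq_one_iff.mp h
          have h2 : Abelianization.of (g : H) = 1 := congrArg Subtype.val h1
          have h3 := (hof g).mp h2
          exact ⟨Additive.ofMul ⟨(g : H), h3⟩, Subtype.ext rfl⟩
        · rintro ⟨m, rfl⟩
          show e (πQ _) = 1
          rw [e.map_eq_one_iff]
          apply Subtype.ext
          exact (hof _).mpr (Additive.toMul m).2 }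
  obtain ⟨U, hU⟩ := D.exists_action
  refine ⟨d, K, M, iM, iA, D, U, hKi, hU, ?_⟩
  -- finite generation
  obtain ⟨T, hT⟩ := (Group.FG.out : (⊤ : Subgroup H).FG)
  have hgen := commutator_generated (T : Set H) hT
  have hfi : K.FiniteIndex := ⟨hKi⟩
  -- representatives of the right cosets
  have hrep : ∃ R : Finset H, ∀ h : H, ∃ r ∈ R, ∃ g : K, h = (g : H) * r := by
    have : Finite (Quotient (QuotientGroup.rightRel K)) :=
      Finite.of_equiv _ (QuotientGroup.quotientRightRelEquivQuotientLeftRel K).symm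
    have hf := Set.finite_range (fun q : Quotient (QuotientGroup.rightRel K) => q.out)
    refine ⟨hf.toFinset, fun h => ?_⟩
    refine ⟨(Quotient.mk (QuotientGroup.rightRel K) h).out, ?_, ?_⟩
    · rw [Set.Finite.mem_toFinset]
      exact ⟨_, rfl⟩
    · have h1 : (QuotientGroup.rightRel K) (Quotient.mk (QuotientGroup.rightRel K) h).out h :=
        Quotient.mk_out h
      rw [QuotientGroup.rightRel_apply] at h1
      exact ⟨⟨_, h1⟩, by simp⟩
  obtain ⟨R, hR⟩ := hrep
  have hmem : ∀ (r s s' : H), r * (s * s' * s⁻¹ * s'⁻¹) * r⁻¹ ∈ commutator H := by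
    intro r s s'
    have h1 : s * s' * s⁻¹ * s'⁻¹ ∈ commutator H :=
      Subgroup.commutator_mem_commutator (Subgroup.mem_top s) (Subgroup.mem_top s')
    exact (inferInstance : (commutator H).Normal).conj_mem _ h1 r
  refine ⟨(R ×ˢ (T ×ˢ T)).image fun q =>
    (Additive.ofMul ⟨q.1 * (q.2.1 * q.2.2 * q.2.1⁻¹ * q.2.2⁻¹) * q.1⁻¹, hmem q.1 q.2.1 q.2.2⟩ : M),
    ?_⟩
  rw [eq_top_iff]
  set Y : Set M := {x : M | ∃ q : Multiplicative (Fin d → ℤ), ∃ m ∈ (R ×ˢ (T ×ˢ T)).image fun q =>
    (Additive.ofMul ⟨q.1 * (q.2.1 * q.2.2 * q.2.1⁻¹ * q.2.2⁻¹) * q.1⁻¹, hmem q.1 q.2.1 q.2.2⟩ : M),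
    x = U q m} with hY
  -- all elements of the commutator subgroup
  have key : ∀ y : H, y ∈ commutator H → ∀ hy : y ∈ commutator H,
      (Additive.ofMul ⟨y, hy⟩ : M) ∈ AddSubgroup.closure Y := by
    intro y hy0
    rw [← hgen] at hy0
    induction hy0 using Subgroup.closure_induction with
    | mem y hy1 =>
      intro hy
      obtain ⟨h, s, hs, s', hs', rfl⟩ := hy1
      obtain ⟨r, hr, g, rfl⟩ := hR h
      refine AddSubgroup.subset_closure ⟨D.π g,
        (Additive.ofMul ⟨r * (s * s' * s⁻¹ * s'⁻¹) * r⁻¹, hmem r s s'⟩ : M), ?_, ?_⟩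
      · rw [Finset.mem_image]
        exact ⟨(r, (s, s')), Finset.mk_mem_product hr (Finset.mk_mem_product hs hs'), rfl⟩
      · rw [hU]
        apply Additive.toMul.injective
        apply Subtype.ext
        rw [hsm]
        show (g : H) * r * (s * s' * s⁻¹ * s'⁻¹) * ((g : H) * r)⁻¹ =
          (g : H) * (r * (s * s' * s⁻¹ * s'⁻¹) * r⁻¹) * (g : H)⁻¹
        group
    | one =>
      intro hy
      exact (AddSubgroup.closure Y).zero_mem
    | mul a b ha hb iha ihb =>
      intro hy
      rw [hgen] at ha hb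
      exact (AddSubgroup.closure Y).add_mem (iha ha) (ihb hb)
    | inv a ha iha =>
      intro hy
      rw [hgen] at ha
      exact (AddSubgroup.closure Y).neg_mem (iha ha)
  intro m _
  exact key _ (Additive.toMul m).2 (Additive.toMul m).2

/-- VIRTUALLY METABELIAN GROUPS.  `G` finitely generated, `H` of finite index with abelian `⁅H, H⁆`.
Proof.  `H` is finitely generated (`Subgroup.fg_of_index_ne_zero`).  `M = Additive ⁅H, H⁆` (a commutative group by `hmet`),
`Q = H / ⁅H, H⁆`, `Q₁ ≃ ℤ^d` from `exists_free_subgroup`, `G₁` = preimage of `Q₁` in `H`, as a subgroup of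
`G`; `π` = the projection followed by the isomorphism, kernel `⁅H, H⁆`; `i` the inclusion; action by
conjugation (`MulAut.conjNormal`).  `M` is generated by the `H`-conjugates of finitely many
commutators (`commutator_generated`); since `G₁` has finite index in `H`, it is generated by the `G₁`-conjugates of
finitely many elements (translate by representatives of the right cosets `G₁ h`); the action of `G₁` is `U ∘ π`
(`Ext.exists_action`). -/
theorem exists_ext {G : Type u} [Group G] (S : Finset G)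
    (hS : Subgroup.closure (S : Set G) = ⊤) (H : Subgroup G) (hH : H.index ≠ 0)
    (hmet : ∀ a ∈ ⁅H, H⁆, ∀ b ∈ ⁅H, H⁆, a * b = b * a) :
    ∃ (d : ℕ) (G₁ : Subgroup G) (M : Type u) (_ : AddCommGroup M) (_ : DistribMulAction G₁ M)
      (D : Ext G₁ M d) (U : Multiplicative (Fin d → ℤ) →* Module.End ℤ M),
      G₁.index ≠ 0 ∧ (∀ (g : G₁) (m : M), U (D.π g) m = g • m) ∧ FGov U ⊤ := by
  have hG : Group.FG G := ⟨⟨S, hS⟩⟩
  have hfi : H.FiniteIndex := ⟨hH⟩
  have hHfg : Group.FG H := H.fg_of_index_ne_zero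
  have hab : ∀ a ∈ commutator H, ∀ b ∈ commutator H, a * b = b * a := by
    intro a ha b hb
    apply Subtype.ext
    have h1 : ∀ c : H, c ∈ commutator H → (c : G) ∈ ⁅H, H⁆ := by
      intro c hc
      rw [← Subgroup.map_subtype_commutator]
      exact ⟨c, hc, rfl⟩
    exact hmet a (h1 a ha) b (h1 b hb)
  obtain ⟨d, K, M, iM, iA, D, U, hK, hU, hF⟩ := S2_core H hab
  let E : K ≃* K.map H.subtype := K.equivMapOfInjective H.subtype H.subtype_injective
  let iA' : DistribMulAction (K.map H.subtype) M := DistribMulAction.compHom M E.symm.toMonoidHom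
  have hsm : ∀ (g : K.map H.subtype) (m : M), g • m = E.symm g • m := fun g m => rfl
  let D' : Ext (K.map H.subtype) M d :=
    { i := fun m => E (D.i m)
      i_add := fun a b => by rw [D.i_add, map_mul]
      i_inj := fun a b h => D.i_inj (E.injective h)
      conj := fun g m => by
        rw [hsm, ← D.conj, map_mul, map_mul, map_inv, E.apply_symm_apply]
      π := D.π.comp E.symm.toMonoidHom
      x := fun k => E (D.x k)
      π_x := fun k => by
        show D.π (E.symm (E (D.x k))) = _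
        rw [E.symm_apply_apply, D.π_x]
      ker := fun g => by
        have h1 : (D.π.comp E.symm.toMonoidHom) g = D.π (E.symm g) := rfl
        rw [h1, D.ker]
        constructor
        · rintro ⟨m, hm⟩
          exact ⟨m, by rw [hm, E.apply_symm_apply]⟩
        · rintro ⟨m, hm⟩
          exact ⟨m, by rw [← hm, E.symm_apply_apply]⟩ }
  refine ⟨d, K.map H.subtype, M, iM, iA', D', U, ?_, fun g m => ?_, hF⟩
  · rw [Subgroup.index_map_subtype]
    exact mul_ne_zero hK hH
  · show U (D.π (E.symm g)) m = E.symm g • m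
    exact hU _ _

end Pool.MP4dac8d
end

section

/-! AND task D1: digits along a path. -/

set_option autoImplicit false
open Classical
open scoped Pointwise

namespace Pool.MP4dac8d

/-- DIGITS ALONG A PATH.  Let `φ A` be `κ`-dense in `V`.  For a path `g_0, g_1, …` with steps in `X`
(acting with norm `≤ Λ`) and vectors `‖u_j‖ ≤ β` one finds digits `d_j ∈ A` with
`∑_{j<n} ρ(g_j) u_j = ∑_{j<n} ρ(g_j) φ(d_j) + ρ(g_n) e`, `‖e‖ ≤ Λ κ`.
Proof: recursion, `e_0 = 0`; given `e_j` choose `d_j ∈ A` with `‖φ d_j - (u_j + e_j)‖ ≤ κ` and put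
`e_{j+1} = ρ(g_{j+1}⁻¹ g_j) (u_j + e_j - φ d_j)`, so `‖e_{j+1}‖ ≤ Λ κ` and
`ρ(g_j) (u_j + e_j) = ρ(g_j) φ(d_j) + ρ(g_{j+1}) e_{j+1}`.  (Note `0 ≤ κ`.)  For `j ≥ n` take
`d_j = 0`. -/
theorem path_digits {G M V : Type*} [Group G] [AddCommGroup M] [NormedAddCommGroup V]
    [NormedSpace ℝ V] (φ : M →+ V) (ρ : G →* (V →ₗ[ℝ] V)) (A : AddSubgroup M) (κ Λ β : ℝ)
    (hΛ0 : 0 ≤ Λ) (hβ : 0 ≤ β) (hκ : ∀ v : V, ∃ d ∈ A, ‖φ d - v‖ ≤ κ) (X : Set G)
    (hΛ : ∀ s ∈ X, ∀ v : V, ‖ρ s v‖ ≤ Λ * ‖v‖) (n : ℕ) (g : ℕ → G) (u : ℕ → V)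
    (hg : ∀ j < n, (g (j + 1))⁻¹ * g j ∈ X) (hu : ∀ j, ‖u j‖ ≤ β) :
    ∃ (d : ℕ → M) (e : V), (∀ j, d j ∈ A ∧ ‖φ (d j)‖ ≤ β + κ + Λ * κ) ∧ ‖e‖ ≤ Λ * κ ∧
      ∑ j ∈ Finset.range n, ρ (g j) (u j) =
        ∑ j ∈ Finset.range n, ρ (g j) (φ (d j)) + ρ (g n) e := by
  choose δ hδA hδ using hκ
  have hκ0 : 0 ≤ κ := (norm_nonneg _).trans (hδ 0)
  have hΛκ : 0 ≤ Λ * κ := mul_nonneg hΛ0 hκ0
  obtain ⟨e, he0, he1⟩ : ∃ e : ℕ → V, e 0 = 0 ∧ ∀ j, e (j + 1) =
      ρ ((g (j + 1))⁻¹ * g j) (u j + e j - φ (δ (u j + e j))) :=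
    ⟨fun j => Nat.rec (motive := fun _ => V) 0
      (fun j x => ρ ((g (j + 1))⁻¹ * g j) (u j + x - φ (δ (u j + x)))) j, rfl, fun _ => rfl⟩
  have hbound : ∀ j ≤ n, ‖e j‖ ≤ Λ * κ := by
    intro j hj
    rcases j with _ | j
    · rw [he0, norm_zero]
      exact hΛκ
    · rw [he1]
      refine (hΛ _ (hg j (by omega)) _).trans (mul_le_mul_of_nonneg_left ?_ hΛ0)
      rw [norm_sub_rev]
      exact hδ _
  have hsum : ∀ m, ∑ j ∈ Finset.range m, ρ (g j) (u j) =
      ∑ j ∈ Finset.range m, ρ (g j) (φ (δ (u j + e j))) + ρ (g m) (e m) := by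
    intro m
    induction m with
    | zero => simp [he0]
    | succ m ih =>
      rw [Finset.sum_range_succ, Finset.sum_range_succ, ih]
      have h1 : ρ (g (m + 1)) (e (m + 1)) =
          ρ (g m) (u m) + ρ (g m) (e m) - ρ (g m) (φ (δ (u m + e m))) := by
        rw [he1, ← Module.End.mul_apply, ← map_mul, mul_inv_cancel_left, map_sub, map_add]
      rw [h1]
      abel
  refine ⟨fun j => if j < n then δ (u j + e j) else 0, e n, ?_, hbound n le_rfl, ?_⟩
  · intro j
    by_cases hj : j < n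
    · simp only [hj, if_true]
      refine ⟨hδA _, ?_⟩
      have h1 := hδ (u j + e j)
      have h2 := hbound j hj.le
      have h3 : ‖φ (δ (u j + e j))‖ ≤ ‖φ (δ (u j + e j)) - (u j + e j)‖ + ‖u j + e j‖ := by
        have := norm_add_le (φ (δ (u j + e j)) - (u j + e j)) (u j + e j)
        simpa using this
      have h4 := norm_add_le (u j) (e j)
      have h5 := hu j
      linarith
    · simp only [hj, if_false]
      refine ⟨A.zero_mem, ?_⟩
      rw [map_zero, norm_zero]
      linarith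
  · rw [hsum n]
    congr 1
    refine Finset.sum_congr rfl fun j hj => ?_
    simp only [Finset.mem_range.1 hj, if_true]

/-- Length of a word with digits: `i(∑_{j<n} g_j • d_j) g_n` has length at most `n (L + 1)`.
Proof: with `w_n` this element, `w_{n+1} = w_n * i (d n) * ((g n)⁻¹ * g (n+1))`. -/
theorem word_length {G M : Type*} [Group G] [AddCommGroup M] [DistribMulAction G M] (S : Set G)
    (i : M → G) (i_add : ∀ a b : M, i (a + b) = i a * i b)
    (conj : ∀ (g : G) (m : M), g * i m * g⁻¹ = i (g • m)) (L n : ℕ) (g : ℕ → G) (d : ℕ → M)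
    (g0 : g 0 = 1) (hg : ∀ j < n, (g j)⁻¹ * g (j + 1) ∈ ball S 1)
    (hd : ∀ j < n, i (d j) ∈ ball S L) :
    i (∑ j ∈ Finset.range n, g j • d j) * g n ∈ ball S (n * (L + 1)) := by
  have hB : BallFam (ball S) := ballFam_ball S
  induction n with
  | zero =>
    have h0 : i 0 = 1 := by
      have h1 := i_add 0 0
      rw [add_zero] at h1
      exact (mul_eq_left.1 h1.symm)
    rw [Finset.range_zero, Finset.sum_empty, h0, g0, mul_one]
    exact hB.one_mem _
  | succ n ih =>
    have h1 := ih (fun j hj => hg j (by omega)) (fun j hj => hd j (by omega))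
    have h2 : i (∑ j ∈ Finset.range (n + 1), g j • d j) * g (n + 1) =
        (i (∑ j ∈ Finset.range n, g j • d j) * g n) * (i (d n) * ((g n)⁻¹ * g (n + 1))) := by
      rw [Finset.sum_range_succ, i_add, ← conj]
      group
    rw [h2]
    have h3 := hB.mul h1 (hB.mul (hd n (by omega)) (hg n (by omega)))
    refine hB.mono (le_of_eq ?_) h3
    ring

/-- Length of a digit expansion along the line `t^k`: the element
`i(∑_{|k|≤n} t^k • d_k) = t^(-n) * ∏_{k=-n}^{n} (i(d_k) t) * t^(-(n+1))`. -/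
theorem line_length {G M : Type*} [Group G] [AddCommGroup M] [DistribMulAction G M] (S : Set G)
    (i : M → G) (i_add : ∀ a b : M, i (a + b) = i a * i b)
    (conj : ∀ (g : G) (m : M), g * i m * g⁻¹ = i (g • m)) (L ℓ n : ℕ) (hn : 0 < n) (t : G)
    (ht : t ∈ ball S ℓ) (d : ℤ → M) (hd : ∀ k, i (d k) ∈ ball S L) :
    i (∑ k ∈ Finset.Icc (-(n : ℤ)) n, t ^ k • d k) ∈ ball S ((6 * ℓ + 3 * L) * n) := by
  have hB : BallFam (ball S) := ballFam_ball S
  have h0 : i 0 = 1 := by
    have h1 := i_add 0 0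
    rw [add_zero] at h1
    exact (mul_eq_left.1 h1.symm)
  have hre : ∑ k ∈ Finset.Icc (-(n : ℤ)) n, t ^ k • d k =
      ∑ j ∈ Finset.range (2 * n + 1), t ^ ((j : ℤ) - n) • d ((j : ℤ) - n) := by
    refine Finset.sum_nbij' (fun k => (k + n).toNat) (fun j => (j : ℤ) - n) ?_ ?_ ?_ ?_ ?_
    · intro k hk
      rw [Finset.mem_Icc] at hk
      rw [Finset.mem_range]
      omega
    · intro j hj
      rw [Finset.mem_range] at hj
      rw [Finset.mem_Icc]
      omega
    · intro k hk
      rw [Finset.mem_Icc] at hk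
      have : (((k + n).toNat : ℕ) : ℤ) = k + n := by omega
      simp only [this]
      ring
    · intro j hj
      simp
    · intro k hk
      rw [Finset.mem_Icc] at hk
      have : (((k + n).toNat : ℕ) : ℤ) - n = k := by omega
      simp only [this]
  have hP : ∀ m : ℕ, i (∑ j ∈ Finset.range m, t ^ ((j : ℤ) - n) • d ((j : ℤ) - n)) *
      t ^ ((m : ℤ) - n) ∈ ball S (n * ℓ + m * (L + ℓ)) := by
    intro m
    induction m with
    | zero =>
      rw [Finset.range_zero, Finset.sum_empty, h0, one_mul]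
      have h1 := zpow_mem_ball ht (((0 : ℕ) : ℤ) - n)
      refine hB.mono (le_of_eq ?_) h1
      simp
    | succ m ih =>
      have h2 : i (∑ j ∈ Finset.range (m + 1), t ^ ((j : ℤ) - n) • d ((j : ℤ) - n)) *
          t ^ (((m + 1 : ℕ) : ℤ) - n) =
          (i (∑ j ∈ Finset.range m, t ^ ((j : ℤ) - n) • d ((j : ℤ) - n)) *
            t ^ ((m : ℤ) - n)) * (i (d ((m : ℤ) - n)) * t) := by
        rw [Finset.sum_range_succ, i_add, ← conj]
        have h3 : t ^ (((m + 1 : ℕ) : ℤ) - n) = t ^ ((m : ℤ) - n) * t := by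
          rw [← zpow_add_one]
          congr 1
          push_cast
          ring
        rw [h3]
        group
      rw [h2]
      refine hB.mono (le_of_eq ?_) (hB.mul ih (hB.mul (hd _) ht))
      ring
  have h1 := hP (2 * n + 1)
  rw [← hre] at h1
  have h2 := zpow_mem_ball ht (((2 * n + 1 : ℕ) : ℤ) - n)
  have h3 := hB.mul h1 (hB.inv h2)
  rw [mul_inv_cancel_right] at h3
  refine hB.mono ?_ h3
  have h4 : ((((2 * n + 1 : ℕ) : ℤ) - n)).natAbs = n + 1 := by omega
  rw [h4]
  nlinarith [Nat.zero_le (ℓ * (n - 1)), Nat.zero_le (L * (n - 1)), Nat.mul_le_mul_left ℓ hn,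
    Nat.mul_le_mul_left L hn]

end Pool.MP4dac8d
end

section

/-! AND task D2: digits along a line. -/

set_option autoImplicit false
open Classical
open scoped Pointwise

namespace Pool.MP4dac8d

/-- Sums of translates `t^j • A`, `0 ≤ j ≤ L`. -/
def D2S {G M : Type*} [Group G] [AddCommGroup M] [DistribMulAction G M] (t : G)
    (A : AddSubgroup M) (L : ℕ) : AddSubgroup M :=
  AddSubgroup.closure {x : M | ∃ j : ℕ, j ≤ L ∧ ∃ b ∈ A, x = t ^ j • b}

theorem D2S_zero {G M : Type*} [Group G] [AddCommGroup M] [DistribMulAction G M] (t : G)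
    (A : AddSubgroup M) {a : M} (ha : a ∈ D2S t A 0) : a ∈ A := by
  have h : D2S t A 0 ≤ A := by
    unfold D2S
    rw [AddSubgroup.closure_le]
    rintro x ⟨j, hj, b, hb, rfl⟩
    have hj0 : j = 0 := by omega
    subst hj0
    simpa using hb
  exact h ha

theorem D2S_succ {G M : Type*} [Group G] [AddCommGroup M] [DistribMulAction G M] (t : G)
    (A : AddSubgroup M) (L : ℕ) {a : M} (ha : a ∈ D2S t A (L + 1)) :
    ∃ b ∈ A, ∃ a' ∈ D2S t A L, a = t ^ (L + 1) • b + a' := by
  unfold D2S at ha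
  induction ha using AddSubgroup.closure_induction with
  | mem x hx =>
    obtain ⟨j, hj, b, hb, rfl⟩ := hx
    by_cases hjL : j = L + 1
    · subst hjL
      exact ⟨b, hb, 0, (D2S t A L).zero_mem, by simp⟩
    · refine ⟨0, A.zero_mem, t ^ j • b, ?_, by simp⟩
      exact AddSubgroup.subset_closure ⟨j, by omega, b, hb, rfl⟩
  | zero => exact ⟨0, A.zero_mem, 0, (D2S t A L).zero_mem, by simp⟩
  | add x y _ _ hx hy =>
    obtain ⟨b, hb, c, hc, rfl⟩ := hx
    obtain ⟨b', hb', c', hc', rfl⟩ := hy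
    refine ⟨b + b', A.add_mem hb hb', c + c', (D2S t A L).add_mem hc hc', ?_⟩
    rw [smul_add]
    abel
  | neg x _ hx =>
    obtain ⟨b, hb, c, hc, rfl⟩ := hx
    refine ⟨-b, A.neg_mem hb, -c, (D2S t A L).neg_mem hc, ?_⟩
    rw [smul_neg]
    abel

theorem D2_ind {G M V : Type*} [Group G] [AddCommGroup M] [DistribMulAction G M]
    [NormedAddCommGroup V] [NormedSpace ℝ V] (φ : M →+ V) (ρ : G →* (V →ₗ[ℝ] V))
    (hφ : ∀ (g : G) (m : M), φ (g • m) = ρ g (φ m)) (A : AddSubgroup M) (t : G) (κ Λ β : ℝ)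
    (hκ : 0 ≤ κ) (hΛ0 : 0 ≤ Λ) (hβ : 0 ≤ β)
    (hcoset : ∀ a ∈ A, ∀ v : V, ∃ d ∈ A, ‖φ d - v‖ ≤ κ ∧ ∃ b ∈ A, a - d = t⁻¹ • b)
    (hΛ : ∀ v : V, ‖ρ t v‖ ≤ Λ * ‖v‖) (L : ℕ) :
    ∀ (a : M) (f : ℕ → V), a ∈ D2S t A L → (∀ j < L, ‖f j‖ ≤ β) → ‖f L‖ ≤ β + Λ * κ →
      φ a = ∑ j ∈ Finset.range (L + 1), ρ (t ^ j) (f j) →
      ∃ d : ℕ → M, (∀ k, d k ∈ A ∧ ‖φ (d k)‖ ≤ β + κ + Λ * κ) ∧
        a = ∑ k ∈ Finset.range (L + 1), t ^ k • d k := by
  have hΛκ : 0 ≤ Λ * κ := mul_nonneg hΛ0 hκ
  induction L with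
  | zero =>
    intro a f ha _ hf hφa
    have haA := D2S_zero t A ha
    have h1 : φ a = f 0 := by
      rw [hφa]
      simp
    refine ⟨fun k => if k = 0 then a else 0, ?_, by simp⟩
    intro k
    by_cases hk : k = 0
    · simp only [hk, if_true]
      refine ⟨haA, ?_⟩
      rw [h1]
      linarith
    · simp only [hk, if_false]
      refine ⟨A.zero_mem, ?_⟩
      rw [map_zero, norm_zero]
      positivity
  | succ L ih =>
    intro a f ha hf hfL hφa
    obtain ⟨b, hb, a', ha', rfl⟩ := D2S_succ t A L ha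
    obtain ⟨d, hd, hdn, c, hc, hbc⟩ := hcoset b hb (f (L + 1))
    have hrem : t ^ (L + 1) • b + a' - t ^ (L + 1) • d = t ^ L • c + a' := by
      have : t ^ (L + 1) • b - t ^ (L + 1) • d = t ^ L • c := by
        rw [← smul_sub, hbc, smul_smul, pow_succ, mul_assoc, mul_inv_cancel, mul_one]
      rw [← this]
      abel
    have hmem : t ^ L • c + a' ∈ D2S t A L :=
      (D2S t A L).add_mem (AddSubgroup.subset_closure ⟨L, le_refl L, c, hc, rfl⟩) ha'
    have hdn' : ‖f (L + 1) - φ d‖ ≤ κ := by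
      rw [norm_sub_rev]
      exact hdn
    set f' : ℕ → V := fun j => if j = L then f L + ρ t (f (L + 1) - φ d) else f j with hf'
    obtain ⟨d', hd', hsum⟩ := ih (t ^ L • c + a') f' hmem
      (by
        intro j hj
        have : j ≠ L := by omega
        simp only [hf', this, if_false]
        exact hf j (by omega))
      (by
        simp only [hf', if_true]
        calc ‖f L + ρ t (f (L + 1) - φ d)‖ ≤ ‖f L‖ + ‖ρ t (f (L + 1) - φ d)‖ := norm_add_le _ _
          _ ≤ β + Λ * κ := by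
            have h1 := hf L (by omega)
            have h2 := hΛ (f (L + 1) - φ d)
            have h3 : Λ * ‖f (L + 1) - φ d‖ ≤ Λ * κ := mul_le_mul_of_nonneg_left hdn' hΛ0
            linarith)
      (by
        rw [← hrem, map_sub, hφa, hφ, Finset.sum_range_succ, Finset.sum_range_succ,
          Finset.sum_range_succ]
        have e1 : ∑ j ∈ Finset.range L, ρ (t ^ j) (f' j) = ∑ j ∈ Finset.range L, ρ (t ^ j) (f j) := by
          apply Finset.sum_congr rfl
          intro j hj
          have : j ≠ L := by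
            have := Finset.mem_range.mp hj
            omega
          simp only [hf', this, if_false]
        rw [e1]
        simp only [hf', if_true]
        have e2 : ρ (t ^ (L + 1)) = ρ (t ^ L) * ρ t := by
          rw [← map_mul, pow_succ]
        rw [e2, map_add, map_sub, Module.End.mul_apply, Module.End.mul_apply, map_sub]
        abel)
    refine ⟨fun k => if k = L + 1 then d else d' k, ?_, ?_⟩
    · intro k
      by_cases hk : k = L + 1
      · simp only [hk, if_true]
        refine ⟨hd, ?_⟩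
        have : φ d = (φ d - f (L + 1)) + f (L + 1) := by abel
        rw [this]
        refine (norm_add_le _ _).trans ?_
        linarith
      · simp only [hk, if_false]
        exact hd' k
    · rw [Finset.sum_range_succ]
      simp only [if_true]
      have e1 : ∑ j ∈ Finset.range (L + 1), t ^ j • (if j = L + 1 then d else d' j)
          = ∑ j ∈ Finset.range (L + 1), t ^ j • d' j := by
        apply Finset.sum_congr rfl
        intro j hj
        have : j ≠ L + 1 := by
          have := Finset.mem_range.mp hj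
          omega
        simp only [this, if_false]
      rw [e1, ← hsum, ← hrem]
      abel

theorem D2_win {G M : Type*} [Group G] [AddCommGroup M] [DistribMulAction G M] (t : G)
    (A : AddSubgroup M) (n : ℕ) {a : M} (ha : a ∈ Win t A n) : t ^ n • a ∈ D2S t A (2 * n) := by
  unfold Win at ha
  induction ha using AddSubgroup.closure_induction with
  | mem x hx =>
    obtain ⟨k, hk, b, hb, rfl⟩ := hx
    refine AddSubgroup.subset_closure ⟨(k + n).toNat, ?_, b, hb, ?_⟩
    · have := abs_le.mp hk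
      omega
    · have := abs_le.mp hk
      rw [smul_smul]
      congr 1
      rw [← zpow_natCast, ← zpow_natCast, ← zpow_add]
      congr 1
      omega
  | zero =>
    rw [smul_zero]
    exact (D2S t A (2 * n)).zero_mem
  | add x y _ _ hx hy =>
    rw [smul_add]
    exact (D2S t A (2 * n)).add_mem hx hy
  | neg x _ hx =>
    rw [smul_neg]
    exact (D2S t A (2 * n)).neg_mem hx

/-- DIGITS ALONG THE LINE `t^k`.  `hcoset`: every class of `A` modulo `A ∩ t⁻¹•A` has representatives
in `A` whose image is within `κ` of any prescribed vector.  Then every `a ∈ Win t A n` with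
`‖φ a‖ ≤ β` is `∑_{|k| ≤ n} t^k • d_k` with digits `d_k ∈ A`, `‖φ d_k‖ ≤ β + κ + Λ κ`.
Proof.  First: an element of `Win t A n` is `∑_{|k| ≤ n} t^k • a_k`, `a_k ∈ A`.  Work downwards from
`k = n` to `k = -n`: at stage `k` one has a remainder
`a' = ∑_{j ≤ k} t^j • a'_j` (`a'_j ∈ A`, `j ≥ -n`) with
`φ a' = ρ(t^k) e + [k ≥ 0] φ a` where `‖e‖ ≤ Λ κ` (`e = 0` at the beginning) — i.e. the control vector
`φ a` sits at the place `0`.  For `k > -n` choose by `hcoset` `d_k ∈ A` with `a'_k - d_k = t⁻¹ • b`,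
`b ∈ A`, and `‖φ d_k - (e + [k = 0] φ a)‖ ≤ κ`; then `a' - t^k • d_k = ∑_{j<k} t^j • a'_j + t^(k-1) • b`
and its image is `ρ(t^(k-1)) e' + [k > 0] φ a`, `e' = ρ(t)(e + [k=0] φ a - φ d_k)`.  At the bottom
`k = -n` the remainder is `t^(-n) • d` with `φ d = e` (or `e + φ a` if `n = 0`).
A convenient induction: for `L : ℕ` and all `a ∈ AddSubgroup` generated by `t^j • A`, `0 ≤ j ≤ L`, and
controls `f : ℕ → V` with `‖f j‖ ≤ β` for `j < L`, `‖f L‖ ≤ β + Λ κ`, `φ a = ∑_{j ≤ L} ρ(t^j) (f j)`: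
`a = ∑_{j≤L} t^j • d_j` with `d_j ∈ A`, `‖φ d_j‖ ≤ β + κ + Λ κ`; then apply it to `t^n • a`. -/
theorem line_digits {G M V : Type*} [Group G] [AddCommGroup M] [DistribMulAction G M]
    [NormedAddCommGroup V] [NormedSpace ℝ V] (φ : M →+ V) (ρ : G →* (V →ₗ[ℝ] V))
    (hφ : ∀ (g : G) (m : M), φ (g • m) = ρ g (φ m)) (A : AddSubgroup M) (t : G) (κ Λ β : ℝ)
    (hΛ0 : 0 ≤ Λ) (hβ : 0 ≤ β)
    (hcoset : ∀ a ∈ A, ∀ v : V, ∃ d ∈ A, ‖φ d - v‖ ≤ κ ∧ ∃ b ∈ A, a - d = t⁻¹ • b)
    (hΛ : ∀ v : V, ‖ρ t v‖ ≤ Λ * ‖v‖) (n : ℕ) (a : M) (ha : a ∈ Win t A n) (hφa : ‖φ a‖ ≤ β) :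
    ∃ d : ℤ → M, (∀ k, d k ∈ A ∧ ‖φ (d k)‖ ≤ β + κ + Λ * κ) ∧
      a = ∑ k ∈ Finset.Icc (-(n : ℤ)) n, t ^ k • d k := by
  have hκ : 0 ≤ κ := by
    obtain ⟨d, _, hd, _⟩ := hcoset 0 A.zero_mem 0
    exact (norm_nonneg _).trans hd
  have hΛκ : 0 ≤ Λ * κ := mul_nonneg hΛ0 hκ
  obtain ⟨d, hd, hsum⟩ := D2_ind φ ρ hφ A t κ Λ β hκ hΛ0 hβ hcoset hΛ (2 * n) (t ^ n • a)
    (fun j => if j = n then φ a else 0) (D2_win t A n ha)
    (by
      intro j _
      by_cases hj : j = n
      · simp only [hj, if_true]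
        exact hφa
      · simp only [hj, if_false, norm_zero]
        exact hβ)
    (by
      by_cases hj : 2 * n = n
      · simp only [hj, if_true]
        linarith
      · simp only [hj, if_false, norm_zero]
        positivity)
    (by
      rw [hφ, Finset.sum_eq_single n]
      · simp
      · intro j _ hj
        simp [hj]
      · intro hn
        exact absurd (Finset.mem_range.mpr (by omega)) hn)
  refine ⟨fun k => d (k + n).toNat, fun k => hd _, ?_⟩
  have h1 : a = ∑ k ∈ Finset.range (2 * n + 1), (t ^ n)⁻¹ • t ^ k • d k := by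
    rw [← Finset.smul_sum, ← hsum, inv_smul_smul]
  rw [h1]
  refine Finset.sum_bij' (fun (j : ℕ) _ => (j : ℤ) - n) (fun (k : ℤ) _ => (k + n).toNat) ?_ ?_ ?_ ?_ ?_
  · intro j hj
    have := Finset.mem_range.mp hj
    rw [Finset.mem_Icc]
    omega
  · intro k hk
    have := Finset.mem_Icc.mp hk
    rw [Finset.mem_range]
    omega
  · intro j hj
    simp
  · intro k hk
    have := Finset.mem_Icc.mp hk
    omega
  · intro j hj
    have e : ((j : ℤ) - n + n).toNat = j := by omega
    beta_reduce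
    rw [e, smul_smul]
    congr 1
    rw [← zpow_natCast, ← zpow_natCast, ← zpow_neg, ← zpow_add]
    congr 1
    omega

end Pool.MP4dac8d
end

section

/-! AND task D4: cheap elements have small length. -/

set_option autoImplicit false
open Classical
open scoped Pointwise

namespace Pool.MP4dac8d

private theorem D4_norm {G V : Type*} [Group G] [NormedAddCommGroup V] [NormedSpace ℝ V]
    [FiniteDimensional ℝ V] (ρ : G →* (V →ₗ[ℝ] V)) {T : Set G} (hT : T.Finite) :
    ∃ Λ : ℝ, 0 ≤ Λ ∧ ∀ s ∈ T, ∀ v : V, ‖ρ s v‖ ≤ Λ * ‖v‖ := by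
  refine ⟨∑ s ∈ hT.toFinset, ‖(ρ s).toContinuousLinearMap‖,
    Finset.sum_nonneg fun s _ => norm_nonneg _, fun s hs v => ?_⟩
  have h1 : ‖(ρ s).toContinuousLinearMap‖ ≤ ∑ s ∈ hT.toFinset, ‖(ρ s).toContinuousLinearMap‖ :=
    Finset.single_le_sum (f := fun s => ‖(ρ s).toContinuousLinearMap‖)
      (fun s _ => norm_nonneg _) (hT.mem_toFinset.mpr hs)
  exact ((ρ s).toContinuousLinearMap.le_opNorm v).trans
    (mul_le_mul_of_nonneg_right h1 (norm_nonneg v))

private theorem D4_len {G M : Type*} [Group G] (S : Set G) (hS : Subgroup.closure S = ⊤)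
    (i : M → G) {T : Set M} (hT : T.Finite) : ∃ L : ℕ, ∀ d ∈ T, i d ∈ ball S L := by
  have h : ∀ d : M, ∃ L : ℕ, i d ∈ ball S L := fun d => exists_mem_ball hS (i d)
  choose f hf using h
  refine ⟨∑ d ∈ hT.toFinset, f d, fun d hd => ?_⟩
  exact (ballFam_ball S).mono (Finset.single_le_sum (f := f) (fun _ _ => Nat.zero_le _)
    (hT.mem_toFinset.mpr hd)) (hf d)

private theorem D4_sub {G M : Type*} [Group G] [AddCommGroup M] [DistribMulAction G M] (t : G)
    (A : AddSubgroup M) {a : M} (ha : a ∈ A) : a ∈ Win t A 0 := by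
  refine AddSubgroup.subset_closure ⟨0, by simp, a, ha, ?_⟩
  rw [zpow_zero, one_smul]

/-- CHEAP ELEMENTS ARE SHORT.  `S = {x_k} ∪ i(F)`.  If `a ∈ Win t A n` and `φ a` is cheap at scale `n`,
then `i a` has length at most `C n`.
Proof.  `Λ ≥ 0` a common bound for the norms of `ρ s`, `s ∈ ball S 1` (a finite set) and of `ρ t`
(finite-dimensional `V`: `LinearMap.toContinuousLinearMap`).  `hcoset` gives density of `φ A` (take
`a = 0`).  Let `φ a = φ m + ∑_{j<n} ρ(g_j) u_j` with the path `g`, `g n = i m`.  `path_digits`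
(`X = ball S 1`, `β = 1`) gives digits `d_j`; put `a' = a - m - ∑_{j<n} g_j • d_j`; then
`φ a' = ρ(i m) e = e`, `‖e‖ ≤ Λ κ` (`hρ`).  All `g_j ∈ ball S n`, so by `ball_smul_win` and
`Ext.win_of_ball`, `a' ∈ Win t A (c'' n)`; `line_digits` with `β = Λ κ` and
`line_length` bound `|i a'|`; the digits lie in a finite set `{d ∈ A : ‖φ d‖ ≤ κ₃}` (`hfin`), so
have bounded length `L` (`exists_mem_ball`, `hS`).  Finally `i a = i a' * (i (∑ g_j • d_j) * g n)`
(everything in `i(M)` commutes, `g n = i m`) and `word_length`. -/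
theorem Ext.cheap_len {G M V : Type*} [Group G] [AddCommGroup M] [DistribMulAction G M]
    [NormedAddCommGroup V] [NormedSpace ℝ V] [FiniteDimensional ℝ V] {d : ℕ} (D : Ext G M d)
    (F : Finset M) (S : Set G) (hSdef : S = Set.range D.x ∪ D.i '' (F : Set M))
    (hS : Subgroup.closure S = ⊤) (φ : M →+ V) (ρ : G →* (V →ₗ[ℝ] V))
    (hφ : ∀ (g : G) (m : M), φ (g • m) = ρ g (φ m)) (hρ : ∀ m : M, ρ (D.i m) = 1)
    (t : G) (A : AddSubgroup M) (c : ℕ) (hcov : ∀ m : M, ∃ n : ℕ, m ∈ Win t A n)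
    (hs : ∀ s ∈ ball S 1, ∀ a ∈ A, s • a ∈ Win t A c) (κ : ℝ)
    (hcoset : ∀ a ∈ A, ∀ v : V, ∃ d ∈ A, ‖φ d - v‖ ≤ κ ∧ ∃ b ∈ A, a - d = t⁻¹ • b)
    (hfin : ∀ κ' : ℝ, {d : M | d ∈ A ∧ ‖φ d‖ ≤ κ'}.Finite) :
    ∃ C : ℕ, 0 < C ∧ ∀ n : ℕ, 0 < n → ∀ a : M, a ∈ Win t A n → φ a ∈ Cheap S D.i φ ρ n →
      D.i a ∈ ball S (C * n) := by
  have hBF := ballFam_ball S
  have hSfin : S.Finite := by
    rw [hSdef]
    exact (Set.finite_range D.x).union (F.finite_toSet.image D.i)
  obtain ⟨Λ, hΛ0, hΛ⟩ := D4_norm ρ ((ball_finite hSfin 1).union (Set.finite_singleton t))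
  have hκ : ∀ v : V, ∃ d ∈ A, ‖φ d - v‖ ≤ κ := fun v => by
    obtain ⟨d, hd, hd2, _⟩ := hcoset 0 A.zero_mem v
    exact ⟨d, hd, hd2⟩
  have hκ0 : 0 ≤ κ := by
    obtain ⟨d, _, hd⟩ := hκ 0
    exact (norm_nonneg _).trans hd
  obtain ⟨c', hc'0, hc'⟩ := D.win_of_ball F t A c hcov (by rw [← hSdef]; exact hs)
  rw [← hSdef] at hc'
  obtain ⟨L, hL⟩ := D4_len S hS D.i (hfin (max (1 + κ + Λ * κ) (Λ * κ + κ + Λ * κ)))
  obtain ⟨ℓ, hℓ⟩ := exists_mem_ball hS t
  refine ⟨(6 * ℓ + 3 * L) * (1 + c' + c) + (L + 1), by omega, fun n hn a ha hch => ?_⟩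
  obtain ⟨g, u, m, g0, hg, hu, hgn, hv⟩ := hch
  have hg' : ∀ j < n, (g (j + 1))⁻¹ * g j ∈ ball S 1 := fun j hj => by
    have h1 := hBF.inv (hg j hj)
    rwa [mul_inv_rev, inv_inv] at h1
  obtain ⟨dd, e, hdd, he, hsum⟩ := path_digits φ ρ A κ Λ 1 hΛ0 zero_le_one hκ (ball S 1)
    (fun s hs v => hΛ s (Or.inl hs) v) n g u hg' hu
  -- the path stays in the ball
  have hgball : ∀ j ≤ n, g j ∈ ball S j := by
    intro j
    induction j with
    | zero =>
      intro _
      rw [g0]
      exact hBF.one_mem 0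
    | succ j ih =>
      intro hj
      have h1 := hBF.mul (ih (by omega)) (hg j (by omega))
      rwa [mul_inv_cancel_left] at h1
  have hgball' : ∀ j < n, g j ∈ ball S n := fun j hj =>
    hBF.mono hj.le (hgball j hj.le)
  -- the remainder
  have hm : m ∈ Win t A (c' * n) := hc' n hn m (by rw [← hgn]; exact hgball n le_rfl)
  have hW : a - m - ∑ j ∈ Finset.range n, g j • dd j ∈ Win t A ((1 + c' + c) * n) := by
    refine AddSubgroup.sub_mem _ (AddSubgroup.sub_mem _ ?_ ?_) ?_
    · exact win_mono t A (by nlinarith) ha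
    · exact win_mono t A (by nlinarith) hm
    · refine AddSubgroup.sum_mem _ fun j hj => ?_
      have h1 := ball_smul_win D.smul_comm' S hs (hgball' j (Finset.mem_range.mp hj))
        (D4_sub t A (hdd j).1)
      exact win_mono t A (by nlinarith) h1
  have hφa : φ (a - m - ∑ j ∈ Finset.range n, g j • dd j) = e := by
    rw [map_sub, map_sub, hv, hsum, map_sum, hgn, hρ]
    simp only [hφ]
    rw [Module.End.one_apply]
    abel
  obtain ⟨d', hd', hsum'⟩ := line_digits φ ρ hφ A t κ Λ (Λ * κ) hΛ0 (mul_nonneg hΛ0 hκ0) hcoset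
    (fun v => hΛ t (Or.inr rfl) v) ((1 + c' + c) * n) _ hW (by rw [hφa]; exact he)
  have hlen1 := line_length S D.i D.i_add D.conj L ℓ ((1 + c' + c) * n)
    (Nat.mul_pos (by omega) hn) t hℓ d'
    (fun k => hL _ ⟨(hd' k).1, (hd' k).2.trans (le_max_right _ _)⟩)
  have hlen2 := word_length S D.i D.i_add D.conj L n g dd g0 hg
    (fun j _ => hL _ ⟨(hdd j).1, (hdd j).2.trans (le_max_left _ _)⟩)
  rw [← hsum'] at hlen1
  have hfin1 := hBF.mul hlen1 hlen2
  have e1 : D.i (a - m - ∑ j ∈ Finset.range n, g j • dd j) *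
      (D.i (∑ j ∈ Finset.range n, g j • dd j) * g n) = D.i a := by
    rw [hgn, ← D.i_add, ← D.i_add]
    congr 1
    abel
  rw [e1] at hfin1
  refine hBF.mono (le_of_eq ?_) hfin1
  ring

end Pool.MP4dac8d
end

section

/-! AND task K1: near-Auerbach bases. -/

set_option autoImplicit false
open Classical
open scoped Pointwise

namespace Pool.MP4dac8d

/-- A bounded spanning set `K` of a finite-dimensional real space contains a basis `b` such that all
elements of `K` have coordinates of absolute value at most `2`.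
Proof: fix a basis `b₀`, `det w = b₀.det w` for families `w : Fin n → V`.  On families in `K` the
function `|det|` is bounded (continuous multilinear / entries of the matrix bounded) and its supremum
`s` is positive (`K` contains a basis).  Take `w` in `K` with `|det w| ≥ s/2 > 0`; it is a basis; for
`v ∈ K` Cramer's rule: the `k`-th coordinate of `v` is `det (update w k v) / det w`. -/
theorem near_auerbach {V : Type*} [NormedAddCommGroup V] [NormedSpace ℝ V] [FiniteDimensional ℝ V]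
    (K : Set V) (hb : Bornology.IsBounded K) (hspan : Submodule.span ℝ K = ⊤) :
    ∃ b : Module.Basis (Fin (Module.finrank ℝ V)) ℝ V, (∀ k, b k ∈ K) ∧
      ∀ v ∈ K, ∀ k, |b.repr v k| ≤ 2 := by
  set n := Module.finrank ℝ V with hn
  let b₀ : Module.Basis (Fin n) ℝ V := Module.finBasis ℝ V
  -- a basis in `K`
  obtain ⟨w₀, hw₀, hdet₀⟩ : ∃ w : Fin n → V, (∀ i, w i ∈ K) ∧ b₀.det w ≠ 0 := by
    let c := Module.Basis.ofSpan (K := ℝ) (s := K) hspan.ge
    have : Finite ((linearIndepOn_empty ℝ id).extend (Set.empty_subset K) : Set V) :=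
      Module.Finite.finite_basis c
    have := Fintype.ofFinite ((linearIndepOn_empty ℝ id).extend (Set.empty_subset K) : Set V)
    have hcard : Fintype.card ((linearIndepOn_empty ℝ id).extend (Set.empty_subset K) : Set V)
        = n := by rw [hn, Module.finrank_eq_card_basis c]
    let c' := c.reindex (Fintype.equivFinOfCardEq hcard)
    refine ⟨c', fun i => ?_, ?_⟩
    · have : c' i ∈ Set.range c := by
        rw [Module.Basis.reindex_apply]
        exact Set.mem_range_self _
      exact Module.Basis.ofSpan_subset hspan.ge this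
    · exact (b₀.isUnit_det c').ne_zero
  -- boundedness of the determinant
  have hcont : Continuous fun w : Fin n → V => |b₀.det w| := by
    have : Continuous fun w : Fin n → V => b₀.det w := by
      simp only [Module.Basis.det_apply]
      refine Continuous.matrix_det ?_
      refine continuous_matrix fun i j => ?_
      simp only [Module.Basis.toMatrix_apply]
      have h1 : Continuous (b₀.coord i) := LinearMap.continuous_of_finiteDimensional _
      exact h1.comp (continuous_apply j)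
    exact this.abs
  have hcomp : IsCompact (Set.univ.pi fun _ : Fin n => closure K) :=
    isCompact_univ_pi fun _ => hb.isCompact_closure
  have hbdd : BddAbove ((fun w : Fin n → V => |b₀.det w|) '' {w | ∀ i, w i ∈ K}) := by
    refine (hcomp.bddAbove_image hcont.continuousOn).mono (Set.image_mono ?_)
    intro w hw i _
    exact subset_closure (hw i)
  set s := sSup ((fun w : Fin n → V => |b₀.det w|) '' {w | ∀ i, w i ∈ K}) with hs
  have hle : ∀ w : Fin n → V, (∀ i, w i ∈ K) → |b₀.det w| ≤ s := fun w hw =>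
    le_csSup hbdd ⟨w, hw, rfl⟩
  have hs0 : 0 < s := lt_of_lt_of_le (abs_pos.2 hdet₀) (hle w₀ hw₀)
  obtain ⟨-, ⟨w, hw, rfl⟩, hws⟩ := exists_lt_of_lt_csSup
    (⟨_, ⟨w₀, hw₀, rfl⟩⟩ : ((fun w : Fin n → V => |b₀.det w|) '' {w | ∀ i, w i ∈ K}).Nonempty)
    (half_lt_self hs0)
  have hws' : s / 2 < |b₀.det w| := hws
  have hdet : b₀.det w ≠ 0 := by
    intro h0
    rw [h0, abs_zero] at hws'
    linarith
  obtain ⟨hli, hsp⟩ := (Module.Basis.is_basis_iff_det b₀).2 (isUnit_iff_ne_zero.2 hdet)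
  refine ⟨Module.Basis.mk hli hsp.ge, fun k => ?_, fun v hv k => ?_⟩
  · rw [Module.Basis.mk_apply]
    exact hw k
  · have h1 := congrArg (fun f => f v)
      (Module.Basis.det_smul_mk_coord_eq_det_update b₀ hli hsp.ge k)
    have h2 : b₀.det w * (Module.Basis.mk hli hsp.ge).repr v k =
        b₀.det (Function.update w k v) := by
      simpa using h1
    have h3 : |b₀.det (Function.update w k v)| ≤ s := by
      refine hle _ fun i => ?_
      by_cases hik : i = k
      · subst hik
        rw [Function.update_self]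
        exact hv
      · rw [Function.update_of_ne hik]
        exact hw i
    rw [← h2, abs_mul] at h3
    by_contra hcon
    push Not at hcon
    have h4 : |b₀.det w| * 2 < |b₀.det w| * |(Module.Basis.mk hli hsp.ge).repr v k| :=
      mul_lt_mul_of_pos_left hcon (abs_pos.2 hdet)
    linarith

end Pool.MP4dac8d
end

section

/-! AND task K2: covers from convex bodies and windows. -/

set_option autoImplicit false
open Classical
open scoped Pointwise

namespace Pool.MP4dac8d


private theorem K2_convex_comb {V : Type*} [NormedAddCommGroup V] [NormedSpace ℝ V]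
    (K : Set V) (hKc : Convex ℝ K) (hKs : ∀ v ∈ K, -v ∈ K) (hK0 : (0 : V) ∈ K)
    {n : ℕ} (b : Fin n → V) (hb : ∀ k, b k ∈ K) (s : Fin n → ℝ) (hs : ∑ k, |s k| ≤ 1) :
    ∑ k, s k • b k ∈ K := by
  -- the convex combination of `0` and the `sign (s k) • b k`
  let z : Option (Fin n) → V := fun o => match o with
    | none => 0
    | some k => if 0 ≤ s k then b k else - b k
  let w : Option (Fin n) → ℝ := fun o => match o with
    | none => 1 - ∑ k, |s k|
    | some k => |s k|
  have h := hKc.sum_mem (t := (Finset.univ : Finset (Option (Fin n)))) (w := w) (z := z)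
    (by
      intro i _
      cases i with
      | none => exact sub_nonneg.mpr hs
      | some k => exact abs_nonneg _)
    (by
      rw [Fintype.sum_option]
      simp [w])
    (by
      intro i _
      cases i with
      | none => exact hK0
      | some k =>
        show (if 0 ≤ s k then b k else - b k) ∈ K
        split_ifs
        · exact hb k
        · exact hKs _ (hb k))
  rw [Fintype.sum_option] at h
  have e : ∑ k, s k • b k = w none • z none + ∑ k, w (some k) • z (some k) := by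
    show _ = (1 - ∑ k, |s k|) • (0 : V) + ∑ k, |s k| • (if 0 ≤ s k then b k else - b k)
    rw [smul_zero, zero_add]
    refine Finset.sum_congr rfl fun k _ => ?_
    split_ifs with hk
    · rw [abs_of_nonneg hk]
    · rw [abs_of_neg (not_le.mp hk), smul_neg, neg_smul, neg_neg]
  rw [e]
  exact h

/-- COVER LEMMA.  `φ : M → V`, convex symmetric bounded spanning sets `K r ⊆ V`, subgroups `W r ≤ M`
(increasing), a family of balls `B r ⊆ M` with
`a ∈ B r ⟹ a ∈ W (c r), φ a ∈ K (c r)` and `a ∈ W r, φ a ∈ K r ⟹ a ∈ B (C r)`.  Then `M` has finite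
AN-dimension.
Proof.  Given `r > 0`, `R = c r`; `b` the basis of `near_auerbach (K R)`, `n = dim V`, `s_k = b.repr`.
Label of `a`: the class of `a` in `M ⧸ W R` and the integers `⌊s_k (φ a) / 3⌋`; colour: the parities of
these integers (`2^n` colours; use `Fin n → Bool` or `Fin n → ZMod 2`).
(1) Same colour and `b - a ∈ B r`: same class mod `W R`, and `|s_k (φ b) - s_k (φ a)| ≤ 2 < 3`, so the
floors differ by at most one and have the same parity: they agree.
(2) Same label: `b - a ∈ W R ⊆ W ((3 n + 1) R)` and `φ (b - a) = ∑ s_k b_k` with `|s_k| ≤ 3`, which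
is in `(3n+1) • K R` by convexity and symmetry (`0 ∈ K R`), so in `K ((3 n + 1) R)` by `hKscale`;
hence `b - a ∈ B (C (3 n + 1) c r)`. -/
theorem cover_of_convex {V M : Type*} [NormedAddCommGroup V] [NormedSpace ℝ V]
    [FiniteDimensional ℝ V] [AddCommGroup M] (φ : M →+ V) (K : ℕ → Set V)
    (W : ℕ → AddSubgroup M) (B : ℕ → Set M)
    (hKc : ∀ r, Convex ℝ (K r)) (hKs : ∀ r, ∀ v ∈ K r, -v ∈ K r) (hK0 : ∀ r, (0 : V) ∈ K r)
    (hKb : ∀ r, Bornology.IsBounded (K r))
    (hKspan : ∀ r, 0 < r → Submodule.span ℝ (K r) = ⊤)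
    (hKscale : ∀ l r : ℕ, 0 < l → ∀ v ∈ K r, (l : ℝ) • v ∈ K (l * r))
    (hW : Monotone W) (c C : ℕ) (hc : 0 < c)
    (hL : ∀ r : ℕ, 0 < r → ∀ a ∈ B r, a ∈ W (c * r) ∧ φ a ∈ K (c * r))
    (hU : ∀ r : ℕ, 0 < r → ∀ a : M, a ∈ W r → φ a ∈ K r → a ∈ B (C * r)) : FinANadd B := by
  refine finANadd_of_labels (2 ^ (Module.finrank ℝ V)) (C * ((3 * Module.finrank ℝ V + 1) * c)) ?_
  intro r hr
  have hR : 0 < c * r := Nat.mul_pos hc hr
  obtain ⟨b, hbK, hbc⟩ := near_auerbach (K (c * r)) (hKb _) (hKspan _ hR)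
  refine ⟨Fin (Module.finrank ℝ V) → Bool, inferInstance, ?_,
    (M ⧸ W (c * r)) × (Fin (Module.finrank ℝ V) → ℤ),
    fun a k => decide (Even ⌊b.repr (φ a) k / 3⌋),
    fun a => (QuotientAddGroup.mk a, fun k => ⌊b.repr (φ a) k / 3⌋), ?_, ?_⟩
  · simp
  · intro x y hcol hxy
    obtain ⟨h1, h2⟩ := hL r hr _ hxy
    have h3 := hbc _ h2
    refine Prod.ext ?_ (funext fun k => ?_)
    · show (QuotientAddGroup.mk x : M ⧸ W (c * r)) = QuotientAddGroup.mk y
      rw [QuotientAddGroup.eq, neg_add_eq_sub]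
      exact h1
    · show ⌊b.repr (φ x) k / 3⌋ = ⌊b.repr (φ y) k / 3⌋
      have hk := h3 k
      rw [map_sub, map_sub, Finsupp.sub_apply] at hk
      have hpar : (decide (Even ⌊b.repr (φ x) k / 3⌋)) = decide (Even ⌊b.repr (φ y) k / 3⌋) :=
        congrFun hcol k
      rw [decide_eq_decide] at hpar
      set u := b.repr (φ x) k / 3 with hu
      set v := b.repr (φ y) k / 3 with hv
      have huv : |v - u| < 1 := by
        have : v - u = (b.repr (φ y) k - b.repr (φ x) k) / 3 := by rw [hu, hv]; ring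
        rw [this, abs_div, abs_of_pos (by norm_num : (0 : ℝ) < 3)]
        linarith
      rw [abs_lt] at huv
      have e1 := Int.floor_le u
      have e2 := Int.lt_floor_add_one u
      have e3 := Int.floor_le v
      have e4 := Int.lt_floor_add_one v
      have f1 : (⌊u⌋ : ℝ) - ⌊v⌋ < 2 := by linarith
      have f2 : (⌊v⌋ : ℝ) - ⌊u⌋ < 2 := by linarith
      have g1 : ⌊u⌋ - ⌊v⌋ < 2 := by exact_mod_cast f1
      have g2 : ⌊v⌋ - ⌊u⌋ < 2 := by exact_mod_cast f2
      rw [Int.even_iff, Int.even_iff] at hpar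
      omega
  · intro x y hxy
    have h1 : (QuotientAddGroup.mk x : M ⧸ W (c * r)) = QuotientAddGroup.mk y :=
      congrArg Prod.fst hxy
    have h2 : ∀ k, ⌊b.repr (φ x) k / 3⌋ = ⌊b.repr (φ y) k / 3⌋ := fun k =>
      congrFun (congrArg Prod.snd hxy) k
    rw [QuotientAddGroup.eq, neg_add_eq_sub] at h1
    set l : ℕ := 3 * Module.finrank ℝ V + 1 with hl
    have hlpos : 0 < l := by omega
    have hlR : (0 : ℝ) < (l : ℝ) := by exact_mod_cast hlpos
    have hcoord : ∀ k, |b.repr (φ (y - x)) k| ≤ 3 := by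
      intro k
      rw [map_sub, map_sub, Finsupp.sub_apply]
      have hk := h2 k
      have e1 := Int.floor_le (b.repr (φ x) k / 3)
      have e2 := Int.lt_floor_add_one (b.repr (φ x) k / 3)
      have e3 := Int.floor_le (b.repr (φ y) k / 3)
      have e4 := Int.lt_floor_add_one (b.repr (φ y) k / 3)
      rw [hk] at e1 e2
      rw [abs_le]
      constructor <;> linarith
    have hw : ∑ k, (b.repr (φ (y - x)) k / l) • b k ∈ K (c * r) := by
      refine K2_convex_comb (K (c * r)) (hKc _) (hKs _) (hK0 _) (fun k => b k) hbK _ ?_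
      have : ∀ k, |b.repr (φ (y - x)) k / l| ≤ 3 / l := by
        intro k
        rw [abs_div, abs_of_pos hlR]
        exact div_le_div_of_nonneg_right (hcoord k) hlR.le
      calc ∑ k, |b.repr (φ (y - x)) k / l| ≤ ∑ _k : Fin (Module.finrank ℝ V), (3 : ℝ) / l :=
            Finset.sum_le_sum fun k _ => this k
        _ = (Module.finrank ℝ V : ℝ) * (3 / l) := by simp
        _ ≤ 1 := by
            rw [← mul_div_assoc, div_le_one hlR, hl]
            push_cast
            linarith
    have hφ : φ (y - x) = (l : ℝ) • ∑ k, (b.repr (φ (y - x)) k / l) • b k := by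
      rw [Finset.smul_sum]
      conv_lhs => rw [← b.sum_repr (φ (y - x))]
      refine Finset.sum_congr rfl fun k _ => ?_
      rw [smul_smul, mul_div_cancel₀ _ hlR.ne']
    have hK : φ (y - x) ∈ K (l * (c * r)) := by
      rw [hφ]
      exact hKscale l (c * r) hlpos _ hw
    have hWm : y - x ∈ W (l * (c * r)) :=
      hW (Nat.le_mul_of_pos_left _ hlpos) h1
    have := hU (l * (c * r)) (Nat.mul_pos hlpos hR) (y - x) hWm hK
    have e : C * (l * (c * r)) = C * (l * c) * r := by ring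
    rw [e] at this
    exact this

end Pool.MP4dac8d
end

section

/-! AND: definitions for the unipotent part (no sorry). -/

set_option autoImplicit false
open Classical
open scoped Pointwise

namespace Pool.MP4dac8d

/-- The descending flag: `V0`, `(∑_{s∈X} (ρ s - 1) V0) + span Γ`, and then `∑_{s∈X} (ρ s - 1) (previous)`. -/
noncomputable def flag {G V : Type*} [Group G] [AddCommGroup V] [Module ℝ V]
    (ρ : G →* (V →ₗ[ℝ] V)) (X : Set G) (V0 : Submodule ℝ V) (Γ : Set V) : ℕ → Submodule ℝ V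
  | 0 => V0
  | 1 => (⨆ s ∈ X, V0.map (ρ s - 1)) ⊔ Submodule.span ℝ Γ
  | (j + 2) => ⨆ s ∈ X, (flag ρ X V0 Γ (j + 1)).map (ρ s - 1)

/-- The box of size `r`: `∑_{k<c} r^(k+1) w_k`, `w_k ∈ fl k`, `‖w_k‖ ≤ 1`. -/
def box {V : Type*} [NormedAddCommGroup V] [NormedSpace ℝ V] (fl : ℕ → Submodule ℝ V) (c r : ℕ) :
    Set V :=
  {v | ∃ w : ℕ → V, (∀ k, w k ∈ fl k ∧ ‖w k‖ ≤ 1) ∧
    v = ∑ k ∈ Finset.range c, (r : ℝ) ^ (k + 1) • w k}

/-- The convex body of size `r` of the part where `P = 0`. -/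
def bodyV {G V : Type*} [Group G] [NormedAddCommGroup V] [NormedSpace ℝ V] (S : Set G)
    (ρ : G →* (V →ₗ[ℝ] V)) (P : V →ₗ[ℝ] V) (r : ℕ) : Set V :=
  convexHull ℝ {w : V | ∃ g ∈ ball S r, ∃ u : V, ‖u‖ ≤ r ∧ P u = 0 ∧ w = ρ g u}

/-- The hypotheses on the real model: `P` projects on the unipotent part, `R` inverts `ρ t - 1` on the
complement. -/
structure UData {G M V : Type*} [Group G] [AddCommGroup M] [DistribMulAction G M]
    [NormedAddCommGroup V] [NormedSpace ℝ V] {d : ℕ} (D : Ext G M d) (S : Set G) (φ : M →+ V)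
    (ρ : G →* (V →ₗ[ℝ] V)) (P R : V →ₗ[ℝ] V) (t : G) : Prop where
  Sfin : S.Finite
  hφ : ∀ (g : G) (m : M), φ (g • m) = ρ g (φ m)
  hρ : ∀ m : M, ρ (D.i m) = 1
  hcomm : ∀ g h : G, ρ g * ρ h = ρ h * ρ g
  PP : P * P = P
  Pρ : ∀ g : G, P * ρ g = ρ g * P
  Rρ : ∀ g : G, R * ρ g = ρ g * R
  PR : P * R = R * P
  nil : ∃ n : ℕ, ∀ g : G, (ρ g - 1) ^ n * P = 0
  inv : (ρ t - 1) * R = 1 - P

/-- The commutator vectors. -/
def comVec {G M V : Type*} [Group G] [AddCommGroup M] [DistribMulAction G M]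
    [NormedAddCommGroup V] [NormedSpace ℝ V] {d : ℕ} (D : Ext G M d) (S : Set G) (φ : M →+ V)
    (P : V →ₗ[ℝ] V) : Set V :=
  {v | ∃ (c : M) (l s : G), l ∈ ball S 1 ∧ s ∈ ball S 1 ∧ D.i c = l * s * l⁻¹ * s⁻¹ ∧ v = P (φ c)}

/-- The flag of the unipotent part. -/
noncomputable def uflag {G M V : Type*} [Group G] [AddCommGroup M] [DistribMulAction G M]
    [NormedAddCommGroup V] [NormedSpace ℝ V] {d : ℕ} (D : Ext G M d) (S : Set G) (φ : M →+ V)
    (ρ : G →* (V →ₗ[ℝ] V)) (P : V →ₗ[ℝ] V) : ℕ → Submodule ℝ V :=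
  flag ρ (ball S 1) (LinearMap.range P) (comVec D S φ P)

/-- Families of cheap vectors. -/
def CF {G M V : Type*} [Group G] [AddCommGroup M] [NormedAddCommGroup V] [NormedSpace ℝ V]
    (S : Set G) (i : M → G) (φ : M →+ V) (ρ : G →* (V →ₗ[ℝ] V)) (f : ℕ → V) : Prop :=
  ∃ C : ℕ, ∀ r : ℕ, 0 < r → f r ∈ Cheap S i φ ρ (C * r)

/-- Families in the boxes of weight at least `j + 1`. -/
def BF {V : Type*} [NormedAddCommGroup V] [NormedSpace ℝ V] (fl : ℕ → Submodule ℝ V) (c j : ℕ)
    (f : ℕ → V) : Prop :=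
  ∃ b : ℝ, ∀ r : ℕ, 0 < r → ∃ w : ℕ → V, (∀ k, w k ∈ fl k ∧ ‖w k‖ ≤ b) ∧
    f r = ∑ k ∈ Finset.Ico j c, (r : ℝ) ^ (k + 1) • w k

end Pool.MP4dac8d
end

section

/-! AND task U1: the derivation on the part where `ρ t - 1` is invertible. -/

set_option autoImplicit false
open Classical
open scoped Pointwise

namespace Pool.MP4dac8d

section
variable {G M V : Type*} [Group G] [AddCommGroup M] [DistribMulAction G M]
  [NormedAddCommGroup V] [NormedSpace ℝ V] {d : ℕ} {D : Ext G M d} {S : Set G} {φ : M →+ V}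
  {ρ : G →* (V →ₗ[ℝ] V)} {P R : V →ₗ[ℝ] V} {t : G}

/-- THE DERIVATION.  For `g : G` let `c g ∈ M` with `i (c g) = g t g⁻¹ t⁻¹` (`G/i(M)` is abelian:
`D.π` of the commutator is `1`, `D.ker`).  `c (g h) = g • c h + c g`, and
`c (i a) = a - t • a`.  Put `τ g = - (1 - P) R φ(c g)`.  Then `τ (g h) = τ g + ρ g (τ h)`, `P (τ g) = 0`
and `τ (i a) = (1 - P) R (ρ t - 1) φ a = (1 - P) φ a`. -/
theorem exists_derivation (hU : UData D S φ ρ P R t) :
    ∃ τ : G → V, (∀ g h : G, τ (g * h) = τ g + ρ g (τ h)) ∧ (∀ g : G, P (τ g) = 0) ∧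
      ∀ m : M, τ (D.i m) = φ m - P (φ m) := by
  have hi0 : D.i 0 = 1 := by
    have h := D.i_add 0 0
    rw [add_zero] at h
    exact (left_eq_mul.mp h)
  have hin : ∀ a : M, (D.i a)⁻¹ = D.i (-a) := by
    intro a
    rw [inv_eq_iff_mul_eq_one, ← D.i_add, add_neg_cancel, hi0]
  have hex : ∀ g : G, ∃ m : M, D.i m = g * t * g⁻¹ * t⁻¹ := by
    intro g
    rw [← D.ker]
    rw [map_mul, map_mul, map_mul, map_inv, map_inv]
    rw [mul_comm (D.π g) (D.π t), mul_assoc (D.π t), mul_inv_cancel, mul_one, mul_inv_cancel]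
  choose c hc using hex
  have hcmul : ∀ g h : G, c (g * h) = g • c h + c g := by
    intro g h
    apply D.i_inj
    rw [D.i_add, hc, ← D.conj, hc, hc]
    group
  have hci : ∀ a : M, c (D.i a) = a - t • a := by
    intro a
    apply D.i_inj
    have h1 : D.i (a - t • a) = D.i a * (t * D.i (-a) * t⁻¹) := by
      rw [D.conj, ← D.i_add, smul_neg, sub_eq_add_neg]
    rw [h1, hc, hin]
    group
  have hRρ : ∀ (g : G) (v : V), R (ρ g v) = ρ g (R v) := by
    intro g v
    have := congrArg (fun L : V →ₗ[ℝ] V => L v) (hU.Rρ g)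
    simpa [Module.End.mul_apply] using this
  have hPρ : ∀ (g : G) (v : V), P (ρ g v) = ρ g (P v) := by
    intro g v
    have := congrArg (fun L : V →ₗ[ℝ] V => L v) (hU.Pρ g)
    simpa [Module.End.mul_apply] using this
  have hPP : ∀ v : V, P (P v) = P v := by
    intro v
    have := congrArg (fun L : V →ₗ[ℝ] V => L v) hU.PP
    simpa [Module.End.mul_apply] using this
  have hinv : ∀ v : V, ρ t (R v) - R v = v - P v := by
    intro v
    have := congrArg (fun L : V →ₗ[ℝ] V => L v) hU.inv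
    simpa [Module.End.mul_apply] using this
  refine ⟨fun g => P (R (φ (c g))) - R (φ (c g)), ?_, ?_, ?_⟩
  · intro g h
    simp only [hcmul, map_add, hU.hφ, hRρ, hPρ, map_sub]
    abel
  · intro g
    simp only [map_sub, hPP, sub_self]
  · intro m
    simp only [hci, map_sub, hU.hφ, hRρ, hPρ]
    have h1 := hinv (φ m)
    have h2 := congrArg P h1
    rw [map_sub, map_sub, hPρ, hPP, sub_self] at h2
    have h3 : ρ t (R (φ m)) = φ m - P (φ m) + R (φ m) := by
      rw [← h1]; abel
    have h4 : ρ t (P (R (φ m))) = P (R (φ m)) := sub_eq_zero.mp h2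
    rw [h3, h4]
    abel

/-- THE NON-UNIPOTENT PART OF SHORT ELEMENTS.  Proof: `τ` from `exists_derivation`, `C` a bound for
`‖τ s‖`, `s ∈ ball S 1` (a finite set), `C ≥ 1` natural.  For `D.i m = s_0 ⋯ s_{n-1}`:
`φ m - P (φ m) = τ (D.i m) = ∑_{j<n} ρ(g_j) τ(s_j)`, `g_j = s_0 ⋯ s_{j-1} ∈ ball S n`; this is the average
of the `n` vectors `ρ(g_j) (n τ(s_j))`, `‖n τ(s_j)‖ ≤ C n`, `P (n τ s_j) = 0`. -/
theorem sub_P_mem_bodyV (hU : UData D S φ ρ P R t) :
    ∃ C : ℕ, 0 < C ∧ ∀ n : ℕ, 0 < n → ∀ m : M, D.i m ∈ ball S n →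
      φ m - P (φ m) ∈ bodyV S ρ P (C * n) := by
  obtain ⟨τ, h1, h2, h3⟩ := exists_derivation hU
  have hfin : (ball S 1).Finite := ball_finite hU.Sfin 1
  obtain ⟨B, hB⟩ : ∃ B : ℝ, ∀ s ∈ ball S 1, ‖τ s‖ ≤ B := by
    obtain ⟨B, hB⟩ := (hfin.image (fun s => ‖τ s‖)).bddAbove
    exact ⟨B, fun s hs => hB (Set.mem_image_of_mem _ hs)⟩
  obtain ⟨C, hC⟩ := exists_nat_ge (max B 1)
  have hCB : B ≤ C := le_trans (le_max_left _ _) hC
  have hC1 : (1 : ℝ) ≤ C := le_trans (le_max_right _ _) hC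
  have hCpos : 0 < C := by
    have : (0 : ℝ) < C := lt_of_lt_of_le one_pos hC1
    exact_mod_cast this
  have hτ1 : τ 1 = 0 := by
    have h := h1 1 1
    rw [mul_one, map_one] at h
    have h' : τ 1 = τ 1 + τ 1 := by simpa using h
    exact left_eq_add.mp h'
  have hBF := ballFam_ball S
  have hsum : ∀ n : ℕ, ∀ g ∈ ball S n, ∃ a b : ℕ → G, (∀ j, a j ∈ ball S n) ∧
      (∀ j, b j ∈ ball S 1) ∧ τ g = ∑ j ∈ Finset.range n, ρ (a j) (τ (b j)) := by
    intro n
    induction n with
    | zero =>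
      intro g hg
      rw [mem_ball_zero_iff] at hg
      refine ⟨fun _ => 1, fun _ => 1, fun _ => hBF.one_mem 0, fun _ => hBF.one_mem 1, ?_⟩
      rw [hg, hτ1, Finset.range_zero, Finset.sum_empty]
    | succ n ih =>
      intro g hg
      obtain ⟨h, hh, s, hs, rfl⟩ := (ball_succ hg).2
      obtain ⟨a, b, ha, hb, hab⟩ := ih h hh
      refine ⟨fun j => if j < n then a j else h, fun j => if j < n then b j else s, ?_, ?_, ?_⟩
      · intro j
        dsimp only
        split_ifs
        · exact hBF.mono (Nat.le_succ n) (ha j)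
        · exact hBF.mono (Nat.le_succ n) hh
      · intro j
        dsimp only
        split_ifs
        · exact hb j
        · exact hs
      · rw [h1, hab, Finset.sum_range_succ]
        congr 1
        · refine Finset.sum_congr rfl fun j hj => ?_
          simp only [if_pos (Finset.mem_range.mp hj)]
        · simp only [lt_irrefl, if_false]
  refine ⟨C, hCpos, ?_⟩
  intro n hn m hm
  obtain ⟨a, b, ha, hb, hab⟩ := hsum n _ hm
  have hn' : (0 : ℝ) < n := by exact_mod_cast hn
  have hav : φ m - P (φ m) =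
      ∑ j ∈ Finset.range n, (1 / (n : ℝ)) • ρ (a j) ((n : ℝ) • τ (b j)) := by
    rw [← h3, hab]
    refine Finset.sum_congr rfl fun j _ => ?_
    rw [map_smul, smul_smul, one_div, inv_mul_cancel₀ hn'.ne', one_smul]
  rw [hav]
  unfold bodyV
  refine (convex_convexHull ℝ _).sum_mem ?_ ?_ ?_
  · intro j _
    positivity
  · rw [Finset.sum_const, Finset.card_range, nsmul_eq_mul, mul_one_div_cancel hn'.ne']
  · intro j _
    refine subset_convexHull ℝ _ ?_
    refine ⟨a j, hBF.mono ?_ (ha j), (n : ℝ) • τ (b j), ?_, ?_, rfl⟩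
    · exact Nat.le_mul_of_pos_left n hCpos
    · rw [norm_smul, Real.norm_of_nonneg hn'.le]
      push_cast
      have := le_trans (hB _ (hb j)) hCB
      nlinarith
    · rw [map_smul, h2, smul_zero]

end

end Pool.MP4dac8d
end

section

/-! AND task U2: the flag is finite; expansion of group elements along the flag. -/

set_option autoImplicit false
open Classical
open scoped Pointwise

namespace Pool.MP4dac8d

section
variable {G V : Type*} [Group G] [NormedAddCommGroup V] [NormedSpace ℝ V]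
  {ρ : G →* (V →ₗ[ℝ] V)} {X : Set G} {V0 : Submodule ℝ V} {Γ : Set V}

/-- `(ρ s - 1)` maps the `j`-th step into the `(j+1)`-st (`s ∈ X`). -/
theorem flag_step {s : G} (hs : s ∈ X) {j : ℕ} {v : V} (hv : v ∈ flag ρ X V0 Γ j) :
    (ρ s - 1) v ∈ flag ρ X V0 Γ (j + 1) := by
  cases j with
  | zero =>
    have h1 : (ρ s - 1) v ∈ V0.map (ρ s - 1) := Submodule.mem_map_of_mem hv
    have h2 : V0.map (ρ s - 1) ≤ ⨆ s ∈ X, V0.map (ρ s - 1) :=
      le_iSup₂ (f := fun s (_ : s ∈ X) => V0.map (ρ s - 1)) s hs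
    exact (le_sup_left : _ ≤ (⨆ s ∈ X, V0.map (ρ s - 1)) ⊔ Submodule.span ℝ Γ) (h2 h1)
  | succ j =>
    have h1 : (ρ s - 1) v ∈ (flag ρ X V0 Γ (j + 1)).map (ρ s - 1) := Submodule.mem_map_of_mem hv
    have h2 : (flag ρ X V0 Γ (j + 1)).map (ρ s - 1) ≤
        ⨆ s ∈ X, (flag ρ X V0 Γ (j + 1)).map (ρ s - 1) :=
      le_iSup₂ (f := fun s (_ : s ∈ X) => (flag ρ X V0 Γ (j + 1)).map (ρ s - 1)) s hs
    exact h2 h1

/-- All steps are contained in `V0`, are invariant under all `ρ g`, if `V0` is and `Γ ⊆ V0` (for the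
invariance of step `1`: `(ρ s - 1) V0` is invariant because everything commutes, and for `γ ∈ Γ`,
`g` a product of elements of `X`: `ρ g γ - γ ∈ ∑ (ρ s - 1) V0`; we only claim `⊆ V0`). -/
theorem flag_le (hcomm : ∀ g h : G, ρ g * ρ h = ρ h * ρ g)
    (hinv : ∀ g : G, ∀ v ∈ V0, ρ g v ∈ V0) (hΓ : Γ ⊆ V0) (j : ℕ) : flag ρ X V0 Γ j ≤ V0 := by
  have hsub : ∀ (s : G) (W : Submodule ℝ V), W ≤ V0 → W.map (ρ s - 1) ≤ V0 := by
    intro s W hW
    rw [Submodule.map_le_iff_le_comap]
    intro v hv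
    rw [Submodule.mem_comap, LinearMap.sub_apply, Module.End.one_apply]
    exact V0.sub_mem (hinv s v (hW hv)) (hW hv)
  induction j with
  | zero => exact le_refl _
  | succ j ih =>
    cases j with
    | zero =>
      exact sup_le (iSup₂_le fun s _ => hsub s V0 le_rfl) (Submodule.span_le.2 hΓ)
    | succ j => exact iSup₂_le fun s _ => hsub s _ ih

/-- A product of operators `ρ a - 1` along a list is divisible by a power of `ρ s - 1`. -/
private theorem U2_split (hcomm : ∀ g h : G, ρ g * ρ h = ρ h * ρ g) (s : G) (l : List G) :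
    ∃ R : V →ₗ[ℝ] V, Commute R (ρ s - 1) ∧
      (l.map fun a => ρ a - 1).prod = R * (ρ s - 1) ^ (l.count s) := by
  induction l with
  | nil => exact ⟨1, Commute.one_left _, by simp⟩
  | cons a l ih =>
    obtain ⟨R, hR, hl⟩ := ih
    have hc : Commute (ρ a - 1) (ρ s - 1) := by
      have h1 : Commute (ρ a) (ρ s) := hcomm a s
      exact (h1.sub_left (Commute.one_left _)).sub_right
        ((Commute.one_right _))
    rw [List.map_cons, List.prod_cons, hl]
    by_cases has : a = s
    · subst has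
      refine ⟨R, hR, ?_⟩
      rw [List.count_cons_self, pow_succ', ← mul_assoc, ← mul_assoc, hR.eq]
    · refine ⟨(ρ a - 1) * R, hc.mul_left hR, ?_⟩
      rw [List.count_cons_of_ne has, mul_assoc]

/-- The steps of the flag are spanned by monomials. -/
private theorem U2_span (hcomm : ∀ g h : G, ρ g * ρ h = ρ h * ρ g)
    (hinv : ∀ g : G, ∀ v ∈ V0, ρ g v ∈ V0) (hΓ : Γ ⊆ V0) (k : ℕ) :
    flag ρ X V0 Γ (k + 1) ≤ Submodule.span ℝ {x : V | ∃ l : List G, l.length = k ∧
      (∀ a ∈ l, a ∈ X) ∧ ∃ w ∈ V0, x = (l.map fun a => ρ a - 1).prod w} := by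
  induction k with
  | zero =>
    refine (flag_le hcomm hinv hΓ 1).trans ?_
    intro v hv
    apply Submodule.subset_span
    exact ⟨[], rfl, by simp, v, hv, by simp⟩
  | succ k ih =>
    refine iSup₂_le fun s hs => ?_
    refine (Submodule.map_mono ih).trans ?_
    rw [Submodule.map_span]
    apply Submodule.span_mono
    rintro _ ⟨x, ⟨l, hl1, hl2, w, hw, rfl⟩, rfl⟩
    refine ⟨s :: l, by rw [List.length_cons, hl1], ?_, w, hw, ?_⟩
    · intro a ha
      rcases List.mem_cons.1 ha with h1 | h1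
      · rw [h1]; exact hs
      · exact hl2 a h1
    · rw [List.map_cons, List.prod_cons, Module.End.mul_apply]

/-- THE FLAG TERMINATES.  `flag (k + 1)` is contained in the span of the vectors
`(ρ s_1 - 1) ⋯ (ρ s_k - 1) v`, `s_j ∈ X`, `v ∈ V0` (induction).  The operators commute and
`(ρ s - 1)^n = 0` on `V0`; if `k > n |X|` some `s` occurs at least `n` times, so the product is `0`. -/
theorem exists_flag_bot (hX : X.Finite) (hcomm : ∀ g h : G, ρ g * ρ h = ρ h * ρ g)
    (hinv : ∀ g : G, ∀ v ∈ V0, ρ g v ∈ V0) (hΓ : Γ ⊆ V0)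
    (hnil : ∃ n : ℕ, ∀ g ∈ X, ∀ v ∈ V0, ((ρ g - 1) ^ n) v = 0) :
    ∃ c : ℕ, ∀ k : ℕ, c ≤ k → flag ρ X V0 Γ k = ⊥ := by
  obtain ⟨n, hn⟩ := hnil
  refine ⟨n * hX.toFinset.card + 2, fun k hk => ?_⟩
  obtain ⟨k', rfl⟩ : ∃ k', k = k' + 1 := ⟨k - 1, by omega⟩
  rw [eq_bot_iff]
  refine (U2_span hcomm hinv hΓ k').trans ?_
  rw [Submodule.span_le]
  rintro _ ⟨l, hl1, hl2, w, hw, rfl⟩
  rw [SetLike.mem_coe, Submodule.mem_bot]
  -- some letter occurs at least `n` times
  have hex : ∃ s ∈ X, n ≤ l.count s := by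
    by_contra hno
    push Not at hno
    have h1 : l.length = ∑ s ∈ hX.toFinset, l.count s := by
      have h2 : (l : Multiset G).toFinset ⊆ hX.toFinset := by
        intro a ha
        rw [Multiset.mem_toFinset, Multiset.mem_coe] at ha
        rw [Set.Finite.mem_toFinset]
        exact hl2 a ha
      have h3 := Multiset.sum_count_eq_card (s := hX.toFinset) (m := (l : Multiset G))
        (fun a ha => by
          rw [Multiset.mem_coe] at ha
          rw [Set.Finite.mem_toFinset]
          exact hl2 a ha)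
      rw [Multiset.coe_card] at h3
      rw [← h3]
      apply Finset.sum_congr rfl
      intro a _
      rw [Multiset.coe_count]
    have h4 : ∑ s ∈ hX.toFinset, l.count s ≤ ∑ s ∈ hX.toFinset, n := by
      apply Finset.sum_le_sum
      intro s hs
      rw [Set.Finite.mem_toFinset] at hs
      exact (hno s hs).le
    rw [Finset.sum_const, smul_eq_mul] at h4
    have h5 : hX.toFinset.card * n = n * hX.toFinset.card := mul_comm _ _
    omega
  obtain ⟨s, hs, hsn⟩ := hex
  obtain ⟨R, -, hl⟩ := U2_split (ρ := ρ) hcomm s l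
  obtain ⟨j, hj⟩ := Nat.exists_eq_add_of_le hsn
  rw [hl, hj, add_comm, pow_add, Module.End.mul_apply, Module.End.mul_apply, hn s hs w hw,
    map_zero, map_zero]

/-- A common bound for finitely many operators. -/
private theorem U2_bound [FiniteDimensional ℝ V] {X : Set G} (hX : X.Finite) :
    ∃ Λ : ℝ, 0 ≤ Λ ∧ ∀ s ∈ X, ∀ v : V, ‖(ρ s - 1) v‖ ≤ Λ * ‖v‖ := by
  refine ⟨∑ s ∈ hX.toFinset, ‖LinearMap.toContinuousLinearMap (ρ s - 1)‖,
    Finset.sum_nonneg fun _ _ => norm_nonneg _, fun s hs v => ?_⟩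
  have h1 : ‖(ρ s - 1) v‖ ≤ ‖LinearMap.toContinuousLinearMap (ρ s - 1)‖ * ‖v‖ :=
    (LinearMap.toContinuousLinearMap (ρ s - 1)).le_opNorm v
  refine h1.trans (mul_le_mul_of_nonneg_right ?_ (norm_nonneg v))
  exact Finset.single_le_sum (f := fun s => ‖LinearMap.toContinuousLinearMap (ρ s - 1)‖)
    (fun _ _ => norm_nonneg _) (hX.mem_toFinset.2 hs)

/-- EXPANSION ALONG THE FLAG.  `X = ball S 1`.  For `g ∈ ball S n`, `u ∈ flag j`:
`ρ g u = ∑_{i<c} w_i` with `w_i ∈ flag (j + i)` and `‖w_i‖ ≤ C(n,i) Λ^i ‖u‖`, where `Λ` bounds the norms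
of `ρ s - 1`, `s ∈ ball S 1`.  Proof by induction on `n`: `g = s g'`, `ρ g' u = ∑ w_i`,
`ρ g u = ∑ w_i + ∑ (ρ s - 1) w_i`, new `w'_i = w_i + (ρ s - 1) w_{i-1}`, Pascal's rule.  (Carry the sum over
all `i ≤ n` or over `i < c` using `flag k = ⊥` for `k ≥ c`.) -/
theorem flag_expand [FiniteDimensional ℝ V] {S : Set G} (hS : S.Finite) {c : ℕ}
    (hc : ∀ k : ℕ, c ≤ k → flag ρ (ball S 1) V0 Γ k = ⊥) :
    ∃ Λ : ℝ, 0 ≤ Λ ∧ ∀ (n : ℕ) (g : G), g ∈ ball S n → ∀ (j : ℕ) (u : V),
      u ∈ flag ρ (ball S 1) V0 Γ j → ∃ w : ℕ → V,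
        (∀ i, w i ∈ flag ρ (ball S 1) V0 Γ (j + i) ∧ ‖w i‖ ≤ (n.choose i : ℝ) * Λ ^ i * ‖u‖) ∧
        ρ g u = ∑ i ∈ Finset.range c, w i := by
  obtain ⟨Λ, hΛ0, hΛ⟩ := U2_bound (ρ := ρ) (ball_finite hS 1)
  refine ⟨Λ, hΛ0, ?_⟩
  intro n
  induction n with
  | zero =>
    intro g hg j u hu
    rw [mem_ball_zero_iff] at hg
    subst hg
    refine ⟨fun i => if i = 0 then u else 0, fun i => ?_, ?_⟩
    · by_cases hi : i = 0
      · subst hi
        simp only [if_true, add_zero, Nat.choose_zero_right, Nat.cast_one, pow_zero, one_mul]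
        exact ⟨hu, le_rfl⟩
      · simp only [if_neg hi, norm_zero]
        exact ⟨Submodule.zero_mem _, by positivity⟩
    · rw [map_one, Module.End.one_apply, Finset.sum_ite_eq']
      split_ifs with h0
      · rfl
      · have hc0 : c = 0 := by
          rw [Finset.mem_range] at h0; omega
        rw [hc j (by omega), Submodule.mem_bot] at hu
        exact hu
  | succ n ih =>
    intro g hg j u hu
    obtain ⟨⟨s, hs, g', hg', rfl⟩, -⟩ := ball_succ hg
    obtain ⟨w, hw, hsum⟩ := ih g' hg' j u hu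
    refine ⟨fun i => Nat.casesOn i (w 0) (fun i => w (i + 1) + (ρ s - 1) (w i)), fun i => ?_, ?_⟩
    · cases i with
      | zero =>
        refine ⟨(hw 0).1, ?_⟩
        have := (hw 0).2
        simpa using this
      | succ i =>
        refine ⟨Submodule.add_mem _ (hw (i + 1)).1 (flag_step hs (hw i).1), ?_⟩
        calc ‖w (i + 1) + (ρ s - 1) (w i)‖ ≤ ‖w (i + 1)‖ + ‖(ρ s - 1) (w i)‖ := norm_add_le _ _
          _ ≤ (n.choose (i + 1) : ℝ) * Λ ^ (i + 1) * ‖u‖ +
              Λ * ((n.choose i : ℝ) * Λ ^ i * ‖u‖) :=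
            add_le_add (hw (i + 1)).2
              ((hΛ s hs _).trans (mul_le_mul_of_nonneg_left (hw i).2 hΛ0))
          _ = ((n + 1).choose (i + 1) : ℝ) * Λ ^ (i + 1) * ‖u‖ := by
            rw [Nat.choose_succ_succ, Nat.cast_add]; ring
    · have e1 : ρ (s * g') u = ∑ i ∈ Finset.range c, w i +
          ∑ i ∈ Finset.range c, (ρ s - 1) (w i) := by
        rw [map_mul, Module.End.mul_apply, hsum, ← map_sum, LinearMap.sub_apply,
          Module.End.one_apply]
        abel
      rw [e1]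
      cases c with
      | zero => simp
      | succ c =>
        have h0 : (ρ s - 1) (w c) = 0 := by
          have h1 := flag_step (ρ := ρ) (V0 := V0) (Γ := Γ) hs (hw c).1
          rw [hc (j + c + 1) (by omega), Submodule.mem_bot] at h1
          exact h1
        rw [Finset.sum_range_succ' w, Finset.sum_range_succ (fun i => (ρ s - 1) (w i)), h0,
          Finset.sum_range_succ' (fun i => Nat.casesOn i (w 0)
            (fun i => w (i + 1) + (ρ s - 1) (w i)) : ℕ → V)]
        show _ = ∑ i ∈ Finset.range c, (w (i + 1) + (ρ s - 1) (w i)) + w 0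
        rw [Finset.sum_add_distrib]
        abel

/-- A linear map between finite-dimensional spaces has bounded preimages on its range. -/
private theorem U2_preimage {E W : Type*} [NormedAddCommGroup E] [NormedSpace ℝ E]
    [NormedAddCommGroup W] [NormedSpace ℝ W] [FiniteDimensional ℝ W]
    (L : E →ₗ[ℝ] W) :
    ∃ C : ℝ, 0 ≤ C ∧ ∀ u ∈ LinearMap.range L, ∃ x : E, L x = u ∧ ‖x‖ ≤ C * ‖u‖ := by
  obtain ⟨g, hg⟩ := L.rangeRestrict.exists_rightInverse_of_surjective L.range_rangeRestrict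
  refine ⟨‖LinearMap.toContinuousLinearMap g‖, (LinearMap.toContinuousLinearMap g).opNorm_nonneg, fun u hu => ⟨g ⟨u, hu⟩, ?_, ?_⟩⟩
  · have h1 := LinearMap.congr_fun hg ⟨u, hu⟩
    have h2 := congrArg Subtype.val h1
    exact h2
  · exact (LinearMap.toContinuousLinearMap g).le_opNorm ⟨u, hu⟩

/-- BOUNDED REPRESENTATION.  Bounded families in a step of the flag can be written with bounded
families in the previous step: for `u ∈ flag (j+2)` there are `v_s ∈ flag (j+1)` (`s ∈ X`) with
`u = ∑_{s∈X} (ρ s - 1) v_s`, `‖v_s‖ ≤ C ‖u‖`.  (Finite dimension: the linear map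
`(v_s)_s ↦ ∑ (ρ s - 1) v_s` from `∏_{s ∈ X} flag (j+1)` onto `flag (j+2)` has a linear, hence
bounded, right inverse.) -/
theorem flag_lift [FiniteDimensional ℝ V] (hX : X.Finite) (j : ℕ) :
    ∃ C : ℝ, 0 ≤ C ∧ ∀ u ∈ flag ρ X V0 Γ (j + 2), ∃ v : G → V,
      (∀ s, v s ∈ flag ρ X V0 Γ (j + 1) ∧ ‖v s‖ ≤ C * ‖u‖) ∧
      u = ∑ s ∈ hX.toFinset, (ρ s - 1) (v s) := by
  let E := (↥hX.toFinset → ↥(flag ρ X V0 Γ (j + 1)))
  let L : E →ₗ[ℝ] V :=
    { toFun := fun x => ∑ s : ↥hX.toFinset, (ρ s.1 - 1) (x s : V)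
      map_add' := by
        intro x y
        rw [← Finset.sum_add_distrib]
        apply Finset.sum_congr rfl
        intro s _
        rw [Pi.add_apply, Submodule.coe_add, map_add]
      map_smul' := by
        intro a x
        rw [RingHom.id_apply, Finset.smul_sum]
        apply Finset.sum_congr rfl
        intro s _
        rw [Pi.smul_apply, Submodule.coe_smul, map_smul] }
  have hL : ∀ x : E, L x = ∑ s : ↥hX.toFinset, (ρ s.1 - 1) (x s : V) := fun x => rfl
  obtain ⟨C, hC, hpre⟩ := U2_preimage L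
  refine ⟨C, hC, fun u hu => ?_⟩
  have hrange : flag ρ X V0 Γ (j + 2) ≤ LinearMap.range L := by
    refine iSup₂_le fun s hs => ?_
    rintro _ ⟨v, hv, rfl⟩
    refine ⟨Pi.single ⟨s, hX.mem_toFinset.2 hs⟩ ⟨v, hv⟩, ?_⟩
    rw [hL, Finset.sum_eq_single (⟨s, hX.mem_toFinset.2 hs⟩ : ↥hX.toFinset)]
    · rw [Pi.single_eq_same]
    · intro b _ hb
      rw [Pi.single_eq_of_ne hb, Submodule.coe_zero, map_zero]
    · intro h1
      exact absurd (Finset.mem_univ _) h1
  obtain ⟨x, hx, hxn⟩ := hpre u (hrange hu)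
  refine ⟨fun s => if hs : s ∈ hX.toFinset then (x ⟨s, hs⟩ : V) else 0, fun s => ?_, ?_⟩
  · by_cases hs : s ∈ hX.toFinset
    · simp only [dif_pos hs]
      refine ⟨(x ⟨s, hs⟩).2, ?_⟩
      exact (norm_le_pi_norm x ⟨s, hs⟩).trans hxn
    · simp only [dif_neg hs, norm_zero]
      exact ⟨Submodule.zero_mem _, by positivity⟩
  · rw [← hx, hL, ← Finset.sum_coe_sort hX.toFinset]
    apply Finset.sum_congr rfl
    intro s _
    show _ = (ρ s.1 - 1) (if hs : s.1 ∈ hX.toFinset then (x ⟨s.1, hs⟩ : V) else 0)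
    rw [dif_pos s.2]

/-- BOUNDED REPRESENTATION, first step: `u ∈ flag 1` is `∑_s (ρ s - 1) v_s + ∑_γ β_γ γ`. -/
theorem flag_lift_one [FiniteDimensional ℝ V] (hX : X.Finite) (hΓ : Γ.Finite) :
    ∃ C : ℝ, 0 ≤ C ∧ ∀ u ∈ flag ρ X V0 Γ 1, ∃ (v : G → V) (β : V → ℝ),
      (∀ s, v s ∈ V0 ∧ ‖v s‖ ≤ C * ‖u‖) ∧ (∀ γ, |β γ| ≤ C * ‖u‖) ∧
      u = ∑ s ∈ hX.toFinset, (ρ s - 1) (v s) + ∑ γ ∈ hΓ.toFinset, β γ • γ := by
  let E := (↥hX.toFinset → ↥V0) × (↥hΓ.toFinset → ℝ)
  let L : E →ₗ[ℝ] V :=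
    { toFun := fun x => ∑ s : ↥hX.toFinset, (ρ s.1 - 1) (x.1 s : V) +
        ∑ γ : ↥hΓ.toFinset, x.2 γ • γ.1
      map_add' := by
        intro x y
        have h1 : ∑ s : ↥hX.toFinset, (ρ s.1 - 1) ((x + y).1 s : V) =
            ∑ s : ↥hX.toFinset, (ρ s.1 - 1) (x.1 s : V) +
              ∑ s : ↥hX.toFinset, (ρ s.1 - 1) (y.1 s : V) := by
          rw [← Finset.sum_add_distrib]
          apply Finset.sum_congr rfl
          intro s _
          rw [Prod.fst_add, Pi.add_apply, Submodule.coe_add, map_add]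
        have h2 : ∑ γ : ↥hΓ.toFinset, (x + y).2 γ • γ.1 =
            ∑ γ : ↥hΓ.toFinset, x.2 γ • γ.1 + ∑ γ : ↥hΓ.toFinset, y.2 γ • γ.1 := by
          rw [← Finset.sum_add_distrib]
          apply Finset.sum_congr rfl
          intro s _
          rw [Prod.snd_add, Pi.add_apply, add_smul]
        rw [h1, h2]
        abel
      map_smul' := by
        intro a x
        rw [RingHom.id_apply, smul_add, Finset.smul_sum, Finset.smul_sum]
        congr 1
        · apply Finset.sum_congr rfl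
          intro s _
          rw [Prod.smul_fst, Pi.smul_apply, Submodule.coe_smul, map_smul]
        · apply Finset.sum_congr rfl
          intro s _
          rw [Prod.smul_snd, Pi.smul_apply, smul_assoc] }
  have hL : ∀ x : E, L x = ∑ s : ↥hX.toFinset, (ρ s.1 - 1) (x.1 s : V) +
      ∑ γ : ↥hΓ.toFinset, x.2 γ • γ.1 := fun x => rfl
  obtain ⟨C, hC, hpre⟩ := U2_preimage L
  refine ⟨C, hC, fun u hu => ?_⟩
  have hrange : flag ρ X V0 Γ 1 ≤ LinearMap.range L := by
    refine sup_le (iSup₂_le fun s hs => ?_) (Submodule.span_le.2 fun γ hγ => ?_)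
    · rintro _ ⟨v, hv, rfl⟩
      refine ⟨(Pi.single ⟨s, hX.mem_toFinset.2 hs⟩ ⟨v, hv⟩, 0), ?_⟩
      rw [hL, Finset.sum_eq_single (⟨s, hX.mem_toFinset.2 hs⟩ : ↥hX.toFinset)]
      · simp
      · intro b _ hb
        simp only [Pi.single_eq_of_ne hb, Submodule.coe_zero, map_zero]
      · intro h1
        exact absurd (Finset.mem_univ _) h1
    · refine ⟨(0, Pi.single ⟨γ, hΓ.mem_toFinset.2 hγ⟩ 1), ?_⟩
      have h2 : ∑ s : ↥hX.toFinset, (ρ s.1 - 1)
          (((0 : ↥hX.toFinset → ↥V0) s : ↥V0) : V) = 0 := by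
        apply Finset.sum_eq_zero
        intro s _
        rw [Pi.zero_apply, Submodule.coe_zero, map_zero]
      have h3 : ∑ γ' : ↥hΓ.toFinset,
          (Pi.single (⟨γ, hΓ.mem_toFinset.2 hγ⟩ : ↥hΓ.toFinset) (1 : ℝ) :
            ↥hΓ.toFinset → ℝ) γ' • γ'.1 = γ := by
        rw [Finset.sum_eq_single (⟨γ, hΓ.mem_toFinset.2 hγ⟩ : ↥hΓ.toFinset)]
        · rw [Pi.single_eq_same, one_smul]
        · intro b _ hb
          rw [Pi.single_eq_of_ne hb, zero_smul]
        · intro h1
          exact absurd (Finset.mem_univ _) h1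
      rw [hL]
      exact (congrArg₂ (· + ·) h2 h3).trans (zero_add γ)
  obtain ⟨x, hx, hxn⟩ := hpre u (hrange hu)
  refine ⟨fun s => if hs : s ∈ hX.toFinset then (x.1 ⟨s, hs⟩ : V) else 0,
    fun γ => if hγ : γ ∈ hΓ.toFinset then x.2 ⟨γ, hγ⟩ else 0, fun s => ?_, fun γ => ?_, ?_⟩
  · by_cases hs : s ∈ hX.toFinset
    · simp only [dif_pos hs]
      refine ⟨(x.1 ⟨s, hs⟩).2, ?_⟩
      exact ((norm_le_pi_norm x.1 ⟨s, hs⟩).trans (norm_fst_le x)).trans hxn
    · simp only [dif_neg hs, norm_zero]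
      exact ⟨Submodule.zero_mem _, by positivity⟩
  · by_cases hγ : γ ∈ hΓ.toFinset
    · simp only [dif_pos hγ]
      exact ((norm_le_pi_norm x.2 ⟨γ, hγ⟩).trans (norm_snd_le x)).trans hxn
    · simp only [dif_neg hγ, abs_zero]
      positivity
  · rw [← hx, hL, ← Finset.sum_coe_sort hX.toFinset, ← Finset.sum_coe_sort hΓ.toFinset]
    congr 1
    · apply Finset.sum_congr rfl
      intro s _
      show _ = (ρ s.1 - 1) (if hs : s.1 ∈ hX.toFinset then (x.1 ⟨s.1, hs⟩ : V) else 0)
      rw [dif_pos s.2]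
    · apply Finset.sum_congr rfl
      intro γ _
      show _ = (if hγ : γ.1 ∈ hΓ.toFinset then x.2 ⟨γ.1, hγ⟩ else 0) • γ.1
      rw [dif_pos γ.2]

end

end Pool.MP4dac8d
end
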