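import Pool.Agent.Lib.MP_4dac8d_al.Mg.G004
import Pool.Agent.Lib.MP_4dac8d_al.Mg.G001

section

/-! AND task U3: the unipotent part of short elements lies in boxes. -/

set_option autoImplicit false
open Classical
open scoped Pointwise

namespace Pool.MP4dac8d

/-- The expansion along the flag with constants that do not depend on `n`. -/
private theorem U3_expand {G V : Type*} [Group G] [NormedAddCommGroup V] [NormedSpace ℝ V]
    {ρ : G →* (V →ₗ[ℝ] V)} {V0 : Submodule ℝ V} {Γ : Set V}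
    [FiniteDimensional ℝ V] {S : Set G} (hS : S.Finite) {c : ℕ}
    (hc : ∀ k : ℕ, c ≤ k → flag ρ (ball S 1) V0 Γ k = ⊥) (d : ℕ) :
    ∃ E : ℝ, 0 ≤ E ∧ ∀ (n : ℕ) (g : G), g ∈ ball S (d * n) → ∀ (j : ℕ) (u : V),
      u ∈ flag ρ (ball S 1) V0 Γ j → ∃ w : ℕ → V,
        (∀ i, w i ∈ flag ρ (ball S 1) V0 Γ (j + i) ∧ ‖w i‖ ≤ E * (n : ℝ) ^ i * ‖u‖) ∧
        ρ g u = ∑ i ∈ Finset.range c, w i := by
  obtain ⟨Λ, hΛ0, hΛ⟩ := flag_expand (ρ := ρ) (V0 := V0) (Γ := Γ) hS hc
  have hd : (0 : ℝ) ≤ (d : ℝ) * Λ := mul_nonneg (Nat.cast_nonneg _) hΛ0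
  refine ⟨(1 + d * Λ) ^ c, by positivity, fun n g hg j u hu => ?_⟩
  obtain ⟨w, hw, hsum⟩ := hΛ (d * n) g hg j u hu
  refine ⟨w, fun i => ⟨(hw i).1, ?_⟩, hsum⟩
  by_cases hi : i < c
  · refine (hw i).2.trans ?_
    apply mul_le_mul_of_nonneg_right _ (norm_nonneg u)
    have h1 : ((d * n).choose i : ℝ) ≤ ((d : ℝ) * n) ^ i := by
      have h2 : (d * n).choose i ≤ (d * n) ^ i := Nat.choose_le_pow (d * n) i
      calc ((d * n).choose i : ℝ) ≤ (((d * n) ^ i : ℕ) : ℝ) := by exact_mod_cast h2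
        _ = ((d : ℝ) * n) ^ i := by push_cast; ring
    calc ((d * n).choose i : ℝ) * Λ ^ i ≤ ((d : ℝ) * n) ^ i * Λ ^ i :=
          mul_le_mul_of_nonneg_right h1 (by positivity)
      _ = ((d : ℝ) * Λ) ^ i * (n : ℝ) ^ i := by rw [mul_pow, mul_pow]; ring
      _ ≤ (1 + d * Λ) ^ c * (n : ℝ) ^ i := by
          apply mul_le_mul_of_nonneg_right _ (by positivity)
          calc ((d : ℝ) * Λ) ^ i ≤ (1 + d * Λ) ^ i := pow_le_pow_left₀ hd (by linarith) i
            _ ≤ (1 + d * Λ) ^ c := pow_le_pow_right₀ (by linarith) hi.le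
  · have h0 : w i = 0 := by
      have h1 := (hw i).1
      rw [hc (j + i) (by omega), Submodule.mem_bot] at h1
      exact h1
    rw [h0, norm_zero]
    positivity

/-- Shift of an expansion that begins in the first step. -/
private theorem U3_shift {V : Type*} [NormedAddCommGroup V] [NormedSpace ℝ V]
    {fl : ℕ → Submodule ℝ V} {c : ℕ} (hc : ∀ k : ℕ, c ≤ k → fl k = ⊥) {n : ℕ} {B : ℝ}
    (hB : 0 ≤ B) (w : ℕ → V) (hw : ∀ i, w i ∈ fl (1 + i) ∧ ‖w i‖ ≤ B * (n : ℝ) ^ (i + 1)) :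
    ∃ w' : ℕ → V, (∀ k, w' k ∈ fl k ∧ ‖w' k‖ ≤ B * (n : ℝ) ^ k) ∧
      ∑ i ∈ Finset.range c, w i = ∑ k ∈ Finset.range c, w' k := by
  refine ⟨fun k => Nat.casesOn k 0 w, fun k => ?_, ?_⟩
  · cases k with
    | zero =>
      refine ⟨Submodule.zero_mem _, ?_⟩
      show ‖(0 : V)‖ ≤ _
      rw [norm_zero]
      positivity
    | succ k =>
      refine ⟨?_, (hw k).2⟩
      have := (hw k).1
      rwa [add_comm] at this
  · cases c with
    | zero => simp
    | succ c =>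
      have h0 : w c = 0 := by
        have h1 := (hw c).1
        rw [hc (1 + c) (by omega), Submodule.mem_bot] at h1
        exact h1
      rw [Finset.sum_range_succ, h0, Finset.sum_range_succ' (fun k => Nat.casesOn k 0 w : ℕ → V)]
      rfl

private theorem U3_ball_mono {G : Type*} [Group G] {S T : Set G} (h : S ⊆ T) (n : ℕ) :
    ball S n ⊆ ball T n := by
  rintro g ⟨l, hl, hx, rfl⟩
  exact ⟨l, hl, fun x hxl => (hx x hxl).imp (fun h1 => h h1) (fun h1 => h h1), rfl⟩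

private theorem U3_i_zero {G M : Type*} [Group G] [AddCommGroup M] [DistribMulAction G M] {d : ℕ}
    (D : Ext G M d) : D.i 0 = 1 := by
  have h1 := D.i_add 0 0
  rw [add_zero] at h1
  exact (mul_eq_left.1 h1.symm)

/-- The commutator vectors are bounded. -/
private theorem U3_com_bound {G M V : Type*} [Group G] [AddCommGroup M] [DistribMulAction G M]
    [NormedAddCommGroup V] [NormedSpace ℝ V] {d : ℕ} (D : Ext G M d)
    {S : Set G} (hS : S.Finite) (φ : M →+ V) (P : V →ₗ[ℝ] V) :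
    ∃ κ : ℝ, 0 ≤ κ ∧ ∀ v ∈ comVec D S φ P, ‖v‖ ≤ κ := by
  have hex : ∀ l s : G, ∃ c : M, D.i c = l * s * l⁻¹ * s⁻¹ := by
    intro l s
    apply (D.ker _).1
    simp only [map_mul, map_inv]
    rw [mul_comm (D.π l) (D.π s), mul_assoc (D.π s), mul_inv_cancel, mul_one, mul_inv_cancel]
  choose c₀ hc₀ using hex
  have hfin : (comVec D S φ P).Finite := by
    apply (Set.Finite.image (fun q : G × G => P (φ (c₀ q.1 q.2)))
      ((ball_finite hS 1).prod (ball_finite hS 1))).subset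
    rintro v ⟨c, l, s, hl, hs, hc, rfl⟩
    refine ⟨(l, s), ⟨hl, hs⟩, ?_⟩
    have : c₀ l s = c := D.i_inj (by rw [hc₀, hc])
    show P (φ (c₀ l s)) = P (φ c)
    rw [this]
  obtain ⟨κ, hκ⟩ := (hfin.image fun v => ‖v‖).bddAbove
  refine ⟨max κ 0, le_max_right _ _, fun v hv => ?_⟩
  exact (hκ ⟨v, hv, rfl⟩).trans (le_max_left _ _)

/-- UPPER BOUND FOR THE UNIPOTENT PART.  `S = {x_k} ∪ i(F)`; `uflag` the flag, `= ⊥` from `c` on.
If `i m` has length `≤ n`, then `P (φ m) ∈ box (C n)`.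
Proof.  `σ` from `Ext.exists_section` (its words have letters in `Set.range D.x ⊆ S`).  Let `Z` be the set of all
`z : M` with `P (φ z) = ∑_{k<c} n^k w_k`, `w_k ∈ uflag k`, `‖w_k‖ ≤ C₁`, for a suitable constant `C₁`
independent of `n`.
(i) `z = σ q • f`, `|q|_∞ ≤ n`: `P φ z = ρ(σ q) P φ f`, `P φ f ∈ uflag 0 = range P`, and `σ q ∈ ball S (d n)`, so
`flag_expand` gives `∑_i w_i`, `w_i ∈ uflag i`, `‖w_i‖ ≤ C(dn,i) Λ^i ‖P φ f‖ ≤ n^i (d Λ)^i ‖P φ f‖`.
(ii) `i a = σ(q) x_k σ(q+e_k)⁻¹ = u (Q x_k Q⁻¹ x_k⁻¹) u⁻¹`, `u, Q ∈ ball S (d n)`: by `Ext.comm_sum`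
`a = ∑_{j<dn} (u g_j) • c(l_j)`, `u g_j ∈ ball S (2 d n)`, `l_j ∈ ball S 1`, `P φ(c(l_j)) ∈ comVec ⊆ uflag 1`
(finitely many vectors); `flag_expand` with `j = 1` gives terms `w_i ∈ uflag (1+i)` of norm
`≤ n^i C`, and the sum of `d n` of them is `n^{i+1}` times a bounded vector of `uflag (i+1)`.
By `Ext.collect` `m = ∑_{l<n} z_l` with `z_l ∈ Z` (`σ 0 = 1`, `i_inj`), so
`P φ m = ∑_k n^{k+1} w'_k` with `‖w'_k‖ ≤ C₁` (averages), which is in `box (C n)` for a natural
`C ≥ max(C₁, 1)`: `n^{k+1} w'_k = (C n)^{k+1} (C^{-(k+1)} w'_k)`. -/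
theorem P_mem_box {G M V : Type*} [Group G] [AddCommGroup M] [DistribMulAction G M]
    [NormedAddCommGroup V] [NormedSpace ℝ V] [FiniteDimensional ℝ V] {d : ℕ} (D : Ext G M d)
    (F : Finset M) (S : Set G) (hSdef : S = Set.range D.x ∪ D.i '' (F : Set M)) (φ : M →+ V)
    (ρ : G →* (V →ₗ[ℝ] V)) (P R : V →ₗ[ℝ] V) (t : G) (hU : UData D S φ ρ P R t) (c : ℕ)
    (hc : ∀ k : ℕ, c ≤ k → uflag D S φ ρ P k = ⊥) :
    ∃ C : ℕ, 0 < C ∧ ∀ n : ℕ, 0 < n → ∀ m : M, D.i m ∈ ball S n →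
      P (φ m) ∈ box (uflag D S φ ρ P) c (C * n) := by
  have hSfin := hU.Sfin
  obtain ⟨σ, hσ0, hσπ, hσball, hσx⟩ := D.exists_section
  have hxS : Set.range D.x ⊆ S := by rw [hSdef]; exact Set.subset_union_left
  have hxball : ∀ k, ball (Set.range D.x) k ⊆ ball S k := fun k => U3_ball_mono hxS k
  have hc' : ∀ k : ℕ, c ≤ k →
      flag ρ (ball S 1) (LinearMap.range P) (comVec D S φ P) k = ⊥ := hc
  obtain ⟨E₁, hE₁, hex₁⟩ := U3_expand hSfin hc' d
  obtain ⟨E₂, hE₂, hex₂⟩ := U3_expand hSfin hc' (2 * d)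
  obtain ⟨κ, hκ0, hκ⟩ := U3_com_bound D hSfin φ P
  set κ₁ : ℝ := ∑ f ∈ F, ‖P (φ f)‖ with hκ₁
  have hκ₁0 : 0 ≤ κ₁ := Finset.sum_nonneg fun _ _ => norm_nonneg _
  set C₁ : ℝ := E₁ * κ₁ + d * (E₂ * κ) with hC₁
  have hC₁0 : 0 ≤ C₁ := by positivity
  have hPρ : ∀ (g : G) (m : M), P (φ (g • m)) = ρ g (P (φ m)) := by
    intro g m
    rw [hU.hφ]
    exact LinearMap.congr_fun (hU.Pρ g) (φ m)
  have key : ∀ n : ℕ, ∀ m : M, D.i m ∈ ball S n →
      ∃ W : ℕ → V, (∀ k, W k ∈ uflag D S φ ρ P k ∧ ‖W k‖ ≤ C₁ * (n : ℝ) ^ (k + 1)) ∧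
        P (φ m) = ∑ k ∈ Finset.range c, W k := by
    intro n m hm
    set Z : Set M := {z : M | ∃ w : ℕ → V, (∀ k, w k ∈ uflag D S φ ρ P k ∧
      ‖w k‖ ≤ C₁ * (n : ℝ) ^ k) ∧ P (φ z) = ∑ k ∈ Finset.range c, w k} with hZ
    have hZneg : ∀ z ∈ Z, -z ∈ Z := by
      rintro z ⟨w, hw, hz⟩
      refine ⟨fun k => -w k, fun k => ⟨Submodule.neg_mem _ (hw k).1, ?_⟩, ?_⟩
      · rw [norm_neg]; exact (hw k).2
      · rw [map_neg, map_neg, hz, Finset.sum_neg_distrib]
    have hZ0 : (0 : M) ∈ Z := by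
      refine ⟨fun _ => 0, fun k => ⟨Submodule.zero_mem _, ?_⟩, ?_⟩
      · rw [norm_zero]; positivity
      · rw [map_zero, map_zero, Finset.sum_const_zero]
    have hZF : ∀ f ∈ (F : Set M), ∀ q : Fin d → ℤ, (∀ k, |q k| ≤ (n : ℤ)) →
        σ q • f ∈ Z ∧ -(σ q • f) ∈ Z := by
      intro f hf q hq
      have h1 : σ q • f ∈ Z := by
        have h2 : P (φ f) ∈ flag ρ (ball S 1) (LinearMap.range P) (comVec D S φ P) 0 :=
          LinearMap.mem_range_self P (φ f)
        obtain ⟨w, hw, hsum⟩ := hex₁ n (σ q) (hxball _ (hσball q n hq)) 0 (P (φ f)) h2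
        refine ⟨w, fun k => ⟨?_, ?_⟩, ?_⟩
        · have := (hw k).1
          rw [zero_add] at this
          exact this
        · refine (hw k).2.trans ?_
          have h3 : ‖P (φ f)‖ ≤ κ₁ :=
            Finset.single_le_sum (f := fun f => ‖P (φ f)‖) (fun _ _ => norm_nonneg _)
              (Finset.mem_coe.1 hf)
          calc E₁ * (n : ℝ) ^ k * ‖P (φ f)‖ ≤ E₁ * (n : ℝ) ^ k * κ₁ :=
                mul_le_mul_of_nonneg_left h3 (by positivity)
            _ = E₁ * κ₁ * (n : ℝ) ^ k := by ring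
            _ ≤ C₁ * (n : ℝ) ^ k := by
                apply mul_le_mul_of_nonneg_right _ (by positivity)
                rw [hC₁]
                have : 0 ≤ (d : ℝ) * (E₂ * κ) := by positivity
                linarith
        · rw [hPρ, hsum]
      exact ⟨h1, hZneg _ h1⟩
    have hZx : ∀ (q : Fin d → ℤ) (k : Fin d), (∀ j, |q j| ≤ (n : ℤ)) → ∀ a : M,
        D.i a = σ q * D.x k * (σ (q + Pi.single k 1))⁻¹ → a ∈ Z ∧ -a ∈ Z := by
      intro q k hq a ha
      have h1 : a ∈ Z := by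
        obtain ⟨u, hu, Q, hQ, hconj⟩ := hσx q k n hq
        set s : G := D.x k with hs
        have hsS : s ∈ ball S 1 := by
          rw [mem_ball_one_iff]
          exact Or.inr (Or.inl (hxS ⟨k, rfl⟩))
        have hex : ∀ l : G, ∃ c : M, D.i c = l * s * l⁻¹ * s⁻¹ := by
          intro l
          apply (D.ker _).1
          simp only [map_mul, map_inv]
          rw [mul_comm (D.π l) (D.π s), mul_assoc (D.π s), mul_inv_cancel, mul_one,
            mul_inv_cancel]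
        choose c₀ hc₀ using hex
        obtain ⟨g, l, hg, hl, hcsum⟩ := D.comm_sum S s c₀ hc₀ (d * n) Q (hxball _ hQ)
        have ha' : a = u • c₀ Q := by
          apply D.i_inj
          rw [ha, hconj, ← D.conj, hc₀]
        have hPa : P (φ a) = ∑ j ∈ Finset.range (d * n), ρ (u * g j) (P (φ (c₀ (l j)))) := by
          rw [ha', hcsum, Finset.smul_sum, map_sum, map_sum]
          apply Finset.sum_congr rfl
          intro j _
          rw [smul_smul, hPρ]
        have hcom : ∀ j, P (φ (c₀ (l j))) ∈ comVec D S φ P := fun j =>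
          ⟨c₀ (l j), l j, s, hl j, hsS, hc₀ _, rfl⟩
        have hflag1 : ∀ j, P (φ (c₀ (l j))) ∈
            flag ρ (ball S 1) (LinearMap.range P) (comVec D S φ P) 1 := fun j =>
          (le_sup_right : Submodule.span ℝ (comVec D S φ P) ≤ _) (Submodule.subset_span (hcom j))
        have hexp : ∀ j, ∃ w : ℕ → V,
            (∀ i, w i ∈ flag ρ (ball S 1) (LinearMap.range P) (comVec D S φ P) (1 + i) ∧
              ‖w i‖ ≤ E₂ * (n : ℝ) ^ i * ‖P (φ (c₀ (l j)))‖) ∧
            ρ (u * g j) (P (φ (c₀ (l j)))) = ∑ i ∈ Finset.range c, w i := by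
          intro j
          apply hex₂ n (u * g j) _ 1 _ (hflag1 j)
          have h2 := (ballFam_ball S).mul (hxball _ hu) (hg j)
          have h3 : d * n + d * n = 2 * d * n := by ring
          rwa [h3] at h2
        choose w hw hwsum using hexp
        have hW : ∀ i, (∑ j ∈ Finset.range (d * n), w j i) ∈
            flag ρ (ball S 1) (LinearMap.range P) (comVec D S φ P) (1 + i) ∧
            ‖∑ j ∈ Finset.range (d * n), w j i‖ ≤ C₁ * (n : ℝ) ^ (i + 1) := by
          intro i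
          refine ⟨Submodule.sum_mem _ fun j _ => (hw j i).1, ?_⟩
          calc ‖∑ j ∈ Finset.range (d * n), w j i‖
              ≤ ∑ j ∈ Finset.range (d * n), ‖w j i‖ := norm_sum_le _ _
            _ ≤ ∑ j ∈ Finset.range (d * n), E₂ * (n : ℝ) ^ i * κ := by
                apply Finset.sum_le_sum
                intro j _
                exact (hw j i).2.trans
                  (mul_le_mul_of_nonneg_left (hκ _ (hcom j)) (by positivity))
            _ = d * (E₂ * κ) * (n : ℝ) ^ (i + 1) := by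
                rw [Finset.sum_const, Finset.card_range, nsmul_eq_mul]
                push_cast
                ring
            _ ≤ C₁ * (n : ℝ) ^ (i + 1) := by
                apply mul_le_mul_of_nonneg_right _ (by positivity)
                rw [hC₁]
                have : 0 ≤ E₁ * κ₁ := by positivity
                linarith
        obtain ⟨w', hw', hsum'⟩ := U3_shift hc' hC₁0 _ hW
        refine ⟨w', hw', ?_⟩
        rw [hPa, ← hsum', Finset.sum_comm]
        apply Finset.sum_congr rfl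
        intro j _
        exact hwsum j
      exact ⟨h1, hZneg _ h1⟩
    obtain ⟨z, hz, hzsum⟩ := D.collect (F : Set M) σ hσπ hσ0 n Z hZ0 hZF hZx n le_rfl (D.i m)
      (by rw [← hSdef]; exact hm)
    have hπ : D.π (D.i m) = 1 := (D.ker _).2 ⟨m, rfl⟩
    rw [hπ, toAdd_one, hσ0, mul_one] at hzsum
    have hmz : m = ∑ l ∈ Finset.range n, z l := D.i_inj hzsum
    choose w hw hwsum using hz
    refine ⟨fun k => ∑ l ∈ Finset.range n, w l k, fun k => ⟨?_, ?_⟩, ?_⟩
    · exact Submodule.sum_mem _ fun l _ => (hw l k).1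
    · calc ‖∑ l ∈ Finset.range n, w l k‖ ≤ ∑ l ∈ Finset.range n, ‖w l k‖ := norm_sum_le _ _
        _ ≤ ∑ l ∈ Finset.range n, C₁ * (n : ℝ) ^ k := Finset.sum_le_sum fun l _ => (hw l k).2
        _ = C₁ * (n : ℝ) ^ (k + 1) := by
            rw [Finset.sum_const, Finset.card_range, nsmul_eq_mul]
            ring
    · rw [hmz, map_sum, map_sum, Finset.sum_comm]
      apply Finset.sum_congr rfl
      intro l _
      exact hwsum l
  -- the constant
  obtain ⟨C, hC⟩ := exists_nat_ge (max C₁ 1)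
  have hC1 : (1 : ℝ) ≤ C := (le_max_right _ _).trans hC
  have hCC₁ : C₁ ≤ C := (le_max_left _ _).trans hC
  have hCpos : 0 < C := by
    have : (0 : ℝ) < C := by linarith
    exact_mod_cast this
  refine ⟨C, hCpos, fun n hn m hm => ?_⟩
  obtain ⟨W, hW, hsum⟩ := key n m hm
  have hnpos : (0 : ℝ) < n := by exact_mod_cast hn
  have hCr : (0 : ℝ) < C := by linarith
  refine ⟨fun k => (((C * n : ℕ) : ℝ) ^ (k + 1))⁻¹ • W k, fun k => ⟨?_, ?_⟩, ?_⟩
  · exact Submodule.smul_mem _ _ (hW k).1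
  · rw [norm_smul, norm_inv, norm_pow, Real.norm_natCast, inv_mul_le_iff₀ (by positivity), mul_one]
    refine (hW k).2.trans ?_
    push_cast
    rw [mul_pow]
    apply mul_le_mul_of_nonneg_right _ (by positivity)
    calc C₁ ≤ C := hCC₁
      _ = (C : ℝ) ^ 1 := (pow_one _).symm
      _ ≤ (C : ℝ) ^ (k + 1) := pow_le_pow_right₀ hC1 (by omega)
  · rw [hsum]
    apply Finset.sum_congr rfl
    intro k _
    rw [smul_smul, mul_inv_cancel₀ (by positivity), one_smul]

end Pool.MP4dac8d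
end

section

/-! AND task D5: the calculus of cheap vectors. -/

set_option autoImplicit false
open Classical
open scoped Pointwise

namespace Pool.MP4dac8d

section
variable {G M V : Type*} [Group G] [AddCommGroup M] [DistribMulAction G M]
  [NormedAddCommGroup V] [NormedSpace ℝ V] {S : Set G} {i : M → G} {φ : M →+ V}
  {ρ : G →* (V →ₗ[ℝ] V)}

/-- a path of length `n` from `1` to `h` with the weighted sum `s` -/
private def D5_P (S : Set G) (ρ : G →* (V →ₗ[ℝ] V)) (n : ℕ) (h : G) (s : V) : Prop :=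
  ∃ (g : ℕ → G) (u : ℕ → V), g 0 = 1 ∧ (∀ j < n, (g j)⁻¹ * g (j + 1) ∈ ball S 1) ∧
    (∀ j, ‖u j‖ ≤ 1) ∧ g n = h ∧ s = ∑ j ∈ Finset.range n, ρ (g j) (u j)

private theorem D5_cheap_iff {n : ℕ} {v : V} :
    v ∈ Cheap S i φ ρ n ↔ ∃ (m : M) (s : V), D5_P S ρ n (i m) s ∧ v = φ m + s := by
  constructor
  · rintro ⟨g, u, m, h0, h1, h2, h3, h4⟩
    exact ⟨m, _, ⟨g, u, h0, h1, h2, h3, rfl⟩, h4⟩
  · rintro ⟨m, s, ⟨g, u, h0, h1, h2, h3, rfl⟩, h4⟩
    exact ⟨g, u, m, h0, h1, h2, h3, h4⟩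

private theorem D5_concat {m n : ℕ} {h h' : G} {s s' : V} (H : D5_P S ρ m h s)
    (H' : D5_P S ρ n h' s') : D5_P S ρ (m + n) (h * h') (s + ρ h s') := by
  obtain ⟨g, u, h0, h1, h2, h3, h4⟩ := H
  obtain ⟨g', u', h0', h1', h2', h3', h4'⟩ := H'
  refine ⟨fun j => if j < m then g j else h * g' (j - m), fun j => if j < m then u j else u' (j - m),
    ?_, ?_, ?_, ?_, ?_⟩
  · by_cases hm : 0 < m
    · simp [hm, h0]
    · have : m = 0 := by omega
      subst this
      simp [h0', ← h3, h0]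
  · intro j hj
    dsimp only
    by_cases h5 : j + 1 < m
    · rw [if_pos (by omega), if_pos h5]
      exact h1 j (by omega)
    · by_cases h6 : j < m
      · have h7 : j + 1 = m := by omega
        rw [if_pos h6, if_neg h5, h7, Nat.sub_self, h0', mul_one, ← h3, ← h7]
        exact h1 j h6
      · rw [if_neg h6, if_neg h5]
        have h7 : j + 1 - m = (j - m) + 1 := by omega
        rw [h7, mul_inv_rev, mul_assoc, inv_mul_cancel_left]
        exact h1' (j - m) (by omega)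
  · intro j
    dsimp only
    split_ifs
    · exact h2 j
    · exact h2' _
  · simp [h3']
  · rw [Finset.sum_range_add, h4, h4', map_sum]
    congr 1
    · refine Finset.sum_congr rfl fun j hj => ?_
      have := Finset.mem_range.1 hj
      simp [this]
    · refine Finset.sum_congr rfl fun j hj => ?_
      simp

private theorem D5_stay (S : Set G) (ρ : G →* (V →ₗ[ℝ] V)) (n : ℕ) : D5_P S ρ n 1 0 :=
  ⟨fun _ => 1, fun _ => 0, rfl, fun j _ => by simpa using (ballFam_ball S).one_mem 1, by simp, rfl,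
    by simp⟩

private theorem D5_mono {m n : ℕ} (hmn : m ≤ n) {h : G} {s : V} (H : D5_P S ρ m h s) :
    D5_P S ρ n h s := by
  have := D5_concat H (D5_stay S ρ (n - m))
  rw [Nat.add_sub_cancel' hmn] at this
  simpa using this

private theorem D5_word : ∀ (k : ℕ) (h : G), h ∈ ball S k → D5_P S ρ k h 0
  | 0, h, hh => by
      rw [mem_ball_zero_iff] at hh
      subst hh
      exact D5_stay S ρ 0
  | k + 1, h, hh => by
      obtain ⟨a, ha, s, hs, rfl⟩ := (ball_succ hh).2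
      have h1 : D5_P S ρ 1 s 0 := by
        refine ⟨fun j => if j = 0 then 1 else s, fun _ => 0, rfl, fun j hj => ?_, by simp, rfl, by simp⟩
        have : j = 0 := by omega
        subst this
        simpa using hs
      have := D5_concat (D5_word k a ha) h1
      simpa using this

private theorem D5_neg {n : ℕ} {h : G} {s : V} (H : D5_P S ρ n h s) :
    D5_P S ρ (n + 1) h⁻¹ (-(ρ h⁻¹ s)) := by
  obtain ⟨g, u, h0, h1, h2, h3, h4⟩ := H
  refine ⟨fun j => h⁻¹ * g (n - j), fun j => if j = 0 then 0 else -u (n - j), ?_, ?_, ?_, ?_, ?_⟩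
  · simp [h3]
  · intro j hj
    dsimp only
    rw [mul_inv_rev, mul_assoc, inv_inv, mul_inv_cancel_left]
    by_cases h5 : j < n
    · have h6 : n - j = (n - (j + 1)) + 1 := by omega
      have h7 := (ballFam_ball S).inv (h1 (n - (j + 1)) (by omega))
      rw [mul_inv_rev, inv_inv] at h7
      rw [h6]
      exact h7
    · have h6 : n - j = 0 := by omega
      have h7 : n - (j + 1) = 0 := by omega
      rw [h6, h7, inv_mul_cancel]
      exact (ballFam_ball S).one_mem 1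
  · intro j
    dsimp only
    split_ifs
    · simp
    · rw [norm_neg]
      exact h2 _
  · have : n - (n + 1) = 0 := by omega
    simp [this, h0]
  · rw [Finset.sum_range_succ', h4, map_sum, ← Finset.sum_neg_distrib,
      ← Finset.sum_range_reflect (fun j => -(ρ h⁻¹ (ρ (g j) (u j))))]
    simp only [Nat.add_eq_zero_iff, one_ne_zero, and_false, if_false, if_true, map_zero, add_zero]
    refine Finset.sum_congr rfl fun j hj => ?_
    have : n - 1 - j = n - (j + 1) := by omega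
    rw [this]
    simp

/-- Prolong the path by staying at its end point. -/
theorem cheap_mono {m n : ℕ} (h : m ≤ n) {v : V} (hv : v ∈ Cheap S i φ ρ m) :
    v ∈ Cheap S i φ ρ n := by
  obtain ⟨a, s, H, rfl⟩ := D5_cheap_iff.1 hv
  exact D5_cheap_iff.2 ⟨a, s, D5_mono h H, rfl⟩

/-- Short vectors are cheap: `v = ∑_{j<n} v/n` along the constant path `1` (`i 0 = 1`). -/
theorem cheap_small (i0 : i 0 = 1) {n : ℕ} {v : V} (hv : ‖v‖ ≤ n) : v ∈ Cheap S i φ ρ n := by
  refine D5_cheap_iff.2 ⟨0, v, ⟨fun _ => 1, fun _ => (n : ℝ)⁻¹ • v, rfl,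
    fun j _ => by simpa using (ballFam_ball S).one_mem 1, fun _ => ?_, i0.symm, ?_⟩, by simp⟩
  · rw [norm_smul, norm_inv, Real.norm_natCast]
    rcases Nat.eq_zero_or_pos n with h0 | h0
    · subst h0; simp
    · have h1 : (0 : ℝ) < n := by exact_mod_cast h0
      rw [inv_mul_le_iff₀ h1]
      simpa using hv
  · rcases Nat.eq_zero_or_pos n with h0 | h0
    · subst h0
      have : ‖v‖ ≤ 0 := by simpa using hv
      simpa using norm_le_zero_iff.1 this
    · have h1 : (n : ℝ) ≠ 0 := by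
        have : (0 : ℝ) < n := by exact_mod_cast h0
        exact this.ne'
      simp only [map_one, Module.End.one_apply, Finset.sum_const, Finset.card_range]
      rw [← Nat.cast_smul_eq_nsmul ℝ, smul_smul, mul_inv_cancel₀ h1, one_smul]

/-- Concatenation of paths: `g_0, …, g_m = i a, i a * g'_0, …`; elements of `i(M)` act trivially on `V`. -/
theorem cheap_add (i_add : ∀ a b : M, i (a + b) = i a * i b) (hρ : ∀ m : M, ρ (i m) = 1) {m n : ℕ}
    {v w : V} (hv : v ∈ Cheap S i φ ρ m) (hw : w ∈ Cheap S i φ ρ n) :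
    v + w ∈ Cheap S i φ ρ (m + n) := by
  obtain ⟨a, s, H, rfl⟩ := D5_cheap_iff.1 hv
  obtain ⟨b, s', H', rfl⟩ := D5_cheap_iff.1 hw
  refine D5_cheap_iff.2 ⟨a + b, s + s', ?_, ?_⟩
  · have := D5_concat H H'
    rw [hρ a, ← i_add] at this
    simpa using this
  · rw [map_add]
    abel

/-- The reversed path `(g_n)⁻¹ g_{n-j}` with the vectors `-u_{n-j}` (shifted indices: the vector
`u_j` sits at the point `g_j`; the point with index `n` of the reversed path is `(g_n)⁻¹`, so one may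
lengthen the path by one step); cost `n + 1`. -/
theorem cheap_neg (i_add : ∀ a b : M, i (a + b) = i a * i b) (hρ : ∀ m : M, ρ (i m) = 1) {n : ℕ}
    {v : V} (hv : v ∈ Cheap S i φ ρ n) : -v ∈ Cheap S i φ ρ (n + 1) := by
  obtain ⟨a, s, H, rfl⟩ := D5_cheap_iff.1 hv
  have i0 : i 0 = 1 := by
    have := i_add 0 0
    rw [add_zero] at this
    exact left_eq_mul.1 this
  have hin : i (-a) = (i a)⁻¹ := by
    rw [eq_inv_iff_mul_eq_one, ← i_add, neg_add_cancel, i0]
  refine D5_cheap_iff.2 ⟨-a, -s, ?_, ?_⟩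
  · have := D5_neg H
    rw [← hin, hρ (-a)] at this
    simpa using this
  · rw [map_neg]
    abel

/-- Translates: go to `g` (length `k`), follow `g g_j`, come back by `g⁻¹`; the end point is
`g (i m) g⁻¹ = i (g • m)`. -/
theorem cheap_smul (i_add : ∀ a b : M, i (a + b) = i a * i b)
    (conj : ∀ (g : G) (m : M), g * i m * g⁻¹ = i (g • m))
    (hφ : ∀ (g : G) (m : M), φ (g • m) = ρ g (φ m)) {n k : ℕ} {g : G} (hg : g ∈ ball S k)
    {v : V} (hv : v ∈ Cheap S i φ ρ n) : ρ g v ∈ Cheap S i φ ρ (n + 2 * k) := by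
  obtain ⟨a, s, H, rfl⟩ := D5_cheap_iff.1 hv
  refine D5_cheap_iff.2 ⟨g • a, ρ g s, ?_, ?_⟩
  · have h1 := D5_concat (D5_concat (D5_word (ρ := ρ) k g hg) H)
      (D5_word k g⁻¹ ((ballFam_ball S).inv hg))
    have h2 : k + n + k = n + 2 * k := by ring
    rw [h2, conj] at h1
    simpa using h1
  · rw [map_add, hφ]

/-- Images of short elements are cheap (path = the word, `u = 0`). -/
theorem cheap_of_ball {n : ℕ} {m : M} (hm : i m ∈ ball S n) : φ m ∈ Cheap S i φ ρ n := by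
  exact D5_cheap_iff.2 ⟨m, 0, D5_word n _ hm, by simp⟩

/-- Sums of `N` cheap vectors. -/
theorem cheap_sum (i_add : ∀ a b : M, i (a + b) = i a * i b) (hρ : ∀ m : M, ρ (i m) = 1) {n : ℕ}
    {ι : Type*} (s : Finset ι) (v : ι → V) (hv : ∀ k ∈ s, v k ∈ Cheap S i φ ρ n) :
    ∑ k ∈ s, v k ∈ Cheap S i φ ρ (s.card * n) := by
  classical
  have i0 : i 0 = 1 := by
    have := i_add 0 0
    rw [add_zero] at this
    exact left_eq_mul.1 this
  induction s using Finset.induction_on with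
  | empty => exact cheap_small i0 (by simp)
  | insert a t ha ih =>
    rw [Finset.sum_insert ha, Finset.card_insert_of_notMem ha]
    have h1 := cheap_add i_add hρ (hv a (Finset.mem_insert_self a t))
      (ih fun k hk => hv k (Finset.mem_insert_of_mem hk))
    have h2 : (t.card + 1) * n = n + t.card * n := by ring
    rw [h2]
    exact h1

/-- CONVEX HULLS OF TRANSLATES ARE CHEAP: every vector of the convex hull of
`{ρ g w : g ∈ ball S n, ‖w‖ ≤ n}` is cheap at scale `3 (dim V + 1) n`.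
Proof: Carathéodory (`convexHull_eq_union` or `eq_pos_convex_span_of_mem_convexHull`): a convex
combination of at most `dim V + 1` points `ρ g_k w_k` with coefficients `λ_k ∈ [0,1]`; each
`λ_k w_k` has norm `≤ n`, so `ρ g_k (λ_k w_k)` is cheap at scale `3 n`
(`cheap_small`, `cheap_smul`); `cheap_sum`, `cheap_mono`. -/
theorem cheap_of_hull [FiniteDimensional ℝ V] (i_add : ∀ a b : M, i (a + b) = i a * i b)
    (conj : ∀ (g : G) (m : M), g * i m * g⁻¹ = i (g • m))
    (hφ : ∀ (g : G) (m : M), φ (g • m) = ρ g (φ m)) (hρ : ∀ m : M, ρ (i m) = 1) {n : ℕ} {v : V}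
    (hv : v ∈ convexHull ℝ {w : V | ∃ g ∈ ball S n, ∃ u : V, ‖u‖ ≤ n ∧ w = ρ g u}) :
    v ∈ Cheap S i φ ρ (3 * (Module.finrank ℝ V + 1) * n) := by
  have i0 : i 0 = 1 := by
    have := i_add 0 0
    rw [add_zero] at this
    exact left_eq_mul.1 this
  obtain ⟨ι, hι, z, w, hz, haff, hw0, hw1, rfl⟩ := eq_pos_convex_span_of_mem_convexHull hv
  have hcard : Fintype.card ι ≤ Module.finrank ℝ V + 1 :=
    haff.card_le_finrank_succ.trans (Nat.succ_le_succ (Submodule.finrank_le _))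
  have hterm : ∀ k ∈ (Finset.univ : Finset ι), w k • z k ∈ Cheap S i φ ρ (n + 2 * n) := by
    intro k _
    obtain ⟨g, hg, u, hu, hzk⟩ := hz (Set.mem_range_self k)
    rw [hzk, ← map_smul]
    refine cheap_smul i_add conj hφ hg (cheap_small i0 ?_)
    have hwk : w k ≤ 1 := by
      rw [← hw1]
      exact Finset.single_le_sum (fun j _ => (hw0 j).le) (Finset.mem_univ k)
    rw [norm_smul, Real.norm_of_nonneg (hw0 k).le]
    calc w k * ‖u‖ ≤ 1 * ‖u‖ := mul_le_mul_of_nonneg_right hwk (norm_nonneg _)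
      _ ≤ n := by rw [one_mul]; exact hu
  have h1 := cheap_sum i_add hρ Finset.univ (fun k => w k • z k) hterm
  refine cheap_mono ?_ h1
  rw [Finset.card_univ]
  calc Fintype.card ι * (n + 2 * n) ≤ (Module.finrank ℝ V + 1) * (n + 2 * n) :=
        Nat.mul_le_mul_right _ hcard
    _ = 3 * (Module.finrank ℝ V + 1) * n := by ring

end

end Pool.MP4dac8d
end

section

/-! AND task U4: calculus of cheap families and box families. -/

set_option autoImplicit false
open Classical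
open scoped Pointwise

namespace Pool.MP4dac8d

section
variable {G M V : Type*} [Group G] [AddCommGroup M] [DistribMulAction G M]
  [NormedAddCommGroup V] [NormedSpace ℝ V] {d : ℕ} {D : Ext G M d} {S : Set G} {φ : M →+ V}
  {ρ : G →* (V →ₗ[ℝ] V)} {P R : V →ₗ[ℝ] V} {t : G}

private theorem U4_i0 (D : Ext G M d) : D.i 0 = 1 := by
  have h := D.i_add 0 0
  rw [add_zero] at h
  exact left_eq_mul.1 h

/-- Sum of cheap families. -/
theorem cf_add (hU : UData D S φ ρ P R t) {f g : ℕ → V} (hf : CF S D.i φ ρ f)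
    (hg : CF S D.i φ ρ g) : CF S D.i φ ρ (fun r => f r + g r) := by
  obtain ⟨C₁, h₁⟩ := hf
  obtain ⟨C₂, h₂⟩ := hg
  refine ⟨C₁ + C₂, fun r hr => ?_⟩
  rw [add_mul]
  exact cheap_add D.i_add hU.hρ (h₁ r hr) (h₂ r hr)

/-- Negative of a cheap family. -/
theorem cf_neg (hU : UData D S φ ρ P R t) {f : ℕ → V} (hf : CF S D.i φ ρ f) :
    CF S D.i φ ρ (fun r => -f r) := by
  obtain ⟨C₁, h₁⟩ := hf
  refine ⟨C₁ + 1, fun r hr => ?_⟩
  refine cheap_mono ?_ (cheap_neg D.i_add hU.hρ (h₁ r hr))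
  rw [add_mul, one_mul]
  omega

private theorem U4_zero : CF S D.i φ ρ (fun _ => 0) := by
  refine ⟨0, fun r _ => ?_⟩
  refine cheap_small (U4_i0 D) ?_
  rw [norm_zero]
  exact Nat.cast_nonneg _

/-- Finite sums of cheap families. -/
theorem cf_sum (hU : UData D S φ ρ P R t) {ι : Type*} (s : Finset ι) {f : ι → ℕ → V}
    (hf : ∀ k ∈ s, CF S D.i φ ρ (f k)) : CF S D.i φ ρ (fun r => ∑ k ∈ s, f k r) := by
  induction s using Finset.induction_on with
  | empty =>
    simp only [Finset.sum_empty]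
    exact U4_zero
  | insert a s ha ih =>
    simp only [Finset.sum_insert ha]
    exact cf_add hU (hf a (Finset.mem_insert_self _ _))
      (ih fun k hk => hf k (Finset.mem_insert_of_mem hk))

/-- Families of norm `O(r)` are cheap. -/
theorem cf_small {f : ℕ → V} {b : ℝ} (hf : ∀ r : ℕ, 0 < r → ‖f r‖ ≤ b * r) :
    CF S D.i φ ρ f := by
  refine ⟨⌈b⌉₊, fun r hr => cheap_small (U4_i0 D) ?_⟩
  refine (hf r hr).trans ?_
  push_cast
  exact mul_le_mul_of_nonneg_right (Nat.le_ceil b) (Nat.cast_nonneg _)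

/-- `(ρ(s^r) - 1) f(r)` is cheap if `f` is. -/
theorem cf_pow (hU : UData D S φ ρ P R t) {f : ℕ → V} (hf : CF S D.i φ ρ f) {s : G}
    (hs : s ∈ ball S 1) : CF S D.i φ ρ (fun r => (ρ (s ^ r) - 1) (f r)) := by
  have h1 : CF S D.i φ ρ (fun r => ρ (s ^ r) (f r)) := by
    obtain ⟨C₁, h₁⟩ := hf
    refine ⟨C₁ + 2, fun r hr => ?_⟩
    have hb : s ^ r ∈ ball S r := by
      have h := zpow_mem_ball hs (r : ℤ)
      simpa using h
    have h := cheap_smul D.i_add D.conj hU.hφ hb (h₁ r hr)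
    rwa [add_mul]
  have h2 := cf_add hU h1 (cf_neg hU hf)
  have e : (fun r => (ρ (s ^ r) - 1) (f r)) = fun r => ρ (s ^ r) (f r) + -f r := by
    funext r
    simp [sub_eq_add_neg]
  rw [e]
  exact h2

/-- Images of families of elements of length `O(r)` are cheap. -/
theorem cf_of_ball {m : ℕ → M} {b : ℕ} (hm : ∀ r : ℕ, 0 < r → D.i (m r) ∈ ball S (b * r)) :
    CF S D.i φ ρ (fun r => φ (m r)) :=
  ⟨b, fun r hr => cheap_of_ball (hm r hr)⟩

/-- Families in the bodies `bodyV (O(r))` are cheap (`cheap_of_hull`). -/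
theorem cf_of_bodyV [FiniteDimensional ℝ V] (hU : UData D S φ ρ P R t) {f : ℕ → V} {b : ℕ}
    (hf : ∀ r : ℕ, 0 < r → f r ∈ bodyV S ρ P (b * r)) : CF S D.i φ ρ f := by
  refine ⟨3 * (Module.finrank ℝ V + 1) * b, fun r hr => ?_⟩
  rw [mul_assoc]
  refine cheap_of_hull D.i_add D.conj hU.hφ hU.hρ ?_
  refine convexHull_mono ?_ (hf r hr)
  rintro w ⟨g, hg, u, hu, -, rfl⟩
  exact ⟨g, hg, u, hu, rfl⟩

/-- Sum of box families. -/
theorem bf_add {fl : ℕ → Submodule ℝ V} {c j : ℕ} {f g : ℕ → V} (hf : BF fl c j f)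
    (hg : BF fl c j g) : BF fl c j (fun r => f r + g r) := by
  obtain ⟨b₁, h₁⟩ := hf
  obtain ⟨b₂, h₂⟩ := hg
  refine ⟨b₁ + b₂, fun r hr => ?_⟩
  obtain ⟨w₁, hw₁, e₁⟩ := h₁ r hr
  obtain ⟨w₂, hw₂, e₂⟩ := h₂ r hr
  refine ⟨fun k => w₁ k + w₂ k, fun k => ⟨(fl k).add_mem (hw₁ k).1 (hw₂ k).1, ?_⟩, ?_⟩
  · exact (norm_add_le _ _).trans (add_le_add (hw₁ k).2 (hw₂ k).2)
  · change f r + g r = _
    rw [e₁, e₂, ← Finset.sum_add_distrib]
    refine Finset.sum_congr rfl fun k _ => ?_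
    rw [smul_add]

private theorem U4_bf_zero {fl : ℕ → Submodule ℝ V} {c j : ℕ} : BF fl c j (fun _ => 0) := by
  refine ⟨0, fun r _ => ⟨fun _ => 0, fun k => ⟨(fl k).zero_mem, by simp⟩, by simp⟩⟩

/-- Finite sums of box families. -/
theorem bf_sum {fl : ℕ → Submodule ℝ V} {c j : ℕ} {ι : Type*} (s : Finset ι) {f : ι → ℕ → V}
    (hf : ∀ k ∈ s, BF fl c j (f k)) : BF fl c j (fun r => ∑ k ∈ s, f k r) := by
  induction s using Finset.induction_on with
  | empty =>
    simp only [Finset.sum_empty]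
    exact U4_bf_zero
  | insert a s ha ih =>
    simp only [Finset.sum_insert ha]
    exact bf_add (hf a (Finset.mem_insert_self _ _))
      (ih fun k hk => hf k (Finset.mem_insert_of_mem hk))

private theorem U4_congr {fl : ℕ → Submodule ℝ V} {c j : ℕ} {f g : ℕ → V}
    (h : ∀ r : ℕ, 0 < r → f r = g r) (hg : BF fl c j g) : BF fl c j f := by
  obtain ⟨b, hb⟩ := hg
  exact ⟨b, fun r hr => by rw [h r hr]; exact hb r hr⟩

/-- A single term. -/
private theorem U4_single {fl : ℕ → Submodule ℝ V} {c j l : ℕ} (hl : j ≤ l)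
    (hc : ∀ k : ℕ, c ≤ k → fl k = ⊥) {u : ℕ → V} {b : ℝ}
    (hu : ∀ r : ℕ, 0 < r → u r ∈ fl l ∧ ‖u r‖ ≤ b) :
    BF fl c j (fun r => (r : ℝ) ^ (l + 1) • u r) := by
  refine ⟨max b 0, fun r hr => ?_⟩
  obtain ⟨h1, h2⟩ := hu r hr
  refine ⟨fun k => if k = l then u r else 0, fun k => ?_, ?_⟩
  · by_cases hk : k = l
    · subst hk
      simp only [if_true]
      exact ⟨h1, h2.trans (le_max_left _ _)⟩
    · simp only [hk, if_false]
      exact ⟨(fl k).zero_mem, by rw [norm_zero]; exact le_max_right _ _⟩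
  · by_cases hlc : l < c
    · rw [Finset.sum_eq_single l]
      · simp
      · intro k _ hk
        simp [hk]
      · intro hcon
        exact absurd (Finset.mem_Ico.2 ⟨hl, hlc⟩) hcon
    · have h0 : u r = 0 := by
        have := h1
        rw [hc l (by omega)] at this
        exact (Submodule.mem_bot ℝ).1 this
      simp only [h0, smul_zero]
      symm
      refine Finset.sum_eq_zero fun k _ => ?_
      split_ifs <;> simp

private theorem U4_pow_mem {X : Set G} {V0 : Submodule ℝ V} {Γ : Set V} {s : G} (hs : s ∈ X)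
    (i k : ℕ) {v : V} (hv : v ∈ flag ρ X V0 Γ k) :
    ((ρ s - 1) ^ i) v ∈ flag ρ X V0 Γ (k + i) := by
  induction i with
  | zero => simpa using hv
  | succ i ih =>
    rw [pow_succ', Module.End.mul_apply, ← add_assoc]
    exact flag_step hs ih

/-- Expansion of `ρ (s ^ r)` on the flag. -/
private theorem U4_expand {X : Set G} {V0 : Submodule ℝ V} {Γ : Set V} {c : ℕ}
    (hc : ∀ k : ℕ, c ≤ k → flag ρ X V0 Γ k = ⊥) {s : G} (hs : s ∈ X) (r k : ℕ) {v : V}
    (hv : v ∈ flag ρ X V0 Γ k) :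
    (ρ (s ^ r) - 1) v = ∑ i ∈ Finset.Ico 1 c, (r.choose i : ℝ) • ((ρ s - 1) ^ i) v := by
  have hzero : ∀ i, c ≤ i → ((ρ s - 1) ^ i) v = 0 := by
    intro i hi
    have h := U4_pow_mem hs i k hv
    rw [hc (k + i) (by omega)] at h
    exact (Submodule.mem_bot ℝ).1 h
  have h1 : ρ (s ^ r) v = ∑ i ∈ Finset.range (r + 1), (r.choose i : ℝ) • ((ρ s - 1) ^ i) v := by
    have e : ρ (s ^ r) = ((ρ s - 1) + 1) ^ r := by
      rw [sub_add_cancel, map_pow]
    rw [e, (Commute.one_right (ρ s - 1)).add_pow, LinearMap.sum_apply]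
    refine Finset.sum_congr rfl fun i _ => ?_
    rw [one_pow, mul_one, Module.End.mul_apply]
    have e2 : ((r.choose i : ℕ) : Module.End ℝ V) v = (r.choose i : ℝ) • v := by
      rw [← nsmul_one, LinearMap.smul_apply, Module.End.one_apply, Nat.cast_smul_eq_nsmul]
    rw [e2, map_smul]
  have h2 : ∑ i ∈ Finset.range (r + 1), (r.choose i : ℝ) • ((ρ s - 1) ^ i) v =
      ∑ i ∈ Finset.range (r + 1 + c), (r.choose i : ℝ) • ((ρ s - 1) ^ i) v := by
    refine Finset.sum_subset (Finset.range_mono (by omega)) fun i _ hi => ?_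
    rw [Finset.mem_range, not_lt] at hi
    rw [Nat.choose_eq_zero_of_lt (by omega)]
    simp
  have h3 : ∑ i ∈ Finset.range (r + 1 + c), (r.choose i : ℝ) • ((ρ s - 1) ^ i) v =
      v + ∑ i ∈ Finset.Ico 1 (r + 1 + c), (r.choose i : ℝ) • ((ρ s - 1) ^ i) v := by
    rw [Finset.range_eq_Ico, Finset.sum_eq_sum_Ico_succ_bot (by omega)]
    simp
  have h4 : ∑ i ∈ Finset.Ico 1 c, (r.choose i : ℝ) • ((ρ s - 1) ^ i) v =
      ∑ i ∈ Finset.Ico 1 (r + 1 + c), (r.choose i : ℝ) • ((ρ s - 1) ^ i) v := by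
    refine Finset.sum_subset (Finset.Ico_subset_Ico_right (by omega)) fun i hi hi' => ?_
    rw [Finset.mem_Ico] at hi hi'
    rw [hzero i (by omega), smul_zero]
  rw [LinearMap.sub_apply, Module.End.one_apply, h1, h2, h3, h4, add_sub_cancel_left]

/-- One term of the expansion. -/
private theorem U4_term {X : Set G} {V0 : Submodule ℝ V} {Γ : Set V} [FiniteDimensional ℝ V]
    {c j k : ℕ} (hc : ∀ k : ℕ, c ≤ k → flag ρ X V0 Γ k = ⊥) {s : G} (hs : s ∈ X) (i : ℕ)
    (hj : j ≤ k + i) {v : ℕ → V} {b : ℝ}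
    (hv : ∀ r : ℕ, 0 < r → v r ∈ flag ρ X V0 Γ k ∧ ‖v r‖ ≤ b) :
    BF (flag ρ X V0 Γ) c j (fun r => (r : ℝ) ^ (k + 1) • (r.choose i : ℝ) •
      ((ρ s - 1) ^ i) (v r)) := by
  have hK : ∃ K : ℝ, 0 ≤ K ∧ ∀ x : V, ‖((ρ s - 1) ^ i) x‖ ≤ K * ‖x‖ :=
    ⟨‖LinearMap.toContinuousLinearMap ((ρ s - 1) ^ i)‖, norm_nonneg _,
      fun x => (LinearMap.toContinuousLinearMap ((ρ s - 1) ^ i)).le_opNorm x⟩
  obtain ⟨K, hK0, hK⟩ := hK
  refine U4_congr (g := fun r => (r : ℝ) ^ (k + i + 1) • (((r.choose i : ℝ) / (r : ℝ) ^ i) •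
      ((ρ s - 1) ^ i) (v r))) ?_ (U4_single hj hc (b := K * b) ?_)
  · intro r hr
    have hr' : (r : ℝ) ≠ 0 := by exact_mod_cast hr.ne'
    rw [smul_smul, smul_smul]
    congr 1
    field_simp
    ring
  · intro r hr
    obtain ⟨h1, h2⟩ := hv r hr
    refine ⟨(flag ρ X V0 Γ (k + i)).smul_mem _ (U4_pow_mem hs i k h1), ?_⟩
    have hr' : (0 : ℝ) < (r : ℝ) ^ i := by
      have : (0 : ℝ) < r := by exact_mod_cast hr
      positivity
    have h3 : (r.choose i : ℝ) / (r : ℝ) ^ i ≤ 1 := by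
      rw [div_le_one hr']
      exact_mod_cast Nat.choose_le_pow r i
    have h4 : (0 : ℝ) ≤ (r.choose i : ℝ) / (r : ℝ) ^ i := by positivity
    rw [norm_smul, Real.norm_of_nonneg h4]
    calc (r.choose i : ℝ) / (r : ℝ) ^ i * ‖((ρ s - 1) ^ i) (v r)‖
        ≤ 1 * (K * ‖v r‖) := mul_le_mul h3 (hK _) (norm_nonneg _) zero_le_one
      _ ≤ K * b := by
          rw [one_mul]
          exact mul_le_mul_of_nonneg_left h2 hK0

/-- `(ρ(s^r) - 1)` raises the weight of a box family.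
Proof: `ρ(s^r) = ∑_i C(r,i) (ρ s - 1)^i`, `(ρ s - 1)^i w_k ∈ flag (k + i)`, and `r^(k+1) C(r,i) ≤ r^(k+i+1)`. -/
theorem bf_pow {X : Set G} {V0 : Submodule ℝ V} {Γ : Set V} [FiniteDimensional ℝ V] {c j : ℕ}
    (hc : ∀ k : ℕ, c ≤ k → flag ρ X V0 Γ k = ⊥) {f : ℕ → V}
    (hf : BF (flag ρ X V0 Γ) c j f) {s : G} (hs : s ∈ X) :
    BF (flag ρ X V0 Γ) c (j + 1) (fun r => (ρ (s ^ r) - 1) (f r)) := by
  obtain ⟨b, hb⟩ := hf
  choose! w hw hfw using hb
  refine U4_congr (g := fun r => ∑ k ∈ Finset.Ico j c, ∑ i ∈ Finset.Ico 1 c,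
    (r : ℝ) ^ (k + 1) • (r.choose i : ℝ) • ((ρ s - 1) ^ i) (w r k)) ?_ ?_
  · intro r hr
    rw [hfw r hr, map_sum]
    refine Finset.sum_congr rfl fun k _ => ?_
    rw [map_smul, U4_expand hc hs r k (hw r hr k).1, Finset.smul_sum]
  · refine bf_sum _ fun k hk => bf_sum _ fun i hi => ?_
    rw [Finset.mem_Ico] at hk hi
    exact U4_term hc hs i (by omega) (v := fun r => w r k) (b := b) fun r hr => hw r hr k

/-- LEADING TERM.  For bounded `v(r) ∈ flag j`:
`(ρ(s^r) - 1) (r^(j+1) v(r)) = r^(j+2) (ρ s - 1) v(r) + (box family of weight ≥ j + 3)`. -/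
theorem bf_leading {X : Set G} {V0 : Submodule ℝ V} {Γ : Set V} [FiniteDimensional ℝ V] {c j : ℕ}
    (hc : ∀ k : ℕ, c ≤ k → flag ρ X V0 Γ k = ⊥) {v : ℕ → V} {b : ℝ}
    (hv : ∀ r : ℕ, 0 < r → v r ∈ flag ρ X V0 Γ j ∧ ‖v r‖ ≤ b) {s : G} (hs : s ∈ X) :
    BF (flag ρ X V0 Γ) c (j + 2) (fun r => (ρ (s ^ r) - 1) ((r : ℝ) ^ (j + 1) • v r) -
      (r : ℝ) ^ (j + 2) • (ρ s - 1) (v r)) := by
  refine U4_congr (g := fun r => ∑ i ∈ Finset.Ico 2 c,
    (r : ℝ) ^ (j + 1) • (r.choose i : ℝ) • ((ρ s - 1) ^ i) (v r)) ?_ ?_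
  · intro r hr
    obtain ⟨h1, -⟩ := hv r hr
    rw [map_smul, U4_expand hc hs r j h1, Finset.smul_sum]
    by_cases h2 : 1 < c
    · rw [Finset.sum_eq_sum_Ico_succ_bot h2]
      have e : (r : ℝ) ^ (j + 1) • (r.choose 1 : ℝ) • (((ρ s - 1) ^ 1 : V →ₗ[ℝ] V) (v r)) =
          (r : ℝ) ^ (j + 2) • (ρ s - 1) (v r) := by
        rw [smul_smul, Nat.choose_one_right, pow_one, ← pow_succ]
      rw [e, add_sub_cancel_left]
    · have h3 : Finset.Ico 1 c = ∅ := Finset.Ico_eq_empty_of_le (by omega)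
      have h4 : Finset.Ico 2 c = ∅ := Finset.Ico_eq_empty_of_le (by omega)
      have h5 : (ρ s - 1) (v r) = 0 := by
        have h6 := flag_step hs h1
        rw [hc (j + 1) (by omega)] at h6
        exact (Submodule.mem_bot ℝ).1 h6
      rw [h3, h4, h5]
      simp
  · refine bf_sum _ fun i hi => ?_
    rw [Finset.mem_Ico] at hi
    exact U4_term hc hs i (by omega) hv

/-- UNIFORMITY.  If all box families are cheap, then there is a uniform constant.
Proof: for each `r > 0` the box is bounded, so contained in `Cheap (C r)` for some `C`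
(`cheap_small`); let `C(r)` be the least such `C` and choose `f r` in the box but not in
`Cheap ((C(r)-1) r)` (if `C(r) > 0`).  `f` is a box family, so `f r ∈ Cheap (C₀ r)` for all `r`, and
`C(r) ≤ C₀ + 1`. -/
theorem uniform_of_families (i0 : D.i 0 = 1) {fl : ℕ → Submodule ℝ V} {c : ℕ}
    (h : ∀ f : ℕ → V, BF fl c 0 f → CF S D.i φ ρ f) :
    ∃ C : ℕ, 0 < C ∧ ∀ r : ℕ, 0 < r → ∀ v ∈ box fl c r, v ∈ Cheap S D.i φ ρ (C * r) := by
  by_contra hcon
  push Not at hcon
  -- the boxes are bounded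
  have hbd : ∀ r : ℕ, ∃ N : ℕ, ∀ v ∈ box fl c r, ‖v‖ ≤ N := by
    intro r
    refine ⟨∑ k ∈ Finset.range c, r ^ (k + 1), ?_⟩
    rintro v ⟨w, hw, rfl⟩
    refine (norm_sum_le _ _).trans ?_
    push_cast
    refine Finset.sum_le_sum fun k _ => ?_
    rw [norm_smul, norm_pow, Real.norm_natCast]
    exact mul_le_of_le_one_right (by positivity) (hw k).2
  choose N hN using hbd
  set Q : ℕ → ℕ → Prop := fun r C => ∃ v ∈ box fl c r, v ∉ Cheap S D.i φ ρ (C * r) with hQ
  set Cs : ℕ → ℕ := fun r => Nat.findGreatest (Q r) (N r) with hCs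
  have hQN : ∀ r C, 0 < r → Q r C → C ≤ N r := by
    rintro r C hr ⟨v, hv, hvC⟩
    by_contra hlt
    apply hvC
    refine cheap_small i0 ((hN r v hv).trans ?_)
    have h1 : N r ≤ C * r := by nlinarith
    exact_mod_cast h1
  have hzero : ∀ r, (0 : V) ∈ box fl c r := fun r =>
    ⟨fun _ => 0, fun k => ⟨(fl k).zero_mem, by simp⟩, by simp⟩
  have hf : ∀ r, ∃ v ∈ box fl c r, Q r (Cs r) → v ∉ Cheap S D.i φ ρ (Cs r * r) := by
    intro r
    by_cases hq : Q r (Cs r)
    · obtain ⟨v, hv, hvC⟩ := hq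
      exact ⟨v, hv, fun _ => hvC⟩
    · exact ⟨0, hzero r, fun hq' => absurd hq' hq⟩
  choose f hf1 hf2 using hf
  have hBF : BF fl c 0 f := by
    refine ⟨1, fun r _ => ?_⟩
    obtain ⟨w, hw, e⟩ := hf1 r
    refine ⟨w, hw, ?_⟩
    rw [e, Finset.range_eq_Ico]
  obtain ⟨C₀, hC₀⟩ := h f hBF
  obtain ⟨r, hr, v, hv, hvC⟩ := hcon (C₀ + 1) (Nat.succ_pos _)
  have hq : Q r (C₀ + 1) := ⟨v, hv, hvC⟩
  have hle : C₀ + 1 ≤ Cs r := Nat.le_findGreatest (hQN r _ hr hq) hq
  have hq2 : Q r (Cs r) := Nat.findGreatest_spec (hQN r _ hr hq) hq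
  apply hf2 r hq2
  refine cheap_mono ?_ (hC₀ r hr)
  exact Nat.mul_le_mul_right r (by omega)

end

end Pool.MP4dac8d
end
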