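import Pool.Agent.Lib.MP_4dac8d_al.Mg.G004
import Pool.Agent.Lib.MP_4dac8d_al.Mg.G005
import Pool.Agent.Lib.MP_4dac8d_al.Mg.G001
import Pool.Agent.Lib.MP_4dac8d_al.Mg.G002
import Pool.Agent.Lib.MP_4dac8d_al.Mg.G003

section

/-! AND task U5: commutators of powers. -/

set_option autoImplicit false
open Classical
open scoped Pointwise

namespace Pool.MP4dac8d

section
variable {G M V : Type*} [Group G] [AddCommGroup M] [DistribMulAction G M]
  [NormedAddCommGroup V] [NormedSpace ℝ V] [FiniteDimensional ℝ V] {d : ℕ} {D : Ext G M d}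
  {S : Set G} {φ : M →+ V} {ρ : G →* (V →ₗ[ℝ] V)} {P R : V →ₗ[ℝ] V} {t : G}

/-- COMMUTATORS OF POWERS.  `i c = l s l⁻¹ s⁻¹`, `i m = l^a s^a l^(-a) s^(-a)`:
`m = ∑_{p,q<a} (l^p s^q) • c`.  (`[l l', s] = l • [l', s] + [l, s]`, `[l, s s'] = [l, s] + s • [l, s']`, the
action is commutative.) -/
theorem comm_pow (l s : G) (c m : M) (a : ℕ) (hcm : D.i c = l * s * l⁻¹ * s⁻¹)
    (hm : D.i m = l ^ a * s ^ a * (l ^ a)⁻¹ * (s ^ a)⁻¹) :
    m = ∑ p ∈ Finset.range a, ∑ q ∈ Finset.range a, (l ^ p * s ^ q) • c := by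
  have h1 : ∀ p : ℕ, D.i (∑ j ∈ Finset.range p, l ^ j • c) = l ^ p * s * (l ^ p)⁻¹ * s⁻¹ := by
    intro p
    induction p with
    | zero =>
      have h0 : D.i 0 = 1 := by
        have h2 := D.i_add 0 0
        rw [add_zero] at h2
        exact left_eq_mul.1 h2
      simp [h0]
    | succ p ih =>
      rw [Finset.sum_range_succ', D.i_add, pow_zero, one_smul, hcm]
      have h2 : ∑ k ∈ Finset.range p, l ^ (k + 1) • c = l • ∑ k ∈ Finset.range p, l ^ k • c := by
        rw [Finset.smul_sum]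
        refine Finset.sum_congr rfl fun k _ => ?_
        rw [pow_succ', mul_smul]
      rw [h2, ← D.conj, ih, pow_succ']
      group
  have h2 : ∀ q : ℕ, D.i (∑ k ∈ Finset.range q, s ^ k • ∑ j ∈ Finset.range a, l ^ j • c) =
      l ^ a * s ^ q * (l ^ a)⁻¹ * (s ^ q)⁻¹ := by
    intro q
    induction q with
    | zero =>
      have h0 : D.i 0 = 1 := by
        have h2 := D.i_add 0 0
        rw [add_zero] at h2
        exact left_eq_mul.1 h2
      simp [h0]
    | succ q ih =>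
      rw [Finset.sum_range_succ', add_comm, D.i_add, pow_zero, one_smul, h1 a]
      have h3 : ∑ k ∈ Finset.range q, s ^ (k + 1) • ∑ j ∈ Finset.range a, l ^ j • c =
          s • ∑ k ∈ Finset.range q, s ^ k • ∑ j ∈ Finset.range a, l ^ j • c := by
        rw [Finset.smul_sum]
        refine Finset.sum_congr rfl fun k _ => ?_
        rw [pow_succ', mul_smul]
      rw [h3, ← D.conj, ih]
      have h4 : (s ^ (q + 1))⁻¹ = (s ^ q)⁻¹ * s⁻¹ := by rw [pow_succ', mul_inv_rev]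
      rw [h4, pow_succ']
      group
  have h3 : m = ∑ k ∈ Finset.range a, s ^ k • ∑ j ∈ Finset.range a, l ^ j • c :=
    D.i_inj (by rw [hm, h2 a])
  rw [h3, Finset.sum_comm]
  refine Finset.sum_congr rfl fun k _ => ?_
  rw [Finset.smul_sum]
  refine Finset.sum_congr rfl fun j _ => ?_
  rw [D.smul_comm', mul_smul]

omit [FiniteDimensional ℝ V] in
private theorem U5_pow (N : V →ₗ[ℝ] V) (K : ℕ) (v : V) (hK : ∀ i, K ≤ i → (N ^ i) v = 0)
    (a : ℕ) : ((1 + N) ^ a) v = ∑ i ∈ Finset.range K, (a.choose i : ℝ) • (N ^ i) v := by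
  have h1 : ((1 + N) ^ a) v = ∑ i ∈ Finset.range (a + 1), (a.choose i : ℝ) • (N ^ i) v := by
    rw [add_comm, (Commute.one_right N).add_pow, LinearMap.sum_apply]
    refine Finset.sum_congr rfl fun i _ => ?_
    rw [one_pow, mul_one, (Nat.cast_commute _ _).symm.eq, ← nsmul_eq_mul, LinearMap.smul_apply,
      Nat.cast_smul_eq_nsmul]
  have h2 : ∑ i ∈ Finset.range (a + 1), (a.choose i : ℝ) • (N ^ i) v =
      ∑ i ∈ Finset.range (a + 1 + K), (a.choose i : ℝ) • (N ^ i) v := by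
    refine Finset.sum_subset (Finset.range_subset_range.2 (Nat.le_add_right _ _)) fun i _ hi => ?_
    rw [Finset.mem_range, not_lt] at hi
    rw [Nat.choose_eq_zero_of_lt (by omega), Nat.cast_zero, zero_smul]
  have h3 : ∑ i ∈ Finset.range K, (a.choose i : ℝ) • (N ^ i) v =
      ∑ i ∈ Finset.range (a + 1 + K), (a.choose i : ℝ) • (N ^ i) v := by
    refine Finset.sum_subset (Finset.range_subset_range.2 (Nat.le_add_left _ _)) fun i _ hi => ?_
    rw [Finset.mem_range, not_lt] at hi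
    rw [hK i hi, smul_zero]
  rw [h1, h2, h3]

private theorem U5_geom (N : V →ₗ[ℝ] V) (K : ℕ) (v : V) (hK : ∀ i, K ≤ i → (N ^ i) v = 0)
    (a : ℕ) : ∑ p ∈ Finset.range a, ((1 + N) ^ p) v =
      ∑ i ∈ Finset.range K, (a.choose (i + 1) : ℝ) • (N ^ i) v := by
  induction a with
  | zero => simp
  | succ a ih =>
    rw [Finset.sum_range_succ, ih, U5_pow N K v hK, ← Finset.sum_add_distrib]
    refine Finset.sum_congr rfl fun i _ => ?_
    rw [← add_smul, Nat.choose_succ_succ, Nat.cast_add, add_comm]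

omit [FiniteDimensional ℝ V] in
private theorem U5_single {fl : ℕ → Submodule ℝ V} {c k : ℕ} (hc : ∀ k : ℕ, c ≤ k → fl k = ⊥)
    (hk : 2 ≤ k) {v : V} (hv : v ∈ fl k) {a : ℕ → ℝ} {b : ℝ}
    (ha : ∀ r : ℕ, 0 < r → |a r| ≤ b * (r : ℝ) ^ (k + 1)) : BF fl c 2 (fun r => a r • v) := by
  by_cases hkc : c ≤ k
  · have hv0 : v = 0 := by
      rw [hc k hkc] at hv
      exact (Submodule.mem_bot ℝ).1 hv
    exact ⟨0, fun r _ => ⟨fun _ => 0, fun k => ⟨Submodule.zero_mem _, by simp⟩, by simp [hv0]⟩⟩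
  · push Not at hkc
    have hb : ∀ r : ℕ, 0 < r → |a r / (r : ℝ) ^ (k + 1)| ≤ |b| := by
      intro r hr
      have hr0 : (0 : ℝ) < (r : ℝ) ^ (k + 1) := by
        have : (0 : ℝ) < r := by exact_mod_cast hr
        positivity
      rw [abs_div, abs_of_pos hr0, div_le_iff₀ hr0]
      exact (ha r hr).trans (mul_le_mul_of_nonneg_right (le_abs_self b) hr0.le)
    refine ⟨|b| * ‖v‖, fun r hr => ⟨fun j => if j = k then (a r / (r : ℝ) ^ (k + 1)) • v else 0,
      fun j => ?_, ?_⟩⟩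
    · by_cases hj : j = k
      · subst hj
        simp only [if_true]
        refine ⟨Submodule.smul_mem _ _ hv, ?_⟩
        rw [norm_smul, Real.norm_eq_abs]
        exact mul_le_mul_of_nonneg_right (hb r hr) (norm_nonneg _)
      · simp only [if_neg hj]
        refine ⟨Submodule.zero_mem _, ?_⟩
        rw [norm_zero]
        positivity
    · have hr0 : (r : ℝ) ^ (k + 1) ≠ 0 := by
        have : (0 : ℝ) < r := by exact_mod_cast hr
        positivity
      rw [Finset.sum_eq_single k]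
      · simp only [if_true]
        rw [smul_smul, mul_div_cancel₀ _ hr0]
      · intro j _ hj
        simp only [if_neg hj, smul_zero]
      · intro hk'
        exact absurd (Finset.mem_Ico.2 ⟨hk, hkc⟩) hk'

omit [FiniteDimensional ℝ V] in
private theorem U5_neg {fl : ℕ → Submodule ℝ V} {c j : ℕ} {f : ℕ → V} (hf : BF fl c j f) :
    BF fl c j (fun r => -f r) := by
  obtain ⟨b, hb⟩ := hf
  refine ⟨b, fun r hr => ?_⟩
  obtain ⟨w, hw, hfw⟩ := hb r hr
  refine ⟨fun k => -w k, fun k => ⟨Submodule.neg_mem _ (hw k).1, by rw [norm_neg]; exact (hw k).2⟩,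
    ?_⟩
  show -f r = _
  rw [hfw, ← Finset.sum_neg_distrib]
  exact Finset.sum_congr rfl fun k _ => (smul_neg _ _).symm

private theorem U5_npow {g : G} {n : ℕ} (hg : g ∈ ball S n) (a : ℕ) : g ^ a ∈ ball S (a * n) := by
  have h := zpow_mem_ball hg (a : ℤ)
  rwa [zpow_natCast, Int.natAbs_natCast] at h

omit [FiniteDimensional ℝ V] in
private theorem U5_flag_pow {X : Set G} {V0 : Submodule ℝ V} {Γ : Set V} {s : G} (hs : s ∈ X)
    {j : ℕ} {v : V} (hv : v ∈ flag ρ X V0 Γ j) (i : ℕ) :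
    ((ρ s - 1) ^ i) v ∈ flag ρ X V0 Γ (j + i) := by
  induction i with
  | zero => simpa using hv
  | succ i ih =>
    rw [pow_succ', Module.End.mul_apply, ← add_assoc]
    exact flag_step hs ih

private theorem U5_nonneg (hU : UData D S φ ρ P R t) {c : ℕ}
    (hc : ∀ k : ℕ, c ≤ k → uflag D S φ ρ P k = ⊥) {γ : V} (hγ : γ ∈ comVec D S φ P) {β : ℕ → ℝ}
    {b : ℝ} (hβ0 : ∀ r : ℕ, 0 ≤ β r) (hβ : ∀ r : ℕ, β r ≤ b) :
    ∃ h : ℕ → V, CF S D.i φ ρ h ∧
      BF (uflag D S φ ρ P) c 2 (fun r => ((r : ℝ) ^ 2 * β r) • γ - h r) := by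
  have hγ1 : γ ∈ uflag D S φ ρ P 1 := by
    show γ ∈ (⨆ s ∈ ball S 1, (LinearMap.range P).map (ρ s - 1)) ⊔
      Submodule.span ℝ (comVec D S φ P)
    exact Submodule.mem_sup_right (Submodule.subset_span hγ)
  obtain ⟨c₀, l, s, hl, hs, hcm, hγe⟩ := hγ
  -- the integers
  set a : ℕ → ℕ := fun r => ⌊(r : ℝ) * Real.sqrt (β r)⌋₊ with ha
  obtain ⟨B, hB⟩ := exists_nat_ge (Real.sqrt b)
  set B' : ℕ := B + 1 with hB'
  have hsq : ∀ r : ℕ, Real.sqrt (β r) ≤ B' := by
    intro r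
    have h1 : Real.sqrt (β r) ≤ Real.sqrt b := Real.sqrt_le_sqrt (hβ r)
    rw [hB']
    push_cast
    linarith
  have haR : ∀ r : ℕ, (a r : ℝ) ≤ (r : ℝ) * Real.sqrt (β r) := fun r =>
    Nat.floor_le (mul_nonneg (Nat.cast_nonneg _) (Real.sqrt_nonneg _))
  have haB' : ∀ r : ℕ, (a r : ℝ) ≤ (B' : ℝ) * r := by
    intro r
    refine (haR r).trans ?_
    rw [mul_comm]
    exact mul_le_mul_of_nonneg_right (hsq r) (Nat.cast_nonneg _)
  have haB : ∀ r : ℕ, a r ≤ B' * r := fun r => by exact_mod_cast haB' r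
  -- the elements
  have hex : ∀ r : ℕ, ∃ m : M, D.i m = l ^ a r * s ^ a r * (l ^ a r)⁻¹ * (s ^ a r)⁻¹ := by
    intro r
    rw [← D.ker]
    simp only [map_mul, map_inv]
    rw [mul_comm (D.π (l ^ a r)) (D.π (s ^ a r)), mul_inv_cancel_right, mul_inv_cancel]
  choose m hm using hex
  have hball : ∀ r : ℕ, 0 < r → D.i (m r) ∈ ball S (4 * B' * r) := by
    intro r _
    rw [hm]
    have hF := ballFam_ball S
    have h1 := U5_npow hl (a r)
    have h2 := U5_npow hs (a r)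
    refine hF.mono ?_ (hF.mul (hF.mul (hF.mul h1 h2) (hF.inv h1)) (hF.inv h2))
    have := haB r
    nlinarith
  have hcf1 : CF S D.i φ ρ (fun r => φ (m r)) := cf_of_ball hball
  obtain ⟨C, hC, hCb⟩ := sub_P_mem_bodyV hU
  have hcf2 : CF S D.i φ ρ (fun r => φ (m r) - P (φ (m r))) := by
    refine cf_of_bodyV hU (b := C * (4 * B')) fun r hr => ?_
    have h1 := hCb (4 * B' * r) (by positivity) (m r) (hball r hr)
    rwa [← mul_assoc] at h1
  have hcf3 : CF S D.i φ ρ (fun r => P (φ (m r))) := by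
    have h1 := cf_add hU hcf1 (cf_neg hU hcf2)
    have h2 : (fun r => P (φ (m r))) = fun r => φ (m r) + -(φ (m r) - P (φ (m r))) := by
      funext r
      abel
    rw [h2]
    exact h1
  have hsmall : CF S D.i φ ρ (fun r => ((r : ℝ) ^ 2 * β r - (a r : ℝ) ^ 2) • γ) := by
    refine cf_small (b := (2 * B' + 1) * ‖γ‖) fun r hr => ?_
    have hr1 : (1 : ℝ) ≤ r := by exact_mod_cast hr
    have h0 : 0 ≤ (r : ℝ) * Real.sqrt (β r) := mul_nonneg (Nat.cast_nonneg _) (Real.sqrt_nonneg _)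
    have h1 : (r : ℝ) ^ 2 * β r = ((r : ℝ) * Real.sqrt (β r)) ^ 2 := by
      rw [mul_pow, Real.sq_sqrt (hβ0 r)]
    have h2 : (r : ℝ) * Real.sqrt (β r) < a r + 1 := Nat.lt_floor_add_one _
    have h3 := haR r
    have h4 : (r : ℝ) * Real.sqrt (β r) ≤ B' * r := by
      rw [mul_comm]
      exact mul_le_mul_of_nonneg_right (hsq r) (Nat.cast_nonneg _)
    have ha0 : (0 : ℝ) ≤ a r := Nat.cast_nonneg _
    rw [norm_smul, Real.norm_eq_abs, h1, abs_of_nonneg (by nlinarith)]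
    have h5 : ((r : ℝ) * Real.sqrt (β r)) ^ 2 - (a r : ℝ) ^ 2 ≤ (2 * B' + 1) * r := by
      nlinarith
    calc (((r : ℝ) * Real.sqrt (β r)) ^ 2 - (a r : ℝ) ^ 2) * ‖γ‖
        ≤ ((2 * B' + 1) * r) * ‖γ‖ := mul_le_mul_of_nonneg_right h5 (norm_nonneg _)
      _ = (2 * B' + 1) * ‖γ‖ * r := by ring
  refine ⟨fun r => P (φ (m r)) + ((r : ℝ) ^ 2 * β r - (a r : ℝ) ^ 2) • γ,
    cf_add hU hcf3 hsmall, ?_⟩
  -- expansion
  set N : V →ₗ[ℝ] V := ρ l - 1 with hN
  set N' : V →ₗ[ℝ] V := ρ s - 1 with hN'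
  have hmem : ∀ i' i : ℕ, (N ^ i) ((N' ^ i') γ) ∈ uflag D S φ ρ P (1 + i' + i) := fun i' i =>
    U5_flag_pow hl (U5_flag_pow hs hγ1 i') i
  have hzero : ∀ i' i : ℕ, c ≤ 1 + i' + i → (N ^ i) ((N' ^ i') γ) = 0 := by
    intro i' i hi
    have h1 := hmem i' i
    rw [hc _ hi] at h1
    exact (Submodule.mem_bot ℝ).1 h1
  have hexp : ∀ r : ℕ, P (φ (m r)) = ∑ i' ∈ Finset.range c, ∑ i ∈ Finset.range c,
      (((a r).choose (i' + 1) : ℝ) * ((a r).choose (i + 1) : ℝ)) • (N ^ i) ((N' ^ i') γ) := by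
    intro r
    have h1 := comm_pow l s c₀ (m r) (a r) hcm (hm r)
    have h2 : P (φ (m r)) = ∑ p ∈ Finset.range (a r), ((1 + N) ^ p)
        (∑ q ∈ Finset.range (a r), ((1 + N') ^ q) γ) := by
      rw [h1, map_sum, map_sum]
      refine Finset.sum_congr rfl fun p _ => ?_
      rw [map_sum, map_sum, map_sum]
      refine Finset.sum_congr rfl fun q _ => ?_
      rw [hU.hφ, hN, hN', add_sub_cancel, add_sub_cancel, ← map_pow, ← map_pow,
        ← Module.End.mul_apply, ← Module.End.mul_apply, ← map_mul, hU.Pρ, Module.End.mul_apply,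
        ← hγe]
    rw [h2, U5_geom N' c γ (fun i hi => by simpa using hzero i 0 (by omega))]
    rw [U5_geom N c _ (fun i hi => ?_)]
    · rw [Finset.sum_comm]
      refine Finset.sum_congr rfl fun i _ => ?_
      rw [map_sum, Finset.smul_sum]
      refine Finset.sum_congr rfl fun i' _ => ?_
      rw [map_smul, smul_smul, mul_comm]
    · rw [map_sum]
      refine Finset.sum_eq_zero fun i' _ => ?_
      rw [map_smul, hzero i' i (by omega), smul_zero]
  -- the difference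
  have hkey : (fun r : ℕ => ((r : ℝ) ^ 2 * β r) • γ -
      (P (φ (m r)) + ((r : ℝ) ^ 2 * β r - (a r : ℝ) ^ 2) • γ)) =
      fun r : ℕ => ∑ x ∈ (Finset.range c ×ˢ Finset.range c), -(if x = (0, 0) then (0 : V) else
        (((a r).choose (x.1 + 1) : ℝ) * ((a r).choose (x.2 + 1) : ℝ)) •
          (N ^ x.2) ((N' ^ x.1) γ)) := by
    funext r
    have hsplit : ∑ x ∈ (Finset.range c ×ˢ Finset.range c),
        (((a r).choose (x.1 + 1) : ℝ) * ((a r).choose (x.2 + 1) : ℝ)) •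
          (N ^ x.2) ((N' ^ x.1) γ) =
        ∑ x ∈ (Finset.range c ×ˢ Finset.range c), (if x = (0, 0) then (0 : V) else
        (((a r).choose (x.1 + 1) : ℝ) * ((a r).choose (x.2 + 1) : ℝ)) •
          (N ^ x.2) ((N' ^ x.1) γ)) + ((a r : ℝ) ^ 2) • γ := by
      rw [← sub_eq_iff_eq_add', ← Finset.sum_sub_distrib]
      have h1 : ∀ x : ℕ × ℕ, (((a r).choose (x.1 + 1) : ℝ) * ((a r).choose (x.2 + 1) : ℝ)) •
          (N ^ x.2) ((N' ^ x.1) γ) - (if x = (0, 0) then (0 : V) else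
          (((a r).choose (x.1 + 1) : ℝ) * ((a r).choose (x.2 + 1) : ℝ)) •
          (N ^ x.2) ((N' ^ x.1) γ)) = if x = (0, 0) then ((a r : ℝ) ^ 2) • γ else 0 := by
        intro x
        by_cases hx : x = (0, 0)
        · rw [if_pos hx, if_pos hx, hx, sub_zero]
          simp [sq]
        · rw [if_neg hx, if_neg hx, sub_self]
      rw [Finset.sum_congr rfl fun x _ => h1 x, Finset.sum_ite_eq']
      by_cases hc0 : c = 0
      · have h2 : γ = 0 := by
          have h3 := hγ1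
          rw [hc 1 (by omega)] at h3
          exact (Submodule.mem_bot ℝ).1 h3
        rw [h2, smul_zero, ite_self]
      · rw [if_pos]
        exact Finset.mem_product.2 ⟨Finset.mem_range.2 (Nat.pos_of_ne_zero hc0),
          Finset.mem_range.2 (Nat.pos_of_ne_zero hc0)⟩
    rw [Finset.sum_neg_distrib, hexp, ← Finset.sum_product', hsplit, sub_smul]
    abel
  rw [hkey]
  refine bf_sum _ fun x _ => U5_neg ?_
  by_cases hx : x = (0, 0)
  · simp only [if_pos hx]
    exact ⟨0, fun r _ => ⟨fun _ => 0, fun k => ⟨Submodule.zero_mem _, by simp⟩, by simp⟩⟩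
  · simp only [if_neg hx]
    have hx2 : 2 ≤ 1 + x.1 + x.2 := by
      rcases x with ⟨x1, x2⟩
      simp only [Prod.mk.injEq, not_and_or] at hx
      simp only
      omega
    refine U5_single hc hx2 (hmem x.1 x.2) (b := (B' : ℝ) ^ (1 + x.1 + x.2 + 1)) fun r _ => ?_
    have h1 : ∀ i : ℕ, ((a r).choose i : ℝ) ≤ (a r : ℝ) ^ i := fun i => by
      exact_mod_cast Nat.choose_le_pow (a r) i
    have h0 : (0 : ℝ) ≤ a r := Nat.cast_nonneg _
    rw [abs_of_nonneg (by positivity)]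
    calc ((a r).choose (x.1 + 1) : ℝ) * ((a r).choose (x.2 + 1) : ℝ)
        ≤ (a r : ℝ) ^ (x.1 + 1) * (a r : ℝ) ^ (x.2 + 1) :=
          mul_le_mul (h1 _) (h1 _) (Nat.cast_nonneg _) (by positivity)
      _ = (a r : ℝ) ^ (1 + x.1 + x.2 + 1) := by
          rw [← pow_add]
          congr 1
          omega
      _ ≤ ((B' : ℝ) * r) ^ (1 + x.1 + x.2 + 1) := pow_le_pow_left₀ h0 (haB' r) _
      _ = _ := by rw [mul_pow]

/-- THE COMMUTATOR FAMILY.  For `γ = P (φ c) ∈ comVec` and a bounded function `β` there is a cheap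
family `h` with `r² β(r) γ - h(r)` a box family of weight at least `3`.
Proof.  `c, l, s` from the definition of `comVec`, `a(r) = ⌊r √|β(r)|⌋ ≤ b r`, `m_r ∈ M` with
`i(m_r) = [l^a, s^a]` (exists by `D.ker`), length `≤ 4 a`, so `φ(m_r)` is a cheap family
(`cf_of_ball`), and so is `φ(m_r) - P φ(m_r)` (`sub_P_mem_bodyV`, `cf_of_bodyV`), hence `P φ(m_r)`.
By `comm_pow` `P φ(m_r) = ∑_{p,q<a} ρ(l^p s^q) γ = ∑_{i,i'} C(a,i+1) C(a,i'+1) (ρ l - 1)^i (ρ s - 1)^{i'} γ`
`= a² γ + ` terms in `uflag (1 + i + i')`, `i + i' ≥ 1`, with coefficients `≤ a^{i+i'+2} ≤ (b r)^{i+i'+2}`.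
And `|r² |β| - a²| ≤ 2 r √|β| + 1`, so `(r² β - sign(β) a²) γ` is `O(r)`, cheap (`cf_small`).
`h = sign(β) P φ(m_r) + (r² β - sign(β) a²) γ` (split in the cases `β(r) ≥ 0` and `< 0`: the family
may switch sign; use that pointwise `h r` is cheap with a uniform constant in both cases). -/
theorem comm_family (hU : UData D S φ ρ P R t) {c : ℕ}
    (hc : ∀ k : ℕ, c ≤ k → uflag D S φ ρ P k = ⊥) {γ : V} (hγ : γ ∈ comVec D S φ P) {β : ℕ → ℝ}
    {b : ℝ} (hβ : ∀ r : ℕ, |β r| ≤ b) :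
    ∃ h : ℕ → V, CF S D.i φ ρ h ∧
      BF (uflag D S φ ρ P) c 2 (fun r => ((r : ℝ) ^ 2 * β r) • γ - h r) := by
  obtain ⟨h1, hcf1, hbf1⟩ := U5_nonneg hU hc hγ (β := fun r => max (β r) 0) (b := |b|)
    (fun r => le_max_right _ _) (fun r => max_le (((le_abs_self _).trans (hβ r)).trans
      (le_abs_self b)) (abs_nonneg b))
  obtain ⟨h2, hcf2, hbf2⟩ := U5_nonneg hU hc hγ (β := fun r => max (-β r) 0) (b := |b|)
    (fun r => le_max_right _ _) (fun r => max_le (((neg_le_abs _).trans (hβ r)).trans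
      (le_abs_self b)) (abs_nonneg b))
  refine ⟨fun r => h1 r + -h2 r, cf_add hU hcf1 (cf_neg hU hcf2), ?_⟩
  have h3 := bf_add hbf1 (U5_neg hbf2)
  have h4 : (fun r : ℕ => ((r : ℝ) ^ 2 * β r) • γ - (h1 r + -h2 r)) = fun r : ℕ =>
      (((r : ℝ) ^ 2 * max (β r) 0) • γ - h1 r) + -(((r : ℝ) ^ 2 * max (-β r) 0) • γ - h2 r) := by
    funext r
    have h5 : β r = max (β r) 0 - max (-β r) 0 := by
      rcases le_total 0 (β r) with h | h
      · rw [max_eq_left h, max_eq_right (by linarith), sub_zero]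
      · rw [max_eq_right h, max_eq_left (by linarith), zero_sub, neg_neg]
    have h6 : ((r : ℝ) ^ 2 * β r) • γ = ((r : ℝ) ^ 2 * max (β r) 0) • γ -
        ((r : ℝ) ^ 2 * max (-β r) 0) • γ := by
      rw [← sub_smul, ← mul_sub, ← h5]
    rw [h6]
    abel
  rw [h4]
  exact h3

end

end Pool.MP4dac8d
end

section

/-! AND task U6: boxes are cheap. -/

set_option autoImplicit false
set_option linter.unusedSectionVars false
open Classical
open scoped Pointwise

namespace Pool.MP4dac8d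

section
variable {G M V : Type*} [Group G] [AddCommGroup M] [DistribMulAction G M]
  [NormedAddCommGroup V] [NormedSpace ℝ V] [FiniteDimensional ℝ V] {d : ℕ} {D : Ext G M d}
  {S : Set G} {φ : M →+ V} {ρ : G →* (V →ₗ[ℝ] V)} {P R : V →ₗ[ℝ] V} {t : G}

private theorem U6_bf_neg {fl : ℕ → Submodule ℝ V} {c j : ℕ} {f : ℕ → V} (hf : BF fl c j f) :
    BF fl c j (fun r => -f r) := by
  obtain ⟨b, hb⟩ := hf
  refine ⟨b, fun r hr => ?_⟩
  obtain ⟨w, hw, hfw⟩ := hb r hr
  refine ⟨fun k => -w k, fun k => ⟨(fl k).neg_mem (hw k).1, by rw [norm_neg]; exact (hw k).2⟩, ?_⟩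
  change -f r = _
  rw [hfw, ← Finset.sum_neg_distrib]
  exact Finset.sum_congr rfl fun k _ => (smul_neg _ _).symm

private theorem U6_bf_sub {fl : ℕ → Submodule ℝ V} {c j : ℕ} {f g : ℕ → V} (hf : BF fl c j f)
    (hg : BF fl c j g) : BF fl c j (fun r => f r - g r) := by
  have h := bf_add hf (U6_bf_neg hg)
  simpa only [← sub_eq_add_neg] using h

private theorem U6_bf_congr {fl : ℕ → Submodule ℝ V} {c j : ℕ} {f g : ℕ → V} (hf : BF fl c j f)
    (h : ∀ r : ℕ, 0 < r → g r = f r) : BF fl c j g := by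
  obtain ⟨b, hb⟩ := hf
  refine ⟨b, fun r hr => ?_⟩
  obtain ⟨w, hw, hfw⟩ := hb r hr
  exact ⟨w, hw, (h r hr).trans hfw⟩

private theorem U6_cf_congr {f g : ℕ → V} (hf : CF S D.i φ ρ f) (h : ∀ r : ℕ, 0 < r → g r = f r) :
    CF S D.i φ ρ g := by
  obtain ⟨C, hC⟩ := hf
  refine ⟨C, fun r hr => ?_⟩
  rw [h r hr]
  exact hC r hr

private theorem U6_bf_zero {fl : ℕ → Submodule ℝ V} {c j : ℕ} : BF fl c j (fun _ => (0 : V)) := by
  refine ⟨0, fun r _ => ⟨fun _ => 0, fun k => ⟨(fl k).zero_mem, by simp⟩, ?_⟩⟩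
  simp

private theorem U6_i0 (D : Ext G M d) : D.i 0 = 1 := by
  have h := D.i_add 0 0
  rw [add_zero] at h
  exact left_eq_mul.1 h

private theorem U6_comfin (D : Ext G M d) (hS : S.Finite) (φ : M →+ V) (P : V →ₗ[ℝ] V) :
    (comVec D S φ P).Finite := by
  have hX : (ball S 1).Finite := ball_finite hS 1
  refine ((hX.prod hX).image (fun e : G × G =>
    if h : ∃ c, D.i c = e.1 * e.2 * e.1⁻¹ * e.2⁻¹ then P (φ h.choose) else 0)).subset ?_
  rintro v ⟨c, l, s, hl, hs, hc, rfl⟩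
  refine ⟨(l, s), ⟨hl, hs⟩, ?_⟩
  have h : ∃ c, D.i c = l * s * l⁻¹ * s⁻¹ := ⟨c, hc⟩
  have h1 : h.choose = c := D.i_inj (h.choose_spec.trans hc.symm)
  simp only
  rw [dif_pos h, h1]

private theorem U6_lead (hU : UData D S φ ρ P R t) {c : ℕ}
    (hc : ∀ k : ℕ, c ≤ k → uflag D S φ ρ P k = ⊥) (j : ℕ) : ∀ (w : ℕ → V) (b : ℝ),
    (∀ r : ℕ, w r ∈ uflag D S φ ρ P j ∧ ‖w r‖ ≤ b) →
    ∃ h : ℕ → V, CF S D.i φ ρ h ∧
      BF (uflag D S φ ρ P) c (j + 1) (fun r => (r : ℝ) ^ (j + 1) • w r - h r) := by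
  have hX : (ball S 1).Finite := ball_finite hU.Sfin 1
  have hΓ : (comVec D S φ P).Finite := U6_comfin D hU.Sfin φ P
  have hsmall : ∀ (v : ℕ → V) (b : ℝ), (∀ r : ℕ, ‖v r‖ ≤ b) →
      CF S D.i φ ρ (fun r => (r : ℝ) ^ (0 + 1) • v r) := by
    intro v b hv
    refine cf_small (b := b) fun r _ => ?_
    rw [norm_smul, norm_pow, Real.norm_natCast, zero_add, pow_one, mul_comm]
    exact mul_le_mul_of_nonneg_right (hv r) (Nat.cast_nonneg r)
  induction j with
  | zero =>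
    intro w b hw
    refine ⟨fun r => (r : ℝ) ^ (0 + 1) • w r, hsmall w b fun r => (hw r).2, ?_⟩
    exact U6_bf_congr U6_bf_zero fun r _ => sub_self _
  | succ j ih =>
    intro w b hw
    cases j with
    | zero =>
      obtain ⟨C, hC0, hC⟩ := flag_lift_one (ρ := ρ) (V0 := LinearMap.range P) hX hΓ
      have hC' : ∀ r : ℕ, ∃ (v : G → V) (β : V → ℝ),
          (∀ s, v s ∈ LinearMap.range P ∧ ‖v s‖ ≤ C * ‖w r‖) ∧ (∀ γ, |β γ| ≤ C * ‖w r‖) ∧
          w r = ∑ s ∈ hX.toFinset, (ρ s - 1) (v s) + ∑ γ ∈ hΓ.toFinset, β γ • γ :=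
        fun r => hC (w r) (hw r).1
      choose v β hv hβ hwr using hC'
      have hvb : ∀ s r, ‖v r s‖ ≤ C * b := fun s r =>
        ((hv r s).2).trans (mul_le_mul_of_nonneg_left (hw r).2 hC0)
      have hβb : ∀ γ r, |β r γ| ≤ C * b := fun γ r =>
        (hβ r γ).trans (mul_le_mul_of_nonneg_left (hw r).2 hC0)
      have hG : ∀ γ : V, ∃ h : ℕ → V, γ ∈ hΓ.toFinset → (CF S D.i φ ρ h ∧
          BF (uflag D S φ ρ P) c 2 (fun r => ((r : ℝ) ^ 2 * β r γ) • γ - h r)) := by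
        intro γ
        by_cases hγ : γ ∈ hΓ.toFinset
        · obtain ⟨h, h1, h2⟩ := comm_family hU hc (hΓ.mem_toFinset.1 hγ) (β := fun r => β r γ)
            (hβb γ)
          exact ⟨h, fun _ => ⟨h1, h2⟩⟩
        · exact ⟨fun _ => 0, fun h => absurd h hγ⟩
      choose hγf hγp using hG
      refine ⟨fun r => ∑ s ∈ hX.toFinset, (ρ (s ^ r) - 1) ((r : ℝ) ^ (0 + 1) • v r s) +
        ∑ γ ∈ hΓ.toFinset, hγf γ r, ?_, ?_⟩
      · refine cf_add hU (cf_sum hU _ fun s hs => ?_) (cf_sum hU _ fun γ hγ => (hγp γ hγ).1)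
        exact cf_pow hU (hsmall (fun r => v r s) (C * b) (hvb s)) (hX.mem_toFinset.1 hs)
      · have b1 : BF (uflag D S φ ρ P) c 2 (fun r => ∑ s ∈ hX.toFinset,
            -((ρ (s ^ r) - 1) ((r : ℝ) ^ (0 + 1) • v r s) -
              (r : ℝ) ^ (0 + 2) • (ρ s - 1) (v r s))) := by
          refine bf_sum _ fun s hs => U6_bf_neg ?_
          exact bf_leading hc (j := 0) (v := fun r => v r s) (b := C * b)
            (fun r _ => ⟨(hv r s).1, hvb s r⟩) (hX.mem_toFinset.1 hs)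
        have b2 : BF (uflag D S φ ρ P) c 2 (fun r => ∑ γ ∈ hΓ.toFinset,
            (((r : ℝ) ^ 2 * β r γ) • γ - hγf γ r)) := bf_sum _ fun γ hγ => (hγp γ hγ).2
        refine U6_bf_congr (bf_add b1 b2) fun r _ => ?_
        rw [hwr r, smul_add, Finset.smul_sum, Finset.smul_sum, Finset.sum_sub_distrib,
          Finset.sum_neg_distrib, Finset.sum_sub_distrib]
        simp only [mul_smul, zero_add]
        abel
    | succ j =>
      obtain ⟨C, hC0, hC⟩ := flag_lift (ρ := ρ) (V0 := LinearMap.range P) (Γ := comVec D S φ P) hX j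
      have hC' : ∀ r : ℕ, ∃ v : G → V, (∀ s, v s ∈ uflag D S φ ρ P (j + 1) ∧
          ‖v s‖ ≤ C * ‖w r‖) ∧ w r = ∑ s ∈ hX.toFinset, (ρ s - 1) (v s) :=
        fun r => hC (w r) (hw r).1
      choose v hv hwr using hC'
      have hvb : ∀ s r, ‖v r s‖ ≤ C * b := fun s r =>
        ((hv r s).2).trans (mul_le_mul_of_nonneg_left (hw r).2 hC0)
      have hI : ∀ s : G, ∃ h : ℕ → V, CF S D.i φ ρ h ∧
          BF (uflag D S φ ρ P) c (j + 1 + 1) (fun r => (r : ℝ) ^ (j + 1 + 1) • v r s - h r) :=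
        fun s => ih (fun r => v r s) (C * b) fun r => ⟨(hv r s).1, hvb s r⟩
      choose hs hsC hsB using hI
      refine ⟨fun r => ∑ s ∈ hX.toFinset, (ρ (s ^ r) - 1) (hs s r), ?_, ?_⟩
      · exact cf_sum hU _ fun s hs' => cf_pow hU (hsC s) (hX.mem_toFinset.1 hs')
      · have b1 : BF (uflag D S φ ρ P) c (j + 1 + 2) (fun r => ∑ s ∈ hX.toFinset,
            ((ρ (s ^ r) - 1) ((r : ℝ) ^ (j + 1 + 1) • v r s - hs s r) -
            ((ρ (s ^ r) - 1) ((r : ℝ) ^ (j + 1 + 1) • v r s) -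
              (r : ℝ) ^ (j + 1 + 2) • (ρ s - 1) (v r s)))) := by
          refine bf_sum _ fun s hs' => U6_bf_sub ?_ ?_
          · exact bf_pow hc (hsB s) (hX.mem_toFinset.1 hs')
          · exact bf_leading hc (j := j + 1) (v := fun r => v r s) (b := C * b)
              (fun r _ => ⟨(hv r s).1, hvb s r⟩) (hX.mem_toFinset.1 hs')
        refine U6_bf_congr b1 fun r _ => ?_
        rw [hwr r, Finset.smul_sum, ← Finset.sum_sub_distrib]
        refine Finset.sum_congr rfl fun s _ => ?_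
        rw [map_sub]
        abel

/-- LEADING TERMS ARE CHEAP.  For a bounded family `w(r) ∈ uflag j` there is a cheap family `h` with
`r^(j+1) w(r) - h(r)` a box family of weight `≥ j + 2`.
Proof by induction on `j`.  `j = 0`: `h = r w(r)` (`cf_small`).
`j = 1`: `flag_lift_one`: `w = ∑_s (ρ s - 1) v_s + ∑_γ β_γ γ` with bounded `v_s(r) ∈ range P`, `β_γ(r)`.  For the
first sum `h_s = (ρ(s^r) - 1)(r v_s)` (`cf_small`, `cf_pow`, `bf_leading` with `j = 0`), for the second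
`comm_family`.
`j + 2` from `j + 1`: `flag_lift`: `w = ∑_s (ρ s - 1) v_s`, `v_s(r) ∈ uflag (j+1)` bounded; by induction
`r^(j+2) v_s = h_s + e_s`, `h_s` cheap, `e_s` a box family of weight index `j + 2`; then
`r^(j+3) (ρ s - 1) v_s = (ρ(s^r) - 1)(r^(j+2) v_s) - (box family, index j+3)` (`bf_leading`)
`= (ρ(s^r) - 1) h_s + (ρ(s^r) - 1) e_s - …` with `cf_pow`, `bf_pow`. -/
theorem leading_cheap (hU : UData D S φ ρ P R t) {c : ℕ}
    (hc : ∀ k : ℕ, c ≤ k → uflag D S φ ρ P k = ⊥) (j : ℕ) {w : ℕ → V} {b : ℝ}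
    (hw : ∀ r : ℕ, 0 < r → w r ∈ uflag D S φ ρ P j ∧ ‖w r‖ ≤ b) :
    ∃ h : ℕ → V, CF S D.i φ ρ h ∧
      BF (uflag D S φ ρ P) c (j + 1) (fun r => (r : ℝ) ^ (j + 1) • w r - h r) := by
  have hb0 : 0 ≤ b := (norm_nonneg _).trans (hw 1 one_pos).2
  obtain ⟨h, h1, h2⟩ := U6_lead hU hc j (fun r => if 0 < r then w r else 0) b (fun r => by
    by_cases hr : 0 < r
    · simp only [if_pos hr]
      exact hw r hr
    · simp only [if_neg hr]
      exact ⟨Submodule.zero_mem _, by rwa [norm_zero]⟩)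
  refine ⟨h, h1, U6_bf_congr h2 fun r hr => ?_⟩
  simp only [if_pos hr]

/-- BOX FAMILIES ARE CHEAP.  Downward induction on `j` (for `j ≥ c` the family is `0`): split off the
term `k = j` and apply `leading_cheap`. -/
theorem cf_of_bf (hU : UData D S φ ρ P R t) {c : ℕ}
    (hc : ∀ k : ℕ, c ≤ k → uflag D S φ ρ P k = ⊥) (j : ℕ) {f : ℕ → V}
    (hf : BF (uflag D S φ ρ P) c j f) : CF S D.i φ ρ f := by
  obtain ⟨m, hm⟩ : ∃ m : ℕ, c ≤ j + m := ⟨c, by omega⟩
  induction m generalizing j f with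
  | zero =>
    obtain ⟨b, hb⟩ := hf
    refine cf_small (b := 0) fun r hr => ?_
    obtain ⟨w, hw, hfw⟩ := hb r hr
    rw [hfw, Finset.Ico_eq_empty (by omega), Finset.sum_empty, norm_zero, zero_mul]
  | succ m ih =>
    by_cases hjc : c ≤ j
    · exact ih j hf (by omega)
    obtain ⟨b, hb⟩ := hf
    have hb' : ∀ r : ℕ, ∃ w : ℕ → V, 0 < r → ((∀ k, w k ∈ uflag D S φ ρ P k ∧ ‖w k‖ ≤ b) ∧
        f r = ∑ k ∈ Finset.Ico j c, (r : ℝ) ^ (k + 1) • w k) := by
      intro r
      by_cases hr : 0 < r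
      · obtain ⟨w, hw⟩ := hb r hr
        exact ⟨w, fun _ => hw⟩
      · exact ⟨fun _ => 0, fun h => absurd h hr⟩
    choose w hw using hb'
    obtain ⟨h, h1, h2⟩ := leading_cheap hU hc j (w := fun r => w r j) (b := b)
      (fun r hr => (hw r hr).1 j)
    have h3 : BF (uflag D S φ ρ P) c (j + 1) (fun r => ∑ k ∈ Finset.Ico (j + 1) c,
        (r : ℝ) ^ (k + 1) • w r k) :=
      ⟨b, fun r hr => ⟨w r, (hw r hr).1, rfl⟩⟩
    have h4 := ih (j + 1) (bf_add h2 h3) (by omega)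
    refine U6_cf_congr (cf_add hU h1 h4) fun r hr => ?_
    rw [(hw r hr).2, Finset.sum_eq_sum_Ico_succ_bot (by omega)]
    abel

/-- BOXES ARE CHEAP (`uniform_of_families`). -/
theorem box_cheap (hU : UData D S φ ρ P R t) {c : ℕ}
    (hc : ∀ k : ℕ, c ≤ k → uflag D S φ ρ P k = ⊥) :
    ∃ C : ℕ, 0 < C ∧ ∀ r : ℕ, 0 < r → ∀ v ∈ box (uflag D S φ ρ P) c r,
      v ∈ Cheap S D.i φ ρ (C * r) := by
  exact uniform_of_families (U6_i0 D) fun f hf => cf_of_bf hU hc 0 hf

end

end Pool.MP4dac8d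
end

section

/-! AND task U7: finite AN-dimension of the extension. -/

set_option autoImplicit false
open Classical
open scoped Pointwise

namespace Pool.MP4dac8d

/-! ### Auxiliary lemmas -/

private theorem box_zero_mem {V : Type*} [NormedAddCommGroup V] [NormedSpace ℝ V]
    (fl : ℕ → Submodule ℝ V) (c r : ℕ) : (0 : V) ∈ box fl c r := by
  refine ⟨fun _ => 0, fun k => ⟨(fl k).zero_mem, by simp⟩, by simp⟩

private theorem box_neg_mem {V : Type*} [NormedAddCommGroup V] [NormedSpace ℝ V]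
    {fl : ℕ → Submodule ℝ V} {c r : ℕ} {v : V} (hv : v ∈ box fl c r) : -v ∈ box fl c r := by
  obtain ⟨w, hw, rfl⟩ := hv
  refine ⟨fun k => -w k, fun k => ⟨(fl k).neg_mem (hw k).1, by rw [norm_neg]; exact (hw k).2⟩, ?_⟩
  rw [← Finset.sum_neg_distrib]
  exact Finset.sum_congr rfl fun k _ => (smul_neg _ _).symm

private theorem box_convex {V : Type*} [NormedAddCommGroup V] [NormedSpace ℝ V]
    (fl : ℕ → Submodule ℝ V) (c r : ℕ) : Convex ℝ (box fl c r) := by
  rintro v ⟨w, hw, rfl⟩ v' ⟨w', hw', rfl⟩ a b ha hb hab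
  refine ⟨fun k => a • w k + b • w' k, fun k => ⟨?_, ?_⟩, ?_⟩
  · exact (fl k).add_mem ((fl k).smul_mem _ (hw k).1) ((fl k).smul_mem _ (hw' k).1)
  · calc ‖a • w k + b • w' k‖ ≤ ‖a • w k‖ + ‖b • w' k‖ := norm_add_le _ _
      _ = a * ‖w k‖ + b * ‖w' k‖ := by
        rw [norm_smul, norm_smul, Real.norm_of_nonneg ha, Real.norm_of_nonneg hb]
      _ ≤ a * 1 + b * 1 := by
        gcongr
        · exact (hw k).2
        · exact (hw' k).2
      _ = 1 := by rw [mul_one, mul_one, hab]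
  · rw [Finset.smul_sum, Finset.smul_sum, ← Finset.sum_add_distrib]
    refine Finset.sum_congr rfl fun k _ => ?_
    rw [smul_add, smul_comm a, smul_comm b]

private theorem box_bounded {V : Type*} [NormedAddCommGroup V] [NormedSpace ℝ V]
    (fl : ℕ → Submodule ℝ V) (c r : ℕ) : Bornology.IsBounded (box fl c r) := by
  rw [isBounded_iff_forall_norm_le]
  refine ⟨∑ k ∈ Finset.range c, (r : ℝ) ^ (k + 1), ?_⟩
  rintro v ⟨w, hw, rfl⟩
  refine (norm_sum_le _ _).trans (Finset.sum_le_sum fun k _ => ?_)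
  rw [norm_smul, Real.norm_of_nonneg (by positivity)]
  calc (r : ℝ) ^ (k + 1) * ‖w k‖ ≤ (r : ℝ) ^ (k + 1) * 1 := by
        gcongr
        exact (hw k).2
    _ = (r : ℝ) ^ (k + 1) := mul_one _

private theorem box_scale {V : Type*} [NormedAddCommGroup V] [NormedSpace ℝ V]
    {fl : ℕ → Submodule ℝ V} {c r l : ℕ} (hl : 0 < l) {v : V} (hv : v ∈ box fl c r) :
    (l : ℝ) • v ∈ box fl c (l * r) := by
  obtain ⟨w, hw, rfl⟩ := hv
  have hl1 : (1 : ℝ) ≤ l := by exact_mod_cast hl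
  have hl0 : (l : ℝ) ≠ 0 := by positivity
  refine ⟨fun k => ((l : ℝ) ^ k)⁻¹ • w k, fun k => ⟨(fl k).smul_mem _ (hw k).1, ?_⟩, ?_⟩
  · rw [norm_smul, Real.norm_of_nonneg (by positivity)]
    have h1 : ((l : ℝ) ^ k)⁻¹ ≤ 1 := inv_le_one_of_one_le₀ (one_le_pow₀ hl1)
    calc ((l : ℝ) ^ k)⁻¹ * ‖w k‖ ≤ 1 * 1 := by
          gcongr
          exact (hw k).2
      _ = 1 := one_mul 1
  · rw [Finset.smul_sum]
    refine Finset.sum_congr rfl fun k _ => ?_
    rw [smul_smul, smul_smul]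
    congr 1
    push_cast
    field_simp
    ring

private theorem box_mono {V : Type*} [NormedAddCommGroup V] [NormedSpace ℝ V]
    {fl : ℕ → Submodule ℝ V} {c r r' : ℕ} (h : r ≤ r') : box fl c r ⊆ box fl c r' := by
  rcases Nat.eq_zero_or_pos r' with h0 | h0
  · have : r = r' := by omega
    rw [this]
  · rintro v ⟨w, hw, rfl⟩
    have h1 : (0 : ℝ) < r' := by exact_mod_cast h0
    have h2 : (r : ℝ) ≤ r' := by exact_mod_cast h
    refine ⟨fun k => ((r : ℝ) / r') ^ (k + 1) • w k, fun k => ⟨(fl k).smul_mem _ (hw k).1, ?_⟩, ?_⟩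
    · rw [norm_smul, Real.norm_of_nonneg (by positivity)]
      have h3 : ((r : ℝ) / r') ^ (k + 1) ≤ 1 :=
        pow_le_one₀ (by positivity) (div_le_one_of_le₀ h2 h1.le)
      calc ((r : ℝ) / r') ^ (k + 1) * ‖w k‖ ≤ 1 * 1 := by
            gcongr
            exact (hw k).2
        _ = 1 := one_mul 1
    · refine Finset.sum_congr rfl fun k _ => ?_
      rw [smul_smul, ← mul_pow, mul_div_cancel₀ _ h1.ne']

private theorem bodyV_mono {G V : Type*} [Group G] [NormedAddCommGroup V] [NormedSpace ℝ V]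
    {S : Set G} {ρ : G →* (V →ₗ[ℝ] V)} {P : V →ₗ[ℝ] V} {r r' : ℕ} (h : r ≤ r') :
    bodyV S ρ P r ⊆ bodyV S ρ P r' := by
  apply convexHull_mono
  rintro w ⟨g, hg, u, hu, hPu, rfl⟩
  exact ⟨g, (ballFam_ball S).mono h hg, u, hu.trans (by exact_mod_cast h), hPu, rfl⟩

private theorem mem_bodyV {G V : Type*} [Group G] [NormedAddCommGroup V] [NormedSpace ℝ V]
    {S : Set G} {ρ : G →* (V →ₗ[ℝ] V)} {P : V →ₗ[ℝ] V} {r : ℕ} {u : V} (hu : ‖u‖ ≤ r)
    (hPu : P u = 0) : u ∈ bodyV S ρ P r := by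
  apply subset_convexHull
  exact ⟨1, (ballFam_ball S).one_mem r, u, hu, hPu, by rw [map_one]; rfl⟩

private theorem bodyV_neg {G V : Type*} [Group G] [NormedAddCommGroup V] [NormedSpace ℝ V]
    {S : Set G} {ρ : G →* (V →ₗ[ℝ] V)} {P : V →ₗ[ℝ] V} {r : ℕ} {v : V}
    (hv : v ∈ bodyV S ρ P r) : -v ∈ bodyV S ρ P r := by
  have h1 : bodyV S ρ P r ⊆ (-LinearMap.id : V →ₗ[ℝ] V) ⁻¹' (bodyV S ρ P r) := by
    refine convexHull_min ?_ ((convex_convexHull ℝ _).linear_preimage _)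
    rintro w ⟨g, hg, u, hu, hPu, rfl⟩
    apply subset_convexHull
    refine ⟨g, hg, -u, by rwa [norm_neg], by rw [map_neg, hPu, neg_zero], ?_⟩
    rw [map_neg]
    rfl
  exact h1 hv

private theorem bodyV_scale {G V : Type*} [Group G] [NormedAddCommGroup V] [NormedSpace ℝ V]
    {S : Set G} {ρ : G →* (V →ₗ[ℝ] V)} {P : V →ₗ[ℝ] V} {r l : ℕ} (hl : 0 < l) {v : V}
    (hv : v ∈ bodyV S ρ P r) : (l : ℝ) • v ∈ bodyV S ρ P (l * r) := by
  have h1 : bodyV S ρ P r ⊆ ((l : ℝ) • LinearMap.id : V →ₗ[ℝ] V) ⁻¹' (bodyV S ρ P (l * r)) := by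
    refine convexHull_min ?_ ((convex_convexHull ℝ _).linear_preimage _)
    rintro w ⟨g, hg, u, hu, hPu, rfl⟩
    apply subset_convexHull
    refine ⟨g, (ballFam_ball S).mono (Nat.le_mul_of_pos_left r hl) hg, (l : ℝ) • u, ?_,
      by rw [map_smul, hPu, smul_zero], ?_⟩
    · rw [norm_smul, Real.norm_of_nonneg (by positivity)]
      push_cast
      gcongr
    · rw [map_smul]
      rfl
  exact h1 hv

private theorem bodyV_bounded {G V : Type*} [Group G] [NormedAddCommGroup V] [NormedSpace ℝ V]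
    [FiniteDimensional ℝ V] {S : Set G} (hS : S.Finite) (ρ : G →* (V →ₗ[ℝ] V)) (P : V →ₗ[ℝ] V)
    (r : ℕ) : Bornology.IsBounded (bodyV S ρ P r) := by
  unfold bodyV
  rw [isBounded_convexHull]
  have h1 : Bornology.IsBounded (⋃ g ∈ ball S r, (ρ g) '' Metric.closedBall (0 : V) r) := by
    rw [Bornology.isBounded_biUnion (ball_finite hS r)]
    intro g _
    have h2 := ((LinearMap.toContinuousLinearMap (ρ g)).lipschitz.isBounded_image
      (Metric.isBounded_closedBall (x := (0 : V)) (r := (r : ℝ))))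
    exact h2
  refine h1.subset ?_
  rintro w ⟨g, hg, u, hu, _, rfl⟩
  refine Set.mem_biUnion hg ⟨u, ?_, rfl⟩
  rwa [mem_closedBall_zero_iff]

/-- The bodies `box + bodyV` are convex, symmetric, bounded, contain `0`, span, and scale.
(`box`: `l • (r^(k+1) w_k) = (l r)^(k+1) (l^{-k} w_k)`.  Boundedness of `bodyV`: `ball S r` is finite and each
`ρ g` is bounded.  Span: `v = P v + (v - P v)`, `range P = uflag 0`, which is `⊥` if `c = 0`.)
Also monotone in `r`. -/
theorem body_properties {G M V : Type*} [Group G] [AddCommGroup M] [DistribMulAction G M]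
    [NormedAddCommGroup V] [NormedSpace ℝ V] [FiniteDimensional ℝ V] {d : ℕ} {D : Ext G M d}
    {S : Set G} {φ : M →+ V} {ρ : G →* (V →ₗ[ℝ] V)} {P R : V →ₗ[ℝ] V} {t : G}
    (hU : UData D S φ ρ P R t) (c : ℕ) (hc : ∀ k : ℕ, c ≤ k → uflag D S φ ρ P k = ⊥)
    (K : ℕ → Set V) (hK : ∀ r, K r = box (uflag D S φ ρ P) c r + bodyV S ρ P r) :
    (∀ r, Convex ℝ (K r)) ∧ (∀ r, ∀ v ∈ K r, -v ∈ K r) ∧ (∀ r, (0 : V) ∈ K r) ∧
    (∀ r, Bornology.IsBounded (K r)) ∧ (∀ r, 0 < r → Submodule.span ℝ (K r) = ⊤) ∧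
    (∀ l r : ℕ, 0 < l → ∀ v ∈ K r, (l : ℝ) • v ∈ K (l * r)) ∧
    (∀ r r' : ℕ, r ≤ r' → K r ⊆ K r') := by
  have hbox : ∀ (r : ℕ) (v : V), v ∈ box (uflag D S φ ρ P) c r → v ∈ K r := by
    intro r v hv
    rw [hK, ← add_zero v]
    refine Set.add_mem_add hv (mem_bodyV (by simp) (by simp))
  have hbody : ∀ (r : ℕ) (v : V), v ∈ bodyV S ρ P r → v ∈ K r := by
    intro r v hv
    rw [hK, ← zero_add v]
    exact Set.add_mem_add (box_zero_mem _ _ _) hv
  refine ⟨fun r => ?_, fun r v hv => ?_, fun r => ?_, fun r => ?_, fun r hr => ?_,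
    fun l r hl v hv => ?_, fun r r' hrr => ?_⟩
  · rw [hK]
    exact (box_convex _ _ _).add (convex_convexHull ℝ _)
  · rw [hK] at hv ⊢
    obtain ⟨a, ha, b, hb, rfl⟩ := Set.mem_add.mp hv
    rw [neg_add]
    exact Set.add_mem_add (box_neg_mem ha) (bodyV_neg hb)
  · exact hbox r 0 (box_zero_mem _ _ _)
  · rw [hK]
    exact (box_bounded _ _ _).add (bodyV_bounded hU.Sfin ρ P r)
  · rw [eq_top_iff]
    intro v _
    have hr0 : (0 : ℝ) < r := by exact_mod_cast hr
    -- the part killed by `P`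
    have h1 : ∀ u : V, P u = 0 → u ∈ Submodule.span ℝ (K r) := by
      intro u hu
      have h2 : ((r : ℝ) / (‖u‖ + 1)) • u ∈ K r := by
        refine hbody r _ (mem_bodyV ?_ (by rw [map_smul, hu, smul_zero]))
        rw [norm_smul, Real.norm_of_nonneg (by positivity), div_mul_eq_mul_div,
          div_le_iff₀ (by positivity)]
        nlinarith [norm_nonneg u]
      have h3 : u = ((‖u‖ + 1) / r) • (((r : ℝ) / (‖u‖ + 1)) • u) := by
        rw [smul_smul]
        have : (‖u‖ + 1) / r * ((r : ℝ) / (‖u‖ + 1)) = 1 := by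
          have : ‖u‖ + 1 ≠ 0 := by positivity
          field_simp
        rw [this, one_smul]
      rw [h3]
      exact Submodule.smul_mem _ _ (Submodule.subset_span h2)
    -- the unipotent part
    have h4 : ∀ u : V, P u ∈ Submodule.span ℝ (K r) := by
      intro u
      rcases Nat.eq_zero_or_pos c with hc0 | hc0
      · have h5 : uflag D S φ ρ P 0 = ⊥ := hc 0 (by omega)
        have h6 : P u ∈ uflag D S φ ρ P 0 := by
          show P u ∈ LinearMap.range P
          exact LinearMap.mem_range_self P u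
        rw [h5, Submodule.mem_bot] at h6
        rw [h6]
        exact Submodule.zero_mem _
      · have h2 : ((r : ℝ) / (‖P u‖ + 1)) • P u ∈ K r := by
          refine hbox r _ ⟨fun k => if k = 0 then (1 / (‖P u‖ + 1)) • P u else 0, fun k => ?_, ?_⟩
          · by_cases hk : k = 0
            · subst hk
              beta_reduce
              rw [if_pos rfl]
              refine ⟨?_, ?_⟩
              · show (1 / (‖P u‖ + 1)) • P u ∈ LinearMap.range P
                exact Submodule.smul_mem _ _ (LinearMap.mem_range_self P u)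
              · rw [norm_smul, Real.norm_of_nonneg (by positivity), div_mul_eq_mul_div,
                  div_le_iff₀ (by positivity)]
                nlinarith [norm_nonneg (P u)]
            · beta_reduce
              rw [if_neg hk]
              exact ⟨Submodule.zero_mem _, by simp⟩
          · rw [Finset.sum_eq_single 0]
            · beta_reduce
              rw [if_pos rfl, smul_smul]
              congr 1
              ring
            · intro k _ hk
              beta_reduce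
              rw [if_neg hk, smul_zero]
            · intro h
              exact absurd (Finset.mem_range.mpr hc0) h
        have h3 : P u = ((‖P u‖ + 1) / r) • (((r : ℝ) / (‖P u‖ + 1)) • P u) := by
          rw [smul_smul]
          have : (‖P u‖ + 1) / r * ((r : ℝ) / (‖P u‖ + 1)) = 1 := by
            have : ‖P u‖ + 1 ≠ 0 := by positivity
            field_simp
          rw [this, one_smul]
        rw [h3]
        exact Submodule.smul_mem _ _ (Submodule.subset_span h2)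
    have h7 : v = P v + (v - P v) := by abel
    rw [h7]
    refine Submodule.add_mem _ (h4 v) (h1 _ ?_)
    have h8 : P (P v) = P v := congrArg (fun f : V →ₗ[ℝ] V => f v) hU.PP
    rw [map_sub, h8, sub_self]
  · rw [hK] at hv ⊢
    obtain ⟨a, ha, b, hb, rfl⟩ := Set.mem_add.mp hv
    rw [smul_add]
    exact Set.add_mem_add (box_scale hl ha) (bodyV_scale hl hb)
  · rw [hK, hK]
    exact Set.add_subset_add (box_mono hrr) (bodyV_mono hrr)

/-- FINITE AN-DIMENSION OF THE EXTENSION.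
Proof.  Let `c` be such that the flag is `⊥` from `c` on (`exists_flag_bot` with `X = ball S 1`,
`V0 = range P`: invariance from `Pρ`, `comVec ⊆ range P`, nilpotency from `nil` and `P v = v` on
`range P`), `K r = box + bodyV`, `W r = Win t A r`, `B r = {m | D.i m ∈ ball S r}`.
`hs`: `ball S 1` is finite, so there is one constant with `s • A ⊆ Win t A c₁` (`A` is finitely
generated, `hcov`, `win_mono`, `smul` of generators).
(L) `Ext.win_of_ball`; `φ m = P φ m + (φ m - P φ m)`, `P_mem_box`, `sub_P_mem_bodyV`, monotonicity.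
(U) `v ∈ K r`: `box_cheap`, and `bodyV S ρ P r` is contained in the convex hull of `cheap_of_hull`; `cheap_add`; so
`φ a ∈ Cheap (C r)`, `a ∈ Win (r) ⊆ Win (C r)`, and `Ext.cheap_len` at `n = C r`.
So `FinANadd B` by `cover_of_convex`; then `hurewicz` with `B = ball S` (`ballFam_ball`),
`h1`: each letter changes every coordinate of `π` by at most `1` (`π (x k) = e_k`, `π (i f) = 0`),
`h2`: `Ext.exists_section`. -/
theorem Ext.finAN {G M V : Type*} [Group G] [AddCommGroup M] [DistribMulAction G M]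
    [NormedAddCommGroup V] [NormedSpace ℝ V] [FiniteDimensional ℝ V] {d : ℕ} (D : Ext G M d)
    (F : Finset M) (S : Set G) (hSdef : S = Set.range D.x ∪ D.i '' (F : Set M))
    (hS : Subgroup.closure S = ⊤) (φ : M →+ V) (ρ : G →* (V →ₗ[ℝ] V)) (P R : V →ₗ[ℝ] V) (t : G)
    (hU : UData D S φ ρ P R t) (A : AddSubgroup M) (hA : A.FG)
    (hcov : ∀ m : M, ∃ n : ℕ, m ∈ Win t A n) (κ : ℝ)
    (hcoset : ∀ a ∈ A, ∀ v : V, ∃ d ∈ A, ‖φ d - v‖ ≤ κ ∧ ∃ b ∈ A, a - d = t⁻¹ • b)
    (hfin : ∀ κ' : ℝ, {d : M | d ∈ A ∧ ‖φ d‖ ≤ κ'}.Finite) : FinAN (ball S) := by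
  -- the flag terminates
  have hinv : ∀ g : G, ∀ v ∈ LinearMap.range P, ρ g v ∈ LinearMap.range P := by
    rintro g _ ⟨w, rfl⟩
    refine ⟨ρ g w, ?_⟩
    exact congrArg (fun f : V →ₗ[ℝ] V => f w) (hU.Pρ g)
  have hΓ : comVec D S φ P ⊆ (LinearMap.range P : Set V) := by
    rintro v ⟨m, l, s, _, _, _, rfl⟩
    exact LinearMap.mem_range_self P _
  have hnil : ∃ n : ℕ, ∀ g ∈ ball S 1, ∀ v ∈ LinearMap.range P, ((ρ g - 1) ^ n) v = 0 := by
    obtain ⟨n, hn⟩ := hU.nil
    refine ⟨n, ?_⟩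
    rintro g _ _ ⟨w, rfl⟩
    exact congrArg (fun f : V →ₗ[ℝ] V => f w) (hn g)
  obtain ⟨c, hc⟩ := exists_flag_bot (ρ := ρ) (ball_finite hU.Sfin 1) hU.hcomm hinv hΓ hnil
  have hc' : ∀ k : ℕ, c ≤ k → uflag D S φ ρ P k = ⊥ := hc
  -- letters move `A` into a window
  have hs : ∃ c₁ : ℕ, ∀ s ∈ ball S 1, ∀ a ∈ A, s • a ∈ Win t A c₁ := by
    obtain ⟨FA, hFA⟩ := hA
    choose N hN using hcov
    have hfinb := ball_finite hU.Sfin 1
    refine ⟨(hfinb.toFinset ×ˢ FA).sup fun q => N (q.1 • q.2), ?_⟩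
    intro s hs a ha
    rw [← hFA] at ha
    induction ha using AddSubgroup.closure_induction with
    | mem a ha =>
      refine win_mono t A ?_ (hN (s • a))
      exact Finset.le_sup (f := fun q : G × M => N (q.1 • q.2)) (b := (s, a))
        (Finset.mk_mem_product (hfinb.mem_toFinset.mpr hs) ha)
    | zero =>
      rw [smul_zero]
      exact AddSubgroup.zero_mem _
    | add a b _ _ iha ihb =>
      rw [smul_add]
      exact AddSubgroup.add_mem _ iha ihb
    | neg a _ iha =>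
      rw [smul_neg]
      exact AddSubgroup.neg_mem _ iha
  obtain ⟨c₁, hs⟩ := hs
  -- the constants
  obtain ⟨cw, hcw, hwin⟩ := D.win_of_ball F t A c₁ hcov (by rw [← hSdef]; exact hs)
  rw [← hSdef] at hwin
  obtain ⟨C₁, hC₁, hbox⟩ := P_mem_box D F S hSdef φ ρ P R t hU c hc'
  obtain ⟨C₂, hC₂, hbody⟩ := sub_P_mem_bodyV hU
  obtain ⟨C₃, hC₃, hcheap⟩ := box_cheap hU hc'
  obtain ⟨C₅, hC₅, hlen⟩ := D.cheap_len F S hSdef hS φ ρ hU.hφ hU.hρ t A c₁ hcov hs κ hcoset hfin
  obtain ⟨k1, k2, k3, k4, k5, k6, k7⟩ := body_properties hU c hc'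
    (fun r => box (uflag D S φ ρ P) c r + bodyV S ρ P r) (fun r => rfl)
  have hM : FinANadd (fun r => {m : M | D.i m ∈ ball S r}) := by
    refine cover_of_convex φ (fun r => box (uflag D S φ ρ P) c r + bodyV S ρ P r) (Win t A)
      (fun r => {m : M | D.i m ∈ ball S r}) k1 k2 k3 k4 k5 k6 (win_mono t A)
      (cw + C₁ + C₂) (C₅ * (C₃ + 3 * (Module.finrank ℝ V + 1))) (by omega) ?_ ?_
    · intro r hr a ha
      refine ⟨win_mono t A (Nat.mul_le_mul_right r (by omega)) (hwin r hr a ha), ?_⟩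
      have h1 : φ a = P (φ a) + (φ a - P (φ a)) := by abel
      rw [h1]
      exact Set.add_mem_add
        (box_mono (Nat.mul_le_mul_right r (by omega)) (hbox r hr a ha))
        (bodyV_mono (Nat.mul_le_mul_right r (by omega)) (hbody r hr a ha))
    · intro r hr a ha hφa
      obtain ⟨b, hb, w, hw, hbw⟩ := Set.mem_add.mp hφa
      have h1 : w ∈ Cheap S D.i φ ρ (3 * (Module.finrank ℝ V + 1) * r) := by
        refine cheap_of_hull D.i_add D.conj hU.hφ hU.hρ (convexHull_mono ?_ hw)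
        rintro w' ⟨g, hg, u, hu, _, rfl⟩
        exact ⟨g, hg, u, hu, rfl⟩
      have h2 : φ a ∈ Cheap S D.i φ ρ ((C₃ + 3 * (Module.finrank ℝ V + 1)) * r) := by
        rw [← hbw, add_mul]
        exact cheap_add D.i_add hU.hρ (hcheap r hr b hb) h1
      have h3 := hlen ((C₃ + 3 * (Module.finrank ℝ V + 1)) * r)
        (Nat.mul_pos (by omega) hr) a
        (win_mono t A (Nat.le_mul_of_pos_left r (by omega)) ha) h2
      show D.i a ∈ ball S _
      rwa [mul_assoc]
  -- `π` is Lipschitz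
  have hlet : ∀ s ∈ S, ∀ k : Fin d, |(Multiplicative.toAdd (D.π s)) k| ≤ 1 := by
    intro s hs k
    rw [hSdef] at hs
    rcases hs with ⟨k', rfl⟩ | ⟨f, _, rfl⟩
    · rw [D.π_x, toAdd_ofAdd]
      by_cases hk : k = k'
      · subst hk
        rw [Pi.single_eq_same]
        simp
      · rw [Pi.single_eq_of_ne hk]
        simp
    · have h1 : D.π (D.i f) = 1 := (D.ker _).mpr ⟨f, rfl⟩
      rw [h1, toAdd_one]
      simp
  have hlist : ∀ l : List G, (∀ x ∈ l, x ∈ S ∨ x⁻¹ ∈ S) → ∀ k : Fin d,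
      |(Multiplicative.toAdd (D.π l.prod)) k| ≤ (l.length : ℤ) := by
    intro l
    induction l with
    | nil =>
      intro _ k
      simp
    | cons x l ih =>
      intro h k
      have h1 := ih (fun y hy => h y (List.mem_cons_of_mem x hy)) k
      have h2 : |(Multiplicative.toAdd (D.π x)) k| ≤ 1 := by
        rcases h x List.mem_cons_self with h3 | h3
        · exact hlet x h3 k
        · have h4 := hlet _ h3 k
          rw [map_inv, toAdd_inv, Pi.neg_apply, abs_neg] at h4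
          exact h4
      rw [List.prod_cons, map_mul, toAdd_mul, Pi.add_apply, List.length_cons]
      push_cast
      have h5 := abs_add_le ((Multiplicative.toAdd (D.π x)) k)
        ((Multiplicative.toAdd (D.π l.prod)) k)
      linarith
  obtain ⟨σ, _, hσ1, hσ2, _⟩ := D.exists_section
  refine hurewicz (ballFam_ball S) D.i D.i_add D.π D.ker (d + 1) ?_ ?_ hM
  · rintro r g ⟨l, hl, hlS, rfl⟩ k
    refine (hlist l hlS k).trans ?_
    have : l.length ≤ (d + 1) * r := hl.trans (Nat.le_mul_of_pos_left r (by omega))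
    exact_mod_cast this
  · intro r q hq
    refine ⟨σ q, ?_, hσ1 q⟩
    have h1 := hσ2 q r hq
    have h2 : ball (Set.range D.x) (d * r) ⊆ ball S (d * r) := by
      rintro g ⟨l, hl, hlS, rfl⟩
      refine ⟨l, hl, fun x hx => ?_, rfl⟩
      have hsub : Set.range D.x ⊆ S := by
        rw [hSdef]
        exact Set.subset_union_left
      exact (hlS x hx).imp (fun h => hsub h) (fun h => hsub h)
    exact (ballFam_ball S).mono (Nat.mul_le_mul_right r (by omega)) (h2 h1)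

end Pool.MP4dac8d
end

section

/-! AND task Z1: assembly. -/

set_option autoImplicit false
open Classical
open scoped Pointwise

namespace Pool.MP4dac8d

universe u

private theorem Z1_ball_closure {G : Type*} [Group G] (S : Set G) (n : ℕ) {g : G}
    (hg : g ∈ ball S n) : g ∈ Subgroup.closure S := by
  obtain ⟨l, -, hl, rfl⟩ := hg
  refine Subgroup.list_prod_mem _ fun y hy => ?_
  rcases hl y hy with h | h
  · exact Subgroup.subset_closure h
  · have h' := Subgroup.inv_mem _ (Subgroup.subset_closure h)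
    rwa [inv_inv] at h'

private theorem Z1_aeval {M : Type*} [AddCommGroup M] (T : Module.End ℤ M) (f : Polynomial ℤ)
    (hf : Polynomial.aeval T f = 0) (m : M) : f.sum (fun k a => a • (T ^ k) m) = 0 := by
  have h1 : Polynomial.aeval T f m = f.sum (fun k a => a • (T ^ k) m) := by
    rw [Polynomial.aeval_def, Polynomial.eval₂_eq_sum, Polynomial.sum, Polynomial.sum,
      LinearMap.sum_apply]
    refine Finset.sum_congr rfl fun k _ => ?_
    rw [← Algebra.smul_def, LinearMap.smul_apply]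
  rw [← h1, hf]
  rfl

/-- Assembly.  `G` is an extension `D` of `ℤ^d` by `M`, `M` finitely generated over `ℤ[ℤ^d]`, no free lines, no
free planes.  Some finite index subgroup has finite AN-dimension.
Proof.  (1) `exists_killer_one`, `exists_real_unipotent`: `N, L, W, φ₁, n, φ₂, Φ, P`.
(2) `U' = scaleAct U N`; `FGov U' ⊤` by `fgov_scale`; `h1, h2` for `U'` are instances; `exists_line` for `U'` and
`L` gives `t` with `ℓ t ≠ 0` on `L` and `FGov (lineAct U' t) ⊤`; `R` from `exists_real_unipotent`.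
(3) `H, D'` from `Ext.exists_power`; for `h : H`, `h • m = U (D.π h) m = U' (D'.π h) m`.  `tG : H` in the subgroup
generated by the `D'.x k` with `D'.π tG = t` (`Ext.exists_section`; balls are in the closure).
(4) `φ = φ₂ ∘ φ₁`, `ρ h = Φ (D'.π h)`; `UData D' S' φ ρ P R tG`: `hρ` since `D'.π (D'.i m) = 1`, `hcomm` since
`Multiplicative (Fin d → ℤ)` is commutative, the others from (1).
(5) `exists_base_real` with `t = tG`, generators `F` of `FGov (lineAct U' t) ⊤` and the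
polynomial of `exists_killer_one` for `U' t` (`Polynomial.aeval` as a sum): `A`, `κ`.
(6) `S' = range D'.x ∪ D'.i '' F` (finite), generating by `Ext.closure_eq_top`; `Ext.finAN`; `T` = the finset of
`S'`. -/
theorem Ext.finAN_virtual {G M : Type u} [Group G] [AddCommGroup M] [DistribMulAction G M] {d : ℕ}
    (D : Ext G M d) (U : Multiplicative (Fin d → ℤ) →* Module.End ℤ M)
    (hUD : ∀ (g : G) (m : M), U (D.π g) m = g • m) (hfg : FGov U ⊤)
    (h1 : ∀ q, ∀ a : M, ∃ f : Polynomial ℤ, f ≠ 0 ∧ Polynomial.aeval (U q) f a = 0)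
    (h2 : ∀ p : ℕ, p.Prime → ∀ a : M, p • a = 0 → ∀ q₁ q₂ : Multiplicative (Fin d → ℤ),
      ∃ (n : ℕ) (c : Fin n → Fin n → ℤ), (∃ j k, ¬ (p : ℤ) ∣ c j k) ∧
        ∑ j, ∑ k, c j k • (U q₁ ^ (j : ℕ) * U q₂ ^ (k : ℕ)) a = 0) :
    ∃ (H : Subgroup G) (T : Finset H), H.index ≠ 0 ∧ Subgroup.closure (T : Set H) = ⊤ ∧
      FinAN (ball (T : Set H)) := by
  have hkill : ∀ q, ∃ f : Polynomial ℤ, f ≠ 0 ∧ Polynomial.aeval (U q) f = 0 :=
    fun q => exists_killer_one U hfg q (h1 q)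
  obtain ⟨N, L, W, iW1, iW2, φ₁, n, φ₂, Φ, P, hN, hL, hker, hspan, hfinW, hΦ, hPP, hPΦ,
    ⟨n', hnil⟩, hR⟩ := exists_real_unipotent U hfg hkill
  have hfg' : FGov (scaleAct U N) ⊤ := fgov_scale U hfg N hN
  have hU' : ∀ q, scaleAct U N q = U (Multiplicative.ofAdd (N • Multiplicative.toAdd q)) :=
    fun q => rfl
  have h1' : ∀ q, ∀ a : M, ∃ f : Polynomial ℤ, f ≠ 0 ∧
      Polynomial.aeval (scaleAct U N q) f a = 0 := fun q a => by
    rw [hU']
    exact h1 _ a
  have h2' : ∀ p : ℕ, p.Prime → ∀ a : M, p • a = 0 → ∀ q₁ q₂ : Multiplicative (Fin d → ℤ),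
      ∃ (n : ℕ) (c : Fin n → Fin n → ℤ), (∃ j k, ¬ (p : ℤ) ∣ c j k) ∧
        ∑ j, ∑ k, c j k • (scaleAct U N q₁ ^ (j : ℕ) * scaleAct U N q₂ ^ (k : ℕ)) a = 0 :=
    fun p hp a ha q₁ q₂ => by
      rw [hU', hU']
      exact h2 p hp a ha _ _
  obtain ⟨t, ht, hline⟩ := exists_line (scaleAct U N) hfg' h1' h2' L hL
  obtain ⟨R, hRΦ, hPR, hRinv⟩ := hR t ht
  obtain ⟨H, D', hH, hi, hπ⟩ := D.exists_power N hN
  have hact : ∀ (h : H) (m : M), scaleAct U N (D'.π h) m = h • m := by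
    intro h m
    rw [hU', ← hπ h]
    exact hUD h m
  obtain ⟨σ, hσ0, hσπ, hσball, -⟩ := D'.exists_section
  have htGπ : D'.π (σ t) = Multiplicative.ofAdd t := hσπ t
  have htGcl : σ t ∈ Subgroup.closure (Set.range D'.x) := by
    refine Z1_ball_closure _ _ (hσball t (Finset.univ.sup fun k => (t k).natAbs) fun k => ?_)
    have h3 : (t k).natAbs ≤ Finset.univ.sup fun k => (t k).natAbs :=
      Finset.le_sup (f := fun k => (t k).natAbs) (Finset.mem_univ k)
    rw [Int.abs_eq_natAbs]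
    exact_mod_cast h3
  -- the powers of `t`
  have hzpow : ∀ (k : ℤ) (m : M), (σ t) ^ k • m = scaleAct U N (Multiplicative.ofAdd t ^ k) m := by
    intro k m
    rw [← hact, map_zpow, htGπ]
  obtain ⟨F, hF⟩ := hline
  have hF' : AddSubgroup.closure {x : M | ∃ k : ℤ, ∃ m ∈ F, x = (σ t) ^ k • m} = ⊤ := by
    rw [← hF]
    congr 1
    ext x
    constructor
    · rintro ⟨k, m, hm, rfl⟩
      refine ⟨Multiplicative.ofAdd k, m, hm, ?_⟩
      rw [hzpow]
      rfl
    · rintro ⟨q, m, hm, rfl⟩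
      refine ⟨Multiplicative.toAdd q, m, hm, ?_⟩
      rw [hzpow]
      rfl
  obtain ⟨f, hf0, hf⟩ := exists_killer_one (scaleAct U N) hfg' (Multiplicative.ofAdd t)
    (h1' (Multiplicative.ofAdd t))
  have hfm : ∀ m : M, f.sum (fun k a => a • ((σ t) ^ k • m)) = 0 := by
    intro m
    rw [← Z1_aeval _ f hf m]
    unfold Polynomial.sum
    refine Finset.sum_congr rfl fun k _ => ?_
    have h3 := hzpow (k : ℤ) m
    rw [zpow_natCast, zpow_natCast, map_pow] at h3
    exact congrArg (fun z => f.coeff k • z) h3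
  obtain ⟨A, hA, hcov, ⟨κ, hcoset⟩, hfinA⟩ :=
    exists_base_real (σ t) F hF' f hf0 hfm φ₁ hker φ₂ hspan hfinW
  -- the real model
  have hSfin : (Set.range D'.x ∪ D'.i '' (F : Set M)).Finite :=
    (Set.finite_range _).union (F.finite_toSet.image _)
  have hScl : Subgroup.closure (Set.range D'.x ∪ D'.i '' (F : Set M)) = ⊤ :=
    D'.closure_eq_top (F : Set M) (σ t) htGcl hF'
  have hUdata : UData D' (Set.range D'.x ∪ D'.i '' (F : Set M)) (φ₂.comp φ₁) (Φ.comp D'.π) P R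
      (σ t) :=
    { Sfin := hSfin
      hφ := fun g m => by
        show φ₂ (φ₁ (g • m)) = Φ (D'.π g) (φ₂ (φ₁ m))
        rw [← hΦ, hact]
      hρ := fun m => by
        show Φ (D'.π (D'.i m)) = 1
        rw [(D'.ker (D'.i m)).2 ⟨m, rfl⟩, map_one]
      hcomm := fun g h => by
        show Φ (D'.π g) * Φ (D'.π h) = Φ (D'.π h) * Φ (D'.π g)
        exact (map_mul Φ _ _).symm.trans
          ((congrArg Φ (mul_comm (D'.π g) (D'.π h))).trans (map_mul Φ _ _))
      PP := hPP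
      Pρ := fun g => hPΦ _
      Rρ := fun g => hRΦ _
      PR := hPR
      nil := ⟨n', fun g => hnil _⟩
      inv := by
        show (Φ (D'.π (σ t)) - 1) * R = 1 - P
        rw [htGπ]
        exact hRinv }
  have hAN : FinAN (ball (Set.range D'.x ∪ D'.i '' (F : Set M))) :=
    D'.finAN F _ rfl hScl (φ₂.comp φ₁) (Φ.comp D'.π) P R (σ t) hUdata A hA hcov κ hcoset hfinA
  refine ⟨H, hSfin.toFinset, hH, ?_, ?_⟩
  · rw [Set.Finite.coe_toFinset]
    exact hScl
  · rw [Set.Finite.coe_toFinset]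
    exact hAN

end Pool.MP4dac8d
end
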